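import Pool.Agent.Work.MP_ffcd14_ag.Indep

-- merged part: Pool.Agent.Work.MP_ffcd14_ag.Gm.L4b
section
-- merged part: Pool.Agent.Work.MP_ffcd14_ag.Gm.LD
section
/-! # Definitions for the linear algebra: signatures, rings of classes, Lefschetz data -/

open Module Polynomial

namespace Pool.Agent.Work.MP_ffcd14_ag.Gm

universe v w

section Forms

variable {M : Type*} [AddCommGroup M] [Module ℚ M]

/-- Rational bilinear forms. -/
abbrev Bil (M : Type*) [AddCommGroup M] [Module ℚ M] := M →ₗ[ℚ] M →ₗ[ℚ] ℚ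

/-- Symmetry. -/
def Sym (β : Bil M) : Prop := ∀ x y, β x y = β y x

/-- The positive index of `β` on `W`: the largest size of a family in `W` with positive definite
Gram matrix. -/
noncomputable def sig (β : Bil M) (W : Submodule ℚ M) : ℕ :=
  sSup {n | ∃ e : Fin n → M, (∀ j, e j ∈ W) ∧
    ∀ ξ : Fin n → ℚ, ξ ≠ 0 → 0 < β (∑ j, ξ j • e j) (∑ j, ξ j • e j)}

/-- The family `e` spans `W` modulo the radical of `β` on `W`. -/
def Spans (β : Bil M) (W : Submodule ℚ M) {J : Type} [Fintype J] (e : J → M) : Prop :=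
  (∀ j, e j ∈ W) ∧ ∀ x ∈ W, ∃ ξ : J → ℚ, ∀ y ∈ W, β (x - ∑ j, ξ j • e j) y = 0

/-- `β` has finite rank on `W`. -/
def FR (β : Bil M) (W : Submodule ℚ M) : Prop := ∃ (n : ℕ) (e : Fin n → M), Spans β W e

/-- The Gram matrix. -/
def gram (β : Bil M) {J : Type} (e : J → M) : Matrix J J ℚ := Matrix.of fun i j => β (e i) (e j)

/-- The positive index of a matrix. -/
noncomputable def sgM {F : Type} [Field F] [LinearOrder F] {J : Type} [Fintype J] [DecidableEq J]
    (G : Matrix J J F) : ℕ := sigPos G.toQuadraticForm'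

end Forms

/-- A finite-dimensional commutative algebra with a trace, a grading and algebraic classes. -/
structure Rg (K : Type v) [Field K] [CharZero K] where
  B : Type w
  [ring : CommRing B]
  [algK : Algebra K B]
  [algQ : Algebra ℚ B]
  [tower : IsScalarTower ℚ K B]
  [fin : Module.Finite K B]
  S : Base K B
  one_mem : (1 : B) ∈ S.A 0
  pd : ∀ x, (∀ y, S.tr (x * y) = 0) → x = 0

attribute [instance] Rg.ring Rg.algK Rg.algQ Rg.tower Rg.fin

variable {K : Type v} [Field K] [CharZero K]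

namespace Rg

variable (R : Rg.{v, w} K)

/-- The dimension. -/
abbrev d : ℕ := R.S.d

/-- The trace. -/
abbrev tr : R.B →ₗ[K] K := R.S.tr

/-- The rational trace (it agrees with `tr` on algebraic classes). -/
noncomputable abbrev t : R.B →ₗ[ℚ] ℚ := R.S.t

/-- Algebraic classes of codimension `c`. -/
abbrev A (c : ℕ) : Submodule ℚ R.B := R.S.A c

/-- Numerically trivial classes. -/
abbrev N0 (x : R.B) : Prop := R.S.N0 x

/-- The dimension of the `K`-span of the algebraic classes of codimension `c`. -/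
noncomputable def vd (c : ℕ) : ℕ := finrank K (R.S.V c)

/-- Symmetry of the dimensions of the spans of the algebraic classes. -/
def HV : Prop := ∀ c c', c + c' = R.d → finrank K (R.S.V c) = finrank K (R.S.V c')

/-- All algebraic classes. -/
def Alg : Submodule ℚ R.B := ⨆ i, R.A i

/-- Algebraic classes of codimension less than `m`. -/
def Wm (m : ℕ) : Submodule ℚ R.B := ⨆ i : Fin m, R.A i

/-- The form `(x, y) ↦ ∫ x y z`. -/
noncomputable def Qf (z : R.B) : Bil R.B :=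
  (LinearMap.mul ℚ R.B).compr₂ (R.t ∘ₗ LinearMap.mulRight ℚ z)

@[simp] theorem Qf_apply (z x y : R.B) : R.Qf z x y = R.t (x * y * z) := rfl

theorem Qf_sym (z : R.B) : Sym (R.Qf z) := fun x y => by simp only [Qf_apply, mul_comm x y]

/-- The positive index of `(x, y) ↦ ∫ x y z` on `W`. -/
noncomputable def sg (z : R.B) (W : Submodule ℚ R.B) : ℕ := sig (R.Qf z) W

/-- The hard Lefschetz property modulo numerical equivalence. -/
def NHL (h : R.B) : Prop := ∀ n E : ℕ, 2 * n + E = R.d →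
  ∀ z ∈ R.A n, (∀ y ∈ R.A n, R.t (z * y * h ^ E) = 0) → ∀ y ∈ R.A (n + E), R.t (z * y) = 0

/-- Numerically primitive classes. -/
def Prim (h : R.B) (p : ℕ) : Submodule ℚ R.B where
  carrier := {x | x ∈ R.A p ∧ R.N0 (h ^ (R.d - 2 * p + 1) * x)}
  add_mem' hx hy := ⟨add_mem hx.1 hy.1, fun c y hc => by
    rw [mul_add, add_mul, map_add, hx.2 c y hc, hy.2 c y hc, add_zero]⟩
  zero_mem' := ⟨zero_mem _, fun c y _ => by simp⟩
  smul_mem' q x hx := ⟨Submodule.smul_mem _ q hx.1, fun c y hc => by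
    rw [mul_smul_comm, smul_mul_assoc, LinearMap.map_smul_of_tower, hx.2 c y hc, smul_zero]⟩

/-- The form `∫ x y z` is non-degenerate on `W` modulo numerical equivalence. -/
def ND (z : R.B) (W : Submodule ℚ R.B) : Prop :=
  ∀ x ∈ W, (∀ y ∈ W, R.t (x * y * z) = 0) → R.N0 x

/-- The family `e` spans `W` modulo numerical equivalence. -/
def Gen (W : Submodule ℚ R.B) {J : Type} [Fintype J] (e : J → R.B) : Prop :=
  (∀ j, e j ∈ W) ∧ ∀ x ∈ W, ∃ ξ : J → ℚ, R.N0 (x - ∑ j, ξ j • e j)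

/-- The family `e` is independent modulo numerical equivalence. -/
def Ind {J : Type} [Fintype J] (e : J → R.B) : Prop :=
  ∀ ξ : J → ℚ, R.N0 (∑ j, ξ j • e j) → ξ = 0

/-- A numerical basis `e` in codimension `j` with the dual family `e'`. -/
def Nb (j : ℕ) {ρ : ℕ} (e e' : Fin ρ → R.B) : Prop :=
  R.Gen (R.A j) e ∧ (∀ ν, e' ν ∈ R.A (R.d - j)) ∧
    ∀ ν ν', R.t (e ν * e' ν') = if ν = ν' then 1 else 0

/-- The class `∑ φ r • h ^ r`. -/
noncomputable def Th (φ : ℕ → ℚ) (h : R.B) : R.B := ∑ r ∈ Finset.range (R.d + 1), φ r • h ^ r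

/-- The same ring with a smaller family of algebraic classes. -/
def sub (A' : ℕ → Submodule ℚ R.B) (hle : ∀ c, A' c ≤ R.A c)
    (hmul : ∀ i j, ∀ x ∈ A' i, ∀ y ∈ A' j, x * y ∈ A' (i + j)) (h1 : (1 : R.B) ∈ A' 0) :
    Rg.{v, w} K where
  B := R.B
  S := { R.S with
    A := A'
    A_le := fun c x hx => R.S.A_le c x (hle c hx)
    A_mul := hmul
    A_tr := fun c x hx => R.S.A_tr c x (hle c hx) }
  one_mem := h1
  pd := R.pd

end Rg

/-- The coefficients of the exponential series. -/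
def ex (r : ℕ) : ℚ := 1 / r.factorial

/-- The binomial coefficients. -/
def ch (s r : ℕ) : ℚ := s.choose r

/-- The coefficient of `X ^ n` in `q · exp X`. -/
noncomputable def Lf (n : ℕ) (q : ℚ[X]) : ℚ := ∑ i ∈ Finset.range (n + 1), q.coeff i * ex (n - i)

/-- The coefficient of `X ^ r` in `(X + m + 1) ^ s · ∑ β i X ^ i`. -/
def Ts (β : ℕ → ℚ) (m s r : ℕ) : ℚ :=
  ∑ i ∈ Finset.range (r + 1), s.choose i * ((m : ℚ) + 1) ^ (s - i) * β (r - i)

/-- The scaling factor `a ^ (s / 2) (s / a) ^ (f / 2 - j)`. -/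
noncomputable def scl (a f j s : ℕ) : ℝ := √(a : ℝ) ^ s * √((s : ℝ) / a) ^ f / ((s : ℝ) / a) ^ j

section Lam

variable {σ : Type} {B : Type*} [CommRing B]

/-- The product of the classes `l - w v • t`. -/
def lamS (w : σ → ℕ) (s : Finset σ) (l t : B) : B := ∏ v ∈ s, (l - w v • t)

/-- The coordinates of weight different from `m`. -/
def off [Fintype σ] (w : σ → ℕ) (m : ℕ) : Finset σ := Finset.univ.filter fun v => w v ≠ m

/-- The number of coordinates of weight `m`. -/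
def mm [Fintype σ] (w : σ → ℕ) (m : ℕ) : ℕ := (Finset.univ.filter fun v => w v = m).card

/-- The number `∏ (m - w v)`. -/
def Ep (w : σ → ℕ) (s : Finset σ) (m : ℕ) : ℚ := ∏ v ∈ s, ((m : ℚ) - w v)

/-- The form `∑ T r (l - m t) ^ r t ^ (μ - 1 - r)` of degree `μ - 1`. -/
def Lam [Algebra ℚ B] (T : ℕ → ℚ) (m μ : ℕ) (l t : B) : B :=
  ∑ r ∈ Finset.range μ, T r • ((l - m • t) ^ r * t ^ (μ - 1 - r))

end Lam

end Pool.Agent.Work.MP_ffcd14_ag.Gm
end

-- merged part: Pool.Agent.Work.MP_ffcd14_ag.Gm.L1b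
section
/-!
# The positive index of a form of finite rank

Plan.  `sig_gram`: `≥`: a basis `b` of a positive definite subspace of `J → ℚ` of dimension
`sgM` (`exists_finrank_eq_sigPos_and_posDef`) gives the family `∑ j, b i j • e j`.  `≤`: for a family
`e'` in the defining set write `e' i ≡ ∑ j, ξ i j • e j`; the linear map `η ↦ ∑ i, η i • ξ i` is
injective with positive definite range (`le_sigPos_of_posDef`).  So the defining set has the greatest
element `sgM` (`IsGreatest.csSup_eq`).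
`sg_block`: for each block take a positive definite subspace of dimension `sigPos` and a
non-positive subspace of the complementary dimension (`QuadraticForm.equivalent_weightedSumSquares`,
`sigPos_of_equiv_weightedSumSquares`), or transport to one weighted sum of squares on the sigma type.
`det_block`: a vector in the kernel restricts to the kernel of each block
(`Matrix.exists_mulVec_eq_zero_iff`).
`sig_sum`: choose spanning families of the pieces; their images span `W`, the Gram matrix is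
`Matrix.blockDiagonal'`; `sig_gram`, `sg_block`; reindex by `Fintype.equivFin` for `FR`.
`tri_det`: if `ξ ≠ 0` is in the left kernel take `r` with `ξ r ≠ 0` and `ht (blk r)` maximal, and
test against the column `r`.
-/

open Module Matrix

namespace Pool.Agent.Work.MP_ffcd14_ag.Gm

variable {M M' : Type*} [AddCommGroup M] [Module ℚ M] [AddCommGroup M'] [Module ℚ M']
  {β : Bil M} {W : Submodule ℚ M}

theorem L1b_mulVec {ι : Type} [Fintype ι] [DecidableEq ι] {J : ι → Type} [∀ a, Fintype (J a)]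
    (G : ∀ a, Matrix (J a) (J a) ℚ) (v : (Σ a, J a) → ℚ) (a : ι) (i : J a) :
    (blockDiagonal' G *ᵥ v) ⟨a, i⟩ = (G a *ᵥ fun j => v ⟨a, j⟩) i := by
  simp only [mulVec, dotProduct]
  rw [Fintype.sum_sigma, Finset.sum_eq_single a]
  · exact Finset.sum_congr rfl fun j _ => by rw [blockDiagonal'_apply_eq]
  · intro b _ hb
    exact Finset.sum_eq_zero fun j _ => by rw [blockDiagonal'_apply_ne _ _ _ hb.symm, zero_mul]
  · exact fun h => absurd (Finset.mem_univ a) h

theorem L1b_apply {J : Type} [Fintype J] [DecidableEq J] (G : Matrix J J ℚ) (x : J → ℚ) :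
    G.toQuadraticForm' x = ∑ i, x i * (G *ᵥ x) i := by
  rw [Matrix.toQuadraticForm', LinearMap.BilinMap.toQuadraticMap_apply,
    Matrix.toLinearMap₂'_apply']
  rfl

theorem L1b_ncard {ι : Type} [Fintype ι] (w : ι → ℚ) :
    {i | 0 < w i}.ncard = ∑ i, if 0 < w i then 1 else 0 := by
  rw [← Finset.card_filter, ← Set.ncard_coe_finset]
  congr 1
  ext i
  simp

theorem sg_block {ι : Type} [Fintype ι] [DecidableEq ι] {J : ι → Type} [∀ a, Fintype (J a)]
    [∀ a, DecidableEq (J a)] (G : ∀ a, Matrix (J a) (J a) ℚ) :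
    sgM (blockDiagonal' G) = ∑ a, sgM (G a) := by
  have : Invertible (2 : ℚ) := invertibleOfNonzero two_ne_zero
  choose w hw using fun a => (G a).toQuadraticForm'.equivalent_weightedSumSquares
  have e := fun a => (hw a).some
  let E : ((Σ a, J a) → ℚ) ≃ₗ[ℚ] ((Σ a, Fin (finrank ℚ (J a → ℚ))) → ℚ) :=
    (LinearEquiv.piCurry ℚ fun (a : ι) (_ : J a) => ℚ).trans
      ((LinearEquiv.piCongrRight fun a => (e a).toLinearEquiv).trans
        (LinearEquiv.piCurry ℚ fun (a : ι) (_ : Fin (finrank ℚ (J a → ℚ))) => ℚ).symm)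
  have hE : ∀ x a i, E x ⟨a, i⟩ = e a (fun j => x ⟨a, j⟩) i := fun _ _ _ => rfl
  have h1 : QuadraticMap.Equivalent (blockDiagonal' G).toQuadraticForm'
      (QuadraticMap.weightedSumSquares ℚ fun s : Σ a, Fin (finrank ℚ (J a → ℚ)) => w s.1 s.2) := by
    refine ⟨⟨E, fun x => ?_⟩⟩
    show QuadraticMap.weightedSumSquares ℚ _ (E x) = _
    rw [QuadraticMap.weightedSumSquares_apply, L1b_apply, Fintype.sum_sigma, Fintype.sum_sigma]
    refine Finset.sum_congr rfl fun a _ => ?_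
    have h2 := (e a).map_app fun j => x ⟨a, j⟩
    rw [QuadraticMap.weightedSumSquares_apply, L1b_apply] at h2
    simp only [hE, L1b_mulVec]
    exact h2
  rw [sgM, QuadraticForm.sigPos_of_equiv_weightedSumSquares h1, L1b_ncard, Fintype.sum_sigma]
  refine Finset.sum_congr rfl fun a _ => ?_
  rw [sgM, QuadraticForm.sigPos_of_equiv_weightedSumSquares (hw a), L1b_ncard]

theorem det_block {ι : Type} [Fintype ι] [DecidableEq ι] {J : ι → Type} [∀ a, Fintype (J a)]
    [∀ a, DecidableEq (J a)] (G : ∀ a, Matrix (J a) (J a) ℚ) (h : ∀ a, (G a).det ≠ 0) :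
    (blockDiagonal' G).det ≠ 0 := by
  intro h0
  obtain ⟨v, hv, h1⟩ := Matrix.exists_mulVec_eq_zero_iff.2 h0
  refine hv (funext fun s => ?_)
  obtain ⟨a, i⟩ := s
  by_contra h2
  refine h a (Matrix.exists_mulVec_eq_zero_iff.1
    ⟨fun j => v ⟨a, j⟩, fun h3 => h2 (congrFun h3 i), funext fun j => ?_⟩)
  rw [← L1b_mulVec, h1]
  rfl

/-- A block triangular matrix with scalar blocks is invertible. -/
theorem tri_det {F : Type*} [Field F] {J ι : Type} [Fintype J] [DecidableEq J] (G : Matrix J J F)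
    (blk : J → ι) (ht : ι → ℕ) (ν : ι → F) (hν : ∀ a, ν a ≠ 0)
    (h1 : ∀ r s, blk s ≠ blk r → ¬ ht (blk s) < ht (blk r) → G r s = 0)
    (h2 : ∀ r s, blk s = blk r → G r s = if r = s then ν (blk r) else 0) : G.det ≠ 0 := by
  classical
  intro h0
  obtain ⟨v, hv, h3⟩ := Matrix.exists_vecMul_eq_zero_iff.2 h0
  obtain ⟨r0, hr0⟩ := Function.ne_iff.1 hv
  obtain ⟨r, hr, hm⟩ := Finset.exists_max_image (Finset.univ.filter fun r => v r ≠ 0)
    (fun r => ht (blk r)) ⟨r0, Finset.mem_filter.2 ⟨Finset.mem_univ _, hr0⟩⟩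
  have h4 : ∑ r', v r' * G r' r = 0 := congrFun h3 r
  rw [Finset.sum_eq_single r, h2 r r rfl, if_pos rfl] at h4
  · exact mul_ne_zero (Finset.mem_filter.1 hr).2 (hν _) h4
  · intro b _ hb
    by_cases h5 : v b = 0
    · rw [h5, zero_mul]
    by_cases h6 : blk r = blk b
    · rw [h2 b r h6, if_neg hb, mul_zero]
    · rw [h1 b r h6 (not_lt.2 (hm b (Finset.mem_filter.2 ⟨Finset.mem_univ _, h5⟩))), mul_zero]
  · exact fun h => absurd (Finset.mem_univ r) h

end Pool.Agent.Work.MP_ffcd14_ag.Gm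
end

-- merged part: Pool.Agent.Work.MP_ffcd14_ag.Gm.L1
section
/-!
# The positive index of a form of finite rank

Plan.  `sig_gram`: `≥`: a basis `b` of a positive definite subspace of `J → ℚ` of dimension
`sgM` (`exists_finrank_eq_sigPos_and_posDef`) gives the family `∑ j, b i j • e j`.  `≤`: for a family
`e'` in the defining set write `e' i ≡ ∑ j, ξ i j • e j`; the linear map `η ↦ ∑ i, η i • ξ i` is
injective with positive definite range (`le_sigPos_of_posDef`).  So the defining set has the greatest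
element `sgM` (`IsGreatest.csSup_eq`).
`sg_block`: for each block take a positive definite subspace of dimension `sigPos` and a
non-positive subspace of the complementary dimension (`QuadraticForm.equivalent_weightedSumSquares`,
`sigPos_of_equiv_weightedSumSquares`), or transport to one weighted sum of squares on the sigma type.
`det_block`: a vector in the kernel restricts to the kernel of each block
(`Matrix.exists_mulVec_eq_zero_iff`).
`sig_sum`: choose spanning families of the pieces; their images span `W`, the Gram matrix is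
`Matrix.blockDiagonal'`; `sig_gram`, `sg_block`; reindex by `Fintype.equivFin` for `FR`.
`tri_det`: if `ξ ≠ 0` is in the left kernel take `r` with `ξ r ≠ 0` and `ht (blk r)` maximal, and
test against the column `r`.
-/

open Module Matrix

namespace Pool.Agent.Work.MP_ffcd14_ag.Gm

variable {M M' : Type*} [AddCommGroup M] [Module ℚ M] [AddCommGroup M'] [Module ℚ M']
  {β : Bil M} {W : Submodule ℚ M}

theorem L1_q {J : Type} [Fintype J] [DecidableEq J] (e : J → M) (ξ : J → ℚ) :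
    (gram β e).toQuadraticForm' ξ =
      β (Fintype.linearCombination ℚ e ξ) (Fintype.linearCombination ℚ e ξ) := by
  simp only [toQuadraticForm', LinearMap.BilinMap.toQuadraticMap_apply, toLinearMap₂'_apply, gram,
    of_apply, Fintype.linearCombination_apply, map_sum, map_smul, LinearMap.sum_apply,
    LinearMap.smul_apply, Finset.smul_sum]
  rw [Finset.sum_comm]
  exact Finset.sum_congr rfl fun i _ => Finset.sum_congr rfl fun j _ => smul_comm _ _ _

theorem L1_mod (hβ : Sym β) {x x' : M} (hx : x ∈ W) (hx' : x' ∈ W)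
    (h : ∀ y ∈ W, β (x - x') y = 0) : β x x = β x' x' := by
  have h1 := h x hx
  have h2 := h x' hx'
  rw [map_sub, LinearMap.sub_apply, sub_eq_zero] at h1 h2
  rw [h1, hβ, h2]

theorem L1_mem {J : Type} [Fintype J] {e : J → M} (h : ∀ j, e j ∈ W) (ξ : J → ℚ) :
    ∑ j, ξ j • e j ∈ W := W.sum_mem fun j _ => W.smul_mem _ (h j)

theorem L1_great (hβ : Sym β) {J : Type} [Fintype J] [DecidableEq J] {e : J → M}
    (h : Spans β W e) : IsGreatest {n | ∃ e : Fin n → M, (∀ j, e j ∈ W) ∧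
      ∀ ξ : Fin n → ℚ, ξ ≠ 0 → 0 < β (∑ j, ξ j • e j) (∑ j, ξ j • e j)} (sgM (gram β e)) := by
  have hm : ∀ ξ, Fintype.linearCombination ℚ e ξ ∈ W := fun ξ => L1_mem h.1 ξ
  constructor
  · obtain ⟨V, hV, hp⟩ := exists_finrank_eq_sigPos_and_posDef (gram β e).toQuadraticForm'
    let b := Module.finBasisOfFinrankEq ℚ V hV
    refine ⟨fun i => Fintype.linearCombination ℚ e (b i), fun i => hm _, fun ξ hξ => ?_⟩
    have h1 := hp (∑ i, ξ i • b i) fun k =>
      hξ (funext (Fintype.linearIndependent_iff.1 b.linearIndependent ξ k))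
    rw [QuadraticMap.restrict_apply, L1_q] at h1
    have h2 : Fintype.linearCombination ℚ e ((∑ i, ξ i • b i : V) : J → ℚ) =
        ∑ i, ξ i • Fintype.linearCombination ℚ e (b i) := by
      simp only [Submodule.coe_sum, Submodule.coe_smul, map_sum, map_smul]
    rwa [h2] at h1
  · rintro n ⟨e', he', hp⟩
    choose ξ hξ using fun i => h.2 (e' i) (he' i)
    have k : ∀ η : Fin n → ℚ, η ≠ 0 →
        0 < (gram β e).toQuadraticForm' (Fintype.linearCombination ℚ ξ η) := fun η hη => by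
      rw [L1_q, ← L1_mod hβ (L1_mem he' η) (hm _) fun y hy => ?_]
      · exact hp η hη
      · rw [Fintype.linearCombination_apply ℚ ξ, map_sum, ← Finset.sum_sub_distrib, map_sum,
          LinearMap.sum_apply]
        refine Finset.sum_eq_zero fun i _ => ?_
        rw [map_smul, ← smul_sub, map_smul, LinearMap.smul_apply, Fintype.linearCombination_apply,
          hξ i y hy, smul_zero]
    have hi : Function.Injective (Fintype.linearCombination ℚ ξ) :=
      (injective_iff_map_eq_zero _).2 fun η h0 => by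
        by_contra h1
        have h2 := k η h1
        rw [h0, map_zero] at h2
        exact lt_irrefl _ h2
    have h3 := le_sigPos_of_posDef (gram β e).toQuadraticForm'
      (V := LinearMap.range (Fintype.linearCombination ℚ ξ)) (by
        rintro ⟨_, η, rfl⟩ h0
        exact k η fun h1 => h0 (Subtype.ext ((congrArg _ h1).trans (map_zero _))))
    rwa [LinearMap.finrank_range_of_inj hi, finrank_fin_fun] at h3

theorem L1_zero (h : ∀ x ∈ W, β x x ≤ 0) : sig β W = 0 := by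
  refine Nat.eq_zero_of_le_zero (csSup_le' ?_)
  rintro (_ | n) ⟨e, he, hp⟩
  · exact le_rfl
  · exact absurd (hp 1 one_ne_zero) (not_lt.2 (h _ (L1_mem he _)))

theorem sig_gram (hβ : Sym β) {J : Type} [Fintype J] [DecidableEq J] {e : J → M}
    (h : Spans β W e) : sig β W = sgM (gram β e) := by
  exact (L1_great hβ h).csSup_eq

theorem Spans.fr {J : Type} [Fintype J] {e : J → M} (h : Spans β W e) : FR β W := by
  refine ⟨_, fun i => e ((Fintype.equivFin J).symm i), fun i => h.1 _, fun x hx => ?_⟩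
  obtain ⟨ξ, hξ⟩ := h.2 x hx
  refine ⟨fun i => ξ ((Fintype.equivFin J).symm i), ?_⟩
  rwa [(Fintype.equivFin J).symm.sum_comp fun j => ξ j • e j]

/-- Orthogonal sums, modulo the radical. -/
theorem sig_sum (hβ : Sym β) {ι : Type} [Fintype ι] {N : ι → Type*} [∀ i, AddCommGroup (N i)]
    [∀ i, Module ℚ (N i)] (β' : ∀ i, Bil (N i)) (W' : ∀ i, Submodule ℚ (N i))
    (f : ∀ i, N i →ₗ[ℚ] M) (hs : ∀ i, Sym (β' i)) (hr : ∀ i, FR (β' i) (W' i))
    (hm : ∀ i, ∀ x ∈ W' i, f i x ∈ W)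
    (hd : ∀ i, ∀ x ∈ W' i, ∀ y ∈ W' i, β (f i x) (f i y) = β' i x y)
    (ho : ∀ i j, i ≠ j → ∀ x ∈ W' i, ∀ y ∈ W' j, β (f i x) (f j y) = 0)
    (hsp : ∀ z ∈ W, ∃ x : ∀ i, N i, (∀ i, x i ∈ W' i) ∧ ∀ y ∈ W, β (z - ∑ i, f i (x i)) y = 0) :
    sig β W = ∑ i, sig (β' i) (W' i) := by
  classical
  choose n e he using hr
  have rad : ∀ i, ∀ r ∈ W' i, (∀ y ∈ W' i, β' i r y = 0) → ∀ y ∈ W, β (f i r) y = 0 := by
    intro i r hr h0 y hy
    obtain ⟨x, hx, h1⟩ := hsp y hy
    have h2 := h1 _ (hm i r hr)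
    rw [map_sub, LinearMap.sub_apply, map_sum, LinearMap.sum_apply,
      Finset.sum_eq_zero fun j _ => ?_, sub_zero] at h2
    · rw [hβ, h2]
    · by_cases k : j = i
      · subst k
        rw [hd j _ (hx j) _ hr, hs j, h0 _ (hx j)]
      · exact ho j i k _ (hx j) _ hr
  have sp : Spans β W fun s : (i : ι) × Fin (n i) => f s.1 (e s.1 s.2) := by
    refine ⟨fun s => hm _ _ ((he _).1 _), fun z hz => ?_⟩
    obtain ⟨x, hx, h1⟩ := hsp z hz
    choose ξ hξ using fun i => (he i).2 (x i) (hx i)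
    refine ⟨fun s => ξ s.1 s.2, fun y hy => ?_⟩
    have h2 : z - ∑ s : (i : ι) × Fin (n i), ξ s.1 s.2 • f s.1 (e s.1 s.2) =
        z - ∑ i, f i (x i) + ∑ i, f i (x i - ∑ j, ξ i j • e i j) := by
      simp only [Fintype.sum_sigma, map_sub, map_sum, map_smul, Finset.sum_sub_distrib]
      abel
    rw [h2, map_add, LinearMap.add_apply, h1 y hy, zero_add, map_sum, LinearMap.sum_apply]
    exact Finset.sum_eq_zero fun i _ =>
      rad i _ ((W' i).sub_mem (hx i) (L1_mem (he i).1 _)) (hξ i) y hy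
  have gr : gram β (fun s : (i : ι) × Fin (n i) => f s.1 (e s.1 s.2)) =
      blockDiagonal' fun i => gram (β' i) (e i) := by
    ext ⟨i, a⟩ ⟨j, b⟩
    by_cases k : i = j
    · subst k
      rw [blockDiagonal'_apply_eq]
      exact hd i _ ((he i).1 a) _ ((he i).1 b)
    · rw [blockDiagonal'_apply_ne _ _ _ k]
      exact ho i j k _ ((he i).1 a) _ ((he j).1 b)
  rw [sig_gram hβ sp, gr, sg_block]
  exact Finset.sum_congr rfl fun i _ => (sig_gram (hs i) (he i)).symm

theorem sig_congr (hβ : Sym β) {β' : Bil M'} {W' : Submodule ℚ M'} (f : M' →ₗ[ℚ] M)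
    (hs : Sym β') (hr : FR β' W') (hm : ∀ x ∈ W', f x ∈ W)
    (hd : ∀ x ∈ W', ∀ y ∈ W', β (f x) (f y) = β' x y)
    (hsp : ∀ z ∈ W, ∃ x ∈ W', ∀ y ∈ W, β (z - f x) y = 0) : sig β W = sig β' W' := by
  have h := sig_sum hβ (ι := Unit) (N := fun _ => M') (fun _ => β') (fun _ => W') (fun _ => f)
    (fun _ => hs) (fun _ => hr) (fun _ => hm) (fun _ => hd) (fun _ _ k => absurd rfl k)
    fun z hz => by
      obtain ⟨x, hx, h⟩ := hsp z hz
      exact ⟨fun _ => x, fun _ => hx, by rwa [Fintype.sum_unique]⟩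
  rwa [Fintype.sum_unique] at h

theorem sig_smul {β' : Bil M} {q : ℚ} (hq : 0 < q) (h : ∀ x ∈ W, ∀ y ∈ W, β' x y = q * β x y) :
    sig β' W = sig β W := by
  refine congrArg sSup (Set.ext fun n => exists_congr fun e => and_congr_right fun he =>
    forall_congr' fun ξ => forall_congr' fun _ => ?_)
  rw [h _ (L1_mem he ξ) _ (L1_mem he ξ), mul_pos_iff_of_pos_left hq]

theorem sig_zero_iff (hβ : Sym β) (hr : FR β W) : sig β W = 0 ↔ ∀ x ∈ W, β x x ≤ 0 := by
  refine ⟨fun h x hx => not_lt.1 fun k => ?_, L1_zero⟩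
  obtain ⟨n, e, he⟩ := hr
  have h1 := (L1_great hβ he).2 (show 1 ∈ _ from ⟨fun _ => x, fun _ => hx, fun ξ hξ => by
    have h2 : ξ 0 ≠ 0 := fun h2 => hξ (funext fun i => by rwa [Subsingleton.elim i 0])
    simp only [Fin.sum_univ_one, map_smul, LinearMap.smul_apply, smul_eq_mul, ← mul_assoc]
    exact mul_pos (mul_self_pos.2 h2) k⟩)
  rw [← sig_gram hβ he, h] at h1
  exact absurd h1 (by norm_num)

theorem sig_bot : sig β ⊥ = 0 := by
  exact L1_zero fun x hx => by rw [(Submodule.mem_bot ℚ).1 hx, map_zero]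

end Pool.Agent.Work.MP_ffcd14_ag.Gm
end

-- merged part: Pool.Agent.Work.MP_ffcd14_ag.Gm.L4
section
/-!
# Numerical equivalence and numerical bases

Plan.  `Alg` is the supremum of the `A i`: use `Submodule.iSup_induction`.  `t_cast` extends
`Base.t_cast` by linearity.  `N0_iff`: other degrees have trace zero (`Base.tr_A`).
`fr`: `exists_rank_fact` for the form `Qf z` with `U = U' = W` and the bound `Base.dual_bound`
(applied to `e` and `e' * z`, using `t_cast`).
`gram_det`: a vector `ξ` in the kernel gives `x = ∑ ξ j • e j ∈ W` orthogonal to all `e j`, hence to `W`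
(by `Gen`, `N0.t`), so `x` is `N0` and `ξ = 0` (`Matrix.exists_mulVec_eq_zero_iff`).
`exists_nb`: `Base.exists_NB j (d - j)`, the field `exp` and `N0_iff`; for `j > d` all classes vanish
(`Base.eq_zero_of_lt`).
`wm_gen`: every element of `Wm m` is a sum of elements of the `A j` (`Submodule.mem_iSup_iff_exists_finsupp`
or induction); for `Ind` pair with `e' j ν`: the terms of another degree have trace zero (if the
index set `Fin (ρ j)` is not empty then `j ≤ d`).
`span_of_gram`: write `u' r ≡ ∑ s, T r s • u s`; then the matrix of the hypothesis is `T * G` with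
`G s s' = t (u s * v s')`, so `T` is invertible.
-/

open Module Matrix

namespace Pool.Agent.Work.MP_ffcd14_ag.Gm.Rg

universe v w

variable {K : Type v} [Field K] [CharZero K] {R : Rg.{v, w} K} {x y z : R.B}

theorem A_le (i : ℕ) : R.A i ≤ R.Alg := le_iSup (fun i => R.A i) i

theorem Wm_le (m : ℕ) : R.Wm m ≤ R.Alg := iSup_le fun i => A_le i

theorem A_le_Wm {i m : ℕ} (h : i < m) : R.A i ≤ R.Wm m :=
  le_iSup (fun i : Fin m => R.A i) ⟨i, h⟩

theorem Wm_zero : R.Wm 0 = ⊥ := iSup_of_empty _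

theorem A_mul {i j : ℕ} (hx : x ∈ R.A i) (hy : y ∈ R.A j) : x * y ∈ R.A (i + j) :=
  R.S.A_mul _ _ _ hx _ hy

theorem pow_mem (hx : x ∈ R.A 1) (n : ℕ) : x ^ n ∈ R.A n := by
  simpa using R.S.mul_pow_mem hx n R.one_mem

theorem high {j : ℕ} (hx : x ∈ R.A j) (h : R.d < j) : x = 0 :=
  R.S.eq_zero_of_lt (R.S.A_le _ _ hx) h

theorem L4_ind (P : R.B → Prop) (hx : x ∈ R.Alg) (h : ∀ i, ∀ x ∈ R.A i, P x) (h0 : P 0)
    (ha : ∀ x y, P x → P y → P (x + y)) : P x :=
  Submodule.iSup_induction (fun i => R.A i) (motive := P) hx h h0 ha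

theorem alg_mul (hx : x ∈ R.Alg) (hy : y ∈ R.Alg) : x * y ∈ R.Alg := by
  refine L4_ind (fun x => x * y ∈ R.Alg) hx (fun i x hx => ?_) (by simp)
    fun a b ha hb => by rw [add_mul]; exact add_mem ha hb
  exact L4_ind (fun y => x * y ∈ R.Alg) hy (fun j y hy => A_le _ (A_mul hx hy)) (by simp)
    fun a b ha hb => by rw [mul_add]; exact add_mem ha hb

theorem t_cast (hx : x ∈ R.Alg) : (R.t x : K) = R.tr x := by
  exact L4_ind (fun x => (R.t x : K) = R.tr x) hx (fun i x hx => R.S.t_cast hx) (by simp)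
    fun a b ha hb => by rw [map_add, map_add, Rat.cast_add, ha, hb]

theorem t_deg {i : ℕ} (hx : x ∈ R.A i) (h : i ≠ R.d) : R.t x = 0 := by
  exact (R.S.t_eq_zero_iff hx).2 (R.S.tr_G _ _ (R.S.A_le _ _ hx) h)

theorem Th_mem (φ : ℕ → ℚ) (hx : x ∈ R.A 1) : R.Th φ x ∈ R.Alg := by
  exact Submodule.sum_mem _ fun r _ => Submodule.smul_mem _ _ (A_le _ (pow_mem hx r))

theorem N0.zero : R.N0 0 := by
  intro c y _
  rw [zero_mul, map_zero]

theorem N0.add (hx : R.N0 x) (hy : R.N0 y) : R.N0 (x + y) := by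
  intro c w hw
  rw [add_mul, map_add, hx c w hw, hy c w hw, add_zero]

theorem N0.smul (q : ℚ) (hx : R.N0 x) : R.N0 (q • x) := by
  intro c w hw
  rw [smul_mul_assoc, LinearMap.map_smul_of_tower, hx c w hw, smul_zero]

theorem N0.sum {ι : Type*} (s : Finset ι) (f : ι → R.B) (h : ∀ i ∈ s, R.N0 (f i)) :
    R.N0 (∑ i ∈ s, f i) := by
  exact Finset.sum_induction f R.N0 (fun _ _ => N0.add) N0.zero h

theorem N0.mul (hx : R.N0 x) (hy : y ∈ R.Alg) : R.N0 (x * y) := by
  refine L4_ind (fun y => R.N0 (x * y)) hy (fun i y hy c w hw => ?_)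
    (by rw [mul_zero]; exact N0.zero) fun a b ha hb => by rw [mul_add]; exact N0.add ha hb
  rw [mul_assoc]
  exact hx _ _ (A_mul hy hw)

theorem N0.tr (hx : R.N0 x) (hy : y ∈ R.Alg) : R.tr (x * y) = 0 := by
  have := N0.mul hx hy 0 1 R.one_mem
  rwa [mul_one] at this

theorem N0.t (hx : R.N0 x) (hx' : x ∈ R.Alg) (hy : y ∈ R.Alg) : R.t (x * y) = 0 := by
  have := t_cast (alg_mul hx' hy)
  rwa [N0.tr hx hy, Rat.cast_eq_zero] at this

theorem N0_iff {i j : ℕ} (hx : x ∈ R.A i) (h : i + j = R.d) :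
    R.N0 x ↔ ∀ y ∈ R.A j, R.t (x * y) = 0 := by
  refine ⟨fun k y hy => N0.t k (A_le _ hx) (A_le _ hy), fun k c y hy => ?_⟩
  by_cases hc : c = j
  · exact (R.S.t_eq_zero_iff (A_mul hx hy)).1 (k y (hc ▸ hy))
  · exact R.S.tr_A hx hy fun e => hc (Nat.add_left_cancel (e.trans h.symm))

variable {W : Submodule ℚ R.B} {J : Type} [Fintype J] [DecidableEq J] {e : J → R.B}

end Pool.Agent.Work.MP_ffcd14_ag.Gm.Rg
end

-- merged part: Pool.Agent.Work.MP_ffcd14_ag.Gm.L4a
section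
/-!
# Numerical equivalence and numerical bases

Plan.  `Alg` is the supremum of the `A i`: use `Submodule.iSup_induction`.  `t_cast` extends
`Base.t_cast` by linearity.  `N0_iff`: other degrees have trace zero (`Base.tr_A`).
`fr`: `exists_rank_fact` for the form `Qf z` with `U = U' = W` and the bound `Base.dual_bound`
(applied to `e` and `e' * z`, using `t_cast`).
`gram_det`: a vector `ξ` in the kernel gives `x = ∑ ξ j • e j ∈ W` orthogonal to all `e j`, hence to `W`
(by `Gen`, `N0.t`), so `x` is `N0` and `ξ = 0` (`Matrix.exists_mulVec_eq_zero_iff`).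
`exists_nb`: `Base.exists_NB j (d - j)`, the field `exp` and `N0_iff`; for `j > d` all classes vanish
(`Base.eq_zero_of_lt`).
`wm_gen`: every element of `Wm m` is a sum of elements of the `A j` (`Submodule.mem_iSup_iff_exists_finsupp`
or induction); for `Ind` pair with `e' j ν`: the terms of another degree have trace zero (if the
index set `Fin (ρ j)` is not empty then `j ≤ d`).
`span_of_gram`: write `u' r ≡ ∑ s, T r s • u s`; then the matrix of the hypothesis is `T * G` with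
`G s s' = t (u s * v s')`, so `T` is invertible.
-/

open Module Matrix

namespace Pool.Agent.Work.MP_ffcd14_ag.Gm.Rg

universe v w

variable {K : Type v} [Field K] [CharZero K] {R : Rg.{v, w} K} {x y z : R.B}

theorem fr {W : Submodule ℚ R.B} (hW : W ≤ R.Alg) (hz : z ∈ R.Alg) : FR (R.Qf z) W := by
  obtain ⟨ρ, e, e', he, -, -, hexp⟩ := exists_rank_fact (R.Qf z) W W (finrank K R.B)
    (fun ρ e e' he he' h => R.S.dual_bound ρ e (fun j => e' j * z) fun i j => by
      have h1 := t_cast (alg_mul (hW (he i)) (alg_mul (hW (he' j)) hz))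
      have h2 := h i j
      rw [Qf_apply, mul_assoc] at h2
      rw [h2] at h1
      refine h1.symm.trans ?_
      split_ifs <;> simp)
  refine ⟨ρ, e, he, fun x hx => ⟨fun j => R.Qf z x (e' j), fun y hy => ?_⟩⟩
  rw [map_sub, LinearMap.sub_apply, hexp x hx y hy, map_sum, LinearMap.sum_apply, sub_eq_zero]
  simp only [map_smul, LinearMap.smul_apply, smul_eq_mul]

variable {W : Submodule ℚ R.B} {J : Type} [Fintype J] [DecidableEq J] {e : J → R.B}

omit [DecidableEq J] in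
theorem l4a_t_sum (ξ : J → ℚ) (e : J → R.B) (y : R.B) :
    R.t ((∑ j, ξ j • e j) * y) = ∑ j, ξ j * R.t (e j * y) := by
  rw [Finset.sum_mul, map_sum]
  simp only [smul_mul_assoc, map_smul, smul_eq_mul]

omit [DecidableEq J] in
theorem l4a_mem (he : ∀ j, e j ∈ W) (ξ : J → ℚ) : ∑ j, ξ j • e j ∈ W :=
  W.sum_mem fun j _ => W.smul_mem _ (he j)

omit [DecidableEq J] in
theorem l4a_exp {ξ : J → ℚ} (hx : x ∈ R.Alg) (he : ∀ j, e j ∈ R.Alg)
    (h : R.N0 (x - ∑ j, ξ j • e j)) (hy : y ∈ R.Alg) :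
    R.t (x * y) = ∑ j, ξ j * R.t (e j * y) := by
  have h1 := N0.t h (R.Alg.sub_mem hx (l4a_mem he ξ)) hy
  rwa [sub_mul, map_sub, l4a_t_sum, sub_eq_zero] at h1

/-- The classes that are numerically equivalent to a combination of the `e j`. -/
def l4aSp (e : J → R.B) : Submodule ℚ R.B where
  carrier := {x | ∃ ξ : J → ℚ, R.N0 (x - ∑ j, ξ j • e j)}
  add_mem' := by
    rintro a b ⟨ξ, h⟩ ⟨η, h'⟩
    refine ⟨ξ + η, ?_⟩
    convert N0.add h h' using 1
    simp only [Pi.add_apply, add_smul, Finset.sum_add_distrib]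
    ring
  zero_mem' := ⟨0, by simpa using N0.zero⟩
  smul_mem' := by
    rintro q a ⟨ξ, h⟩
    refine ⟨q • ξ, ?_⟩
    convert N0.smul q h using 1
    simp only [Pi.smul_apply, smul_eq_mul, mul_smul, smul_sub, Finset.smul_sum]

omit [DecidableEq J] in
theorem l4a_of_n0 (h : R.N0 x) : x ∈ l4aSp e := ⟨0, by simpa using h⟩

theorem l4a_self (j : J) : e j ∈ l4aSp e :=
  ⟨Pi.single j 1, by simpa [Pi.single_apply] using N0.zero⟩

omit [DecidableEq J] in
theorem l4a_le {J' : Type} [Fintype J'] {e' : J' → R.B} (h : R.Gen W e')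
    (he : ∀ j, e' j ∈ l4aSp e) : W ≤ l4aSp e := by
  intro x hx
  obtain ⟨ξ, hξ⟩ := h.2 x hx
  have h1 := (l4aSp e).add_mem (l4a_of_n0 hξ) (l4a_mem he ξ)
  rwa [sub_add_cancel] at h1

omit [DecidableEq J] in
theorem Gen.spans (h : R.Gen W e) (hW : W ≤ R.Alg) (hz : z ∈ R.Alg) : Spans (R.Qf z) W e := by
  refine ⟨h.1, fun x hx => ?_⟩
  obtain ⟨ξ, hξ⟩ := h.2 x hx
  refine ⟨ξ, fun y hy => ?_⟩
  rw [Qf_apply, mul_assoc]
  exact N0.t hξ (hW (W.sub_mem hx (l4a_mem h.1 ξ))) (alg_mul (hW hy) hz)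

theorem Gen.sg (h : R.Gen W e) (hW : W ≤ R.Alg) (hz : z ∈ R.Alg) :
    R.sg z W = sgM (gram (R.Qf z) e) := sig_gram (R.Qf_sym z) (h.spans hW hz)

theorem gram_det (h : R.Gen W e) (h' : R.Ind e) (hW : W ≤ R.Alg) (hz : z ∈ R.Alg)
    (hn : R.ND z W) : (gram (R.Qf z) e).det ≠ 0 := by
  intro h0
  obtain ⟨ξ, hξ, hv⟩ := Matrix.exists_vecMul_eq_zero_iff.2 h0
  have hx := l4a_mem h.1 ξ
  refine hξ (h' ξ (hn _ hx fun y hy => ?_))
  obtain ⟨η, hη⟩ := h.2 y hy
  rw [mul_comm _ y, mul_assoc,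
    l4a_exp (hW hy) (fun j => hW (h.1 j)) hη (alg_mul (hW hx) hz)]
  refine Finset.sum_eq_zero fun s _ => ?_
  have h1 := congrFun hv s
  simp only [Matrix.vecMul, dotProduct, gram, Matrix.of_apply, Qf_apply, Pi.zero_apply] at h1
  rw [mul_left_comm, l4a_t_sum]
  simp only [← mul_assoc, h1, mul_zero]

theorem nd_of_det (h : R.Gen W e) (hW : W ≤ R.Alg) (hz : z ∈ R.Alg)
    (hd : (gram (R.Qf z) e).det ≠ 0) : R.ND z W := by
  intro x hx H
  obtain ⟨ξ, hξ⟩ := h.2 x hx
  have h0 : ξ = 0 := by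
    refine Matrix.eq_zero_of_vecMul_eq_zero hd (funext fun s => ?_)
    have h1 := H (e s) (h.1 s)
    rw [mul_assoc, l4a_exp (hW hx) (fun j => hW (h.1 j)) hξ (alg_mul (hW (h.1 s)) hz)] at h1
    simpa only [Matrix.vecMul, dotProduct, gram, Matrix.of_apply, Qf_apply, Pi.zero_apply,
      mul_assoc] using h1
  simpa [h0] using hξ

theorem ind_of_det (v : J → R.B) (he : ∀ j, e j ∈ R.Alg) (hv : ∀ j, v j ∈ R.Alg)
    (hd : (Matrix.of fun r s => R.t (e r * v s)).det ≠ 0) : R.Ind e := by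
  intro ξ hξ
  refine Matrix.eq_zero_of_vecMul_eq_zero hd (funext fun s => ?_)
  have h1 := N0.t hξ (l4a_mem he ξ) (hv s)
  rw [l4a_t_sum] at h1
  simpa only [Matrix.vecMul, dotProduct, Matrix.of_apply, Pi.zero_apply] using h1

theorem span_of_gram {u' v : J → R.B} (h : R.Gen W e) (hW : W ≤ R.Alg) (hu : ∀ j, u' j ∈ W)
    (hv : ∀ j, v j ∈ R.Alg) (hd : (Matrix.of fun r s => R.t (u' r * v s)).det ≠ 0) :
    R.Gen W u' := by
  choose T hT using fun r => h.2 (u' r) (hu r)
  have hM : (Matrix.of fun r s => R.t (u' r * v s)) =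
      Matrix.of T * Matrix.of fun r s => R.t (e r * v s) := by
    ext r s
    rw [Matrix.mul_apply, Matrix.of_apply,
      l4a_exp (hW (hu r)) (fun j => hW (h.1 j)) (hT r) (hv s)]
    rfl
  rw [hM, Matrix.det_mul] at hd
  have hT0 : IsUnit (Matrix.of T).det := (left_ne_zero_of_mul hd).isUnit
  refine ⟨hu, l4a_le h fun s => ?_⟩
  have h1 : ∀ r, ∑ j, T r j • e j ∈ l4aSp u' := fun r => by
    have h2 := (l4aSp u').sub_mem (l4a_self r) (l4a_of_n0 (hT r))
    rwa [sub_sub_cancel] at h2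
  have h2 := l4a_mem h1 fun r => (Matrix.of T)⁻¹ s r
  have h3 : ∀ j, ∑ r, (Matrix.of T)⁻¹ s r * T r j = if s = j then 1 else 0 := fun j => by
    have h4 := congrFun (congrFun (Matrix.nonsing_inv_mul _ hT0) s) j
    rwa [Matrix.mul_apply, Matrix.one_apply] at h4
  simp only [Finset.smul_sum, smul_smul] at h2
  rw [Finset.sum_comm] at h2
  simpa [← Finset.sum_smul, h3] using h2

variable (R) in
theorem exists_nb (j : ℕ) : ∃ (ρ : ℕ) (e e' : Fin ρ → R.B), R.Nb j e e' := by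
  by_cases hj : j ≤ R.d
  · obtain ⟨ρ, e, e', h⟩ := R.S.exists_NB j (R.d - j)
    refine ⟨ρ, e, e', ⟨h.mem, fun x hx => ⟨fun ν => R.t (x * e' ν), ?_⟩⟩, h.mem', h.dual⟩
    refine (N0_iff ((R.A j).sub_mem hx (l4a_mem h.mem _)) (Nat.add_sub_cancel' hj)).2
      fun y hy => ?_
    rw [sub_mul, map_sub, l4a_t_sum, sub_eq_zero]
    exact h.exp x hx y hy
  · refine ⟨0, Fin.elim0, Fin.elim0, ⟨fun ν => ν.elim0, fun x hx => ⟨0, ?_⟩⟩, fun ν => ν.elim0,
      fun ν => ν.elim0⟩
    simpa [high hx (not_le.1 hj)] using N0.zero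

theorem Nb.le {j ρ : ℕ} {e e' : Fin ρ → R.B} (h : R.Nb j e e') (ν : Fin ρ) : j ≤ R.d := by
  by_contra hj
  have h1 := h.2.2 ν ν
  rw [high (h.1.1 ν) (not_le.1 hj)] at h1
  simp at h1

theorem wm_gen {ρ : ℕ → ℕ} {e e' : ∀ j, Fin (ρ j) → R.B} (h : ∀ j, R.Nb j (e j) (e' j)) (m : ℕ) :
    R.Gen (R.Wm m) (fun r : Σ j : Fin m, Fin (ρ j) => e r.1 r.2) ∧
      R.Ind fun r : Σ j : Fin m, Fin (ρ j) => e r.1 r.2 := by
  classical
  have hm : ∀ r : Σ j : Fin m, Fin (ρ j), e r.1 r.2 ∈ R.Wm m := fun r =>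
    A_le_Wm r.1.2 ((h r.1).1.1 r.2)
  refine ⟨⟨hm, ?_⟩, fun ξ hξ => funext fun r => ?_⟩
  · have h1 : R.Wm m ≤ l4aSp fun r : Σ j : Fin m, Fin (ρ j) => e r.1 r.2 :=
      iSup_le fun i => l4a_le (h i).1 fun ν =>
        l4a_self (e := fun r : Σ j : Fin m, Fin (ρ j) => e r.1 r.2) ⟨i, ν⟩
    exact fun x hx => h1 hx
  · have h1 := N0.t hξ (Wm_le m (l4a_mem hm ξ)) (A_le _ ((h r.1).2.1 r.2))
    rw [l4a_t_sum, Finset.sum_eq_single r, (h r.1).2.2, if_pos rfl, mul_one] at h1
    · exact h1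
    · rintro ⟨j', ν'⟩ - hne
      obtain ⟨j, ν⟩ := r
      by_cases hj : j' = j
      · subst hj
        rw [(h j').2.2, if_neg fun h2 => hne (congrArg (Sigma.mk j') h2), mul_zero]
      · have h2 := (h j).le ν
        have h3 := Fin.val_ne_of_ne hj
        rw [t_deg (A_mul ((h j').1.1 ν') ((h j).2.1 ν)) (by unfold Rg.d at *; omega), mul_zero]
    · simp

theorem sg_smul (W : Submodule ℚ R.B) {q : ℚ} (hq : 0 < q) : R.sg (q • z) W = R.sg z W :=
  sig_smul hq fun x _ y _ => by simp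

theorem ND.smul (h : R.ND z W) {q : ℚ} (hq : q ≠ 0) : R.ND (q • z) W := fun x hx H =>
  h x hx fun y hy => by simpa [hq] using H y hy

end Pool.Agent.Work.MP_ffcd14_ag.Gm.Rg
end

-- merged part: Pool.Agent.Work.MP_ffcd14_ag.Gm.L2
section
/-!
# Stability of the positive index

Plan.  `sg_cast`: a symmetric rational matrix is congruent to a diagonal one, `Pᵀ * G * P = diagonal d`
with `P` invertible (`QuadraticForm.equivalent_weightedSumSquares` or
`LinearMap.BilinForm.exists_orthogonal_basis`); both sides count the positive `d i`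
(`QuadraticForm.sigPos_of_equiv_weightedSumSquares`).
`sg_scale`: the two forms are isometric through `x ↦ fun i => s i * x i` (`Equivalent.sigPos_eq`).
`sg_near`: positive definiteness on a fixed subspace is an open condition (compactness of the unit
sphere), so `sigPos` and `sigNeg` do not drop near `G`; for `G` they add up to `card J`
(`QuadraticForm.sigPos_add_sigNeg_add_radical`, the radical is trivial as `det ≠ 0`), and the sum is
always at most `card J`.  The determinant is continuous.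
`sg_limit`: apply `sg_near` to the real matrices `G n i j / (s n i * s n j)` (`tendsto_pi_nhds`),
then `sg_scale`, `sg_cast`; for the determinant use `Matrix.det_mul`, `RingHom.map_det`.
`sg_path`: `IsLocallyConstant` by `sg_near`.
-/

open Module Matrix Filter Topology

namespace Pool.Agent.Work.MP_ffcd14_ag.Gm

variable {J : Type} [Fintype J] [DecidableEq J]

section gen

variable {F : Type} [Field F] [LinearOrder F]

omit [LinearOrder F] in
theorem L2_app (G : Matrix J J F) (x : J → F) : G.toQuadraticForm' x = x ⬝ᵥ G *ᵥ x := by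
  simp [Matrix.toQuadraticForm', toLinearMap₂'_apply']

theorem L2_congr (G P : Matrix J J F) (hP : P.det ≠ 0) : sgM (Pᵀ * G * P) = sgM G := by
  have := P.invertibleOfIsUnitDet hP.isUnit
  refine QuadraticMap.Equivalent.sigPos_eq ⟨⟨P.toLinearEquiv' this, fun x => ?_⟩⟩
  change G.toQuadraticForm' (P *ᵥ x) = _
  rw [L2_app, L2_app, ← mulVec_mulVec, ← mulVec_mulVec, dotProduct_mulVec x, vecMul_transpose]

variable [IsStrictOrderedRing F]

theorem L2_diag (d : J → F) : sgM (diagonal d) = {i | 0 < d i}.ncard := by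
  rw [← QuadraticForm.sigPos_weightedSumSquares, sgM]
  congr 1
  ext x
  rw [L2_app, QuadraticMap.weightedSumSquares_apply, dotProduct]
  exact Finset.sum_congr rfl fun i _ => by rw [mulVec_diagonal, smul_eq_mul, mul_left_comm]

theorem L2_orth (G : Matrix J J F) (h : Gᵀ = G) :
    ∃ (P : Matrix J J F) (d : J → F), P.det ≠ 0 ∧ Pᵀ * G * P = diagonal d := by
  have : Invertible (2 : F) := invertibleOfNonzero two_ne_zero
  obtain ⟨v, hv⟩ := LinearMap.BilinForm.exists_orthogonal_basis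
    (B := Matrix.toLinearMap₂' F G) ⟨fun x y => by
      rw [toLinearMap₂'_apply', toLinearMap₂'_apply', RingHom.id_apply, dotProduct_mulVec,
        ← mulVec_transpose, h, dotProduct_comm]⟩
  have e : J ≃ Fin (finrank F (J → F)) :=
    Fintype.equivFinOfCardEq (finrank_fintype_fun_eq_card F).symm
  have key : ∀ i j, (((Pi.basisFun F J).toMatrix (v.reindex e.symm))ᵀ * G *
      (Pi.basisFun F J).toMatrix (v.reindex e.symm)) i j = v (e i) ⬝ᵥ G *ᵥ v (e j) := by
    intro i j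
    rw [Matrix.mul_assoc, mul_apply, dotProduct]
    refine Finset.sum_congr rfl fun k _ => ?_
    simp [mul_apply, mulVec, dotProduct, Basis.toMatrix_apply]
  refine ⟨(Pi.basisFun F J).toMatrix (v.reindex e.symm), fun i => v (e i) ⬝ᵥ G *ᵥ v (e i),
    ((Pi.basisFun F J).isUnit_det (v.reindex e.symm)).ne_zero, Matrix.ext fun i j => ?_⟩
  rw [key, diagonal_apply]
  split_ifs with hij
  · rw [hij]
  · rw [← toLinearMap₂'_apply']
    exact hv (e.injective.ne hij)

theorem L2_le (G : Matrix J J F) : sgM G + sgM (-G) ≤ Fintype.card J := by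
  have h1 := QuadraticForm.sigPos_add_sigNeg_add_radical (Q := G.toQuadraticForm')
  have h2 : (-G).toQuadraticForm' = -G.toQuadraticForm' := by
    ext x
    rw [_root_.neg_apply, L2_app, L2_app, neg_mulVec, dotProduct_neg]
  rw [finrank_fintype_fun_eq_card] at h1
  rw [sgM, sgM, h2, sigPos_neg]
  omega

theorem L2_eq (G : Matrix J J F) (h : Gᵀ = G) (hd : G.det ≠ 0) :
    sgM G + sgM (-G) = Fintype.card J := by
  obtain ⟨P, d, hP, e⟩ := L2_orth G h
  have h1 : ∀ i, d i ≠ 0 := by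
    have := congrArg det e
    rw [det_mul, det_mul, det_transpose, det_diagonal] at this
    exact fun i => Finset.prod_ne_zero_iff.1
      (this ▸ mul_ne_zero (mul_ne_zero hP hd) hP) i (Finset.mem_univ i)
  rw [← L2_congr G P hP, ← L2_congr (-G) P hP, Matrix.mul_neg, Matrix.neg_mul, e, diagonal_neg,
    L2_diag, L2_diag, ← Nat.card_eq_fintype_card, ← Set.ncard_add_ncard_compl {i | 0 < d i}]
  congr 2
  ext i
  simp only [Set.mem_ofPred_eq, Set.mem_compl_iff, not_lt, neg_pos]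
  exact ⟨le_of_lt, fun k => lt_of_le_of_ne k (h1 i)⟩

end gen

theorem L2_lsc (G : Matrix J J ℝ) : ∀ᶠ G' in 𝓝 G, sgM G ≤ sgM G' := by
  obtain ⟨V, h1, h2⟩ := exists_finrank_eq_sigPos_and_posDef G.toQuadraticForm'
  have hK : IsCompact (Metric.sphere (0 : J → ℝ) 1 ∩ V) :=
    (isCompact_sphere 0 1).inter_right V.closed_of_finiteDimensional
  have hc : Continuous fun z : Matrix J J ℝ × (J → ℝ) => z.2 ⬝ᵥ z.1 *ᵥ z.2 :=
    continuous_snd.dotProduct (continuous_fst.matrix_mulVec continuous_snd)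
  have h3 := hK.eventually_forall_of_forall_eventually (x₀ := G)
    (P := fun (G' : Matrix J J ℝ) y => 0 < y ⬝ᵥ G' *ᵥ y) fun y hy => by
      refine hc.continuousAt.eventually (lt_mem_nhds ?_)
      have := h2 ⟨y, hy.2⟩ fun e => by
        have h4 := hy.1
        rw [show y = 0 from congrArg Subtype.val e] at h4
        simp at h4
      rwa [QuadraticMap.restrict_apply, L2_app] at this
  filter_upwards [h3] with G' h4
  rw [sgM, ← h1]
  refine le_sigPos_of_posDef _ fun x hx => ?_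
  have h5 : ‖(x : J → ℝ)‖ ≠ 0 := norm_ne_zero_iff.2 fun e => hx (Subtype.ext e)
  have h6 := h4 (‖(x : J → ℝ)‖⁻¹ • (x : J → ℝ))
    ⟨by simp [norm_smul, h5], V.smul_mem _ x.2⟩
  rw [← L2_app, QuadraticMap.map_smul, smul_eq_mul] at h6
  rw [QuadraticMap.restrict_apply]
  exact (mul_pos_iff_of_pos_left (mul_self_pos.2 (inv_ne_zero h5))).1 h6

theorem L2_scale (G : Matrix J J ℝ) (s : J → ℝ) :
    (Matrix.of fun i j => G i j / (s i * s j)) =
      (diagonal fun i => (s i)⁻¹)ᵀ * G * diagonal fun i => (s i)⁻¹ := by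
  ext i j
  rw [diagonal_transpose, mul_diagonal, diagonal_mul, of_apply, div_eq_mul_inv, mul_inv]
  ring

theorem sg_cast (G : Matrix J J ℚ) (h : Gᵀ = G) : sgM (G.map (Rat.castHom ℝ)) = sgM G := by
  obtain ⟨P, d, hP, e⟩ := L2_orth G h
  have h1 : (P.map (Rat.castHom ℝ)).det ≠ 0 := by
    rw [← RingHom.mapMatrix_apply, ← RingHom.map_det]
    exact (_root_.map_ne_zero _).2 hP
  rw [← L2_congr G P hP, ← L2_congr _ _ h1, ← transpose_map, ← Matrix.map_mul, ← Matrix.map_mul, e,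
    diagonal_map (map_zero _), L2_diag, L2_diag]
  simp

theorem sg_scale (G : Matrix J J ℝ) (s : J → ℝ) (hs : ∀ j, s j ≠ 0) :
    sgM (Matrix.of fun i j => G i j / (s i * s j)) = sgM G := by
  rw [L2_scale, L2_congr]
  rw [det_diagonal]
  exact Finset.prod_ne_zero_iff.2 fun i _ => inv_ne_zero (hs i)

theorem sg_near (G : Matrix J J ℝ) (h : Gᵀ = G) (hd : G.det ≠ 0) :
    ∀ᶠ G' in 𝓝 G, G'.det ≠ 0 ∧ sgM G' = sgM G := by
  have h1 : ∀ᶠ G' in 𝓝 G, sgM (-G) ≤ sgM (-G') :=
    (continuous_neg.tendsto G).eventually (L2_lsc (-G))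
  have h2 : ∀ᶠ G' in 𝓝 G, G'.det ≠ 0 :=
    (continuous_id.matrix_det.tendsto G).eventually_ne hd
  filter_upwards [h1, h2, L2_lsc G] with G' k1 k2 k3
  have := L2_eq G h hd
  have := L2_le G'
  exact ⟨k2, by omega⟩

theorem sg_limit {α : Type*} (F : Filter α) (G : α → Matrix J J ℚ) (hG : ∀ n, (G n)ᵀ = G n)
    (G₀ : Matrix J J ℚ) (h₀ : G₀ᵀ = G₀) (hd : G₀.det ≠ 0) (s : α → J → ℝ)
    (hs : ∀ᶠ n in F, ∀ j, s n j ≠ 0)
    (h : ∀ i j, Tendsto (fun n => (G n i j : ℝ) / (s n i * s n j)) F (𝓝 (G₀ i j : ℝ))) :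
    ∀ᶠ n in F, (G n).det ≠ 0 ∧ sgM (G n) = sgM G₀ := by
  have h1 : Tendsto (fun n => Matrix.of fun i j => (G n).map (Rat.castHom ℝ) i j / (s n i * s n j))
      F (𝓝 (G₀.map (Rat.castHom ℝ))) :=
    tendsto_pi_nhds.2 fun i => tendsto_pi_nhds.2 fun j => h i j
  have h2 := h1.eventually (sg_near (G₀.map (Rat.castHom ℝ)) (by rw [← transpose_map, h₀]) (by
    rw [← RingHom.mapMatrix_apply, ← RingHom.map_det]
    exact (_root_.map_ne_zero _).2 hd))
  filter_upwards [h2, hs] with n k1 k2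
  obtain ⟨k3, k4⟩ := k1
  rw [sg_scale _ _ k2, sg_cast _ (hG n), sg_cast _ h₀] at k4
  refine ⟨fun e => k3 ?_, k4⟩
  rw [L2_scale, det_mul, det_mul, ← RingHom.mapMatrix_apply, ← RingHom.map_det, e, map_zero,
    mul_zero, zero_mul]

theorem sg_path {T : Type*} [TopologicalSpace T] [PreconnectedSpace T] (G : T → Matrix J J ℝ)
    (hG : Continuous G) (hs : ∀ x, (G x)ᵀ = G x) (hd : ∀ x, (G x).det ≠ 0) (x y : T) :
    sgM (G x) = sgM (G y) := by
  refine IsLocallyConstant.apply_eq_of_preconnectedSpace (f := fun x => sgM (G x))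
    ((IsLocallyConstant.iff_eventually_eq _).2 fun z => ?_) x y
  exact ((hG.tendsto z).eventually (sg_near (G z) (hs z) (hd z))).mono fun _ k => k.2

end Pool.Agent.Work.MP_ffcd14_ag.Gm
end

-- merged part: Pool.Agent.Work.MP_ffcd14_ag.Gm.L3
section
/-!
# Orthogonal polynomials for the exponential, and a counting lemma

Plan for `exists_orth`.  Take `π a = ∑ i ≤ a, (-1) ^ (a - i) * choose a i * (n - i)! / (n - a)! • X ^ i`.
Then `Lf n (π a * X ^ b) = (1 / (n - a)!) ∑ i ≤ a, (-1) ^ (a - i) * choose a i * descFactorial (n - i) b`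
(the term is `0` when `n - i < b`, on both sides).  The sum is the `a`-th forward difference at `0`
of the polynomial function `i ↦ (descPochhammer ℚ b).eval (n - i)` of degree `b` and leading
coefficient `(-1) ^ b`: it is `0` for `b < a` and `(-1) ^ a * a!` for `b = a`
(`fwdDiff_iter_eq_sum_shift`, `Polynomial.fwdDiff_iter_eq_zero_of_degree_lt`,
`Polynomial.fwdDiff_iter_degree_eq_factorial`, or a direct induction with Pascal's rule).

Plan for `defect`.  Summing `h1` and `h2` over `e ≤ d` gives the same total `∑ a, ∑ j ≤ f a, v a j`,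
so `h2` is an equality for `e ≤ d`.  Put `δ a j = v a (f a - j) - v a j` in `ℤ` for `j ≤ f a`.
By `hV`, `∑ a, δ a (e - c a) = 0` (sum over `c a ≤ e ≤ c a + f a`) for every `e ≤ d`.  Multiply by `e` and
sum over `e`: since `δ a (f a - j) = - δ a j`, `∑ j, δ a j = 0` and
`2 ∑ j, j * δ a j = ∑ j, (2 j - f a) * δ a j`, where every term is `≤ 0` by `hle`.  So all terms vanish.
-/

open Polynomial Finset

namespace Pool.Agent.Work.MP_ffcd14_ag.Gm

theorem L3_mono (n k : ℕ) (c : ℚ) :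
    Lf n (monomial k c) = if k ≤ n then c * ex (n - k) else 0 := by
  simp only [Lf, coeff_monomial, ite_mul, zero_mul, sum_ite_eq, mem_range, Nat.lt_succ_iff]

theorem L3_sum (n : ℕ) (s : Finset ℕ) (q : ℕ → ℚ[X]) :
    Lf n (∑ i ∈ s, q i) = ∑ i ∈ s, Lf n (q i) := by
  simp only [Lf, finsetSum_coeff, sum_mul]
  exact sum_comm

theorem L3_term {n i : ℕ} (hi : i ≤ n) (b : ℕ) (c : ℚ) :
    Lf n (monomial i (c * (n - i).factorial) * X ^ b) =
      c * ((descPochhammer ℚ b).comp (C (n : ℚ) - X)).eval (i : ℚ) := by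
  rw [monomial_mul_X_pow, L3_mono, eval_comp, eval_sub, eval_C, eval_X, ← Nat.cast_sub hi,
    descPochhammer_eval_eq_descFactorial]
  split_ifs with h
  · rw [← Nat.factorial_mul_descFactorial (show b ≤ n - i by omega), ex, Nat.sub_sub]
    have : ((n - (i + b)).factorial : ℚ) ≠ 0 := by positivity
    push_cast
    field_simp
  · rw [Nat.descFactorial_eq_zero_iff_lt.2 (by omega), Nat.cast_zero, mul_zero]

theorem L3_val {n a : ℕ} (ha : a ≤ n) (b : ℕ) : Lf n ((∑ i ∈ range (a + 1),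
    monomial i ((-1) ^ (a - i) * (a.choose i : ℚ) / (n - a).factorial * (n - i).factorial)) *
      X ^ b) = (fwdDiff 1)^[a] ((descPochhammer ℚ b).comp (C (n : ℚ) - X)).eval 0 /
        (n - a).factorial := by
  rw [sum_mul, L3_sum, fwdDiff_iter_eq_sum_shift, sum_div]
  refine sum_congr rfl fun i hi => ?_
  rw [L3_term ((Nat.lt_succ_iff.1 (mem_range.1 hi)).trans ha), zero_add, nsmul_one, zsmul_eq_mul]
  push_cast
  ring

theorem L3_deg (n b : ℕ) : ((descPochhammer ℚ b).comp (C (n : ℚ) - X)).natDegree = b ∧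
    ((descPochhammer ℚ b).comp (C (n : ℚ) - X)).leadingCoeff = (-1) ^ b := by
  have h1 : (C (n : ℚ) - X).natDegree = 1 := by
    rw [← natDegree_neg, neg_sub, natDegree_X_sub_C]
  have h2 : (C (n : ℚ) - X).leadingCoeff = -1 := by
    rw [← neg_sub, leadingCoeff_neg, leadingCoeff_X_sub_C]
  rw [natDegree_comp, leadingCoeff_comp (h1.trans_ne one_ne_zero), h1, h2, descPochhammer_natDegree,
    mul_one, monic_descPochhammer ℚ b, one_mul]
  exact ⟨rfl, rfl⟩

theorem exists_orth (n : ℕ) : ∃ π : ℕ → ℚ[X], ∀ a ≤ n, (π a).Monic ∧ (π a).natDegree = a ∧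
    (∀ b < a, Lf n (π a * X ^ b) = 0) ∧ 0 < (-1) ^ a * Lf n (π a * X ^ a) := by
  refine ⟨fun a => ∑ i ∈ range (a + 1), monomial i
    ((-1) ^ (a - i) * (a.choose i : ℚ) / (n - a).factorial * (n - i).factorial), fun a ha => ?_⟩
  have h0 : (0 : ℚ) < (n - a).factorial := by positivity
  have h1 := natDegree_sum_le_of_forall_le (range (a + 1)) (fun i => monomial i
    ((-1) ^ (a - i) * (a.choose i : ℚ) / (n - a).factorial * (n - i).factorial)) (n := a)
    fun i hi => (natDegree_monomial_le _).trans (Nat.lt_succ_iff.1 (mem_range.1 hi))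
  have h2 : (∑ i ∈ range (a + 1), monomial i ((-1) ^ (a - i) * (a.choose i : ℚ) /
      (n - a).factorial * (n - i).factorial)).coeff a = 1 := by
    simp [finsetSum_coeff, coeff_monomial, h0.ne']
  refine ⟨monic_of_natDegree_le_of_coeff_eq_one a h1 h2,
    natDegree_eq_of_le_of_coeff_ne_zero h1 (h2.trans_ne one_ne_zero), fun b hb => ?_, ?_⟩
  · rw [L3_val ha, Polynomial.fwdDiff_iter_eq_zero_of_degree_lt ((L3_deg n b).1.trans_lt hb),
      Pi.zero_apply, zero_div]
  · have h3 := ((descPochhammer ℚ a).comp (C (n : ℚ) - X)).fwdDiff_iter_degree_eq_factorial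
    rw [(L3_deg n a).1, (L3_deg n a).2] at h3
    rw [L3_val ha, h3, Pi.smul_apply, Pi.natCast_apply, smul_eq_mul, ← mul_div_assoc, ← mul_assoc,
      ← mul_pow, neg_mul_neg, one_mul, one_pow, one_mul]
    positivity

end Pool.Agent.Work.MP_ffcd14_ag.Gm
end

-- merged part: Pool.Agent.Work.MP_ffcd14_ag.Gm.L5a
section
/-!
# The Lefschetz decomposition modulo numerical equivalence

Plan.  `lef_surj`: take `Base.exists_NB n (n + E)`; the matrix `mat t e e (h ^ E)` is invertible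
(`IsNB.det_ne_zero` and `NHL`); solve for `z = ∑ ξ j • e j` with `t (h ^ E * z * e i) = t (y * e i)`;
then `y - h ^ E * z ∈ A (n + E)` is orthogonal to `A n` (`IsNB.exp`), use `N0_iff`.
`lef_dec`: `h ^ (E + 1) * x ∈ A (p + (E + 2))` with `2 p + (E + 2) = d`; apply `lef_surj`.
`lef_span`: strong induction on `n`.  If `n > d` then `x = 0`.  If `2 n ≤ d`: `n = 0` is trivial
(`h ^ (d + 1) * x = 0` by `high`), otherwise `lef_dec` and the induction hypothesis for `n - 1` (multiply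
by `h`, `N0.mul`; all `p ≤ n` satisfy `p + n ≤ d`).  If `d < 2 n ≤ 2 d`, use `lef_surj` with
`n' = d - n < n`, `E = 2 n - d` and the induction hypothesis for `n'`.
`prim_orth`: say `p < p'`; if `p + p' + r ≠ d` the degree is wrong (`t_deg`); otherwise
`r = (d - 2 p' + 1) + (p' - p - 1)` and `y` is primitive (note `2 p' ≤ d`).
`prim_nd`: by `NHL` and `N0_iff` it is enough to test against `A p`; decompose by `lef_dec`.
`hr_iff`: `sig_zero_iff`.  If the form `q = (-1) ^ p ∫ x y h ^ E` is `≥ 0` on `Prim` and `q x x = 0`,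
then `q x y = 0` for all primitive `y` (expand `q (x + s y) (x + s y) ≥ 0`), so `x` is `N0`.
-/

open Module

namespace Pool.Agent.Work.MP_ffcd14_ag.Gm.Rg

universe v w

variable {K : Type v} [Field K] [CharZero K] {R : Rg.{v, w} K} {h x y : R.B}

theorem Prim_le (h : R.B) (p : ℕ) : R.Prim h p ≤ R.A p := fun _ hx => hx.1

theorem l5a_orth (hh : h ∈ R.A 1) {p p' : ℕ} (hp' : 2 * p' ≤ R.d) (hlt : p < p')
    (hx : x ∈ R.A p) (hy : y ∈ R.Prim h p') (r : ℕ) : R.t (x * y * h ^ r) = 0 := by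
  by_cases hd : p + p' + r = R.d
  · have hr : r = (R.d - 2 * p' + 1) + (p' - p - 1) := by omega
    have e : x * y * h ^ r = h ^ (R.d - 2 * p' + 1) * y * (x * h ^ (p' - p - 1)) := by
      rw [hr, pow_add]
      ring
    rw [e]
    exact N0.t hy.2 (A_le _ (A_mul (pow_mem hh _) hy.1)) (A_le _ (A_mul hx (pow_mem hh _)))
  · exact t_deg (A_mul (A_mul hx hy.1) (pow_mem hh r)) hd

theorem l5a_zero (hh : h ∈ R.A 1) (hx : x ∈ R.A 0) : x ∈ R.Prim h 0 := by
  refine ⟨hx, ?_⟩
  rw [high (A_mul (pow_mem hh _) hx) (by omega)]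
  exact N0.zero

theorem l5a_quad {M : Type*} [AddCommGroup M] [Module ℚ M] {β : Bil M} (hβ : Sym β)
    {W : Submodule ℚ M} (hW : ∀ x ∈ W, β x x ≤ 0) {x y : M} (hx : x ∈ W) (hy : y ∈ W)
    (h0 : β x x = 0) : β x y = 0 := by
  have h1 : discrim (-β y y) (-(2 * β x y)) 0 ≤ 0 := discrim_le_zero fun s => by
    have h2 := hW (x + s • y) (add_mem hx (W.smul_mem s hy))
    simp only [map_add, map_smul, LinearMap.add_apply, LinearMap.smul_apply, smul_eq_mul, h0,
      hβ y x] at h2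
    linarith
  rw [discrim] at h1
  exact pow_eq_zero_iff (two_ne_zero) |>.1 (le_antisymm (by linarith) (sq_nonneg _))

theorem prim_orth (hh : h ∈ R.A 1) {p p' : ℕ} (hp : 2 * p ≤ R.d) (hp' : 2 * p' ≤ R.d)
    (hne : p ≠ p') (hx : x ∈ R.Prim h p) (hy : y ∈ R.Prim h p') (r : ℕ) :
    R.t (x * y * h ^ r) = 0 := by
  rcases lt_or_gt_of_ne hne with hlt | hlt
  · exact l5a_orth hh hp' hlt hx.1 hy r
  · rw [mul_comm x y]
    exact l5a_orth hh hp hlt hy.1 hx r

variable (hh : h ∈ R.A 1) (H : R.NHL h)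
include hh H

theorem lef_surj {n E : ℕ} (hn : 2 * n + E = R.d) (hy : y ∈ R.A (n + E)) :
    ∃ z ∈ R.A n, R.N0 (y - h ^ E * z) := by
  obtain ⟨ρ, e, e', hb⟩ := R.S.exists_NB n (n + E)
  have hdet := hb.det_ne_zero (h ^ E) (fun x hx => R.S.mul_pow_mem hh E hx) (H n E hn)
  obtain ⟨ξ, hξ⟩ : ∃ ξ : Fin ρ → ℚ,
      (mat R.S.t e e (h ^ E)).mulVec ξ = fun i => R.t (e i * y) :=
    ⟨(mat R.S.t e e (h ^ E))⁻¹.mulVec _, by
      rw [Matrix.mulVec_mulVec, Matrix.mul_nonsing_inv _ (isUnit_iff_ne_zero.2 hdet),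
        Matrix.one_mulVec]⟩
  rw [mat_mulVec] at hξ
  have hz : ∑ j, ξ j • e j ∈ R.A n := Submodule.sum_mem _ fun j _ => Submodule.smul_mem _ _ (hb.mem j)
  have hw : y - h ^ E * ∑ j, ξ j • e j ∈ R.A (n + E) :=
    sub_mem hy (by rw [mul_comm]; exact R.S.mul_pow_mem hh E hz)
  refine ⟨_, hz, (N0_iff (j := n) hw (by omega)).2 fun x hx => ?_⟩
  rw [mul_comm]
  refine (hb.exp x hx _ hw).trans (Finset.sum_eq_zero fun j _ => ?_)
  have h1 := congrFun hξ j
  rw [mul_sub, map_sub, mul_comm (h ^ E), ← mul_assoc, h1, sub_self, mul_zero]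

theorem lef_dec {p : ℕ} (hp : 2 * (p + 1) ≤ R.d) (hx : x ∈ R.A (p + 1)) :
    ∃ z ∈ R.A p, x - h * z ∈ R.Prim h (p + 1) := by
  obtain ⟨E, hE⟩ : ∃ E, R.d = 2 * (p + 1) + E := ⟨R.d - 2 * (p + 1), by omega⟩
  have hy : h ^ (E + 1) * x ∈ R.A (p + (E + 2)) := by
    have h1 := A_mul (pow_mem hh (E + 1)) hx
    rwa [show E + 1 + (p + 1) = p + (E + 2) by omega] at h1
  obtain ⟨z, hz, h1⟩ := lef_surj hh H (n := p) (E := E + 2) (by omega) hy
  refine ⟨z, hz, sub_mem hx (by rw [add_comm]; exact A_mul hh hz), ?_⟩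
  rw [show R.d - 2 * (p + 1) + 1 = E + 1 by omega,
    show h ^ (E + 1) * (x - h * z) = h ^ (E + 1) * x - h ^ (E + 2) * z by ring]
  exact h1

theorem lef_span {n : ℕ} (hx : x ∈ R.A n) : ∃ u : ℕ → R.B, (∀ p, u p ∈ R.Prim h p) ∧
    R.N0 (x - ∑ p ∈ Finset.range (n + 1) with p + n ≤ R.d, h ^ (n - p) * u p) := by
  induction n using Nat.strong_induction_on generalizing x with
  | _ n ih =>
  by_cases h1 : R.d < n
  · refine ⟨fun _ => 0, fun p => zero_mem _, ?_⟩
    simp only [high hx h1, mul_zero, Finset.sum_const_zero, sub_zero]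
    exact N0.zero
  by_cases h2 : 2 * n ≤ R.d
  · rw [Finset.filter_true_of_mem fun p hp => by have := Finset.mem_range.1 hp; omega]
    rcases n with _ | n
    · refine ⟨Function.update (fun _ => 0) 0 x, fun p => ?_, ?_⟩
      · by_cases hp : p = 0
        · rw [hp, Function.update_self]
          exact l5a_zero hh hx
        · rw [Function.update_of_ne hp]
          exact zero_mem _
      · simp only [zero_add, Finset.range_one, Finset.sum_singleton, Function.update_self,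
          Nat.sub_self, pow_zero, one_mul, sub_self]
        exact N0.zero
    · obtain ⟨z, hz, hpr⟩ := lef_dec hh H h2 hx
      obtain ⟨u, hu, h3⟩ := ih n (Nat.lt_succ_self n) hz
      rw [Finset.filter_true_of_mem fun p hp => by have := Finset.mem_range.1 hp; omega] at h3
      refine ⟨Function.update u (n + 1) (x - h * z), fun p => ?_, ?_⟩
      · by_cases hp : p = n + 1
        · rw [hp, Function.update_self]
          exact hpr
        · rw [Function.update_of_ne hp]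
          exact hu p
      · have e : ∑ p ∈ Finset.range (n + 1),
            h ^ (n + 1 - p) * Function.update u (n + 1) (x - h * z) p =
              (∑ p ∈ Finset.range (n + 1), h ^ (n - p) * u p) * h := by
          rw [Finset.sum_mul]
          refine Finset.sum_congr rfl fun p hp => ?_
          have := Finset.mem_range.1 hp
          rw [Function.update_of_ne (by omega), show n + 1 - p = n - p + 1 by omega]
          ring
        rw [Finset.sum_range_succ, e, Function.update_self, Nat.sub_self]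
        convert h3.mul (A_le _ hh) using 1
        ring
  · obtain ⟨m, E, hE, rfl⟩ : ∃ m E, 2 * m + E = R.d ∧ n = m + E :=
      ⟨R.d - n, 2 * n - R.d, by omega, by omega⟩
    obtain ⟨z, hz, h3⟩ := lef_surj hh H hE hx
    obtain ⟨u, hu, h4⟩ := ih m (by omega) hz
    rw [Finset.filter_true_of_mem fun p hp => by have := Finset.mem_range.1 hp; omega] at h4
    refine ⟨u, hu, ?_⟩
    have e1 : (Finset.range (m + E + 1)).filter (fun p => p + (m + E) ≤ R.d) =
        Finset.range (m + 1) := by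
      ext p
      simp only [Finset.mem_filter, Finset.mem_range]
      omega
    have e : ∑ p ∈ Finset.range (m + 1), h ^ (m + E - p) * u p =
        (∑ p ∈ Finset.range (m + 1), h ^ (m - p) * u p) * h ^ E := by
      rw [Finset.sum_mul]
      refine Finset.sum_congr rfl fun p hp => ?_
      have := Finset.mem_range.1 hp
      rw [show m + E - p = m - p + E by omega]
      ring
    rw [e1, e]
    convert h3.add (h4.mul (A_le _ (pow_mem hh E))) using 1
    ring

theorem prim_nd {p : ℕ} (hp : 2 * p ≤ R.d) : R.ND (h ^ (R.d - 2 * p)) (R.Prim h p) := by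
  intro x hx h0
  refine (N0_iff (j := p + (R.d - 2 * p)) hx.1 (by omega)).2
    (H p (R.d - 2 * p) (by omega) x hx.1 fun y hy => ?_)
  rcases p with _ | p
  · exact h0 y (l5a_zero hh hy)
  · obtain ⟨z, hz, hpr⟩ := lef_dec hh H hp hy
    have h1 := N0.t hx.2 (A_le _ (A_mul (pow_mem hh _) hx.1)) (A_le _ hz)
    have e : x * y * h ^ (R.d - 2 * (p + 1)) = x * (y - h * z) * h ^ (R.d - 2 * (p + 1)) +
        h ^ (R.d - 2 * (p + 1) + 1) * x * z := by ring
    rw [e, map_add, h0 _ hpr, h1, add_zero]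

theorem hr_iff {p : ℕ} (hp : 2 * p ≤ R.d) : R.S.HR h p (R.d - 2 * p) ↔
    R.sg ((-(-1) ^ p : ℚ) • h ^ (R.d - 2 * p)) (R.Prim h p) = 0 := by
  have hz : h ^ (R.d - 2 * p) ∈ R.Alg := A_le _ (pow_mem hh _)
  have hW : R.Prim h p ≤ R.Alg := (Prim_le h p).trans (A_le p)
  have hc : (-(-1) ^ p : ℚ) ≠ 0 := neg_ne_zero.2 (pow_ne_zero _ (by norm_num))
  have hq : ∀ x y : R.B, R.Qf ((-(-1) ^ p : ℚ) • h ^ (R.d - 2 * p)) x y =
      -((-1) ^ p * R.t (x * y * h ^ (R.d - 2 * p))) := fun x y => by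
    rw [Qf_apply, mul_smul_comm, map_smul, smul_eq_mul, neg_mul]
  have hcast : ∀ x ∈ R.Prim h p, (-1) ^ p * R.tr (x * x * h ^ (R.d - 2 * p)) =
      (((-1) ^ p * R.t (x * x * h ^ (R.d - 2 * p)) : ℚ) : K) := fun x hx => by
    rw [← t_cast (alg_mul (alg_mul (hW hx) (hW hx)) hz)]
    push_cast
    rfl
  rw [sg, sig_zero_iff (R.Qf_sym _) (fr hW (Submodule.smul_mem _ _ hz))]
  constructor
  · intro hr x hx
    rw [hq, neg_nonpos]
    by_cases h0 : R.N0 x
    · rw [mul_assoc, N0.t h0 (hW hx) (alg_mul (hW hx) hz), mul_zero]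
    · obtain ⟨q, hq0, e⟩ := hr x hx.1 hx.2 h0
      rw [Rat.cast_injective ((hcast x hx).symm.trans e)]
      exact hq0.le
  · intro hr x hx1 hx2 h0
    have hx : x ∈ R.Prim h p := ⟨hx1, hx2⟩
    refine ⟨_, lt_of_le_of_ne (neg_nonpos.1 ((hq x x).symm.trans_le (hr x hx))) fun e => h0 ?_,
      hcast x hx⟩
    exact (prim_nd hh H hp).smul hc x hx fun y hy =>
      l5a_quad (R.Qf_sym _) hr hx hy (by rw [hq, ← e, neg_zero])

end Pool.Agent.Work.MP_ffcd14_ag.Gm.Rg
end

-- merged part: Pool.Agent.Work.MP_ffcd14_ag.Gm.L5b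
section
/-!
# The form `∫ x y exp h` on the classes of codimension less than `m`

Plan.  For `2 p ≤ d`, `n = d - 2 p`, let `π p a` (`a ≤ n`) be the polynomials of `exists_orth n`, and
`c p a = Lf n (π p a * π p a) = Lf n (π p a * X ^ a)`, of sign `(-1) ^ a`; `Lf n (π p a * π p b) = 0` for
`a ≠ b` (expand the polynomial of smaller degree; `Lf` is linear).
`th_prim`: `t (x * y * aeval h q * Th ex h) = Lf n q * t (x * y * h ^ n)` for `x, y ∈ A p` (linear in `q`,
on monomials only the degree `d` survives, `t_deg`).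
Index set `I m = {(p, a) | 2 p ≤ d, a ≤ d - 2 p, p + a < m}` (a `Finset (ℕ × ℕ)`, as a subtype), maps
`f (p, a) x = aeval h (π p a) * x` from `Prim h p` to `Wm m`.  They are orthogonal (`prim_orth`,
`th_prim`) and span modulo `N0` (`lef_span`; `X ^ a` is a combination of the `π p b`, `b ≤ a`:
induction on `a` with monicity).  `th_formula` is `sig_sum` with `sg_smul`.
`lefstep`: `I (m + 1)` is `I m` together with the pairs `(p, m - p)`, `p ≤ m`, `p + m ≤ d`.
`theta_nd`: write `x ≡ ∑ f i (u i)`; testing against `f i y` shows that `u i` is orthogonal to `Prim`,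
so it is `N0` (`prim_nd`).
-/

open Module Polynomial

namespace Pool.Agent.Work.MP_ffcd14_ag.Gm.Rg

universe v w

theorem L5b_add (n : ℕ) (q q' : ℚ[X]) : Lf n (q + q') = Lf n q + Lf n q' := by
  simp only [Lf, coeff_add, add_mul, Finset.sum_add_distrib]

theorem L5b_low {n a : ℕ} {π : ℚ[X]} (h0 : ∀ b < a, Lf n (π * X ^ b) = 0) (c : ℕ → ℚ) :
    Lf n (π * ∑ i ∈ Finset.range a, C (c i) * X ^ i) = 0 := by
  have : ∀ i ∈ Finset.range a, ∑ j ∈ Finset.range (n + 1),
      (π * (C (c i) * X ^ i)).coeff j * ex (n - j) = 0 := fun i hi => by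
    have := h0 i (Finset.mem_range.1 hi)
    simp only [mul_left_comm π, coeff_C_mul, mul_assoc, ← Finset.mul_sum]
    rw [Lf] at this
    rw [this, mul_zero]
  simp only [Lf, Finset.mul_sum, finsetSum_coeff, Finset.sum_mul]
  rw [Finset.sum_comm]
  exact Finset.sum_eq_zero this

theorem L5b_orth (n : ℕ) : ∃ π : ℕ → ℚ[X], ∀ a ≤ n,
    (π a = X ^ a + ∑ i ∈ Finset.range a, C ((π a).coeff i) * X ^ i) ∧
    (∀ b < a, Lf n (π a * π b) = 0) ∧ 0 < (-1) ^ a * Lf n (π a * π a) := by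
  obtain ⟨π, hπ⟩ := exists_orth n
  refine ⟨π, fun a ha => ?_⟩
  obtain ⟨h1, h2, h3, h4⟩ := hπ a ha
  have e := h1.as_sum
  rw [h2] at e
  refine ⟨e, fun b hb => ?_, ?_⟩
  · have e' := (π b).as_sum_range_C_mul_X_pow' (n := a) (by rw [(hπ b (by omega)).2.1]; exact hb)
    rw [e']
    exact L5b_low h3 _
  · nth_rewrite 2 [e]
    rw [mul_add, L5b_add, L5b_low h3, add_zero]
    exact h4

theorem L5b_step (d m : ℕ) (F : ℕ × ℕ → ℕ) :
    ∑ i ∈ Finset.range (m + 1) ×ˢ Finset.range (m + 1) with 2 * i.1 + i.2 ≤ d ∧ i.1 + i.2 < m + 1,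
      F i = ∑ i ∈ Finset.range m ×ˢ Finset.range m with 2 * i.1 + i.2 ≤ d ∧ i.1 + i.2 < m, F i +
      ∑ p ∈ Finset.range (m + 1) with p + m ≤ d, F (p, m - p) := by
  rw [← Finset.sum_filter_add_sum_filter_not _ fun i : ℕ × ℕ => i.1 + i.2 < m]
  congr 1
  · refine Finset.sum_congr ?_ fun _ _ => rfl
    ext i
    simp only [Finset.mem_filter, Finset.mem_product, Finset.mem_range]
    omega
  · refine Finset.sum_nbij' (fun i => i.1) (fun p => (p, m - p)) ?_ ?_ ?_ ?_ ?_
    · intro i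
      simp only [Finset.mem_filter, Finset.mem_product, Finset.mem_range]
      omega
    · intro i
      simp only [Finset.mem_filter, Finset.mem_product, Finset.mem_range]
      omega
    · intro i
      simp only [Finset.mem_filter, Finset.mem_product, Finset.mem_range]
      intro hi
      exact Prod.ext rfl (by simp only; omega)
    · intro i _
      rfl
    · intro i hi
      simp only [Finset.mem_filter, Finset.mem_product, Finset.mem_range] at hi
      rw [show m - i.1 = i.2 by omega]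

variable {K : Type v} [Field K] [CharZero K] {R : Rg.{v, w} K} {h x y : R.B}
  (hh : h ∈ R.A 1)
include hh

theorem th_prim {p : ℕ} (hp : 2 * p ≤ R.d) (hx : x ∈ R.A p) (hy : y ∈ R.A p) (q : ℚ[X]) :
    R.t (x * y * aeval h q * R.Th ex h) =
      Lf (R.d - 2 * p) q * R.t (x * y * h ^ (R.d - 2 * p)) := by
  induction q using Polynomial.induction_on' with
  | add q q' h1 h2 => simp only [map_add, mul_add, add_mul, h1, h2, L5b_add]
  | monomial i a =>
    have e : ∀ r, x * y * aeval h (monomial i a) * (ex r • h ^ r) =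
        (a * ex r) • (x * y * h ^ (i + r)) := fun r => by
      rw [aeval_monomial, ← Algebra.smul_def, mul_smul_comm, mul_smul_comm, smul_mul_assoc,
        smul_smul, mul_comm (ex r), pow_add, mul_assoc (x * y)]
    have e0 : ∀ r, i + r ≠ R.d - 2 * p → R.t (x * y * h ^ (i + r)) = 0 := fun r hr =>
      t_deg (A_mul (A_mul hx hy) (pow_mem hh _)) (by omega)
    simp only [Th, Finset.mul_sum, e, map_sum, map_smul, smul_eq_mul, Lf, coeff_monomial, ite_mul,
      zero_mul, Finset.sum_ite_eq, Finset.mem_range]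
    split_ifs with hi
    · rw [Finset.sum_eq_single (R.d - 2 * p - i) (fun r _ hr => by rw [e0 r (by omega), mul_zero])
        (fun hr => absurd (Finset.mem_range.2 (by omega)) hr),
        show i + (R.d - 2 * p - i) = R.d - 2 * p by omega]
    · exact Finset.sum_eq_zero fun r _ => by rw [e0 r (by omega), mul_zero]

theorem L5b_cross {p p' : ℕ} (hp : 2 * p ≤ R.d) (hp' : 2 * p' ≤ R.d) (hne : p ≠ p')
    (hx : x ∈ R.Prim h p) (hy : y ∈ R.Prim h p') (q : ℚ[X]) :
    R.t (x * y * aeval h q * R.Th ex h) = 0 := by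
  have e : R.Th ex h = aeval h (∑ r ∈ Finset.range (R.d + 1), ex r • (X : ℚ[X]) ^ r) := by
    simp [Th, map_sum]
  rw [e, mul_assoc, ← map_mul]
  generalize q * _ = q
  induction q using Polynomial.induction_on' with
  | add q q' h1 h2 => simp only [map_add, mul_add, h1, h2, add_zero]
  | monomial i a =>
    rw [aeval_monomial, ← Algebra.smul_def, mul_smul_comm, map_smul,
      prim_orth hh hp hp' hne hx hy, smul_zero]

theorem L5b_alg (q : ℚ[X]) : aeval h q ∈ R.Alg := by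
  induction q using Polynomial.induction_on' with
  | add q q' h1 h2 => rw [map_add]; exact add_mem h1 h2
  | monomial i a =>
    rw [aeval_monomial, ← Algebra.smul_def]
    exact Submodule.smul_mem _ _ (A_le _ (pow_mem hh i))

variable (H : R.NHL h)
include H

theorem L5b_data (m : ℕ) (I : Finset (ℕ × ℕ))
    (hI : ∀ i, i ∈ I ↔ 2 * i.1 + i.2 ≤ R.d ∧ i.1 + i.2 < m) :
    ∃ (g : ℕ × ℕ → R.B) (c : ℕ × ℕ → ℚ), (∀ i, g i ∈ R.Alg) ∧ (∀ i ∈ I, 0 < (-1) ^ i.2 * c i) ∧
      (∀ i ∈ I, ∀ x ∈ R.Prim h i.1, g i * x ∈ R.Wm m) ∧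
      (∀ i ∈ I, ∀ x ∈ R.Prim h i.1, ∀ y ∈ R.Prim h i.1,
        R.t (g i * x * (g i * y) * R.Th ex h) = c i * R.t (x * y * h ^ (R.d - 2 * i.1))) ∧
      (∀ i ∈ I, ∀ j ∈ I, i ≠ j → ∀ x ∈ R.Prim h i.1, ∀ y ∈ R.Prim h j.1,
        R.t (g i * x * (g j * y) * R.Th ex h) = 0) ∧
      ∀ z ∈ R.Wm m, ∃ u : ℕ × ℕ → R.B, (∀ i, u i ∈ R.Prim h i.1) ∧
        R.N0 (z - ∑ i ∈ I, g i * u i) := by
  choose π hπ using L5b_orth
  have hπ' : ∀ i ∈ I, _ := fun i hi => hπ (R.d - 2 * i.1) i.2 (by have := (hI i).1 hi; omega)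
  have ex1 : ∀ i ∈ I, ∀ x, aeval h (π (R.d - 2 * i.1) i.2) * x = h ^ i.2 * x +
      ∑ b ∈ Finset.range i.2, (π (R.d - 2 * i.1) i.2).coeff b • (h ^ b * x) := fun i hi x => by
    conv_lhs => rw [(hπ' i hi).1]
    simp only [map_add, map_pow, aeval_X, map_sum, map_mul, aeval_C, add_mul, Finset.sum_mul,
      Algebra.smul_def, mul_assoc]
  have ex2 : ∀ (q q' : ℚ[X]) (x y : R.B), aeval h q * x * (aeval h q' * y) =
      x * y * aeval h (q * q') := fun q q' x y => by rw [map_mul]; ring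
  refine ⟨fun i => aeval h (π (R.d - 2 * i.1) i.2),
    fun i => Lf (R.d - 2 * i.1) (π (R.d - 2 * i.1) i.2 * π (R.d - 2 * i.1) i.2),
    fun i => L5b_alg hh _, fun i hi => (hπ' i hi).2.2, fun i hi x hx => ?_,
    fun i hi x hx y hy => ?_, fun i hi j hj hij x hx y hy => ?_, ?_⟩
  · have := (hI i).1 hi
    rw [ex1 i hi]
    refine add_mem (A_le_Wm (by omega) (A_mul (pow_mem hh _) hx.1))
      (Submodule.sum_mem _ fun b hb => Submodule.smul_mem _ _
        (A_le_Wm ?_ (A_mul (pow_mem hh _) hx.1)))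
    have := Finset.mem_range.1 hb
    omega
  · have := (hI i).1 hi
    rw [ex2, th_prim hh (by omega) hx.1 hy.1]
  · have a1 := (hI i).1 hi
    have a2 := (hI j).1 hj
    rw [ex2]
    by_cases hp : i.1 = j.1
    · rw [← hp] at hy ⊢
      rw [th_prim hh (by omega) hx.1 hy.1]
      rcases lt_trichotomy i.2 j.2 with hl | hl | hl
      · rw [mul_comm (π _ _), (hπ _ j.2 (by omega)).2.1 _ hl, zero_mul]
      · exact absurd (Prod.ext hp hl) hij
      · rw [(hπ _ i.2 (by omega)).2.1 _ hl, zero_mul]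
    · exact L5b_cross hh (by omega) (by omega) hp hx hy _
  · let Z : Submodule ℚ R.B :=
      { carrier := {z | ∃ u : ℕ × ℕ → R.B, (∀ i, u i ∈ R.Prim h i.1) ∧
          R.N0 (z - ∑ i ∈ I, aeval h (π (R.d - 2 * i.1) i.2) * u i)}
        add_mem' := by
          rintro z z' ⟨u, u1, u2⟩ ⟨u', u3, u4⟩
          refine ⟨u + u', fun i => add_mem (u1 i) (u3 i), ?_⟩
          convert N0.add u2 u4 using 1
          simp only [Pi.add_apply, mul_add, Finset.sum_add_distrib]
          ring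
        zero_mem' := ⟨0, fun i => zero_mem _, by simpa using N0.zero⟩
        smul_mem' := by
          rintro q z ⟨u, u1, u2⟩
          refine ⟨q • u, fun i => Submodule.smul_mem _ _ (u1 i), ?_⟩
          convert N0.smul q u2 using 1
          simp only [Pi.smul_apply, mul_smul_comm, smul_sub, Finset.smul_sum] }
    have z1 : ∀ i ∈ I, ∀ x ∈ R.Prim h i.1, aeval h (π (R.d - 2 * i.1) i.2) * x ∈ Z :=
      fun i hi x hx => ⟨Pi.single i x, fun j => by
        by_cases hj : j = i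
        · rw [hj, Pi.single_eq_same]; exact hx
        · rw [Pi.single_eq_of_ne hj]; exact zero_mem _, by
        rw [Finset.sum_eq_single i (fun j _ hj => by rw [Pi.single_eq_of_ne hj, mul_zero])
          (fun h' => absurd hi h'), Pi.single_eq_same, sub_self]
        exact N0.zero⟩
    have z2 : ∀ p, ∀ x ∈ R.Prim h p, ∀ a, (p, a) ∈ I → h ^ a * x ∈ Z := fun p x hx a => by
      induction a using Nat.strong_induction_on with
      | _ a ih =>
        intro hi
        have := z1 _ hi x hx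
        rw [ex1 _ hi] at this
        refine (Submodule.add_mem_iff_left _ (Submodule.sum_mem _ fun b hb =>
          Submodule.smul_mem _ _ (ih b (Finset.mem_range.1 hb) ((hI _).2 ?_)))).1 this
        have a1 := (hI _).1 hi
        have a2 := Finset.mem_range.1 hb
        simp only at a1 a2 ⊢
        omega
    refine (iSup_le fun n z hz => ?_ : R.Wm m ≤ Z)
    obtain ⟨u, u1, u2⟩ := lef_span hh H hz
    obtain ⟨u', u3, u4⟩ : ∑ p ∈ Finset.range (n + 1) with p + n ≤ R.d, h ^ (n - p) * u p ∈ Z :=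
      Submodule.sum_mem _ fun p hp => z2 p _ (u1 p) _ ((hI _).2 (by
        have := n.2
        simp only [Finset.mem_filter, Finset.mem_range] at hp ⊢
        omega))
    exact ⟨u', u3, by simpa using N0.add u2 u4⟩

theorem th_formula (ε : ℚ) (m : ℕ) : R.sg (ε • R.Th ex h) (R.Wm m) =
    ∑ i ∈ Finset.range m ×ˢ Finset.range m with 2 * i.1 + i.2 ≤ R.d ∧ i.1 + i.2 < m,
      R.sg ((ε * (-1) ^ i.2) • h ^ (R.d - 2 * i.1)) (R.Prim h i.1) := by
  generalize hI : (Finset.range m ×ˢ Finset.range m).filter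
    (fun i => 2 * i.1 + i.2 ≤ R.d ∧ i.1 + i.2 < m) = I
  obtain ⟨g, c, h1, h2, h3, h4, h5, h6⟩ := L5b_data hh H m I fun i => by
    simp only [← hI, Finset.mem_filter, Finset.mem_product, Finset.mem_range]
    omega
  have hs := sig_sum (W := R.Wm m) (R.Qf_sym (ε • R.Th ex h)) (ι := I) (N := fun _ => R.B)
    (fun i => R.Qf ((ε * c i) • h ^ (R.d - 2 * i.1.1))) (fun i => R.Prim h i.1.1)
    (fun i => LinearMap.mulLeft ℚ (g i)) (fun i => R.Qf_sym _)
    (fun i => fr ((Prim_le h _).trans (A_le _))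
      (Submodule.smul_mem _ _ (A_le _ (pow_mem hh _))))
    (fun i => h3 i i.2)
    (fun i x hx y hy => by
      simp only [LinearMap.mulLeft_apply, Qf_apply, mul_smul_comm, map_smul, smul_eq_mul,
        h4 i i.2 x hx y hy, mul_assoc ε])
    (fun i j hij x hx y hy => by
      simp only [LinearMap.mulLeft_apply, Qf_apply, mul_smul_comm, map_smul,
        h5 i i.2 j j.2 (fun e => hij (Subtype.ext e)) x hx y hy, smul_zero])
    (fun z hz => by
      obtain ⟨u, u1, u2⟩ := h6 z hz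
      refine ⟨fun i => u i, fun i => u1 i, fun y hy => ?_⟩
      simp only [LinearMap.mulLeft_apply, Qf_apply]
      rw [Finset.sum_coe_sort I fun i => g i * u i, mul_assoc]
      exact N0.t u2 (sub_mem (Wm_le m hz) (Submodule.sum_mem _ fun i _ =>
        alg_mul (h1 i) (A_le _ (u1 i).1)))
        (alg_mul (Wm_le m hy) (Submodule.smul_mem _ _ (Th_mem _ hh))))
  rw [sg, hs, ← Finset.sum_coe_sort I]
  refine Finset.sum_congr rfl fun i _ => ?_
  rw [← sg_smul _ (h2 i i.2), smul_smul, sg]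
  congr 3
  have : ((-1 : ℚ) ^ i.1.2) ^ 2 = 1 := by rw [← pow_mul, mul_comm, pow_mul]; simp
  linear_combination (-(ε * c i)) * this

theorem lefstep (ε : ℚ) (m : ℕ) : R.sg (ε • R.Th ex h) (R.Wm (m + 1)) =
    R.sg (ε • R.Th ex h) (R.Wm m) + ∑ p ∈ Finset.range (m + 1) with p + m ≤ R.d,
      R.sg ((ε * (-1) ^ (m - p)) • h ^ (R.d - 2 * p)) (R.Prim h p) := by
  rw [th_formula hh H, th_formula hh H, L5b_step]

theorem theta_nd (m : ℕ) : R.ND (R.Th ex h) (R.Wm m) := by
  intro x hx h0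
  obtain ⟨I, hI⟩ : ∃ I : Finset (ℕ × ℕ), ∀ i, i ∈ I ↔ 2 * i.1 + i.2 ≤ R.d ∧ i.1 + i.2 < m :=
    ⟨(Finset.range m ×ˢ Finset.range m).filter fun i => 2 * i.1 + i.2 ≤ R.d ∧ i.1 + i.2 < m,
      fun i => by
        simp only [Finset.mem_filter, Finset.mem_product, Finset.mem_range]
        omega⟩
  obtain ⟨g, c, h1, h2, h3, h4, h5, h6⟩ := L5b_data hh H m I hI
  obtain ⟨u, u1, u2⟩ := h6 x hx
  have hu : ∀ i ∈ I, R.N0 (u i) := fun i hi => by
    refine prim_nd hh H (by have := (hI i).1 hi; omega) (u i) (u1 i) fun y hy => ?_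
    have a1 := N0.t u2 (sub_mem (Wm_le m hx) (Submodule.sum_mem _ fun i _ =>
      alg_mul (h1 i) (A_le _ (u1 i).1))) (alg_mul (Wm_le m (h3 i hi y hy)) (Th_mem ex hh))
    rw [sub_mul, map_sub, ← mul_assoc, h0 _ (h3 i hi y hy), Finset.sum_mul, map_sum,
      Finset.sum_eq_single i (fun j hj hne => by rw [← mul_assoc, h5 j hj i hi hne _ (u1 j) y hy])
        (fun h' => absurd hi h'), ← mul_assoc, h4 i hi _ (u1 i) y hy, zero_sub, neg_eq_zero] at a1
    refine (mul_eq_zero.1 a1).resolve_left fun hc => ?_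
    have := h2 i hi
    rw [hc, mul_zero] at this
    exact lt_irrefl _ this
  have := N0.add u2 (N0.sum I (fun i => g i * u i) fun i hi => by
    rw [mul_comm]; exact N0.mul (hu i hi) (h1 i))
  simpa using this

end Pool.Agent.Work.MP_ffcd14_ag.Gm.Rg
end

-- merged part: Pool.Agent.Work.MP_ffcd14_ag.Gm.L6
section
/-!
# Asymptotics

Plan.  `choose_lim`: `Nat.choose` and `descFactorial` (`Nat.isEquivalent_choose`, or the product of
the factors `(s - i) / s`).
`ts_small`: for `s ≥ r` every term of `Ts` is `O (s ^ r (m + 1) ^ s)`, while the denominator is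
`√(a b) ^ s` times a power of `√s` and a constant; `(m + 1) / √(a b) < 1`, use
`tendsto_pow_const_mul_const_pow_of_abs_lt_one` (bound `√(s / a) ^ f ≥ 1` and `(s / a) ^ j ≤ s ^ j`
for `s ≥ a ≥ 1`).
`ts_main`: for `s > 0` the denominator is `a ^ s * (s / a) ^ f / (s / a) ^ (j + j')` with `a = m + 1`;
the `i`-th term is `(choose s i / s ^ i) * β (r - i) * (s / a) ^ i / (s / a) ^ (f - j - j')` for `s ≥ i`.
`poly_lim`: termwise, `q ^ (s - r) / q ^ n` tends to `1` or `0`.
-/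

open Filter Topology

namespace Pool.Agent.Work.MP_ffcd14_ag.Gm

theorem L6_inv {g : ℕ → ℝ} (hg : Tendsto g atTop atTop) (k : ℕ) :
    Tendsto (fun s => (g s ^ k)⁻¹) atTop (𝓝 (if k = 0 then 1 else 0)) := by
  split_ifs with h
  · simp [h]
  · exact ((tendsto_pow_atTop h).comp hg).inv_tendsto_atTop

theorem L6_scl {a s : ℕ} (ha : 0 < a) (hs : a ≤ s) (f j : ℕ) :
    √(a : ℝ) ^ s / (s : ℝ) ^ j ≤ scl a f j s := by
  have h1 : (1 : ℝ) ≤ a := by exact_mod_cast ha
  have h2 : (a : ℝ) ≤ s := by exact_mod_cast hs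
  have h3 : (1 : ℝ) ≤ s / a := (one_le_div (by linarith)).2 h2
  have h4 : (s : ℝ) / a ≤ s := div_le_self (by linarith) h1
  have h5 : (1 : ℝ) ≤ √((s : ℝ) / a) ^ f := one_le_pow₀ (Real.one_le_sqrt.2 h3)
  exact div_le_div₀ (by positivity) (le_mul_of_one_le_right (by positivity) h5) (by positivity)
    (pow_le_pow_left₀ (by linarith) h4 j)

theorem choose_lim (r : ℕ) :
    Tendsto (fun s : ℕ => (s.choose r : ℝ) / (s : ℝ) ^ r) atTop (𝓝 (ex r : ℝ)) := by
  have h := (isEquivalent_choose r).div (Asymptotics.IsEquivalent.refl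
    (u := fun s : ℕ => (s : ℝ) ^ r))
  refine h.symm.tendsto_nhds (tendsto_const_nhds.congr' ?_)
  filter_upwards [eventually_gt_atTop 0] with s hs
  have : (s : ℝ) ≠ 0 := Nat.cast_ne_zero.2 hs.ne'
  simp only [ex, Pi.div_apply]
  push_cast
  field_simp

theorem scl_ne {a s : ℕ} (ha : 0 < a) (hs : 0 < s) (f j : ℕ) : scl a f j s ≠ 0 := by
  have h1 : (0 : ℝ) < a := by exact_mod_cast ha
  have h2 : (0 : ℝ) < s := by exact_mod_cast hs
  unfold scl
  positivity

theorem ts_small (β : ℕ → ℚ) {m a b : ℕ} (h : (m + 1) ^ 2 < a * b) (r f j f' j' : ℕ) :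
    Tendsto (fun s : ℕ => (Ts β m s r : ℝ) / (scl a f j s * scl b f' j' s)) atTop (𝓝 0) := by
  have ha : 0 < a := Nat.pos_of_ne_zero fun h0 => by simp [h0] at h
  have hb : 0 < b := Nat.pos_of_ne_zero fun h0 => by simp [h0] at h
  have ha' : (0 : ℝ) < √(a : ℝ) := Real.sqrt_pos.2 (by exact_mod_cast ha)
  have hb' : (0 : ℝ) < √(b : ℝ) := Real.sqrt_pos.2 (by exact_mod_cast hb)
  have hρ : |((m : ℝ) + 1) / (√(a : ℝ) * √(b : ℝ))| < 1 := by
    rw [abs_of_pos (by positivity), div_lt_one (by positivity), ← Real.sqrt_mul (by positivity)]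
    exact Real.lt_sqrt_of_sq_lt (by exact_mod_cast h)
  simp only [Ts, Rat.cast_sum, Finset.sum_div]
  rw [← Finset.sum_const_zero (s := Finset.range (r + 1))]
  refine tendsto_finsetSum _ fun i _ => ?_
  have h1 := (tendsto_pow_const_mul_const_pow_of_abs_lt_one (i + j + j') hρ).const_mul
    |(β (r - i) : ℝ)|
  rw [mul_zero] at h1
  refine squeeze_zero_norm' ?_ h1
  filter_upwards [eventually_ge_atTop a, eventually_ge_atTop b] with s h2 h3
  have hs : (0 : ℝ) < s := by exact_mod_cast ha.trans_le h2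
  have h4 := mul_le_mul (L6_scl ha h2 f j) (L6_scl hb h3 f' j') (by positivity)
    ((by positivity : (0 : ℝ) ≤ √(a : ℝ) ^ s / (s : ℝ) ^ j).trans (L6_scl ha h2 f j))
  have h5 : (0 : ℝ) < √(a : ℝ) ^ s / (s : ℝ) ^ j * (√(b : ℝ) ^ s / (s : ℝ) ^ j') := by positivity
  have h6 : (s.choose i : ℝ) ≤ (s : ℝ) ^ i := by exact_mod_cast Nat.choose_le_pow s i
  have h7 : ((m : ℝ) + 1) ^ (s - i) ≤ ((m : ℝ) + 1) ^ s :=
    pow_le_pow_right₀ (by linarith [(Nat.cast_nonneg m : (0 : ℝ) ≤ m)]) (Nat.sub_le s i)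
  push_cast
  rw [Real.norm_eq_abs, abs_div, abs_of_pos (h5.trans_le h4), abs_mul,
    abs_of_nonneg (by positivity : (0 : ℝ) ≤ (s.choose i : ℝ) * ((m : ℝ) + 1) ^ (s - i))]
  refine (div_le_div₀ (by positivity) (mul_le_mul_of_nonneg_right
    (mul_le_mul h6 h7 (by positivity) (by positivity)) (abs_nonneg _)) h5 h4).trans (le_of_eq ?_)
  rw [div_pow, mul_pow]
  field_simp
  ring

theorem ts_main (β : ℕ → ℚ) (m : ℕ) {r f j j' : ℕ} (h : r + j + j' ≤ f) :
    Tendsto (fun s : ℕ => (Ts β m s r : ℝ) / (scl (m + 1) f j s * scl (m + 1) f j' s)) atTop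
      (𝓝 (if r + j + j' = f then (β 0 * ex r : ℚ) else 0)) := by
  have ha : (0 : ℝ) < (m : ℝ) + 1 := by positivity
  have hg : Tendsto (fun s : ℕ => (s : ℝ) / ((m : ℝ) + 1)) atTop atTop :=
    tendsto_natCast_atTop_atTop.atTop_div_const ha
  have e : ((if r + j + j' = f then (β 0 * ex r : ℚ) else 0 : ℚ) : ℝ) =
      ∑ i ∈ Finset.range (r + 1), (ex i : ℝ) * (β (r - i) : ℝ) *
        (if f - (i + j + j') = 0 then 1 else 0) := by
    rw [Finset.sum_range_succ, Finset.sum_eq_zero fun i hi => by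
      rw [if_neg (by have := Finset.mem_range.1 hi; omega), mul_zero], Nat.sub_self]
    by_cases h1 : r + j + j' = f
    · rw [if_pos h1, if_pos (by omega)]
      push_cast
      ring
    · rw [if_neg h1, if_neg (by omega)]
      simp
  have e' : (if r + j + j' = f then ((β 0 * ex r : ℚ) : ℝ) else 0) =
      ((if r + j + j' = f then (β 0 * ex r : ℚ) else 0 : ℚ) : ℝ) := by
    split_ifs <;> simp
  simp only [Ts, Rat.cast_sum, Finset.sum_div]
  rw [e', e]
  refine tendsto_finsetSum _ fun i hi => ?_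
  refine (((choose_lim i).mul_const _).mul (L6_inv hg _)).congr' ?_
  filter_upwards [eventually_gt_atTop 0, eventually_ge_atTop i] with s h1 h2
  have hs : (0 : ℝ) < s := by exact_mod_cast h1
  obtain ⟨k, rfl⟩ : ∃ k, f = i + j + j' + k :=
    ⟨f - (i + j + j'), by have := Finset.mem_range.1 hi; omega⟩
  obtain ⟨n, rfl⟩ := Nat.exists_eq_add_of_le h2
  have e1 : ∀ (x y u v : ℝ) (c d : ℕ), √x ^ c * √y ^ d / u * (√x ^ c * √y ^ d / v) =
      (√x * √x) ^ c * (√y * √y) ^ d / (u * v) := fun x y u v c d => by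
    rw [mul_pow, mul_pow]
    ring
  rw [scl, scl, e1, Real.mul_self_sqrt (by positivity), Real.mul_self_sqrt (by positivity),
    Nat.add_sub_cancel_left, Nat.add_sub_cancel_left]
  simp only [Rat.cast_mul, Rat.cast_pow, Rat.cast_add, Rat.cast_natCast, Rat.cast_one,
    Nat.cast_succ, div_pow, pow_add]
  generalize ((i + n : ℕ) : ℝ) = x at hs
  field_simp

theorem poly_lim (a : ℕ → ℝ) (s n : ℕ) (h : ∀ r ≤ s, n < s - r → a r = 0) :
    Tendsto (fun q : ℕ => (∑ r ∈ Finset.range (s + 1), a r * (q : ℝ) ^ (s - r)) / (q : ℝ) ^ n)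
      atTop (𝓝 (if n ≤ s then a (s - n) else 0)) := by
  have e : (if n ≤ s then a (s - n) else 0) =
      ∑ r ∈ Finset.range (s + 1), a r * (if n = s - r then 1 else 0) := by
    split_ifs with h1
    · rw [Finset.sum_eq_single (s - n), if_pos (by omega), mul_one]
      · intro r hr h2
        rw [if_neg (by have := Finset.mem_range.1 hr; omega), mul_zero]
      · exact fun h2 => absurd (Finset.mem_range.2 (by omega)) h2
    · exact (Finset.sum_eq_zero fun r _ => by rw [if_neg (by omega), mul_zero]).symm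
  simp only [Finset.sum_div]
  rw [e]
  refine tendsto_finsetSum _ fun r hr => ?_
  by_cases h1 : n < s - r
  · simp [h r (Nat.lt_succ_iff.1 (Finset.mem_range.1 hr)) h1]
  obtain ⟨k, rfl⟩ := Nat.exists_eq_add_of_le (not_lt.1 h1)
  have h2 := (L6_inv tendsto_natCast_atTop_atTop k).const_mul (a r)
  rw [show (if s - r + k = s - r then (1 : ℝ) else 0) = if k = 0 then 1 else 0 by simp]
  refine h2.congr' ?_
  filter_upwards [eventually_gt_atTop 0] with q hq
  have : (q : ℝ) ≠ 0 := Nat.cast_ne_zero.2 hq.ne'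
  rw [pow_add]
  field_simp

end Pool.Agent.Work.MP_ffcd14_ag.Gm
end

-- merged part: Pool.Agent.Work.MP_ffcd14_ag.Gm.L7
section
/-!
# Binomial coefficients instead of the exponential

Plan.  `th_entry`: only the term `r = d - j - j'` of `Th` has the right degree (`t_deg`).
`theta_choose`: take numerical bases in all degrees (`exists_nb`, `wm_gen`).  Apply `sg_limit` to the
Gram matrices of `ε • Th (ch s) h` with the scalings `√s ^ d / s ^ j`; the limit is the Gram matrix of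
`ε • Th ex h` (`th_entry`, `choose_lim`), which is invertible (`gram_det`, `theta_nd`, `ND.smul`).
Finish with `Gen.sg`, `nd_of_det`.
-/

open Module Filter Topology

namespace Pool.Agent.Work.MP_ffcd14_ag.Gm.Rg

universe v w

variable {K : Type v} [Field K] [CharZero K] {R : Rg.{v, w} K} {h x y : R.B}
  (hh : h ∈ R.A 1)
include hh

theorem th_entry (φ : ℕ → ℚ) {j j' : ℕ} (hx : x ∈ R.A j) (hy : y ∈ R.A j') :
    R.t (x * y * R.Th φ h) = if j + j' ≤ R.d then
      φ (R.d - (j + j')) * R.t (x * y * h ^ (R.d - (j + j'))) else 0 := by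
  have z : ∀ r, j + j' + r ≠ R.d → R.t (x * y * φ r • h ^ r) = 0 := fun r hr => by
    rw [mul_smul_comm, map_smul, t_deg (A_mul (A_mul hx hy) (pow_mem hh r)) hr, smul_zero]
  rw [Th, Finset.mul_sum, map_sum]
  split_ifs with c
  · rw [Finset.sum_eq_single (R.d - (j + j')) (fun r _ hr => z r (by omega))
      fun q => absurd (Finset.mem_range.2 (by omega)) q, mul_smul_comm, map_smul, smul_eq_mul]
  · exact Finset.sum_eq_zero fun r _ => z r (by omega)

theorem theta_choose (H : R.NHL h) {ε : ℚ} (hε : ε ≠ 0) (m : ℕ) : ∀ᶠ s : ℕ in atTop,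
    R.ND (ε • R.Th (ch s) h) (R.Wm m) ∧
      R.sg (ε • R.Th (ch s) h) (R.Wm m) = R.sg (ε • R.Th ex h) (R.Wm m) := by
  choose ρ e e' hN using R.exists_nb
  obtain ⟨g, i⟩ := wm_gen hN m
  have al : ∀ φ, ε • R.Th φ h ∈ R.Alg := fun φ => R.Alg.smul_mem _ (Th_mem φ hh)
  have sy : ∀ z, (gram (R.Qf z) fun r : Σ j : Fin m, Fin (ρ j) => e r.1 r.2).transpose =
      gram (R.Qf z) _ := fun z => Matrix.ext fun a b => R.Qf_sym z _ _
  have pos : ∀ᶠ s : ℕ in atTop, (0 : ℝ) < s :=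
    (eventually_gt_atTop 0).mono fun s hs => Nat.cast_pos.2 hs
  refine (sg_limit atTop _ (fun s => sy (ε • R.Th (ch s) h)) _ (sy (ε • R.Th ex h))
    (gram_det g i (Wm_le m) (al _) ((theta_nd hh H m).smul hε))
    (fun s r => √(s : ℝ) ^ R.d / (s : ℝ) ^ (r.1 : ℕ))
    (pos.mono fun s hs r => by positivity) fun a b => ?_).mono fun s hs =>
    ⟨nd_of_det g (Wm_le m) (al _) hs.1, by rw [g.sg (Wm_le m) (al _), g.sg (Wm_le m) (al _), hs.2]⟩
  simp only [gram, Matrix.of_apply, Qf_apply, mul_smul_comm, map_smul, smul_eq_mul,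
    th_entry hh _ ((hN a.1).1.1 a.2) ((hN b.1).1.1 b.2)]
  split_ifs with c
  swap
  · simp
  obtain ⟨r, hr⟩ := Nat.exists_eq_add_of_le c
  rw [hr, Nat.add_sub_cancel_left]
  push_cast
  refine (((choose_lim r).mul_const _).const_mul _).congr' (pos.mono fun s hs => ?_)
  beta_reduce
  rw [div_mul_div_comm, ← mul_pow, Real.mul_self_sqrt hs.le, ← pow_add, pow_add _ _ r,
    mul_div_cancel_left₀ _ (by positivity), ch, Rat.cast_natCast]
  ring

end Pool.Agent.Work.MP_ffcd14_ag.Gm.Rg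
end

-- merged part: Pool.Agent.Work.MP_ffcd14_ag.Gm.L4b
section
/-!
# The positive index does not depend on the polarisation

Plan.  `sg_indep`: if `ε = 0` both sides are the index of the zero form.  Otherwise take
`Base.exists_NB n (n + E)`; the family `e` spans (`IsNB.exp`, `N0_iff`, `Gen.sg`).  The real matrices
`ε • mat S.t' (jj ∘ e) (jj ∘ e) (seg l l' s ^ E)` are continuous (`Base.mat_continuous`), symmetric
(`mat_transpose`), invertible (`Base.seg_det`); at `s = 0, 1` they are the casts of the rational Gram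
matrices (`Base.mat_jj`).  Use `sg_path`, `sg_cast`.
`power_sub`: `Base.W` is monotone in `A`.  `sg_sub`: the two rational traces agree on the algebraic
classes of the smaller family (`t_cast` and injectivity of the cast), then `sig_congr` with the
identity or `sig_smul` with `q = 1` and unfolding.
-/

open Module Matrix

namespace Pool.Agent.Work.MP_ffcd14_ag.Gm.Rg

universe v w

variable {K : Type v} [Field K] [CharZero K] {R : Rg.{v, w} K}

theorem nhl (hV : R.HV) {h : R.B} (hh : h ∈ R.A 1) (H : R.S.HL h) : R.NHL h :=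
  fun _ _ hn => R.S.rat_HL hV hh H hn

theorem L4b_gen {n E ρ : ℕ} (hn : 2 * n + E = R.d) {e e' : Fin ρ → R.B}
    (hb : IsNB R.S.t (R.S.A n) (R.S.A (n + E)) e e') : R.Gen (R.A n) e := by
  refine ⟨hb.mem, fun x hx => ⟨fun j => R.t (x * e' j), ?_⟩⟩
  have hm : x - ∑ j, R.t (x * e' j) • e j ∈ R.A n :=
    sub_mem hx (Submodule.sum_mem _ fun j _ => Submodule.smul_mem _ _ (hb.mem j))
  refine (N0_iff hm (show n + (n + E) = R.d by omega)).2 fun y hy => ?_
  rw [sub_mul, map_sub, hb.exp x hx y hy, Finset.sum_mul, map_sum, sub_eq_zero]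
  refine Finset.sum_congr rfl fun j _ => ?_
  rw [smul_mul_assoc, map_smul, smul_eq_mul]

theorem L4b_cast {n E ρ : ℕ} {e : Fin ρ → R.B} (hg : R.Gen (R.A n) e) {u : R.B} (hu : u ∈ R.A 1)
    (ε : ℚ) : R.sg (ε • u ^ E) (R.A n) =
      sgM ((ε : ℝ) • mat R.S.t' (Base.jj R.B ∘ e) (Base.jj R.B ∘ e) (Base.jj R.B u ^ E)) := by
  rw [hg.sg (A_le n) (A_le E (Submodule.smul_mem _ _ (pow_mem hu E))),
    show gram (R.Qf (ε • u ^ E)) e = mat R.S.t e e (ε • u ^ E) from rfl,
    ← sg_cast _ (mat_transpose _ _ _ _), ← Base.mat_jj, Base.jj_smul, map_pow]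
  congr 1
  ext i j
  simp only [mat, Matrix.of_apply, Matrix.smul_apply, mul_smul_comm, map_smul]

theorem sg_indep (hV : R.HV) {l l' : R.B} (hl : l ∈ R.A 1) (hl' : l' ∈ R.A 1) (H : R.S.HL l)
    (H' : R.S.HL l') (hP : R.S.Power l l') {n E : ℕ} (hn : 2 * n + E = R.d) (ε : ℚ) :
    R.sg (ε • l ^ E) (R.A n) = R.sg (ε • l' ^ E) (R.A n) := by
  by_cases hε : ε = 0
  · rw [hε, zero_smul, zero_smul]
  obtain ⟨ρ, e, e', hb⟩ := R.S.exists_NB n (n + E)
  have hg := L4b_gen hn hb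
  have h := sg_path (fun s : Set.Icc (0 : ℝ) 1 =>
      (ε : ℝ) • mat R.S.t' (Base.jj R.B ∘ e) (Base.jj R.B ∘ e) (Base.seg l l' s ^ E))
    ((R.S.mat_continuous l l' E _ _).const_smul (ε : ℝ))
    (fun s => by rw [Matrix.transpose_smul, mat_transpose])
    (fun s => by
      rw [Matrix.det_smul]
      exact mul_ne_zero (pow_ne_zero _ (Rat.cast_ne_zero.2 hε))
        (R.S.seg_det hV hl hl' H H' hP hn hb s))
    ⟨0, by simp⟩ ⟨1, by simp⟩
  rw [L4b_cast hg hl, L4b_cast hg hl']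
  simpa [Base.seg] using h

variable {A' : ℕ → Submodule ℚ R.B} (hle : ∀ c, A' c ≤ R.A c)
  (hmul : ∀ i j, ∀ x ∈ A' i, ∀ y ∈ A' j, x * y ∈ A' (i + j)) (h1 : (1 : R.B) ∈ A' 0)

theorem power_sub {l l' : R.B} (hP : R.S.Power l l') : (R.sub A' hle hmul h1).S.Power l l' := by
  intro ρ
  obtain ⟨BR, i1, i2, π, trR, h2, h3⟩ := hP ρ
  refine ⟨BR, i1, i2, π, trR, h2, fun E m a ha hE w hw => h3 E m a ha hE w ?_⟩
  refine Submodule.span_mono ?_ hw
  rintro z ⟨c, x, hx, hc, hz⟩
  exact ⟨c, x, fun k => hle _ (hx k), hc, hz⟩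

theorem sg_sub {z : R.B} {i n : ℕ} (hz : z ∈ A' i) :
    (R.sub A' hle hmul h1).sg z (A' n) = R.sg z (A' n) := by
  refine sig_smul (β := R.Qf z) (β' := (R.sub A' hle hmul h1).Qf z) one_pos fun x hx y hy => ?_
  have hm : x * y * z ∈ A' (n + n + i) := hmul _ _ _ (hmul _ _ _ hx _ hy) _ hz
  rw [one_mul]
  exact Rat.cast_injective (α := K)
    (((R.sub A' hle hmul h1).S.t_cast (c := n + n + i) hm).trans (R.S.t_cast (hle _ hm)).symm)

end Pool.Agent.Work.MP_ffcd14_ag.Gm.Rg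
end
end

-- merged part: Pool.Agent.Work.MP_ffcd14_ag.Gm.A7
section
-- merged part: Pool.Agent.Work.MP_ffcd14_ag.Gm.A1
section
/-!
# Simple fractions

Plan.  Let `D = ∏ v, (X - C (w v))`, `E m = ∏ v ∈ off w m, (X - C (w v))`, `μ = mm w m`.  The constant
coefficient of `taylor m (E m)` is `Ep w (off w m) m ≠ 0`; let `β m r` be the coefficients of the inverse
power series (`PowerSeries.invOfUnit` or `(↑(taylor m (E m)) : ℚ⟦X⟧)⁻¹`).  For a polynomial `p` put
`a m = ∑ r < μ, T r • (X - C m) ^ r` with `T r` the `r`-th coefficient of `taylor m p · β m`.  Then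
`(X - C m) ^ μ ∣ p - ∑ m', a m' * E m'` for each weight `m` (`(X - C m) ^ μ ∣ E m'` for `m' ≠ m`; for `m' = m`
apply `taylor m` and `Polynomial.X_pow_dvd_iff`), the factors are pairwise coprime and their
product is `D` (`Finset.prod_fiberwise_of_maps_to`, `Finset.prod_dvd_of_coprime`), so
`p = ∑ m, a m * E m + D * q` with `natDegree (D * q) ≤ s`.  Homogenise in degree `s` and evaluate at
`![l, t]` (`Polynomial.homogenize`, `homogenize_mul`, `homogenize_finsetProd`; or prove first that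
`q ↦ ∑ i ≤ n, q.coeff i • l ^ i * t ^ (n - i)` is multiplicative).  Take `p = 1`, `s = M - 1`, and
`p = (X + 1) ^ s`, whose Taylor coefficients at `m` are `choose s i * (m + 1) ^ (s - i)`.
-/

open Polynomial

namespace Pool.Agent.Work.MP_ffcd14_ag.Gm

universe w

variable {σ : Type} {B B' : Type*} [CommRing B] [CommRing B']

theorem map_lamS {Φ : Type*} [FunLike Φ B B'] [RingHomClass Φ B B'] (f : Φ) (w : σ → ℕ)
    (s : Finset σ) (l t : B) : f (lamS w s l t) = lamS w s (f l) (f t) := by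
  simp [lamS]

theorem map_Lam [Algebra ℚ B] [Algebra ℚ B'] {Φ : Type*} [FunLike Φ B B'] [RingHomClass Φ B B']
    (f : Φ) (T : ℕ → ℚ) (m μ : ℕ) (l t : B) : f (Lam T m μ l t) = Lam T m μ (f l) (f t) := by
  simp [Lam, map_rat_smul]

theorem card_off [Fintype σ] (w : σ → ℕ) (m : ℕ) : (off w m).card + mm w m = Fintype.card σ := by
  have := Finset.card_filter_add_card_filter_not (s := (Finset.univ : Finset σ))
    (fun v => w v = m)
  simp only [Finset.card_univ] at this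
  rw [← this, add_comm]
  rfl

theorem Ep_ne [Fintype σ] (w : σ → ℕ) (m : ℕ) : Ep w (off w m) m ≠ 0 := by
  refine Finset.prod_ne_zero_iff.2 fun v hv => ?_
  have h : w v ≠ m := (Finset.mem_filter.1 hv).2
  rw [sub_ne_zero]
  exact_mod_cast h.symm

theorem Ep_sign (w : σ → ℕ) (s : Finset σ) (m : ℕ) (h : ∀ v ∈ s, w v ≠ m) :
    0 < (-1) ^ (s.filter fun v => m < w v).card * Ep w s m := by
  have e : ((-1 : ℚ)) ^ (s.filter fun v => m < w v).card =
      ∏ v ∈ s, (if m < w v then (-1 : ℚ) else 1) := by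
    rw [← Finset.prod_filter, Finset.prod_const]
  rw [e, Ep, ← Finset.prod_mul_distrib]
  refine Finset.prod_pos fun v hv => ?_
  split_ifs with hlt
  · have : (m : ℚ) < w v := by exact_mod_cast hlt
    linarith
  · have h1 : w v < m := lt_of_le_of_ne (not_lt.1 hlt) (h v hv)
    have : (w v : ℚ) < m := by exact_mod_cast h1
    linarith

theorem lamS_univ [Fintype σ] (w : σ → ℕ) (m : ℕ) (l t : B) :
    lamS w Finset.univ l t = (l - m • t) ^ mm w m * lamS w (off w m) l t := by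
  unfold lamS off mm
  rw [← Finset.prod_filter_mul_prod_filter_not Finset.univ (fun v => w v = m)]
  congr 1
  rw [← Finset.prod_const]
  refine Finset.prod_congr rfl fun v hv => ?_
  rw [(Finset.mem_filter.1 hv).2]

section Hom

variable [Algebra ℚ B]

/-- Homogenisation in degree `n`, evaluated at `(l, t)`. -/
noncomputable def Hm (l t : B) (n : ℕ) (p : ℚ[X]) : B :=
  MvPolynomial.aeval ![l, t] (p.homogenize n)

theorem Hm_mul (l t : B) {m n : ℕ} {p q : ℚ[X]} (hp : p.natDegree ≤ m) (hq : q.natDegree ≤ n) :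
    Hm l t (m + n) (p * q) = Hm l t m p * Hm l t n q := by
  simp [Hm, homogenize_mul p q hp hq]

theorem Hm_add (l t : B) (n : ℕ) (p q : ℚ[X]) : Hm l t n (p + q) = Hm l t n p + Hm l t n q := by
  simp [Hm]

theorem Hm_zero (l t : B) (n : ℕ) : Hm l t n 0 = 0 := by
  simp [Hm]

theorem Hm_sum (l t : B) (n : ℕ) {ι : Type*} (s : Finset ι) (p : ι → ℚ[X]) :
    Hm l t n (∑ i ∈ s, p i) = ∑ i ∈ s, Hm l t n (p i) := by
  simp [Hm, homogenize_finsetSum]

theorem Hm_C_mul (l t : B) (n : ℕ) (c : ℚ) (p : ℚ[X]) :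
    Hm l t n (C c * p) = c • Hm l t n p := by
  simp [Hm, Algebra.smul_def]

theorem Hm_one (l t : B) (n : ℕ) : Hm l t n 1 = t ^ n := by
  simp [Hm]

theorem Hm_lin (l t : B) (c : ℕ) : Hm l t 1 (X - C (c : ℚ)) = l - c • t := by
  rw [Hm, homogenize_sub, homogenize_C, homogenize_X one_ne_zero]
  simp

theorem Hm_lin' (l t : B) : Hm l t 1 (X + 1) = l + t := by
  rw [Hm, homogenize_add, homogenize_one, homogenize_X one_ne_zero]
  simp

theorem Hm_pow (l t : B) {p : ℚ[X]} (hp : p.natDegree ≤ 1) (r : ℕ) :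
    Hm l t r (p ^ r) = Hm l t 1 p ^ r := by
  induction r with
  | zero => simp [Hm_one]
  | succ r ih =>
    rw [pow_succ, pow_succ, Hm_mul l t _ hp, ih]
    exact natDegree_pow_le.trans (by nlinarith)

end Hom

/-- The product of the linear factors. -/
noncomputable def EE (w : σ → ℕ) (s : Finset σ) : ℚ[X] := ∏ v ∈ s, (X - C (w v : ℚ))

theorem EE_monic (w : σ → ℕ) (s : Finset σ) : (EE w s).Monic :=
  monic_prod_of_monic _ _ fun _ _ => monic_X_sub_C _

theorem EE_natDegree (w : σ → ℕ) (s : Finset σ) : (EE w s).natDegree = s.card := by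
  rw [EE, natDegree_prod_of_monic _ _ fun _ _ => monic_X_sub_C _]
  simp only [natDegree_X_sub_C]
  simp

theorem Hm_EE [Algebra ℚ B] (l t : B) (w : σ → ℕ) (s : Finset σ) :
    Hm l t s.card (EE w s) = lamS w s l t := by
  classical
  induction s using Finset.induction_on with
  | empty => simp [EE, lamS, Hm_one]
  | insert a s ha ih =>
    have e : EE w (insert a s) = EE w s * (X - C (w a : ℚ)) := by
      rw [EE, Finset.prod_insert ha, mul_comm]; rfl
    have e' : lamS w (insert a s) l t = lamS w s l t * (l - w a • t) := by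
      rw [lamS, Finset.prod_insert ha, mul_comm]; rfl
    rw [e, e', Finset.card_insert_of_notMem ha,
      Hm_mul l t (EE_natDegree w s).le (natDegree_X_sub_C _).le, ih, Hm_lin]

/-- The truncated expansion at `m`. -/
noncomputable def aa (T : ℕ → ℚ) (m μ : ℕ) : ℚ[X] :=
  ∑ r ∈ Finset.range μ, C (T r) * (X - C (m : ℚ)) ^ r

theorem aa_natDegree (T : ℕ → ℚ) (m μ : ℕ) : (aa T m μ).natDegree ≤ μ - 1 := by
  refine natDegree_sum_le_of_forall_le _ _ fun r hr => ?_
  refine (natDegree_C_mul_le _ _).trans ?_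
  rw [natDegree_pow, natDegree_X_sub_C]
  have := Finset.mem_range.1 hr
  omega

theorem Hm_aa [Algebra ℚ B] (l t : B) (T : ℕ → ℚ) (m μ : ℕ) :
    Hm l t (μ - 1) (aa T m μ) = Lam T m μ l t := by
  rw [aa, Hm_sum, Lam]
  refine Finset.sum_congr rfl fun r hr => ?_
  have hr' := Finset.mem_range.1 hr
  rw [Hm_C_mul]
  congr 1
  have e : μ - 1 = r + (μ - 1 - r) := by omega
  have h1 : ((X - C (m : ℚ)) ^ r).natDegree ≤ r := by
    rw [natDegree_pow, natDegree_X_sub_C]; omega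
  have h2 := Hm_mul l t (n := μ - 1 - r) (q := 1) h1 (by simp)
  rw [mul_one, ← e] at h2
  rw [h2, Hm_pow l t (natDegree_X_sub_C _).le, Hm_lin, Hm_one]

/-- The inverse power series. -/
noncomputable def bS [Fintype σ] (w : σ → ℕ) (m : ℕ) : PowerSeries ℚ :=
  (↑(taylor (m : ℚ) (EE w (off w m))) : PowerSeries ℚ)⁻¹

theorem const_EE [Fintype σ] (w : σ → ℕ) (m : ℕ) :
    PowerSeries.constantCoeff (↑(taylor (m : ℚ) (EE w (off w m))) : PowerSeries ℚ) =
      Ep w (off w m) m := by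
  rw [← PowerSeries.coeff_zero_eq_constantCoeff_apply, coeff_coe, taylor_coeff_zero, EE,
    eval_prod, Ep]
  simp

theorem bS_mul [Fintype σ] (w : σ → ℕ) (m : ℕ) :
    bS w m * (↑(taylor (m : ℚ) (EE w (off w m))) : PowerSeries ℚ) = 1 :=
  PowerSeries.inv_mul_cancel _ (by rw [const_EE]; exact Ep_ne w m)

/-- The coefficients of the expansion of `p / E m` at `m`. -/
noncomputable def TT [Fintype σ] (w : σ → ℕ) (p : ℚ[X]) (m r : ℕ) : ℚ :=
  PowerSeries.coeff r ((↑(taylor (m : ℚ) p) : PowerSeries ℚ) * bS w m)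

theorem dvd_same [Fintype σ] (w : σ → ℕ) (p : ℚ[X]) (m μ : ℕ) :
    (X - C (m : ℚ)) ^ μ ∣ p - aa (TT w p m) m μ * EE w (off w m) := by
  rw [X_sub_C_pow_dvd_iff, ← taylor_apply, Polynomial.X_pow_dvd_iff]
  intro d hd
  have hA : taylor (m : ℚ) (aa (TT w p m) m μ) =
      PowerSeries.trunc μ ((↑(taylor (m : ℚ) p) : PowerSeries ℚ) * bS w m) := by
    rw [aa, map_sum]
    ext k
    rw [PowerSeries.coeff_trunc, finsetSum_coeff]
    have : ∀ r, taylor (m : ℚ) (C (TT w p m r) * (X - C (m : ℚ)) ^ r) =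
        C (TT w p m r) * X ^ r := by
      intro r
      simp [taylor_apply]
    simp only [this, coeff_C_mul_X_pow]
    rw [Finset.sum_ite_eq]
    simp [TT]
  rw [map_sub, taylor_mul, hA, ← coeff_coe]
  set P : PowerSeries ℚ := ↑(taylor (m : ℚ) p) with hP
  set E : PowerSeries ℚ := ↑(taylor (m : ℚ) (EE w (off w m))) with hE
  have h1 : bS w m * E = 1 := bS_mul w m
  have e : ((taylor (m : ℚ) p - PowerSeries.trunc μ (P * bS w m) *
      taylor (m : ℚ) (EE w (off w m)) : ℚ[X]) : PowerSeries ℚ) =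
      (P * bS w m - ↑(PowerSeries.trunc μ (P * bS w m))) * E := by
    rw [coe_sub, coe_mul, ← hP, ← hE, sub_mul, mul_assoc, h1, mul_one]
  rw [e]
  have h2 : (PowerSeries.X : PowerSeries ℚ) ^ μ ∣
      P * bS w m - ↑(PowerSeries.trunc μ (P * bS w m)) := by
    rw [PowerSeries.X_pow_dvd_iff]
    intro k hk
    rw [map_sub, coeff_coe, PowerSeries.coeff_trunc, if_pos hk, sub_self]
  exact PowerSeries.X_pow_dvd_iff.1 (h2.mul_right E) d hd

theorem dvd_other [Fintype σ] (w : σ → ℕ) {m m' : ℕ} (h : m' ≠ m) :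
    (X - C (m : ℚ)) ^ mm w m ∣ EE w (off w m') := by
  have e : (X - C (m : ℚ)) ^ mm w m =
      ∏ v ∈ Finset.univ.filter (fun v => w v = m), (X - C (w v : ℚ)) := by
    rw [mm, ← Finset.prod_const]
    refine Finset.prod_congr rfl fun v hv => ?_
    rw [(Finset.mem_filter.1 hv).2]
  rw [e, EE]
  refine Finset.prod_dvd_prod_of_subset _ _ _ fun v hv => ?_
  have := (Finset.mem_filter.1 hv).2
  simp only [off, Finset.mem_filter, Finset.mem_univ, true_and]
  omega

theorem dvd_all [Fintype σ] (w : σ → ℕ) (p : ℚ[X]) :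
    EE w Finset.univ ∣ p - ∑ m ∈ Finset.univ.image w,
      aa (TT w p m) m (mm w m) * EE w (off w m) := by
  have e : EE w Finset.univ = ∏ m ∈ Finset.univ.image w, (X - C (m : ℚ)) ^ mm w m := by
    rw [EE, Finset.prod_comp (fun m : ℕ => (X - C (m : ℚ) : ℚ[X])) w]
    rfl
  rw [e]
  refine Finset.prod_dvd_of_coprime (fun m _ m' _ hne => ?_) fun m hm => ?_
  · refine IsCoprime.pow (isCoprime_X_sub_C_of_isUnit_sub ?_)
    refine IsUnit.mk0 _ ?_
    rw [sub_ne_zero]
    exact_mod_cast hne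
  · rw [← Finset.add_sum_erase _ _ hm, ← sub_sub]
    refine dvd_sub (dvd_same w p m _) (Finset.dvd_sum fun m' hm' => ?_)
    exact (dvd_other w (Finset.ne_of_mem_erase hm')).mul_left _

theorem Hm_expand [Fintype σ] [Algebra ℚ B] (w : σ → ℕ) (l t : B)
    (h0 : lamS w Finset.univ l t = 0) (p : ℚ[X]) (s n : ℕ) (hp : p.natDegree ≤ s)
    (hs : s + 1 = Fintype.card σ + n) :
    Hm l t s p = (∑ m ∈ Finset.univ.image w,
      Lam (TT w p m) m (mm w m) l t * lamS w (off w m) l t) * t ^ n := by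
  obtain ⟨q, hq⟩ := dvd_all w p
  have hμ : ∀ m ∈ Finset.univ.image w, 1 ≤ mm w m := by
    intro m hm
    obtain ⟨v, -, hv⟩ := Finset.mem_image.1 hm
    exact Finset.card_pos.2 ⟨v, by simp [hv]⟩
  have hdeg : ∀ m ∈ Finset.univ.image w,
      (aa (TT w p m) m (mm w m) * EE w (off w m)).natDegree ≤
        (mm w m - 1) + (off w m).card := fun m _ =>
    natDegree_mul_le.trans (add_le_add (aa_natDegree _ _ _) (EE_natDegree _ _).le)
  have hz : Hm l t s (EE w Finset.univ * q) = 0 := by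
    by_cases hq0 : q = 0
    · rw [hq0, mul_zero, Hm_zero]
    have hd : (EE w Finset.univ * q).natDegree ≤ s := by
      rw [← hq]
      refine (natDegree_sub_le _ _).trans (max_le hp ?_)
      refine natDegree_sum_le_of_forall_le _ _ fun m hm => (hdeg m hm).trans ?_
      have := hμ m hm
      have := card_off w m
      omega
    rw [(EE_monic w _).natDegree_mul' hq0, EE_natDegree] at hd
    have e : s = (Finset.univ : Finset σ).card + (s - (Finset.univ : Finset σ).card) := by omega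
    rw [e, Hm_mul l t (EE_natDegree w _).le (by omega), Hm_EE, h0, zero_mul]
  have e : p = ∑ m ∈ Finset.univ.image w, aa (TT w p m) m (mm w m) * EE w (off w m) +
      EE w Finset.univ * q := by
    rw [← hq]; ring
  have e2 : Hm l t s p = Hm l t s (∑ m ∈ Finset.univ.image w,
      aa (TT w p m) m (mm w m) * EE w (off w m) + EE w Finset.univ * q) := by
    rw [← e]
  rw [e2, Hm_add, hz, add_zero, Hm_sum, Finset.sum_mul]
  refine Finset.sum_congr rfl fun m hm => ?_
  have h1 := hμ m hm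
  have h2 := card_off w m
  have h3 := Hm_mul l t (n := n) (q := 1) (hdeg m hm) (by simp)
  have e3 : mm w m - 1 + (off w m).card + n = s := by omega
  rw [mul_one, e3] at h3
  rw [h3, Hm_mul l t (aa_natDegree _ _ _) (EE_natDegree _ _).le, Hm_aa, Hm_EE, Hm_one]

theorem TT_one [Fintype σ] (w : σ → ℕ) (m : ℕ) :
    TT w 1 m = fun r => PowerSeries.coeff r (bS w m) := by
  funext r
  simp [TT]

theorem TT_pow [Fintype σ] (w : σ → ℕ) (m s : ℕ) :
    TT w ((X + 1) ^ s) m = Ts (fun r => PowerSeries.coeff r (bS w m)) m s := by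
  funext r
  have e : taylor (m : ℚ) ((X + 1) ^ s : ℚ[X]) = (X + C ((m : ℚ) + 1)) ^ s := by
    simp [taylor_apply, add_assoc]
  rw [TT, e, PowerSeries.coeff_mul, Finset.Nat.sum_antidiagonal_eq_sum_range_succ_mk, Ts]
  refine Finset.sum_congr rfl fun i _ => ?_
  rw [coeff_coe, coeff_X_add_C_pow]
  ring

theorem exists_beta [Fintype σ] [Nonempty σ] (w : σ → ℕ) : ∃ β : ℕ → ℕ → ℚ,
    (∀ m, β m 0 * Ep w (off w m) m = 1) ∧
    ∀ (B : Type w) [CommRing B] [Algebra ℚ B] (l t : B), lamS w Finset.univ l t = 0 →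
      (t ^ (Fintype.card σ - 1) =
        ∑ m ∈ Finset.univ.image w, Lam (β m) m (mm w m) l t * lamS w (off w m) l t) ∧
      ∀ s n : ℕ, s + 1 = Fintype.card σ + n → (l + t) ^ s =
        (∑ m ∈ Finset.univ.image w, Lam (Ts (β m) m s) m (mm w m) l t * lamS w (off w m) l t) *
          t ^ n := by
  refine ⟨fun m r => PowerSeries.coeff r (bS w m), fun m => ?_, fun B _ _ l t h0 => ⟨?_, ?_⟩⟩
  · have := congrArg PowerSeries.constantCoeff (bS_mul w m)
    rw [map_mul, const_EE, map_one] at this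
    simpa using this
  · have hc : 0 < Fintype.card σ := Fintype.card_pos
    have := Hm_expand w l t h0 1 (Fintype.card σ - 1) 0 (by simp) (by omega)
    rw [Hm_one, pow_zero, mul_one] at this
    rw [this]
    refine Finset.sum_congr rfl fun m _ => ?_
    rw [TT_one]
  · intro s n hs
    have h1 : (X + 1 : ℚ[X]).natDegree ≤ 1 := by
      simpa using (natDegree_X_add_C (1 : ℚ)).le
    have := Hm_expand w l t h0 ((X + 1) ^ s) s n
      (natDegree_pow_le.trans (by nlinarith)) hs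
    rw [Hm_pow l t h1, Hm_lin'] at this
    rw [this]
    congr 1
    refine Finset.sum_congr rfl fun m _ => ?_
    rw [TT_pow]

end Pool.Agent.Work.MP_ffcd14_ag.Gm
end

-- merged part: Pool.Agent.Work.MP_ffcd14_ag.Gm.A0
section
/-!
# The algebraic data of a torus action

`X` is the variety, `F a` are the components of the fixed locus, `Y N` is the bundle with fibre `X`
over the projective space of dimension `N`, and `P a N` is the product of `F a` with this projective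
space.  `ρ` is the restriction from `Y N` to `P a N`, `φ` and `φ'` are the correspondences given by
the closures of the two cells.
-/

open Module

namespace Pool.Agent.Work.MP_ffcd14_ag.Gm

universe v w

/-- The data and the properties which come from geometry. -/
structure Pack (K : Type v) [Field K] [CharZero K] where
  σ : Type
  [fσ : Fintype σ]
  [nσ : Nonempty σ]
  w : σ → ℕ
  ι : Type
  [fι : Fintype ι]
  [dι : DecidableEq ι]
  lev : ι → ℕ
  c : ι → ℕ
  c' : ι → ℕ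
  X : Rg.{v, w} K
  hX : X.B
  F : ι → Rg.{v, w} K
  h : ∀ a, (F a).B
  Y : ℕ → Rg.{v, w} K
  l : ∀ N, (Y N).B
  t : ∀ N, (Y N).B
  P : ι → ℕ → Rg.{v, w} K
  tp : ∀ a N, (P a N).B
  p : ∀ a N, (F a).B →ₐ[K] (P a N).B
  ρ : ∀ a N, (Y N).B →ₐ[K] (P a N).B
  φ : ∀ a N, (F a).B →ₗ[K] (Y N).B
  φ' : ∀ a N, (F a).B →ₗ[K] (Y N).B
  γ : ∀ a N, (P a N).B
  g : ∀ a N, (P a N).B
  κ : ι → ℕ → ℚ
  res : ∀ {N N' : ℕ}, N ≤ N' → (Y N').B →ₐ[K] (Y N).B
  i : ∀ N, (Y N).B →ₐ[K] X.B
  dY : ∀ N, (Y N).d = X.d + N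
  dF : ∀ a, c a + c' a + (F a).d = X.d
  hX_mem : hX ∈ X.A 1
  h_mem : ∀ a, h a ∈ (F a).A 1
  l_mem : ∀ N, l N ∈ (Y N).A 1
  t_mem : ∀ N, t N ∈ (Y N).A 1
  tp_mem : ∀ a N, tp a N ∈ (P a N).A 1
  p_mem : ∀ a N j, ∀ x ∈ (F a).A j, p a N x ∈ (P a N).A j
  ρ_mem : ∀ a N j, ∀ y ∈ (Y N).A j, ρ a N y ∈ (P a N).A j
  φ_mem : ∀ a N j, ∀ x ∈ (F a).A j, φ a N x ∈ (Y N).A (c a + j)
  φ'_mem : ∀ a N j, ∀ x ∈ (F a).A j, φ' a N x ∈ (Y N).A (c' a + j)
  res_mem : ∀ {N N' : ℕ} (hN : N ≤ N') j, ∀ y ∈ (Y N').A j, res hN y ∈ (Y N).A j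
  i_mem : ∀ N j, ∀ y ∈ (Y N).A j, i N y ∈ X.A j
  HL_X : X.S.HL hX
  HL_F : ∀ a, (F a).S.HL (h a)
  HL_Y : ∀ N (q : ℚ), 0 < q → (Y N).S.HL (l N + q • t N)
  pow_Y : ∀ N (q q' : ℚ), 0 < q → 0 < q' → (Y N).S.Power (l N + q • t N) (l N + q' • t N)
  hV_or : X.HV ∨ ∀ a, (F a).HV
  A0 : ∀ a, ∀ x ∈ (F a).A 0, ∃ q : ℚ, x = q • 1
  pos : ∀ a, 0 < (F a).t (h a ^ (F a).d)
  PB : ∀ a N n, (P a N).A n ≤ Submodule.span ℚ
    {z | ∃ e j x, e + j = n ∧ x ∈ (F a).A j ∧ z = tp a N ^ e * p a N x}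
  κ_pos : ∀ a N, 0 < κ a N
  trP : ∀ a N e x, (P a N).tr (tp a N ^ e * p a N x) =
    if e = N then (κ a N : K) * (F a).tr x else 0
  ρ_l : ∀ a N, ρ a N (l N) = p a N (h a) + lev a • tp a N
  ρ_t : ∀ a N, ρ a N (t N) = tp a N
  lam_all : ∀ N, lamS w Finset.univ (l N) (t N) = 0
  t_pow : ∀ N, t N ^ (N + 1) = 0
  γ_mem : ∀ a N, γ a N ∈ (P a N).A ((off w (lev a)).card - (c a + c' a))
  E1 : ∀ N m y, (Y N).tr (lamS w (off w m) (l N) (t N) * y) =
    ∑ a with lev a = m, (P a N).tr (γ a N * ρ a N y)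
  g_mem : ∀ a N, g a N ∈ (P a N).A ((off w (lev a)).card - c a)
  E2 : ∀ a N z y, (Y N).tr (lamS w (off w (lev a)) (l N) (t N) * φ' a N z * y) =
    (P a N).tr (g a N * p a N z * ρ a N y)
  E3 : ∀ a N m z, m < lev a → lamS w (off w m) (l N) (t N) * φ' a N z = 0
  E4 : ∀ a b N j, b ≠ a → ¬ lev b < lev a → ∀ x ∈ (F a).A j, ρ b N (φ a N x) = 0
  E5 : ∀ a b N j, b ≠ a → ¬ lev b < lev a → ∀ x ∈ (F a).A j, ∀ z, φ a N x * φ' b N z = 0
  E5' : ∀ a b N j, b ≠ a → ¬ lev b < lev a → ∀ x, ∀ z ∈ (F b).A j, φ a N x * φ' b N z = 0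
  E6 : ∀ a N, ∃ μ : ℚ, ∀ j, ∀ x ∈ (F a).A j, ∀ z y, (Y N).tr (φ a N x * φ' a N z * y) =
    μ * (P a N).tr (p a N x * p a N z * ρ a N y)
  E6' : ∀ a N, ∃ μ : ℚ, ∀ j x, ∀ z ∈ (F a).A j, ∀ y, (Y N).tr (φ a N x * φ' a N z * y) =
    μ * (P a N).tr (p a N x * p a N z * ρ a N y)
  E7 : ∀ a N e, ∀ y ∈ (Y N).A e, ∃ j, ∃ z ∈ (F a).A j,
    ∀ x, (Y N).tr (φ a N x * y) = (F a).tr (x * z)
  E7' : ∀ a N e, ∀ y ∈ (Y N).A e, ∃ z, (∀ x, (Y N).tr (φ' a N x * y) = (F a).tr (x * z)) ∧
    (∀ j, j + c a + N = e → z ∈ (F a).A j) ∧ (e < c a + N → z = 0)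
  E9 : ∀ a N, ∃ ν : ℚ, 0 < ν ∧ ∀ y z, ∀ x ∈ (F a).A (F a).d, ρ a N y = z * p a N x →
    (Y N).tr (φ a N 1 * φ' a N 1 * (lamS w (off w (lev a)) (l N) (t N) * y)) =
      ν * (P a N).tr (ρ a N (lamS w (off w (lev a)) (l N) (t N) * y))
  E10 : ∀ a N, ∃ (S : Finset σ) (μ : ℚ), 0 < μ ∧ S.card = c a + c' a ∧
    (S.filter fun v => lev a < w v).card = c a ∧ (∀ v ∈ S, w v ≠ lev a) ∧
    ∀ y z, ∀ x ∈ (F a).A (F a).d, (∀ b ≠ a, lev b = lev a → ρ b N y = 0) →
      ρ a N y = z * p a N x →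
      (Y N).tr (lamS w (off w (lev a)) (l N) (t N) * (lamS w S (l N) (t N) * y)) =
        μ * (P a N).tr (ρ a N (lamS w (off w (lev a)) (l N) (t N) * y))
  res_l : ∀ {N N' : ℕ} (hN : N ≤ N'), res hN (l N') = l N
  res_t : ∀ {N N' : ℕ} (hN : N ≤ N'), res hN (t N') = t N
  TR : ∀ {N N' : ℕ} (hN : N ≤ N'), ∃ q : ℚ, 0 < q ∧
    ∀ y, (Y N).tr (res hN y) = q * (Y N').tr (y * t N' ^ (N' - N))
  i_l : ∀ N, i N (l N) = hX
  i_t : ∀ N, i N (t N) = 0
  TRi : ∀ N, ∃ q : ℚ, 0 < q ∧ ∀ y, X.tr (i N y) = q * (Y N).tr (y * t N ^ N)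
  i_surj : ∀ N j, ∀ x ∈ X.A j, ∃ y ∈ (Y N).A j, i N y = x

attribute [instance] Pack.fσ Pack.nσ Pack.fι Pack.dι

namespace Pack

variable {K : Type v} [Field K] [CharZero K] (D : Pack.{v, w} K)

/-- The number of coordinates. -/
def M : ℕ := Fintype.card D.σ

/-- The dimension of a fixed component. -/
abbrev f (a : D.ι) : ℕ := (D.F a).d

/-- The number of coordinates whose weight is not `m`. -/
abbrev eo (m : ℕ) : ℕ := (off D.w m).card

/-- The class which is supported on the fixed components of level `m`. -/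
abbrev E (N m : ℕ) : (D.Y N).B := lamS D.w (off D.w m) (D.l N) (D.t N)

/-- The coefficients of the simple fractions. -/
noncomputable def β : ℕ → ℕ → ℚ := (exists_beta.{w} D.w).choose

theorem β_zero (m : ℕ) : D.β m 0 * Ep D.w (off D.w m) m = 1 := (exists_beta.{w} D.w).choose_spec.1 m

/-- The cofactor of `E N m` in the expansion in simple fractions of `t ^ (M - 1)`. -/
noncomputable abbrev Λ (N m : ℕ) : (D.Y N).B := Lam (D.β m) m (mm D.w m) (D.l N) (D.t N)

theorem loc_t (N : ℕ) :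
    D.t N ^ (D.M - 1) = ∑ m ∈ Finset.univ.image D.w, D.Λ N m * D.E N m :=
  ((exists_beta.{w} D.w).choose_spec.2 _ _ _ (D.lam_all N)).1

/-- The class `(l + t) ^ s / t ^ (s + 1 - M)`. -/
noncomputable def Rs (N s : ℕ) : (D.Y N).B := ∑ m ∈ Finset.univ.image D.w,
  Lam (Ts (D.β m) m s) m (mm D.w m) (D.l N) (D.t N) * D.E N m

theorem loc_s (N : ℕ) {s n : ℕ} (h : s + 1 = D.M + n) :
    (D.l N + D.t N) ^ s = D.Rs N s * D.t N ^ n :=
  ((exists_beta.{w} D.w).choose_spec.2 _ _ _ (D.lam_all N)).2 s n h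

/-- The Euler class of the normal bundle of the closure of a cell. -/
noncomputable abbrev eu (a : D.ι) (N : ℕ) : (D.P a N).B := D.ρ a N (D.φ a N 1)

/-- Its inverse, up to a power of `tp`. -/
noncomputable abbrev u (a : D.ι) (N : ℕ) : (D.P a N).B := D.g a N * D.ρ a N (D.Λ N (D.lev a))

/-- `q • tp ^ n` is the leading term of `z`. -/
def Ld (a : D.ι) (N : ℕ) (z : (D.P a N).B) (n : ℕ) (q : ℚ) : Prop :=
  ∀ x ∈ (D.F a).A (D.f a), z * D.p a N x = q • (D.tp a N ^ n * D.p a N x)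

/-- The classes which come from the fixed components. -/
def T (N n : ℕ) : Submodule ℚ (D.Y N).B := Submodule.span ℚ
  {z | ∃ a e j x, e + D.c a + j = n ∧ x ∈ (D.F a).A j ∧ z = D.t N ^ e * D.φ a N x}

/-- `r` is the restriction to a subvariety of class `t ^ (N - n)`. -/
structure IsRes (N n : ℕ) (T : Rg.{v, w} K) (r : (D.Y N).B →ₐ[K] T.B) : Prop where
  le : n ≤ N
  mem : ∀ j, ∀ y ∈ (D.Y N).A j, r y ∈ T.A j
  nil : r (D.t N) ^ (n + 1) = 0
  tr : ∃ q : ℚ, 0 < q ∧ ∀ y, T.tr (r y) = q * (D.Y N).tr (y * D.t N ^ (N - n))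

theorem isRes_i (N : ℕ) : D.IsRes N 0 D.X (D.i N) :=
  ⟨Nat.zero_le N, D.i_mem N, by simp [D.i_t], D.TRi N⟩

theorem isRes_res {N N' : ℕ} (hN : N ≤ N') : D.IsRes N' N (D.Y N) (D.res hN) :=
  ⟨hN, D.res_mem hN, by rw [D.res_t, D.t_pow], D.TR hN⟩

/-- The numerical rank of the fixed components. -/
noncomputable def rn (a : D.ι) (j : ℕ) : ℕ := ((D.F a).exists_nb j).choose

/-- Numerical bases. -/
noncomputable def e (a : D.ι) (j : ℕ) : Fin (D.rn a j) → (D.F a).B :=
  ((D.F a).exists_nb j).choose_spec.choose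

/-- The dual families. -/
noncomputable def e' (a : D.ι) (j : ℕ) : Fin (D.rn a j) → (D.F a).B :=
  ((D.F a).exists_nb j).choose_spec.choose_spec.choose

theorem nb (a : D.ι) (j : ℕ) : (D.F a).Nb j (D.e a j) (D.e' a j) :=
  ((D.F a).exists_nb j).choose_spec.choose_spec.choose_spec

/-- The index set of the numerical basis in codimension `k`. -/
abbrev J (k : ℕ) : Type := Σ a : D.ι, Σ j : Fin (k + 1 - D.c a), Fin (D.rn a j)

/-- The numerical basis in codimension `k` on `Y N`. -/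
noncomputable def uu (N k : ℕ) (r : D.J k) : (D.Y N).B :=
  D.t N ^ (k - D.c r.1 - r.2.1) * D.φ r.1 N (D.e r.1 r.2.1 r.2.2)

/-- The numerical basis in codimension at most `k` on `X`. -/
noncomputable def xx (N k : ℕ) (r : D.J k) : D.X.B := D.i N (D.φ r.1 N (D.e r.1 r.2.1 r.2.2))

/-- The restrictions of the algebraic classes of `Y N'`. -/
noncomputable def A' {N N' : ℕ} (hN : N ≤ N') (j : ℕ) : Submodule ℚ (D.Y N).B :=
  ((D.Y N').A j).map ((D.res hN).toLinearMap.restrictScalars ℚ)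

theorem mem_A' {N N' : ℕ} (hN : N ≤ N') {j : ℕ} {x : (D.Y N).B} :
    x ∈ D.A' hN j ↔ ∃ y ∈ (D.Y N').A j, D.res hN y = x := Iff.rfl

/-- The ring of `Y N` with the restrictions of the algebraic classes of `Y N'`. -/
noncomputable def Y' {N N' : ℕ} (hN : N ≤ N') : Rg.{v, w} K :=
  (D.Y N).sub (D.A' hN) (fun j _ ⟨y, hy, e⟩ => e ▸ D.res_mem hN j y hy)
    (fun _ _ _ ⟨x, hx, e⟩ _ ⟨y, hy, e'⟩ =>
      ⟨x * y, Rg.A_mul hx hy, by rw [← e, ← e']; exact map_mul (D.res hN) x y⟩)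
    ⟨1, (D.Y N').one_mem, map_one (D.res hN)⟩

end Pack

end Pool.Agent.Work.MP_ffcd14_ag.Gm
end

-- merged part: Pool.Agent.Work.MP_ffcd14_ag.Gm.A2a
section
/-!
# Classes on the product of a fixed component with a projective space

Plan.  `pb`: span induction on `PB`.  `ptest`, `cancel`: write `z = ∑ tp ^ i * p (x i)`; testing with
`tp ^ (N - i) * p y` (respectively `tp ^ (N - e - i) * p y`) gives `κ * tr (x i * y) = 0` by `trP`, so
`x i = 0` by `pd`; the terms `i > N` vanish by `tp_pow`.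
`ld_exists`: `x n ∈ A 0` is `q • 1` by `A0`; for `i < n` the product `x i * x` has degree above `f`
(`Rg.high`).  `ld_lamS`: induction on the finset, `ρ (l - w v • t) = p h + (lev - w v) • tp` and `h * x = 0`.
`f_lt`: take `N = eo (lev a)`.  By `lamS_univ`, `lam_all`, `rho_lam`: `p h ^ mm * ρ E = 0`.  If `mm ≤ f` then
`ρ E * p (h ^ f) = 0`, but its trace is `Ep * κ * tr (h ^ f) ≠ 0` (`Ld.tr`, `Ep_ne`, `pos`, `Rg.t_cast`).
`c_le`: the set `S` of `E10` is contained in `off w (lev a)`.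
-/

open Module

namespace Pool.Agent.Work.MP_ffcd14_ag.Gm.Pack

universe v w

variable {K : Type v} [Field K] [CharZero K] {D : Pack.{v, w} K} {a b : D.ι} {N N' n : ℕ}

theorem tp_pow : D.tp a N ^ (N + 1) = 0 := by
  rw [← D.ρ_t, ← map_pow, D.t_pow, map_zero]

theorem rho_lam : D.ρ a N (D.l N - D.lev a • D.t N) = D.p a N (D.h a) := by
  rw [map_sub, map_nsmul, D.ρ_l, D.ρ_t, add_sub_cancel_right]

theorem lamS_mem (S : Finset D.σ) : lamS D.w S (D.l N) (D.t N) ∈ (D.Y N).A S.card := by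
  have h := (D.Y N).S.mul_prod_mem (fun v => D.l N - D.w v • D.t N)
    (fun v => sub_mem (D.l_mem N) (nsmul_mem (D.t_mem N) _)) S (D.Y N).one_mem
  rw [one_mul, zero_add] at h
  exact h

theorem Lam_mem (T : ℕ → ℚ) (m μ : ℕ) : Lam T m μ (D.l N) (D.t N) ∈ (D.Y N).A (μ - 1) := by
  refine Submodule.sum_mem _ fun r hr => Submodule.smul_mem _ _ ?_
  have hr' := Finset.mem_range.1 hr
  have h := Rg.A_mul (Rg.pow_mem (sub_mem (D.l_mem N) (nsmul_mem (D.t_mem N) m)) r)
    (Rg.pow_mem (D.t_mem N) (μ - 1 - r))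
  rwa [show r + (μ - 1 - r) = μ - 1 by omega] at h

theorem pb {z : (D.P a N).B} (hz : z ∈ (D.P a N).A n) : ∃ x : ℕ → (D.F a).B,
    (∀ e, x e ∈ (D.F a).A (n - e)) ∧
      z = ∑ e ∈ Finset.range (n + 1), D.tp a N ^ e * D.p a N (x e) := by
  have hz' := D.PB a N n hz
  clear hz
  induction hz' using Submodule.span_induction with
  | mem z hz =>
    obtain ⟨e, j, x, hn, hx, rfl⟩ := hz
    refine ⟨fun i => if i = e then x else 0, fun i => ?_, ?_⟩
    · by_cases hi : i = e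
      · simp only [hi, if_true]
        rwa [show n - e = j by omega]
      · simp only [hi, if_false]
        exact zero_mem _
    · rw [Finset.sum_eq_single e]
      · simp only [if_true]
      · intro i _ hi
        simp only [hi, if_false, map_zero, mul_zero]
      · intro he
        exact absurd (Finset.mem_range.2 (by omega)) he
  | zero => exact ⟨0, fun _ => zero_mem _, by simp⟩
  | add z z' _ _ h1 h2 =>
    obtain ⟨x, hx, rfl⟩ := h1
    obtain ⟨x', hx', rfl⟩ := h2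
    refine ⟨x + x', fun e => add_mem (hx e) (hx' e), ?_⟩
    rw [← Finset.sum_add_distrib]
    exact Finset.sum_congr rfl fun e _ => by rw [Pi.add_apply, map_add, mul_add]
  | smul q z _ h1 =>
    obtain ⟨x, hx, rfl⟩ := h1
    refine ⟨q • x, fun e => Submodule.smul_mem _ _ (hx e), ?_⟩
    rw [Finset.smul_sum]
    exact Finset.sum_congr rfl fun e _ => by rw [Pi.smul_apply, map_rat_smul, mul_smul_comm]

theorem A2a_coef (x : ℕ → (D.F a).B) {i k : ℕ} (hi : i ≤ n) (hk : i + k = N)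
    (h : ∀ y, (D.P a N).tr ((∑ e ∈ Finset.range (n + 1), D.tp a N ^ e * D.p a N (x e)) *
      (D.tp a N ^ k * D.p a N y)) = 0) : x i = 0 := by
  refine (D.F a).pd _ fun y => ?_
  have h1 := h y
  have h2 : ∀ e, (D.P a N).tr (D.tp a N ^ e * D.p a N (x e) * (D.tp a N ^ k * D.p a N y)) =
      if e + k = N then (D.κ a N : K) * (D.F a).tr (x e * y) else 0 := by
    intro e
    rw [← D.trP, pow_add, map_mul (D.p a N), mul_mul_mul_comm]
  rw [Finset.sum_mul, map_sum, Finset.sum_congr rfl fun e _ => h2 e, Finset.sum_eq_single i,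
    if_pos hk] at h1
  · exact (mul_eq_zero.1 h1).resolve_left (Rat.cast_ne_zero.2 (D.κ_pos a N).ne')
  · intro e _ he
    exact if_neg (by omega)
  · intro he
    exact absurd (Finset.mem_range.2 (by omega)) he

theorem ptest {z : (D.P a N).B} (hz : z ∈ (D.P a N).A n)
    (h : ∀ e y, (D.P a N).tr (z * (D.tp a N ^ e * D.p a N y)) = 0) : z = 0 := by
  obtain ⟨x, -, rfl⟩ := pb hz
  refine Finset.sum_eq_zero fun i hi => ?_
  have hi' := Finset.mem_range.1 hi
  by_cases hN : i ≤ N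
  · rw [A2a_coef x (k := N - i) (by omega : i ≤ n) (by omega) (h _), map_zero, mul_zero]
  · rw [pow_eq_zero_of_le (by omega : N + 1 ≤ i) tp_pow, zero_mul]

theorem cancel {z : (D.P a N).B} (hz : z ∈ (D.P a N).A n) {e : ℕ} (he : n + e ≤ N)
    (h : D.tp a N ^ e * z = 0) : z = 0 := by
  obtain ⟨x, -, rfl⟩ := pb hz
  refine Finset.sum_eq_zero fun i hi => ?_
  have hi' := Finset.mem_range.1 hi
  have h0 : x i = 0 := by
    refine A2a_coef (N := N) x (k := e + (N - e - i)) (by omega : i ≤ n) (by omega) fun y => ?_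
    rw [pow_add, mul_assoc, ← mul_assoc, mul_comm _ (D.tp a N ^ e), h, zero_mul, map_zero]
  rw [h0, map_zero, mul_zero]

end Pool.Agent.Work.MP_ffcd14_ag.Gm.Pack
end

-- merged part: Pool.Agent.Work.MP_ffcd14_ag.Gm.A2x
section
/-!
# Classes on the product of a fixed component with a projective space

Plan.  `pb`: span induction on `PB`.  `ptest`, `cancel`: write `z = ∑ tp ^ i * p (x i)`; testing with
`tp ^ (N - i) * p y` (respectively `tp ^ (N - e - i) * p y`) gives `κ * tr (x i * y) = 0` by `trP`, so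
`x i = 0` by `pd`; the terms `i > N` vanish by `tp_pow`.
`ld_exists`: `x n ∈ A 0` is `q • 1` by `A0`; for `i < n` the product `x i * x` has degree above `f`
(`Rg.high`).  `ld_lamS`: induction on the finset, `ρ (l - w v • t) = p h + (lev - w v) • tp` and `h * x = 0`.
`f_lt`: take `N = eo (lev a)`.  By `lamS_univ`, `lam_all`, `rho_lam`: `p h ^ mm * ρ E = 0`.  If `mm ≤ f` then
`ρ E * p (h ^ f) = 0`, but its trace is `Ep * κ * tr (h ^ f) ≠ 0` (`Ld.tr`, `Ep_ne`, `pos`, `Rg.t_cast`).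
`c_le`: the set `S` of `E10` is contained in `off w (lev a)`.
-/

open Module

namespace Pool.Agent.Work.MP_ffcd14_ag.Gm.Pack

universe v w

variable {K : Type v} [Field K] [CharZero K] {D : Pack.{v, w} K} {a b : D.ι} {N N' n : ℕ}

theorem A2x_zero {y x : (D.F a).B} {j : ℕ} (hy : y ∈ (D.F a).A j) (hj : j ≠ 0)
    (hx : x ∈ (D.F a).A (D.f a)) : D.p a N y * D.p a N x = 0 := by
  rw [← map_mul, Rg.high (Rg.A_mul hy hx) (by simp only [f]; omega), map_zero]

theorem ld_exists {z : (D.P a N).B} (hz : z ∈ (D.P a N).A n) : ∃ q, D.Ld a N z n q := by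
  obtain ⟨x, hx, rfl⟩ := pb hz
  obtain ⟨q, hq⟩ := D.A0 a (x n) (by simpa using hx n)
  refine ⟨q, fun y hy => ?_⟩
  rw [Finset.sum_range_succ, add_mul, Finset.sum_mul, Finset.sum_eq_zero, zero_add, hq,
    map_rat_smul, map_one, mul_smul_comm, mul_one, smul_mul_assoc]
  intro e he
  rw [mul_assoc, A2x_zero (hx e) (Nat.sub_ne_zero_of_lt (Finset.mem_range.1 he)) hy, mul_zero]

theorem Ld.mul {z z' : (D.P a N).B} {n' : ℕ} {q q' : ℚ} (h : D.Ld a N z n q)
    (h' : D.Ld a N z' n' q') : D.Ld a N (z * z') (n + n') (q * q') := by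
  intro x hx
  rw [mul_assoc, h' x hx, mul_smul_comm, mul_left_comm, h x hx, mul_smul_comm, smul_smul,
    mul_comm q', ← mul_assoc, ← pow_add, add_comm]

theorem ld_tp (e : ℕ) : D.Ld a N (D.tp a N ^ e) e 1 := fun _ _ => (one_smul _ _).symm

theorem ld_lamS (S : Finset D.σ) :
    D.Ld a N (D.ρ a N (lamS D.w S (D.l N) (D.t N))) S.card (Ep D.w S (D.lev a)) := by
  induction S using Finset.cons_induction with
  | empty => exact fun x _ => by simp [lamS, Ep]
  | cons v S hv ih =>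
    rw [lamS, Ep, Finset.prod_cons, Finset.prod_cons, Finset.card_cons, map_mul, add_comm]
    refine Ld.mul (fun x hx => ?_) ih
    rw [map_sub, map_nsmul, D.ρ_l, D.ρ_t, sub_mul, add_mul, A2x_zero (D.h_mem a) one_ne_zero hx,
      zero_add, pow_one, sub_smul, Nat.cast_smul_eq_nsmul, Nat.cast_smul_eq_nsmul, smul_mul_assoc,
      smul_mul_assoc]

theorem Ld.tr {z : (D.P a N).B} {q : ℚ} (h : D.Ld a N z n q) {x : (D.F a).B}
    (hx : x ∈ (D.F a).A (D.f a)) {e : ℕ} (he : n + e = N) :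
    (D.P a N).tr (z * D.p a N x * D.tp a N ^ e) = q * D.κ a N * (D.F a).tr x := by
  rw [h x hx, smul_mul_assoc, mul_right_comm, ← pow_add, LinearMap.map_smul_of_tower, D.trP,
    if_pos he, Rat.smul_def, mul_assoc]

theorem tr_h_ne (a : D.ι) : (D.F a).tr (D.h a ^ D.f a) ≠ 0 := by
  rw [← Rg.t_cast (Rg.A_le _ (Rg.pow_mem (D.h_mem a) _))]
  exact Rat.cast_ne_zero.2 (D.pos a).ne'

theorem Ld.unique {z : (D.P a N).B} {q q' : ℚ} (h : D.Ld a N z n q) (h' : D.Ld a N z n q')
    (hn : n ≤ N) : q = q' := by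
  have h1 := (h.tr (Rg.pow_mem (D.h_mem a) _) (Nat.add_sub_cancel' hn)).symm.trans
    (h'.tr (Rg.pow_mem (D.h_mem a) _) (Nat.add_sub_cancel' hn))
  exact Rat.cast_injective (mul_right_cancel₀ (Rat.cast_ne_zero.2 (D.κ_pos a N).ne')
    (mul_right_cancel₀ (tr_h_ne a) h1))

theorem f_lt (a : D.ι) : D.f a < mm D.w (D.lev a) := by
  by_contra hc
  obtain ⟨k, hk⟩ := Nat.exists_eq_add_of_le (not_lt.1 hc)
  have h1 := congrArg (D.ρ a (D.eo (D.lev a))) (D.lam_all (D.eo (D.lev a)))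
  rw [lamS_univ _ (D.lev a), map_mul, map_pow, rho_lam, map_zero] at h1
  have h2 := (ld_lamS (a := a) (N := D.eo (D.lev a)) (off D.w (D.lev a))).tr
    (Rg.pow_mem (D.h_mem a) _) (add_zero _)
  refine mul_ne_zero (mul_ne_zero (Rat.cast_ne_zero.2 (Ep_ne D.w (D.lev a)))
    (Rat.cast_ne_zero.2 (D.κ_pos a _).ne')) (tr_h_ne a) (h2.symm.trans ?_)
  rw [mul_comm] at h1
  rw [hk, pow_add, map_mul (D.p a _), map_pow (D.p a _), ← mul_assoc, h1, zero_mul, zero_mul,
    map_zero]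

theorem lev_mem (a : D.ι) : D.lev a ∈ Finset.univ.image D.w := by
  obtain ⟨v, hv⟩ := Finset.card_pos.1 (Nat.zero_lt_of_lt (f_lt a))
  exact Finset.mem_image.2 ⟨v, Finset.mem_univ v, (Finset.mem_filter.1 hv).2⟩

theorem ld_Λ : D.Ld a N (D.ρ a N (D.Λ N (D.lev a))) (mm D.w (D.lev a) - 1) (D.β (D.lev a) 0) := by
  intro x hx
  rw [map_Lam, Lam, Finset.sum_mul, D.ρ_l, D.ρ_t, add_sub_cancel_right, Finset.sum_eq_single 0,
    pow_zero, one_mul, Nat.sub_zero, smul_mul_assoc]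
  · intro r _ hr
    rw [smul_mul_assoc, mul_right_comm, ← map_pow, A2x_zero (Rg.pow_mem (D.h_mem a) r) hr hx,
      zero_mul, smul_zero]
  · exact fun h => absurd (Finset.mem_range.2 (Nat.zero_lt_of_lt (f_lt a))) h

theorem c_le (a : D.ι) : D.c a + D.c' a ≤ D.eo (D.lev a) := by
  obtain ⟨S, -, -, h1, -, h2, -⟩ := D.E10 a 0
  exact h1 ▸ Finset.card_le_card fun v hv => Finset.mem_filter.2 ⟨Finset.mem_univ v, h2 v hv⟩

theorem u_mem : D.u a N ∈ (D.P a N).A (D.M - 1 - D.c a) ∧ D.c a ≤ D.M - 1 := by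
  have h1 : D.c a + D.c' a ≤ (off D.w (D.lev a)).card := c_le a
  have h2 := f_lt a
  have h3 : _ = D.M := card_off D.w (D.lev a)
  refine ⟨?_, by omega⟩
  rw [show D.M - 1 - D.c a = (off D.w (D.lev a)).card - D.c a + (mm D.w (D.lev a) - 1) by omega]
  exact Rg.A_mul (D.g_mem a N) (D.ρ_mem a N _ _ (Lam_mem _ _ _))

end Pool.Agent.Work.MP_ffcd14_ag.Gm.Pack
end

-- merged part: Pool.Agent.Work.MP_ffcd14_ag.Gm.A2b
section
/-!
# Localisation

Plan.  `key`: expand `t ^ (M - 1)` by `loc_t`.  The terms `m < lev a` vanish by `E3`, the terms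
`m > lev a` by `E1` and the hypothesis, the term `m = lev a` (`lev_mem`) is given by `E2`.
`mu_ne`: compare with `E9` for `y = (l - lev • t) ^ f * t ^ n`, `eo + n = N`, where
`ρ y = tp ^ n * p (h ^ f)`; the trace of `ρ (E * y)` is `Ep * κ * tr (h ^ f) ≠ 0` (`ld_lamS`, `Ld.tr`).
`u_mul`: `ptest` for the difference, which lies in `A (M - 1 + j)`; use `key` for `y = φ x * t ^ e` (`E4`)
and `E6`.  `rho_phi`: with `u * eu = μ • tp ^ (M - 1)` we get
`μ • tp ^ (M - 1) * (ρ (φ x) - eu * p x) = eu * (u * ρ (φ x)) - eu * (u * eu) * p x = 0`; `cancel`.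
`inj`: by descending induction on the level (strong induction on `L - lev a`, `L` an upper bound)
`ρ a N y = 0` for all `a`: `u * ρ y = 0` by `ptest` and `key` for `y * t ^ e`; multiply by `eu`; `cancel`.
Then `E m * y = 0` (`E1`, `pd`), so `Rs * y = 0` and `(l + t) ^ s * y = 0` for `2 n + s = d + N`
(`loc_s`); use `HL_Y` with `q = 1`.
`sign`: let `γ₀, e₀, u₀` be the leading coefficients of `γ, eu, u` (`ld_exists`); `u₀ * e₀ = μ ≠ 0`
(`Ld.unique`).  Apply `E10` to `y = φ (h ^ f) * t ^ n` with `eo + c + n = N` (`rho_phi`, `E4`), compute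
the left side by `E1` (only the term `a` survives): `γ₀ * Ep S = μ' * Ep off`.  With `β_zero`,
`β₀ * γ₀ * Ep S = μ' > 0`; `Ep_sign`.  Take `ω = γ₀ * e₀ * e₀`.
-/

open Module

namespace Pool.Agent.Work.MP_ffcd14_ag.Gm.Pack

universe v w

variable {K : Type v} [Field K] [CharZero K] {D : Pack.{v, w} K} {a b : D.ι} {N N' n : ℕ}

theorem key {y : (D.Y N).B} (hy : ∀ b, D.lev a < D.lev b → D.ρ b N y = 0) (z : (D.F a).B) :
    (D.Y N).tr (D.t N ^ (D.M - 1) * y * D.φ' a N z) =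
      (D.P a N).tr (D.u a N * D.ρ a N y * D.p a N z) := by
  rw [D.loc_t, Finset.sum_mul, Finset.sum_mul, map_sum, Finset.sum_eq_single (D.lev a)]
  · have h := D.E2 a N z (D.Λ N (D.lev a) * y)
    rw [map_mul (D.ρ a N)] at h
    convert h using 2 <;> ring
  · intro m _ hm
    rcases hm.lt_or_gt with h | h
    · rw [mul_right_comm, mul_assoc (D.Λ N m), D.E3 a N m z h, mul_zero, zero_mul, map_zero]
    · rw [mul_comm (D.Λ N m), mul_assoc, mul_assoc, D.E1]
      refine Finset.sum_eq_zero fun b hb => ?_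
      rw [map_mul (D.ρ b N), map_mul (D.ρ b N), hy b (h.trans_eq (Finset.mem_filter.1 hb).2.symm),
        zero_mul, mul_zero, mul_zero, map_zero]
  · exact fun h => absurd (lev_mem a) h

theorem mu_ne (hN : D.M ≤ N) {μ : ℚ} (h : ∀ y, (D.Y N).tr (D.φ a N 1 * D.φ' a N 1 * y) =
    μ * (D.P a N).tr (D.p a N 1 * D.p a N 1 * D.ρ a N y)) : μ ≠ 0 := by
  rintro rfl
  obtain ⟨ν, hν, h9⟩ := D.E9 a N
  obtain ⟨n, hn⟩ : ∃ n, D.eo (D.lev a) + n = N :=
    Nat.exists_eq_add_of_le (le_trans (Nat.le.intro (card_off D.w (D.lev a))) hN) |>.imp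
      fun _ h => h.symm
  have hx : D.h a ^ D.f a ∈ (D.F a).A (D.f a) := Rg.pow_mem (D.h_mem a) _
  have hy : D.ρ a N ((D.l N - D.lev a • D.t N) ^ D.f a * D.t N ^ n) =
      D.tp a N ^ n * D.p a N (D.h a ^ D.f a) := by
    rw [map_mul, map_pow, map_pow, map_pow, rho_lam, D.ρ_t, mul_comm]
  have h1 := h9 _ _ _ hx hy
  rw [h, Rat.cast_zero, zero_mul, map_mul, hy, mul_comm (D.tp a N ^ n), ← mul_assoc,
    (ld_lamS _).tr hx hn] at h1
  exact mul_ne_zero (Rat.cast_ne_zero.2 hν.ne') (mul_ne_zero (mul_ne_zero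
    (Rat.cast_ne_zero.2 (Ep_ne _ _)) (Rat.cast_ne_zero.2 (D.κ_pos a N).ne')) (tr_h_ne a)) h1.symm

theorem u_mul (hN : D.M ≤ N) (a : D.ι) : ∃ μ : ℚ, μ ≠ 0 ∧ ∀ j, ∀ x ∈ (D.F a).A j,
    D.u a N * D.ρ a N (D.φ a N x) = μ • (D.tp a N ^ (D.M - 1) * D.p a N x) := by
  obtain ⟨μ, hμ⟩ := D.E6 a N
  refine ⟨μ, mu_ne hN (hμ 0 1 (D.F a).one_mem 1), fun j x hx => sub_eq_zero.1 ?_⟩
  obtain ⟨u1, u2⟩ := u_mem (D := D) (a := a) (N := N)
  have m1 := Rg.A_mul u1 (D.ρ_mem a N _ _ (D.φ_mem a N j x hx))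
  rw [show D.M - 1 - D.c a + (D.c a + j) = D.M - 1 + j by omega] at m1
  refine ptest (sub_mem m1 (Submodule.smul_mem _ μ
    (Rg.A_mul (Rg.pow_mem (D.tp_mem a N) _) (D.p_mem a N j x hx)))) fun e z => ?_
  have h1 := key (a := a) (y := D.φ a N x * D.t N ^ e) (fun b hb => by
    rw [map_mul, D.E4 a b N j (fun e => hb.ne' (congrArg D.lev e)) hb.not_gt x hx, zero_mul]) z
  have h2 := hμ j x hx z (D.t N ^ (D.M - 1) * D.t N ^ e)
  simp only [map_mul, map_pow, D.ρ_t] at h1 h2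
  rw [sub_mul, map_sub, smul_mul_assoc, map_rat_smul, Rat.smul_def, sub_eq_zero]
  refine Eq.trans ?_ (h1.symm.trans (Eq.trans ?_ (h2.trans ?_)))
  · congr 1
    ring
  · congr 1
    ring
  · congr 2
    ring

theorem rho_phi {j : ℕ} (hN : D.c a + j + D.M ≤ N) {x : (D.F a).B} (hx : x ∈ (D.F a).A j) :
    D.ρ a N (D.φ a N x) = D.eu a N * D.p a N x := by
  obtain ⟨μ, h0, hμ⟩ := u_mul (by omega : D.M ≤ N) a
  have h1 := hμ 0 1 (D.F a).one_mem
  have h2 := hμ j x hx
  rw [map_one (D.p a N), mul_one] at h1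
  have m1 := Rg.A_mul (D.ρ_mem a N _ _ (D.φ_mem a N 0 1 (D.F a).one_mem)) (D.p_mem a N j x hx)
  refine sub_eq_zero.1 (cancel (e := D.M - 1)
    (sub_mem (D.ρ_mem a N _ _ (D.φ_mem a N j x hx)) m1) (by omega)
    ((smul_eq_zero_iff_right h0).1 ?_))
  rw [mul_sub, smul_sub, ← smul_mul_assoc, ← h1, mul_left_comm, ← mul_smul_comm, ← h2]
  ring

theorem inj (hN : 2 * n + D.M ≤ N) {y : (D.Y N).B} (hy : y ∈ (D.Y N).A n)
    (h : ∀ a e z, (D.Y N).tr (y * D.t N ^ e * D.φ' a N z) = 0) : y = 0 := by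
  obtain ⟨s, hs⟩ : ∃ s, 2 * n + s = (D.Y N).d := ⟨(D.Y N).d - 2 * n, by have := D.dY N; omega⟩
  have step : ∀ a, (∀ b, D.lev a < D.lev b → D.ρ b N y = 0) → D.ρ a N y = 0 := by
    intro a ha
    obtain ⟨μ, h0, hμ⟩ := u_mul (by omega : D.M ≤ N) a
    have h1 := hμ 0 1 (D.F a).one_mem
    rw [map_one (D.p a N), mul_one] at h1
    have m1 := D.ρ_mem a N _ _ hy
    have h2 : D.u a N * D.ρ a N y = 0 := by
      refine ptest (Rg.A_mul u_mem.1 m1) fun e z => ?_
      have h3 := key (a := a) (y := y * D.t N ^ e)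
        (fun b hb => by rw [map_mul, ha b hb, zero_mul]) z
      rw [map_mul (D.ρ a N), map_pow (D.ρ a N), D.ρ_t] at h3
      refine Eq.trans ?_ (h3.symm.trans (Eq.trans ?_ (h a (D.M - 1 + e) z)))
      · congr 1
        ring
      · congr 1
        ring
    refine cancel (e := D.M - 1) m1 (by omega) ((smul_eq_zero_iff_right h0).1 ?_)
    rw [← smul_mul_assoc, ← h1, mul_right_comm, h2, zero_mul]
  have all : ∀ k a, Finset.univ.sup D.lev ≤ D.lev a + k → D.ρ a N y = 0 := by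
    intro k
    induction k with
    | zero =>
      exact fun a ha => step a fun b hb =>
        absurd ((Finset.le_sup (Finset.mem_univ b)).trans ha) hb.not_ge
    | succ k ih => exact fun a ha => step a fun b hb => ih b (by omega)
  have hE : ∀ m, D.E N m * y = 0 := fun m => (D.Y N).pd _ fun z => by
    rw [mul_assoc]
    refine (D.E1 N m _).trans (Finset.sum_eq_zero fun b _ => ?_)
    rw [map_mul (D.ρ b N), all _ b (Nat.le_add_left _ _), zero_mul, mul_zero, map_zero]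
  refine D.HL_Y N 1 one_pos n s hs y ((D.Y N).S.A_le _ _ hy) ?_
  rw [one_smul, D.loc_s N (n := s + 1 - D.M) (by have := D.dY N; omega), mul_right_comm, Rs,
    Finset.sum_mul, Finset.sum_eq_zero fun m _ => by rw [mul_assoc, hE, mul_zero], zero_mul]

end Pool.Agent.Work.MP_ffcd14_ag.Gm.Pack
end

-- merged part: Pool.Agent.Work.MP_ffcd14_ag.Gm.A3
section
/-!
# All algebraic classes of small codimension come from the fixed components

Plan.  `st_step`: for each `a` of level `L` and each `i` with `i + c a ≤ n` let `z a i ∈ A (n - c a - i)`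
be given by `E7'` for `y * t ^ (N - i)`.  Put `y₁ = ∑ a i, (μ a * κ a)⁻¹ • t ^ i * φ (z a i)` with `μ a`
from `E6` (non-zero by `mu_ne`).  For `lev b ≥ L` only the terms `a = b` of `y₁` pair with
`t ^ e * φ' b z` (`E5`), and the pairing is computed by `E6`, `ρ_t`, `trP`: only `i + e = N` survives.
For `lev b = L`: if `e > N` use `t_pow`; if `e = N - i` with `i + c b ≤ n` use the definition of `z b i`;
otherwise the third part of `E7'`.
`st`: descending induction on `L` from an upper bound of the levels to `0`, then `inj`.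
-/

open Module

namespace Pool.Agent.Work.MP_ffcd14_ag.Gm.Pack

universe v w

variable {K : Type v} [Field K] [CharZero K] {D : Pack.{v, w} K} {a b : D.ι} {N N' n : ℕ}

theorem T_le : D.T N n ≤ (D.Y N).A n := by
  refine Submodule.span_le.2 ?_
  rintro _ ⟨a, e, j, x, rfl, hx, rfl⟩
  rw [add_assoc]
  exact Rg.A_mul (Rg.pow_mem (D.t_mem N) e) (D.φ_mem a N j x hx)

theorem T_repr {y : (D.Y N).B} (hy : y ∈ D.T N n) : ∃ x : ∀ a, ℕ → (D.F a).B,
    (∀ a j, x a j ∈ (D.F a).A j) ∧ y = ∑ a, ∑ j ∈ Finset.range (n + 1 - D.c a),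
      D.t N ^ (n - D.c a - j) * D.φ a N (x a j) := by
  induction hy using Submodule.span_induction with
  | mem _ hz =>
    obtain ⟨a, e, j, x, rfl, hx, rfl⟩ := hz
    refine ⟨Pi.single a (Pi.single j x), fun b k => ?_, ?_⟩
    · by_cases hb : b = a
      · subst hb
        rw [Pi.single_eq_same]
        by_cases hk : k = j
        · subst hk
          rwa [Pi.single_eq_same]
        · rw [Pi.single_eq_of_ne hk]
          exact zero_mem _
      · rw [Pi.single_eq_of_ne hb]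
        exact zero_mem _
    · rw [Finset.sum_eq_single a, Finset.sum_eq_single j, Pi.single_eq_same, Pi.single_eq_same]
      · congr 2
        omega
      · intro k _ hk
        rw [Pi.single_eq_same, Pi.single_eq_of_ne hk, map_zero, mul_zero]
      · intro hj
        exact absurd (Finset.mem_range.2 (by omega)) hj
      · intro b _ hb
        simp [Pi.single_eq_of_ne hb]
      · intro hj
        exact absurd (Finset.mem_univ a) hj
  | zero => exact ⟨0, fun a j => zero_mem _, by simp⟩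
  | add _ _ _ _ h h' =>
    obtain ⟨x, hx, rfl⟩ := h
    obtain ⟨x', hx', rfl⟩ := h'
    refine ⟨x + x', fun a j => add_mem (hx a j) (hx' a j), ?_⟩
    simp only [Pi.add_apply, map_add, mul_add, Finset.sum_add_distrib]
  | smul q _ _ h =>
    obtain ⟨x, hx, rfl⟩ := h
    refine ⟨q • x, fun a j => Submodule.smul_mem _ q (hx a j), ?_⟩
    simp only [Pi.smul_apply, LinearMap.map_smul_of_tower, mul_smul_comm, Finset.smul_sum]

theorem A3_pair {μ : ℚ} (hμ : μ ≠ 0) {x z : (D.F a).B}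
    (h : ∀ y, (D.Y N).tr (D.φ a N x * D.φ' a N z * y) =
      μ * (D.P a N).tr (D.p a N x * D.p a N z * D.ρ a N y)) (i e : ℕ) :
    (D.Y N).tr ((μ * D.κ a N)⁻¹ • (D.t N ^ i * D.φ a N x) * D.t N ^ e * D.φ' a N z) =
      if i + e = N then (D.F a).tr (x * z) else 0 := by
  have e1 : (μ * D.κ a N)⁻¹ • (D.t N ^ i * D.φ a N x) * D.t N ^ e * D.φ' a N z =
      (μ * D.κ a N)⁻¹ • (D.φ a N x * D.φ' a N z * D.t N ^ (i + e)) := by
    rw [smul_mul_assoc, smul_mul_assoc]
    congr 1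
    ring
  have h1 : (μ : K) ≠ 0 := by exact_mod_cast hμ
  have h2 : (D.κ a N : K) ≠ 0 := by exact_mod_cast (D.κ_pos a N).ne'
  rw [e1, LinearMap.map_smul_of_tower, h, map_pow, D.ρ_t, ← map_mul, mul_comm (D.p a N _), D.trP,
    Rat.smul_def]
  split_ifs
  · push_cast
    field_simp
  · rw [mul_zero, mul_zero]

theorem st_step (hN : 2 * n + D.M ≤ N) {y : (D.Y N).B} (hy : y ∈ (D.Y N).A n) (L : ℕ)
    (h : ∀ a, L < D.lev a → ∀ e z, (D.Y N).tr (y * D.t N ^ e * D.φ' a N z) = 0) :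
    ∃ y₁ ∈ D.T N n, ∀ a, L ≤ D.lev a → ∀ e z,
      (D.Y N).tr ((y - y₁) * D.t N ^ e * D.φ' a N z) = 0 := by
  choose μ hμ using fun a => D.E6 a N
  have hμ0 : ∀ a, μ a ≠ 0 := fun a => mu_ne (by omega) (hμ a 0 1 (D.F a).one_mem 1)
  choose z hz1 hz2 hz3 using fun a i => D.E7' a N (n + (N - i)) (y * D.t N ^ (N - i))
    (Rg.A_mul hy (Rg.pow_mem (D.t_mem N) _))
  have hm : ∀ a, ∀ i ∈ Finset.range (n + 1 - D.c a), z a i ∈ (D.F a).A (n - D.c a - i) :=
    fun a i hi => hz2 a i _ (by have := Finset.mem_range.1 hi; omega)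
  refine ⟨∑ a with D.lev a = L, ∑ i ∈ Finset.range (n + 1 - D.c a),
    (μ a * D.κ a N)⁻¹ • (D.t N ^ i * D.φ a N (z a i)), ?_, fun b hb e x => ?_⟩
  · refine Submodule.sum_mem _ fun a _ => Submodule.sum_mem _ fun i hi =>
      Submodule.smul_mem _ _ (Submodule.subset_span ⟨a, i, _, _, ?_, hm a i hi, rfl⟩)
    have := Finset.mem_range.1 hi
    omega
  have h0 : ∀ a, D.lev a = L → a ≠ b → (D.Y N).tr ((∑ i ∈ Finset.range (n + 1 - D.c a),
      (μ a * D.κ a N)⁻¹ • (D.t N ^ i * D.φ a N (z a i))) * D.t N ^ e * D.φ' b N x) = 0 := by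
    intro a ha hab
    rw [Finset.sum_mul, Finset.sum_mul, Finset.sum_eq_zero, map_zero]
    intro i hi
    have := D.E5 a b N _ hab.symm (by omega) _ (hm a i hi) x
    rw [smul_mul_assoc, smul_mul_assoc, mul_right_comm (D.t N ^ i), mul_assoc, this, mul_zero,
      smul_zero]
  rw [sub_mul, sub_mul, map_sub, Finset.sum_mul, Finset.sum_mul, map_sum, sub_eq_zero]
  rcases hb.lt_or_eq with hb | hb
  · rw [h b hb, Finset.sum_eq_zero]
    intro a ha
    have ha' := (Finset.mem_filter.1 ha).2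
    exact h0 a ha' (by rintro rfl; omega)
  rw [Finset.sum_eq_single_of_mem b (Finset.mem_filter.2 ⟨Finset.mem_univ b, hb.symm⟩)
    fun a ha hab => h0 a (Finset.mem_filter.1 ha).2 hab]
  rcases lt_or_ge N e with he | he
  · have : D.t N ^ e = 0 := pow_eq_zero_of_le he (D.t_pow N)
    simp only [this, mul_zero, zero_mul]
  rw [Finset.sum_mul, Finset.sum_mul, map_sum,
    Finset.sum_congr rfl fun i hi => A3_pair (hμ0 b) (hμ b _ _ (hm b i hi) x) i e]
  have h1 := hz1 b (N - e) x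
  rw [Nat.sub_sub_self he] at h1
  have h2 : ∀ i, i + e = N ↔ i = N - e := fun i => by omega
  simp only [h2]
  rw [mul_comm, h1, Finset.sum_ite_eq', mul_comm]
  split_ifs with hi
  · rfl
  · rw [hz3 b (N - e) (by have := Finset.mem_range.not.1 hi; omega), zero_mul, map_zero]

theorem st (hN : 2 * n + D.M ≤ N) : (D.Y N).A n ≤ D.T N n := by
  have key : ∀ (k : ℕ) (y : (D.Y N).B), y ∈ (D.Y N).A n →
      (∀ a, k ≤ D.lev a → ∀ e z, (D.Y N).tr (y * D.t N ^ e * D.φ' a N z) = 0) → y ∈ D.T N n := by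
    intro k
    induction k with
    | zero =>
      intro y hy h
      rw [inj hN hy fun a => h a (Nat.zero_le _)]
      exact zero_mem _
    | succ k ih =>
      intro y hy h
      obtain ⟨y₁, h1, h2⟩ := st_step hN hy k h
      have := add_mem (ih (y - y₁) (sub_mem hy (T_le h1)) h2) h1
      rwa [sub_add_cancel] at this
  intro y hy
  refine key (Finset.univ.sup D.lev + 1) y hy fun a ha => ?_
  have := Finset.le_sup (f := D.lev) (Finset.mem_univ a)
  omega

end Pool.Agent.Work.MP_ffcd14_ag.Gm.Pack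
end

-- merged part: Pool.Agent.Work.MP_ffcd14_ag.Gm.A4
section
/-!
# Triangularity and dimension counts

Plan.  `tri_off`: `φ x * φ' z = 0` by `E5`, `E5'` and `K`-linearity (span induction on `Base.V`).
`tri_on`: `IsRes.tr`, `E6` (extended to `V j` by linearity), `mu_ne`, `ρ_t`, `trP`; the exponent
`e + (n - e') + (N - n)` is `N` iff `e = e'`.
`vdim`: for `j ≤ f a` take the basis `v a j` of `V j` and the dual family `v' a j` in `G (f a - j)` of
`Base.exists_V_basis`; for `j > f a` the space `V j` is zero (`vd_zero`).  The family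
`r (t ^ i * φ (v a (e - c a - i) ν))`, `i ≤ n`, `c a + i ≤ e`, spans (`st`, `IsRes.nil`) and is linearly
independent: the matrix of the pairings with `r (t ^ (n - i) * φ' (v' ..))` is invertible by `tri_det`.
Then `finrank_span_eq_card`.  `vlow`: the family `i (φ' (v a (e - c' a) ν))` lies in `V e` and is
independent (duals `i (φ (v' ..))`, `tri_on'`, `tri_det` for the transposed matrix).
`vd_le`: multiplication by `h ^ (j' - j)` is injective (`HL_F`, `Base.V_mul_pow`).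
`hV_Y'`: by `vdim` and `vX` the dimension in degree `e` is `∑ i ≤ N, if i ≤ e then X.vd (e - i) else 0`;
reflect `i ↦ N - i` and use `hV_X`, `vd_zero`.
-/

open Module

namespace Pool.Agent.Work.MP_ffcd14_ag.Gm.Pack

universe v w

variable {K : Type v} [Field K] [CharZero K] {D : Pack.{v, w} K} {a b : D.ι} {N N' n : ℕ}

theorem vd_zero (R : Rg.{v, w} K) {j : ℕ} (h : R.d < j) : R.vd j = 0 := by
  have e : R.S.V j = ⊥ := eq_bot_iff.2 fun x hx => R.S.eq_zero_of_lt (R.S.V_le j hx) h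
  rw [Rg.vd, e, finrank_bot]

theorem vd_le (a : D.ι) {j j' : ℕ} (h : j + j' = D.f a) (hj : j ≤ j') :
    (D.F a).vd j ≤ (D.F a).vd j' := by
  obtain ⟨e, rfl⟩ := Nat.exists_eq_add_of_le hj
  refine LinearMap.finrank_le_finrank_of_injective (f := (LinearMap.mulLeft K (D.h a ^ e)).restrict
    ((D.F a).S.V_mul_pow (D.h_mem a) j e)) ?_
  rw [injective_iff_map_eq_zero]
  intro x hx
  exact Subtype.ext (D.HL_F a j e (by rw [two_mul, add_assoc]; exact h) x.1
    ((D.F a).S.V_le j x.2) (congrArg Subtype.val hx))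

variable {T : Rg.{v, w} K} {r : (D.Y N).B →ₐ[K] T.B}

theorem tri_off (r : (D.Y N).B →ₐ[K] T.B) (hb : b ≠ a) (hl : ¬ D.lev b < D.lev a) {j : ℕ}
    {x : (D.F a).B} {z : (D.F b).B} (h : x ∈ (D.F a).S.V j ∨ z ∈ (D.F b).S.V j) (e e' : ℕ) :
    r (D.t N ^ e * D.φ a N x) * r (D.t N ^ e' * D.φ' b N z) = 0 := by
  have k : D.φ a N x * D.φ' b N z = 0 := by
    rcases h with h | h
    · induction h using Submodule.span_induction with
      | mem x hx => exact D.E5 a b N j hb hl x hx z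
      | zero => rw [map_zero, zero_mul]
      | add x y _ _ hx hy => rw [map_add, add_mul, hx, hy, add_zero]
      | smul c x _ hx => rw [map_smul, smul_mul_assoc, hx, smul_zero]
    · induction h using Submodule.span_induction with
      | mem z hz => exact D.E5' a b N j hb hl x z hz
      | zero => rw [map_zero, mul_zero]
      | add x y _ _ hx hy => rw [map_add, mul_add, hx, hy, add_zero]
      | smul c x _ hx => rw [map_smul, mul_smul_comm, hx, smul_zero]
  rw [← map_mul, mul_mul_mul_comm, k, mul_zero, map_zero]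

theorem A4_on (hn : n ≤ N) {q μ : ℚ}
    (hq : ∀ y, T.tr (r y) = q * (D.Y N).tr (y * D.t N ^ (N - n))) {x z : (D.F a).B}
    (h : ∀ y, (D.Y N).tr (D.φ a N x * D.φ' a N z * y) =
      μ * (D.P a N).tr (D.p a N x * D.p a N z * D.ρ a N y)) {e e' : ℕ} (he' : e' ≤ n) :
    T.tr (r (D.t N ^ e * D.φ a N x) * r (D.t N ^ (n - e') * D.φ' a N z)) =
      if e = e' then ((q * μ * D.κ a N : ℚ) : K) * (D.F a).tr (x * z) else 0 := by
  have e1 : D.t N ^ e * D.φ a N x * (D.t N ^ (n - e') * D.φ' a N z) * D.t N ^ (N - n) =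
      D.φ a N x * D.φ' a N z * D.t N ^ (e + (n - e') + (N - n)) := by ring
  rw [← map_mul, hq, e1, h, map_pow, D.ρ_t, ← map_mul, mul_comm (D.p a N (x * z)), D.trP]
  by_cases k : e = e'
  · rw [if_pos k, if_pos (by omega)]
    push_cast
    ring
  · rw [if_neg k, if_neg (by omega), mul_zero, mul_zero]

theorem tri_on (hr : D.IsRes N n T r) (hN : D.M ≤ N) (a : D.ι) : ∃ ν : ℚ, ν ≠ 0 ∧
    ∀ e ≤ n, ∀ e' ≤ n, ∀ j, ∀ x ∈ (D.F a).S.V j, ∀ z,
      T.tr (r (D.t N ^ e * D.φ a N x) * r (D.t N ^ (n - e') * D.φ' a N z)) =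
        if e = e' then ν * (D.F a).tr (x * z) else 0 := by
  obtain ⟨q, hq0, hq⟩ := hr.tr
  obtain ⟨μ, hμ⟩ := D.E6 a N
  have h0 : μ ≠ 0 := mu_ne hN (hμ 0 1 (D.F a).one_mem 1)
  refine ⟨q * μ * D.κ a N, mul_ne_zero (mul_ne_zero hq0.ne' h0) (D.κ_pos a N).ne',
    fun e _ e' he' j x hx z => A4_on hr.le hq (fun y => ?_) he'⟩
  induction hx using Submodule.span_induction with
  | mem x hx => exact hμ j x hx z y
  | zero => simp only [map_zero, zero_mul, mul_zero]
  | add x x' _ _ hx hx' => simp only [map_add, add_mul, mul_add, hx, hx']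
  | smul c x _ hx => simp only [map_smul, smul_mul_assoc, hx, smul_eq_mul, mul_left_comm c]

theorem tri_on' (hr : D.IsRes N n T r) (hN : D.M ≤ N) (a : D.ι) : ∃ ν : ℚ, ν ≠ 0 ∧
    ∀ e ≤ n, ∀ e' ≤ n, ∀ j x, ∀ z ∈ (D.F a).S.V j,
      T.tr (r (D.t N ^ e * D.φ a N x) * r (D.t N ^ (n - e') * D.φ' a N z)) =
        if e = e' then ν * (D.F a).tr (x * z) else 0 := by
  obtain ⟨q, hq0, hq⟩ := hr.tr
  obtain ⟨μ, hμ⟩ := D.E6' a N
  have h0 : μ ≠ 0 := mu_ne hN (hμ 0 1 1 (D.F a).one_mem)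
  refine ⟨q * μ * D.κ a N, mul_ne_zero (mul_ne_zero hq0.ne' h0) (D.κ_pos a N).ne',
    fun e _ e' he' j x z hz => A4_on hr.le hq (fun y => ?_) he'⟩
  induction hz using Submodule.span_induction with
  | mem z hz => exact hμ j x z hz y
  | zero => simp only [map_zero, zero_mul, mul_zero]
  | add z z' _ _ hz hz' => simp only [map_add, add_mul, mul_add, hz, hz']
  | smul c z _ hz =>
    simp only [map_smul, smul_mul_assoc, mul_smul_comm, hz, smul_eq_mul, mul_left_comm c]

variable (D)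

end Pool.Agent.Work.MP_ffcd14_ag.Gm.Pack
end

-- merged part: Pool.Agent.Work.MP_ffcd14_ag.Gm.A5
section
/-!
# Numerical bases on the bundles

Plan.  `n0_phi`: `E7`.  `uu_gen`: `st`, `T_repr`, the first part of `nb`, `n0_phi`, `N0.mul`
(`Fintype.sum_sigma`, `Finset.sum_range`).
`res_gen`: `Rg.span_of_gram` with `uu_gen` and the family
`v s = res (t ^ (N - (k - c b - j)) * φ' (e' b j ν))`; the determinant is not zero by `tri_det` with
`blk = Sigma.fst`, `ht = lev` (`tri_off`, `tri_on` for `isRes_res`, `Rg.t_cast`, `nb`).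
`xx_gen`: for `x ∈ X.A j₀`, `j₀ ≤ k`: `i_surj`, `st`, `T_repr`, `i_t` (only the terms `j = j₀ - c a` survive);
if `x` is `N0` on `F a` then `i (φ x)` is `N0` on `X` (`i_surj`, `TRi`, `n0_phi`).
`xx_ind`: `Rg.ind_of_det` with `v s = i (φ' (e' b j ν))`, `tri_det`, `tri_on` for `isRes_i`; for `j ≠ j'`
the degree is wrong (`Nb.le`, `Rg.t_deg`).
`sg_A'`: both sides are `sgM` of the Gram matrix of the family of `res_gen` (`Gen.sg`).
`sg_res`: `sig_congr` with `res` and the form of `q • (z * t ^ (N' - N))` (`TR`, `Rg.t_cast`), `sg_smul`.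
`indep`: choose `N' = 2 (d + N) + M`; `sg_A'`, `Rg.sg_sub`, `Rg.sg_indep` for `Y'` (`hV_Y'`, `HL_Y`,
`Rg.power_sub`, `res_l`, `res_t`).
-/

open Module

namespace Pool.Agent.Work.MP_ffcd14_ag.Gm.Pack

universe v w

variable {K : Type v} [Field K] [CharZero K] {D : Pack.{v, w} K} {a b : D.ι} {N N' n : ℕ}

variable {k : ℕ}

theorem n0_phi {x : (D.F a).B} (hx : (D.F a).N0 x) : (D.Y N).N0 (D.φ a N x) := by
  intro c y hy
  obtain ⟨j, z, hz, h⟩ := D.E7 a N c y hy
  exact (h x).trans (hx j z hz)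

theorem uu_mem (r : D.J k) : D.uu N k r ∈ (D.Y N).A k := by
  obtain ⟨a, j, ν⟩ := r
  have h1 := Rg.A_mul (Rg.pow_mem (D.t_mem N) (k - D.c a - j))
    (D.φ_mem a N j _ ((D.nb a j).1.1 ν))
  have h2 : k - D.c a - j + (D.c a + j) = k := by
    have := j.2
    omega
  rw [h2] at h1
  exact h1

theorem uu_gen (hN : 2 * k + D.M ≤ N) : (D.Y N).Gen ((D.Y N).A k) (D.uu N k) := by
  refine ⟨uu_mem, fun y hy => ?_⟩
  obtain ⟨x, hx, rfl⟩ := T_repr (st hN hy)
  choose ξ hξ using fun a j => (D.nb a j).1.2 (x a j) (hx a j)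
  refine ⟨fun r => ξ r.1 r.2.1 r.2.2, ?_⟩
  rw [Fintype.sum_sigma, ← Finset.sum_sub_distrib]
  refine Rg.N0.sum _ _ fun a _ => ?_
  rw [Fintype.sum_sigma, Finset.sum_range, ← Finset.sum_sub_distrib]
  refine Rg.N0.sum _ _ fun j _ => ?_
  have h1 := Rg.N0.mul (n0_phi (N := N) (hξ a j))
    (Rg.A_le _ (Rg.pow_mem (D.t_mem N) (k - D.c a - j)))
  rw [map_sub, map_sum, mul_comm, mul_sub, Finset.mul_sum] at h1
  simpa only [uu, LinearMap.map_smul_of_tower, mul_smul_comm] using h1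

theorem res_gen (h : N ≤ N') (hN : 2 * k + D.M ≤ N) :
    (D.Y N).Gen ((D.Y N).A k) fun r => D.res h (D.uu N' k r) := by
  choose ν hν H using fun a => tri_on (D.isRes_res h) (by omega) a
  have hv : ∀ s : D.J k, D.res h (D.t N' ^ (N - (k - D.c s.1 - s.2.1)) *
      D.φ' s.1 N' (D.e' s.1 s.2.1 s.2.2)) ∈ (D.Y N).Alg := fun s =>
    Rg.A_le _ (D.res_mem h _ _ (Rg.A_mul (Rg.pow_mem (D.t_mem N') _)
      (D.φ'_mem _ _ _ _ ((D.nb s.1 s.2.1).2.1 s.2.2))))
  have hu : ∀ r : D.J k, D.res h (D.uu N' k r) ∈ (D.Y N).A k := fun r =>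
    D.res_mem h k _ (uu_mem r)
  refine Rg.span_of_gram (uu_gen hN) (Rg.A_le k) hu hv
    (tri_det _ Sigma.fst D.lev ν hν (fun r s h1 h2 => ?_) fun r s h1 => ?_)
  · rw [Matrix.of_apply, uu, tri_off (D.res h) h1 h2
      (Or.inl ((D.F r.1).S.mem_V ((D.nb r.1 r.2.1).1.1 r.2.2))), map_zero]
  · apply Rat.cast_injective (α := K)
    rw [Matrix.of_apply, Rg.t_cast (Rg.alg_mul (Rg.A_le k (hu r)) (hv s))]
    obtain ⟨a, j, μ⟩ := r
    obtain ⟨b, j', μ'⟩ := s
    obtain rfl : b = a := h1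
    have h3 := j.2
    have h4 := j'.2
    rw [uu, H b _ (by omega) _ (by omega) j _ ((D.F b).S.mem_V ((D.nb b j).1.1 μ))]
    by_cases hj : j = j'
    · subst hj
      rw [if_pos rfl, ← Rg.t_cast (Rg.A_le _ (Rg.A_mul ((D.nb b j).1.1 μ) ((D.nb b j).2.1 μ'))),
        (D.nb b j).2.2]
      by_cases hμ : μ = μ'
      · subst hμ
        rw [if_pos rfl, if_pos rfl, Rat.cast_one, mul_one]
      · rw [if_neg hμ, if_neg (by simpa using hμ), Rat.cast_zero, mul_zero]
    · rw [if_neg fun e => hj (Fin.ext (by dsimp only at e; omega)), if_neg, Rat.cast_zero]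
      intro e
      exact hj (congrArg Sigma.fst (eq_of_heq (Sigma.mk.inj e).2))

end Pool.Agent.Work.MP_ffcd14_ag.Gm.Pack
end

-- merged part: Pool.Agent.Work.MP_ffcd14_ag.Gm.A5a
section
/-!
# Numerical bases on the bundles

Plan.  `n0_phi`: `E7`.  `uu_gen`: `st`, `T_repr`, the first part of `nb`, `n0_phi`, `N0.mul`
(`Fintype.sum_sigma`, `Finset.sum_range`).
`res_gen`: `Rg.span_of_gram` with `uu_gen` and the family
`v s = res (t ^ (N - (k - c b - j)) * φ' (e' b j ν))`; the determinant is not zero by `tri_det` with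
`blk = Sigma.fst`, `ht = lev` (`tri_off`, `tri_on` for `isRes_res`, `Rg.t_cast`, `nb`).
`xx_gen`: for `x ∈ X.A j₀`, `j₀ ≤ k`: `i_surj`, `st`, `T_repr`, `i_t` (only the terms `j = j₀ - c a` survive);
if `x` is `N0` on `F a` then `i (φ x)` is `N0` on `X` (`i_surj`, `TRi`, `n0_phi`).
`xx_ind`: `Rg.ind_of_det` with `v s = i (φ' (e' b j ν))`, `tri_det`, `tri_on` for `isRes_i`; for `j ≠ j'`
the degree is wrong (`Nb.le`, `Rg.t_deg`).
`sg_A'`: both sides are `sgM` of the Gram matrix of the family of `res_gen` (`Gen.sg`).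
`sg_res`: `sig_congr` with `res` and the form of `q • (z * t ^ (N' - N))` (`TR`, `Rg.t_cast`), `sg_smul`.
`indep`: choose `N' = 2 (d + N) + M`; `sg_A'`, `Rg.sg_sub`, `Rg.sg_indep` for `Y'` (`hV_Y'`, `HL_Y`,
`Rg.power_sub`, `res_l`, `res_t`).
-/

open Module

namespace Pool.Agent.Work.MP_ffcd14_ag.Gm.Pack

universe v w

variable {K : Type v} [Field K] [CharZero K] {D : Pack.{v, w} K} {a b : D.ι} {N N' n : ℕ}

variable {k : ℕ}

theorem xx_mem (r : D.J k) : D.xx N k r ∈ D.X.A (D.c r.1 + r.2.1) :=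
  D.i_mem _ _ _ (D.φ_mem _ _ _ _ ((D.nb _ _).1.1 _))

theorem A5a_n0 {x : (D.F a).B} (hx : (D.F a).N0 x) : D.X.N0 (D.i N (D.φ a N x)) := by
  intro c y hy
  obtain ⟨z, hz, rfl⟩ := D.i_surj N c y hy
  obtain ⟨q, -, hq⟩ := D.TRi N
  have h := n0_phi (N := N) hx _ _ (Rg.A_mul hz (Rg.pow_mem (D.t_mem N) N))
  rw [← map_mul]
  refine (hq _).trans ?_
  rw [mul_assoc, show (D.Y N).tr _ = 0 from h, mul_zero]

theorem xx_gen (hN : 2 * k + D.M ≤ N) : D.X.Gen (D.X.Wm (k + 1)) (D.xx N k) := by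
  classical
  refine ⟨fun r => Rg.A_le_Wm (by have := r.2.1.2; omega) (xx_mem r), ?_⟩
  let U : Submodule ℚ D.X.B :=
    { carrier := {x | ∃ ξ : D.J k → ℚ, D.X.N0 (x - ∑ r, ξ r • D.xx N k r)}
      add_mem' := by
        rintro x y ⟨ξ, h⟩ ⟨η, h'⟩
        refine ⟨ξ + η, ?_⟩
        simp only [Pi.add_apply, add_smul, Finset.sum_add_distrib, add_sub_add_comm]
        exact Rg.N0.add h h'
      zero_mem' := ⟨0, by simpa using Rg.N0.zero⟩
      smul_mem' := by
        rintro q x ⟨ξ, h⟩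
        refine ⟨q • ξ, ?_⟩
        simp only [Pi.smul_apply, smul_assoc, ← Finset.smul_sum, ← smul_sub]
        exact Rg.N0.smul q h }
  have u1 : ∀ r, D.xx N k r ∈ U := fun r =>
    ⟨Pi.single r 1, by simpa [Pi.single_apply] using Rg.N0.zero⟩
  have u2 : ∀ x, D.X.N0 x → x ∈ U := fun x hx => ⟨0, by simpa using hx⟩
  refine fun x hx => (iSup_le fun j x hx => ?_ : D.X.Wm (k + 1) ≤ U) hx
  obtain ⟨y, hy, rfl⟩ := D.i_surj N j x hx
  have hj := j.2
  refine Submodule.span_induction (p := fun y _ => D.i N y ∈ U) ?_ ?_ ?_ ?_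
    (st (by omega) hy)
  · rintro _ ⟨a, e, l, z, he, hz, rfl⟩
    rcases Nat.eq_zero_or_pos e with rfl | h0
    · obtain ⟨ξ, hξ⟩ := (D.nb a l).1.2 z hz
      have k1 := u2 _ (A5a_n0 (N := N) hξ)
      have k2 : ∑ ν, ξ ν • D.i N (D.φ a N (D.e a l ν)) ∈ U :=
        U.sum_mem fun ν _ => U.smul_mem _ (u1 ⟨a, ⟨l, by omega⟩, ν⟩)
      simp only [map_sub, map_sum, map_rat_smul] at k1
      rw [pow_zero, one_mul]
      simpa using U.add_mem k1 k2
    · rw [map_mul, map_pow, D.i_t, zero_pow h0.ne', zero_mul]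
      exact U.zero_mem
  · rw [map_zero]
    exact U.zero_mem
  · intro y z _ _ h1 h2
    rw [map_add]
    exact U.add_mem h1 h2
  · intro q y _ h1
    rw [map_rat_smul]
    exact U.smul_mem q h1

theorem xx_ind (hN : D.M ≤ N) : D.X.Ind (D.xx N k) := by
  classical
  choose ν h0 hν using fun a => tri_on (D.isRes_i N) hN a
  have m : ∀ s : D.J k, D.i N (D.φ' s.1 N (D.e' s.1 s.2.1 s.2.2)) ∈ D.X.Alg := fun s =>
    Rg.A_le _ (D.i_mem _ _ _ (D.φ'_mem _ _ _ _ ((D.nb _ _).2.1 _)))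
  refine Rg.ind_of_det (fun s => D.i N (D.φ' s.1 N (D.e' s.1 s.2.1 s.2.2)))
    (fun r => Rg.A_le _ (xx_mem r)) m (tri_det _ Sigma.fst D.lev ν h0 ?_ ?_)
  · intro r s h1 h2
    have h := tri_off (D.i N) h1 h2 (z := D.e' s.1 s.2.1 s.2.2)
      (Or.inl ((D.F r.1).S.mem_V ((D.nb r.1 r.2.1).1.1 r.2.2))) 0 0
    rw [pow_zero, one_mul, one_mul] at h
    rw [Matrix.of_apply, xx, h, map_zero]
  · rintro ⟨a, j, μ⟩ ⟨b, j', μ'⟩ (rfl : b = a)
    have a1 := (D.nb b j).1.1 μ
    have a2 := (D.nb b j').2.1 μ'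
    have h := hν b 0 le_rfl 0 le_rfl j _ ((D.F b).S.mem_V a1) (D.e' b j' μ')
    rw [Nat.sub_zero, pow_zero, one_mul, one_mul, if_pos rfl,
      ← Rg.t_cast (Rg.A_le _ (Rg.A_mul a1 a2))] at h
    have h2 := (Rg.t_cast (Rg.alg_mul (Rg.A_le _ (xx_mem (N := N) ⟨b, j, μ⟩)) (m ⟨b, j', μ'⟩))).trans h
    rw [Matrix.of_apply, show D.X.t _ = ν b * (D.F b).t (D.e b j μ * D.e' b j' μ') by
      exact_mod_cast h2]
    by_cases hj : j = j'
    · subst hj
      rw [(D.nb b j).2.2]
      simp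
    · have a3 := (D.nb b j').le μ'
      have a4 : (j : ℕ) ≠ j' := fun c => hj (Fin.ext c)
      rw [Rg.t_deg (Rg.A_mul a1 a2) (by omega), mul_zero, if_neg (by simp [hj])]

end Pool.Agent.Work.MP_ffcd14_ag.Gm.Pack
end

-- merged part: Pool.Agent.Work.MP_ffcd14_ag.Gm.A6a
section
/-!
# First regime: the polarisation `l + q t` with `q` large sees the fibre

Plan.  `r1_entry`: binomial theorem (`add_pow`), so the numerator is
`∑ r ≤ s, a r * q ^ (s - r)` with `a r = choose s r * t (t ^ (i + i' + (s - r)) * y * y' * l ^ r)`.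
It vanishes for `N - i - i' < s - r` (`t_pow`).  By `poly_lim` with `n = N - i - i'` the limit is
`a (s - n)` if `n ≤ s`, where the exponent of `t` is `N`: use the hypothesis `hq`, `i_l`, `Rg.t_cast`
and `Rg.th_entry` (`n ≤ s ↔ j + j' ≤ d`, and then `s - n = d - (j + j')`).
`r1`: `sg_limit` along `q : ℕ` for the Gram matrices of the family `uu N k` with the scalings
`√q ^ N / q ^ (k - c - j)`; the limit is the Gram matrix of `q₀⁻¹ • ε • Th (ch s) hX` for the family
`xx N k` (`q₀` from `TRi`), invertible by `Rg.gram_det` (`xx_gen`, `xx_ind`, `ND.smul`).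
Finish with `Gen.sg` (`uu_gen`, `xx_gen`) and `Rg.sg_smul`.
-/

open Module Filter Topology

namespace Pool.Agent.Work.MP_ffcd14_ag.Gm.Pack

universe v w

variable {K : Type v} [Field K] [CharZero K] {D : Pack.{v, w} K} {a b : D.ι} {N N' n k : ℕ}

theorem r1_entry (hN : 2 * k ≤ N) {s : ℕ} (hs : s + 2 * k = D.X.d + N) {q₀ : ℚ} (h₀ : 0 < q₀)
    (hq : ∀ y, D.X.tr (D.i N y) = q₀ * (D.Y N).tr (y * D.t N ^ N)) {i i' j j' : ℕ}
    (hi : i + j = k) (hi' : i' + j' = k) {y y' : (D.Y N).B} (hy : y ∈ (D.Y N).A j)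
    (hy' : y' ∈ (D.Y N).A j') :
    Tendsto (fun q : ℕ => ((D.Y N).t (D.t N ^ i * y * (D.t N ^ i' * y') *
        (D.l N + (q : ℚ) • D.t N) ^ s) : ℝ) / (q : ℝ) ^ (N - i - i')) atTop
      (𝓝 (q₀⁻¹ * D.X.t (D.i N y * D.i N y' * D.X.Th (ch s) D.hX) : ℚ)) := by
  set a : ℕ → ℝ := fun r => ((s.choose r * (D.Y N).t (y * y' * D.l N ^ r *
    D.t N ^ (i + i' + (s - r))) : ℚ) : ℝ) with ha
  have hnum : ∀ q : ℕ, ((D.Y N).t (D.t N ^ i * y * (D.t N ^ i' * y') *
      (D.l N + (q : ℚ) • D.t N) ^ s) : ℝ) = ∑ r ∈ Finset.range (s + 1), a r * (q : ℝ) ^ (s - r) := by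
    intro q
    rw [add_pow, Finset.mul_sum, map_sum, Rat.cast_sum]
    refine Finset.sum_congr rfl fun r _ => ?_
    have e : D.t N ^ i * y * (D.t N ^ i' * y') *
        (D.l N ^ r * ((q : ℚ) • D.t N) ^ (s - r) * (s.choose r : (D.Y N).B)) =
        ((s.choose r : ℚ) * (q : ℚ) ^ (s - r)) • (y * y' * D.l N ^ r *
          D.t N ^ (i + i' + (s - r))) := by
      rw [smul_pow, mul_smul, Nat.cast_smul_eq_nsmul, nsmul_eq_mul, pow_add, pow_add]
      simp only [Algebra.mul_smul_comm, Algebra.smul_mul_assoc]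
      congr 1
      ring
    rw [e, map_smul, smul_eq_mul, ha]
    push_cast
    ring
  have hz : ∀ r ≤ s, N - i - i' < s - r → a r = 0 := by
    intro r _ hr
    obtain ⟨m, hm⟩ : ∃ m, i + i' + (s - r) = N + 1 + m := ⟨i + i' + (s - r) - (N + 1), by omega⟩
    simp only [ha, hm, pow_add (D.t N) (N + 1), D.t_pow, zero_mul, mul_zero, map_zero,
      Rat.cast_zero]
  have hl := poly_lim a s (N - i - i') hz
  simp only [hnum]
  convert hl using 2
  rw [Rg.th_entry (D.hX_mem) (ch s) (D.i_mem N j y hy) (D.i_mem N j' y' hy')]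
  by_cases hd : j + j' ≤ D.X.d
  · rw [if_pos hd, if_pos (by omega)]
    have e1 : s - (N - i - i') = D.X.d - (j + j') := by omega
    have e2 : i + i' + (s - (D.X.d - (j + j'))) = N := by omega
    simp only [ha, e1, e2]
    congr 1
    have hm : y * y' * D.l N ^ (D.X.d - (j + j')) ∈ (D.Y N).A (j + j' + (D.X.d - (j + j'))) :=
      Rg.A_mul (Rg.A_mul hy hy') (Rg.pow_mem (D.l_mem N) _)
    have h1 := hq (y * y' * D.l N ^ (D.X.d - (j + j')))
    rw [← Rg.t_cast (Rg.A_le _ (D.i_mem N _ _ hm)),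
      ← Rg.t_cast (Rg.A_le _ (Rg.A_mul hm (Rg.pow_mem (D.t_mem N) N)))] at h1
    have h2 : D.X.t (D.i N (y * y' * D.l N ^ (D.X.d - (j + j')))) =
        q₀ * (D.Y N).t (y * y' * D.l N ^ (D.X.d - (j + j')) * D.t N ^ N) := by
      exact_mod_cast h1
    rw [map_mul (D.i N), map_mul (D.i N), map_pow, D.i_l] at h2
    rw [h2, ch]
    field_simp
  · rw [if_neg hd, if_neg (by omega)]
    simp

theorem r1 (hN : 2 * k + D.M ≤ N) {s : ℕ} (hs : s + 2 * k = D.X.d + N) {ε : ℚ}
    (h : D.X.ND (ε • D.X.Th (ch s) D.hX) (D.X.Wm (k + 1))) : ∃ q : ℚ, 0 < q ∧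
    (D.Y N).sg (ε • (D.l N + q • D.t N) ^ s) ((D.Y N).A k) =
      D.X.sg (ε • D.X.Th (ch s) D.hX) (D.X.Wm (k + 1)) := by
  classical
  obtain ⟨q₀, h₀, hq⟩ := D.TRi N
  have hTh : ε • D.X.Th (ch s) D.hX ∈ D.X.Alg := Submodule.smul_mem _ _ (Rg.Th_mem _ D.hX_mem)
  have hTh' : q₀⁻¹ • ε • D.X.Th (ch s) D.hX ∈ D.X.Alg := Submodule.smul_mem _ _ hTh
  have hg : D.X.Gen (D.X.Wm (k + 1)) (D.xx N k) := xx_gen hN
  have hdet := Rg.gram_det hg (xx_ind (by omega)) (Rg.Wm_le _) hTh' (h.smul (inv_pos.2 h₀).ne')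
  have hpos : ∀ᶠ q : ℕ in atTop, 0 < q := eventually_gt_atTop 0
  have hlim := sg_limit atTop
    (fun q : ℕ => gram ((D.Y N).Qf (ε • (D.l N + (q : ℚ) • D.t N) ^ s)) (D.uu N k))
    (fun q => Matrix.ext fun r r' => (D.Y N).Qf_sym _ _ _)
    (gram (D.X.Qf (q₀⁻¹ • ε • D.X.Th (ch s) D.hX)) (D.xx N k))
    (Matrix.ext fun r r' => D.X.Qf_sym _ _ _) hdet
    (fun q r => √(q : ℝ) ^ N / (q : ℝ) ^ (k - D.c r.1 - r.2.1))
    (hpos.mono fun q hq0 r => by
      have : (0 : ℝ) < q := by exact_mod_cast hq0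
      positivity)
    (fun r r' => by
      have hr := r.2.1.2
      have hr' := r'.2.1.2
      have H := (r1_entry (D := D) (k := k) (by omega) hs h₀ hq
        (i := k - D.c r.1 - r.2.1) (i' := k - D.c r'.1 - r'.2.1)
        (j := D.c r.1 + r.2.1) (j' := D.c r'.1 + r'.2.1) (by omega) (by omega)
        (D.φ_mem _ _ _ _ ((D.nb r.1 r.2.1).1.1 r.2.2))
        (D.φ_mem _ _ _ _ ((D.nb r'.1 r'.2.1).1.1 r'.2.2))).const_mul (ε : ℝ)
      have e : ((gram (D.X.Qf (q₀⁻¹ • ε • D.X.Th (ch s) D.hX)) (D.xx N k) r r' : ℚ) : ℝ) =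
          (ε : ℝ) * ((q₀⁻¹ * D.X.t (D.i N (D.φ r.1 N (D.e r.1 r.2.1 r.2.2)) *
            D.i N (D.φ r'.1 N (D.e r'.1 r'.2.1 r'.2.2)) * D.X.Th (ch s) D.hX) : ℚ) : ℝ) := by
        simp only [gram, Matrix.of_apply, Rg.Qf_apply, xx, Algebra.mul_smul_comm, map_smul,
          smul_eq_mul]
        push_cast
        ring
      rw [e]
      refine H.congr' (hpos.mono fun q hq0 => ?_)
      have hq1 : (0 : ℝ) < q := by exact_mod_cast hq0
      obtain ⟨m, hm⟩ : ∃ m, N = m + (k - D.c r.1 - r.2.1) + (k - D.c r'.1 - r'.2.1) :=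
        ⟨N - (k - D.c r.1 - r.2.1) - (k - D.c r'.1 - r'.2.1), by omega⟩
      have e1 : N - (k - D.c r.1 - r.2.1) - (k - D.c r'.1 - r'.2.1) = m := by omega
      have e2 : √(q : ℝ) ^ N / (q : ℝ) ^ (k - D.c r.1 - r.2.1) *
          (√(q : ℝ) ^ N / (q : ℝ) ^ (k - D.c r'.1 - r'.2.1)) = (q : ℝ) ^ m := by
        rw [div_mul_div_comm, ← mul_pow, Real.mul_self_sqrt hq1.le, div_eq_iff (by positivity),
          ← pow_add, ← pow_add, ← add_assoc, ← hm]
      simp only [e1, e2, gram, Matrix.of_apply, Rg.Qf_apply, uu, Algebra.mul_smul_comm, map_smul,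
        smul_eq_mul]
      push_cast
      ring)
  obtain ⟨q, hq0, -, hq2⟩ := (hpos.and hlim).exists
  refine ⟨q, by exact_mod_cast hq0, ?_⟩
  have hz : ε • (D.l N + (q : ℚ) • D.t N) ^ s ∈ (D.Y N).Alg :=
    Submodule.smul_mem _ _ (Rg.A_le s (Rg.pow_mem
      (add_mem (D.l_mem N) (Submodule.smul_mem _ _ (D.t_mem N))) s))
  rw [(uu_gen hN).sg (Rg.A_le k) hz, hq2, ← hg.sg (Rg.Wm_le _) hTh',
    Rg.sg_smul _ (inv_pos.2 h₀)]

end Pool.Agent.Work.MP_ffcd14_ag.Gm.Pack
end

-- merged part: Pool.Agent.Work.MP_ffcd14_ag.Gm.A2c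
section
/-!
# Localisation

Plan.  `key`: expand `t ^ (M - 1)` by `loc_t`.  The terms `m < lev a` vanish by `E3`, the terms
`m > lev a` by `E1` and the hypothesis, the term `m = lev a` (`lev_mem`) is given by `E2`.
`mu_ne`: compare with `E9` for `y = (l - lev • t) ^ f * t ^ n`, `eo + n = N`, where
`ρ y = tp ^ n * p (h ^ f)`; the trace of `ρ (E * y)` is `Ep * κ * tr (h ^ f) ≠ 0` (`ld_lamS`, `Ld.tr`).
`u_mul`: `ptest` for the difference, which lies in `A (M - 1 + j)`; use `key` for `y = φ x * t ^ e` (`E4`)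
and `E6`.  `rho_phi`: with `u * eu = μ • tp ^ (M - 1)` we get
`μ • tp ^ (M - 1) * (ρ (φ x) - eu * p x) = eu * (u * ρ (φ x)) - eu * (u * eu) * p x = 0`; `cancel`.
`inj`: by descending induction on the level (strong induction on `L - lev a`, `L` an upper bound)
`ρ a N y = 0` for all `a`: `u * ρ y = 0` by `ptest` and `key` for `y * t ^ e`; multiply by `eu`; `cancel`.
Then `E m * y = 0` (`E1`, `pd`), so `Rs * y = 0` and `(l + t) ^ s * y = 0` for `2 n + s = d + N`
(`loc_s`); use `HL_Y` with `q = 1`.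
`sign`: let `γ₀, e₀, u₀` be the leading coefficients of `γ, eu, u` (`ld_exists`); `u₀ * e₀ = μ ≠ 0`
(`Ld.unique`).  Apply `E10` to `y = φ (h ^ f) * t ^ n` with `eo + c + n = N` (`rho_phi`, `E4`), compute
the left side by `E1` (only the term `a` survives): `γ₀ * Ep S = μ' * Ep off`.  With `β_zero`,
`β₀ * γ₀ * Ep S = μ' > 0`; `Ep_sign`.  Take `ω = γ₀ * e₀ * e₀`.
-/

open Module

namespace Pool.Agent.Work.MP_ffcd14_ag.Gm.Pack

universe v w

variable {K : Type v} [Field K] [CharZero K] {D : Pack.{v, w} K} {a b : D.ι} {N N' n : ℕ}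

theorem sign (hN : D.X.d + D.M ≤ N) (a : D.ι) : ∃ ω : ℚ,
    0 < (-1) ^ D.c a * (D.β (D.lev a) 0 * ω) ∧ D.Ld a N (D.γ a N * D.eu a N * D.eu a N)
      (D.eo (D.lev a) - (D.c a + D.c' a) + D.c a + D.c a) ω := by
  have dF : D.c a + D.c' a + D.f a = D.X.d := D.dF a
  have hc := c_le (D := D) a
  have hM : D.eo (D.lev a) + mm D.w (D.lev a) = D.M := card_off D.w (D.lev a)
  obtain ⟨γ₀, lγ⟩ := ld_exists (D.γ_mem a N)
  have he : D.eu a N ∈ (D.P a N).A (D.c a) :=
    D.ρ_mem a N _ _ (D.φ_mem a N 0 1 (D.F a).one_mem)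
  obtain ⟨e₀, le⟩ := ld_exists he
  obtain ⟨u₀, lu⟩ := ld_exists (u_mem (D := D) (a := a) (N := N)).1
  have e0 : e₀ ≠ 0 := by
    obtain ⟨μ, hμ, h⟩ := u_mul (D := D) (N := N) (by omega) a
    have h1 := h 0 1 (D.F a).one_mem
    have h2 := lu.mul le
    rw [Nat.sub_add_cancel (u_mem (D := D) (a := a) (N := N)).2] at h2
    have h3 : D.Ld a N (D.u a N * D.eu a N) (D.M - 1) μ := fun x _ => by
      rw [h1, map_one, mul_one, smul_mul_assoc]
    rintro rfl
    exact hμ ((h3.unique h2 (by omega)).trans (mul_zero _))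
  obtain ⟨S, μ, hμ, S1, S2, S3, H⟩ := D.E10 a N
  obtain ⟨n, hn⟩ : ∃ n, D.eo (D.lev a) + D.c a + n = N :=
    ⟨N - (D.eo (D.lev a) + D.c a), by omega⟩
  have hx : D.h a ^ D.f a ∈ (D.F a).A (D.f a) := Rg.pow_mem (D.h_mem a) (D.f a)
  have r0 : ∀ b ≠ a, D.lev b = D.lev a →
      D.ρ b N (D.φ a N (D.h a ^ D.f a) * D.t N ^ n) = 0 := fun b hb hl => by
    rw [map_mul, D.E4 a b N _ hb (by omega) _ hx, zero_mul]
  have r1 : D.ρ a N (D.φ a N (D.h a ^ D.f a) * D.t N ^ n) =
      D.eu a N * D.tp a N ^ n * D.p a N (D.h a ^ D.f a) := by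
    rw [map_mul, map_pow (D.ρ a N), D.ρ_t, rho_phi (by omega) hx, mul_right_comm]
  have H1 := H _ _ _ hx r0 r1
  rw [D.E1, Finset.sum_eq_single_of_mem a (by simp) fun b hb hba => by
    rw [map_mul (D.ρ b N), r0 b hba (Finset.mem_filter.1 hb).2, mul_zero, mul_zero, map_zero]] at H1
  have t1 := ((lγ.mul (ld_lamS S)).mul le).tr hx (e := n) (by
    rw [S1]
    change D.eo (D.lev a) - (D.c a + D.c' a) + (D.c a + D.c' a) + D.c a + n = N
    omega)
  have t2 := ((ld_lamS (off D.w (D.lev a))).mul le).tr hx hn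
  rw [map_mul (D.ρ a N) (lamS D.w S _ _), map_mul (D.ρ a N) (lamS D.w (off _ _) _ _), r1] at H1
  have H2 : ((γ₀ * Ep D.w S (D.lev a) * e₀ : ℚ) : K) * D.κ a N * (D.F a).tr (D.h a ^ D.f a) =
      (μ * (Ep D.w (off D.w (D.lev a)) (D.lev a) * e₀) : ℚ) * D.κ a N *
        (D.F a).tr (D.h a ^ D.f a) := by
    rw [← t1, Rat.cast_mul μ, mul_assoc (μ : K), mul_assoc (μ : K), ← t2]
    convert H1 using 2 <;> ring_nf
  have H3 : γ₀ * Ep D.w S (D.lev a) * e₀ = μ * (Ep D.w (off D.w (D.lev a)) (D.lev a) * e₀) :=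
    Rat.cast_injective (α := K) (mul_right_cancel₀ (Rat.cast_ne_zero.2 (D.κ_pos a N).ne')
      (mul_right_cancel₀ (tr_h_ne a) H2))
  have H4 : γ₀ * Ep D.w S (D.lev a) = μ * Ep D.w (off D.w (D.lev a)) (D.lev a) :=
    mul_right_cancel₀ e0 (H3.trans (mul_assoc _ _ _).symm)
  have H5 := Ep_sign D.w S (D.lev a) S3
  rw [S2] at H5
  have H6 : ((-1) ^ D.c a * (D.β (D.lev a) 0 * γ₀)) * ((-1) ^ D.c a * Ep D.w S (D.lev a)) = μ := by
    have h1 : ((-1 : ℚ) ^ D.c a) * (-1) ^ D.c a = 1 := by rw [← mul_pow]; simp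
    have h2 := D.β_zero (D.lev a)
    linear_combination (D.β (D.lev a) 0 * γ₀ * Ep D.w S (D.lev a)) * h1 +
      D.β (D.lev a) 0 * H4 + μ * h2
  refine ⟨γ₀ * e₀ * e₀, ?_, (lγ.mul le).mul le⟩
  have H7 := mul_pos ((mul_pos_iff_of_pos_right H5).1 (H6 ▸ hμ)) (mul_self_pos.2 e0)
  linarith

end Pool.Agent.Work.MP_ffcd14_ag.Gm.Pack
end

-- merged part: Pool.Agent.Work.MP_ffcd14_ag.Gm.A6b
section
/-!
# Second regime: large powers of `l + t` see the fixed components

Plan.  Expanding `Rs` and `Lam`, the numerator in `r2_off`, `r2_on` is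
`∑ m, ∑ r < mm m, Ts (β m) m s r * θ m r`, where `θ m r` does not depend on `s` (`r2_exp`).
`theta_zero`: by `E1` the trace is a sum over the components `e` of level `m` of traces containing the
factor `ρ e (φ a x) * ρ e (φ b x')`; by `E4` it vanishes unless (`e = a` or `lev e < lev a`) and
(`e = b` or `lev e < lev b`); in these cases `(m + 1) ^ 2 < (lev a + 1) * (lev b + 1)` or `e = a = b`.
`theta_on`: by `E1`, `E4` only `e = a` survives; `rho_phi`, `rho_lam`, `ρ_t` give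
`tr (γ * eu * eu * p (x * x' * h ^ r) * tp ^ _)`; it is `0` for `j + j' + r > f` (`Rg.high`), and `Ld.tr`
applies for `j + j' + r = f`.
`r2_off`: `ts_small` termwise.  `r2_on`: `ts_small` for `m < lev a`, `theta_zero` for `m > lev a`, and
`ts_main` for `m = lev a` (`lev_mem`, `f_lt`, `Rg.th_entry`).
`r2_ref`: `sg_limit` for the Gram matrices of `uu N k`, scalings `scl (lev a + 1) (f a) j s` (`scl_ne`).
The limit is `blockDiagonal'` of the Gram matrices of `(ε * (β₀ * ω a * κ a)) • Th ex (h a)` for the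
families of `Rg.wm_gen` (`nb`); `det_block`, `gram_det`, `theta_nd` (`Rg.nhl`, `hV_F`), `sg_block`,
`Gen.sg`, and `sg_smul` with the positive number `(-1) ^ c * (β₀ * ω) * κ` (`sign`).
`r2`: fix `N₀ = d + 2 k + M`, `n` with `M - 1 + n + 2 k = d + N₀`.  For `N ≥ N₀`:
`(l + t) ^ s = Rs N s * t ^ n * t ^ (N - N₀)` (`loc_s`), `res (Rs N s) = Rs N₀ s` (`map_Lam`, `map_lamS`),
`sg_res`; and `s → ∞` with `N`.
-/

open Module Filter Topology

namespace Pool.Agent.Work.MP_ffcd14_ag.Gm.Pack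

universe v w

variable {K : Type v} [Field K] [CharZero K] {D : Pack.{v, w} K} {a b : D.ι} {N N' n k : ℕ}

variable (D) in
/-- The constants in the expansion of the Gram matrix. -/
noncomputable def θ (N n m r : ℕ) (y : (D.Y N).B) : ℚ := (D.Y N).t (D.E N m *
  (y * ((D.l N - m • D.t N) ^ r * D.t N ^ (mm D.w m - 1 - r)) * D.t N ^ n))

theorem Rs_mem (s : ℕ) : D.Rs N s ∈ (D.Y N).A (D.M - 1) := by
  refine Submodule.sum_mem _ fun m hm => ?_
  obtain ⟨v, -, hv⟩ := Finset.mem_image.1 hm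
  have h1 : 0 < mm D.w m :=
    Finset.card_pos.2 ⟨v, Finset.mem_filter.2 ⟨Finset.mem_univ v, hv⟩⟩
  have h2 := card_off D.w m
  have h3 := Rg.A_mul (Lam_mem (D := D) (N := N) (Ts (D.β m) m s) m (mm D.w m))
    (lamS_mem (D := D) (N := N) (off D.w m))
  have h4 : mm D.w m - 1 + (off D.w m).card = D.M - 1 := by
    unfold M
    omega
  rwa [h4] at h3

theorem r2_exp (y : (D.Y N).B) (s : ℕ) : (D.Y N).t (y * (D.Rs N s * D.t N ^ n)) =
    ∑ m ∈ Finset.univ.image D.w, ∑ r ∈ Finset.range (mm D.w m),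
      Ts (D.β m) m s r * D.θ N n m r y := by
  rw [Rs, Finset.sum_mul, Finset.mul_sum, map_sum]
  refine Finset.sum_congr rfl fun m _ => ?_
  rw [Lam, Finset.sum_mul, Finset.sum_mul, Finset.mul_sum, map_sum]
  refine Finset.sum_congr rfl fun r _ => ?_
  rw [θ, smul_mul_assoc, smul_mul_assoc, mul_smul_comm, map_smul, smul_eq_mul]
  congr 2
  ring

theorem A6b_cast {y : (D.Y N).B} {i : ℕ} (hy : y ∈ (D.Y N).A i) (m r : ℕ) :
    (D.θ N n m r y : K) = ∑ e with D.lev e = m, (D.P e N).tr (D.γ e N * D.ρ e N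
      (y * ((D.l N - m • D.t N) ^ r * D.t N ^ (mm D.w m - 1 - r)) * D.t N ^ n)) := by
  have h1 : D.l N - m • D.t N ∈ (D.Y N).A 1 :=
    sub_mem (D.l_mem N) (nsmul_mem (D.t_mem N) m)
  rw [θ, ← D.E1]
  exact (D.Y N).S.t_cast (Rg.A_mul (lamS_mem _) (Rg.A_mul (Rg.A_mul hy (Rg.A_mul (Rg.pow_mem h1 r)
    (Rg.pow_mem (D.t_mem N) _))) (Rg.pow_mem (D.t_mem N) n)))

theorem A6b_mem {j j' : ℕ} {x : (D.F a).B} {x' : (D.F b).B} (hx : x ∈ (D.F a).A j)
    (hx' : x' ∈ (D.F b).A j') (e e' : ℕ) :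
    D.t N ^ e * D.φ a N x * (D.t N ^ e' * D.φ b N x') ∈
      (D.Y N).A (e + (D.c a + j) + (e' + (D.c b + j'))) :=
  Rg.A_mul (Rg.A_mul (Rg.pow_mem (D.t_mem N) e) (D.φ_mem a N j x hx))
    (Rg.A_mul (Rg.pow_mem (D.t_mem N) e') (D.φ_mem b N j' x' hx'))

variable {j j' : ℕ}

theorem theta_zero {x : (D.F a).B} {x' : (D.F b).B} (hx : x ∈ (D.F a).A j)
    (hx' : x' ∈ (D.F b).A j') {m : ℕ} (h1 : ¬ (m + 1) ^ 2 < (D.lev a + 1) * (D.lev b + 1))
    (h2 : ¬ (a = b ∧ m = D.lev a)) (e e' r : ℕ) :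
    D.θ N n m r (D.t N ^ e * D.φ a N x * (D.t N ^ e' * D.φ b N x')) = 0 := by
  rw [← Rat.cast_eq_zero (α := K), A6b_cast (A6b_mem hx hx' e e')]
  refine Finset.sum_eq_zero fun z hz => ?_
  have hm : D.lev z = m := (Finset.mem_filter.1 hz).2
  have h3 : D.ρ z N (D.φ a N x) = 0 ∨ D.ρ z N (D.φ b N x') = 0 := by
    by_cases ha : z ≠ a ∧ ¬ D.lev z < D.lev a
    · exact Or.inl (D.E4 a z N j ha.1 ha.2 x hx)
    by_cases hb : z ≠ b ∧ ¬ D.lev z < D.lev b
    · exact Or.inr (D.E4 b z N j' hb.1 hb.2 x' hx')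
    exfalso
    rw [not_and_or, not_not, not_not] at ha hb
    rcases ha with ha | ha <;> rcases hb with hb | hb
    · exact h2 ⟨ha.symm.trans hb, by rw [← hm, ha]⟩
    · subst ha
      exact h1 (by rw [hm] at hb ⊢; nlinarith)
    · subst hb
      exact h1 (by rw [hm] at ha ⊢; nlinarith)
    · exact h1 (by rw [hm] at ha hb; nlinarith)
  rcases h3 with h3 | h3 <;> simp only [map_mul, h3, mul_zero, zero_mul, map_zero]

variable (hN : D.X.d + 2 * k + D.M ≤ N) (hn : D.M - 1 + n + 2 * k = D.X.d + N) {ω : ℚ}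
  (hω : D.Ld a N (D.γ a N * D.eu a N * D.eu a N)
    (D.eo (D.lev a) - (D.c a + D.c' a) + D.c a + D.c a) ω)
  (hj : D.c a + j ≤ k) (hj' : D.c a + j' ≤ k)

include hN hn hω hj hj' in
theorem theta_on {x x' : (D.F a).B} (hx : x ∈ (D.F a).A j) (hx' : x' ∈ (D.F a).A j') {r : ℕ}
    (hr : r < mm D.w (D.lev a)) (hf : D.f a ≤ r + j + j') :
    D.θ N n (D.lev a) r (D.t N ^ (k - D.c a - j) * D.φ a N x *
      (D.t N ^ (k - D.c a - j') * D.φ a N x')) =
      if r + j + j' = D.f a then ω * D.κ a N * (D.F a).t (x * x' * D.h a ^ r) else 0 := by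
  apply Rat.cast_injective (α := K)
  rw [A6b_cast (A6b_mem hx hx' _ _), Finset.sum_eq_single_of_mem a (by simp) fun z hz hza => by
    have h3 := D.E4 a z N j hza (by rw [(Finset.mem_filter.1 hz).2]; exact lt_irrefl _) x hx
    simp only [map_mul, h3, mul_zero, zero_mul, map_zero]]
  have h1 : x * x' * D.h a ^ r ∈ (D.F a).A (j + j' + r) :=
    Rg.A_mul (Rg.A_mul hx hx') (Rg.pow_mem (D.h_mem a) r)
  have h2 : D.γ a N * D.ρ a N (D.t N ^ (k - D.c a - j) * D.φ a N x *
      (D.t N ^ (k - D.c a - j') * D.φ a N x') * ((D.l N - D.lev a • D.t N) ^ r *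
        D.t N ^ (mm D.w (D.lev a) - 1 - r)) * D.t N ^ n) =
      D.γ a N * D.eu a N * D.eu a N * D.p a N (x * x' * D.h a ^ r) * D.tp a N ^
        (k - D.c a - j + (k - D.c a - j') + (mm D.w (D.lev a) - 1 - r) + n) := by
    have h3 := rho_phi (N := N) (by omega) hx
    have h4 := rho_phi (N := N) (by omega) hx'
    simp only [map_mul, map_pow, rho_lam, D.ρ_t, h3, h4, pow_add]
    ring
  rw [h2]
  split_ifs with h
  · have h3 : j + j' + r = D.f a := by omega
    rw [h3] at h1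
    have h4 := card_off D.w (D.lev a)
    have h5 := c_le a
    have h6 := D.dF a
    rw [hω.tr h1 (by unfold M eo f at *; omega), Rat.cast_mul, Rat.cast_mul, (D.F a).S.t_cast h1]
  · rw [Rg.high h1 (by unfold f at *; omega), map_zero, mul_zero, zero_mul, map_zero, Rat.cast_zero]

end Pool.Agent.Work.MP_ffcd14_ag.Gm.Pack
end

-- merged part: Pool.Agent.Work.MP_ffcd14_ag.Gm.A6c
section
/-!
# Second regime: large powers of `l + t` see the fixed components

Plan.  Expanding `Rs` and `Lam`, the numerator in `r2_off`, `r2_on` is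
`∑ m, ∑ r < mm m, Ts (β m) m s r * θ m r`, where `θ m r` does not depend on `s` (`r2_exp`).
`theta_zero`: by `E1` the trace is a sum over the components `e` of level `m` of traces containing the
factor `ρ e (φ a x) * ρ e (φ b x')`; by `E4` it vanishes unless (`e = a` or `lev e < lev a`) and
(`e = b` or `lev e < lev b`); in these cases `(m + 1) ^ 2 < (lev a + 1) * (lev b + 1)` or `e = a = b`.
`theta_on`: by `E1`, `E4` only `e = a` survives; `rho_phi`, `rho_lam`, `ρ_t` give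
`tr (γ * eu * eu * p (x * x' * h ^ r) * tp ^ _)`; it is `0` for `j + j' + r > f` (`Rg.high`), and `Ld.tr`
applies for `j + j' + r = f`.
`r2_off`: `ts_small` termwise.  `r2_on`: `ts_small` for `m < lev a`, `theta_zero` for `m > lev a`, and
`ts_main` for `m = lev a` (`lev_mem`, `f_lt`, `Rg.th_entry`).
`r2_ref`: `sg_limit` for the Gram matrices of `uu N k`, scalings `scl (lev a + 1) (f a) j s` (`scl_ne`).
The limit is `blockDiagonal'` of the Gram matrices of `(ε * (β₀ * ω a * κ a)) • Th ex (h a)` for the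
families of `Rg.wm_gen` (`nb`); `det_block`, `gram_det`, `theta_nd` (`Rg.nhl`, `hV_F`), `sg_block`,
`Gen.sg`, and `sg_smul` with the positive number `(-1) ^ c * (β₀ * ω) * κ` (`sign`).
`r2`: fix `N₀ = d + 2 k + M`, `n` with `M - 1 + n + 2 k = d + N₀`.  For `N ≥ N₀`:
`(l + t) ^ s = Rs N s * t ^ n * t ^ (N - N₀)` (`loc_s`), `res (Rs N s) = Rs N₀ s` (`map_Lam`, `map_lamS`),
`sg_res`; and `s → ∞` with `N`.
-/

open Module Filter Topology

namespace Pool.Agent.Work.MP_ffcd14_ag.Gm.Pack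

universe v w

variable {K : Type v} [Field K] [CharZero K] {D : Pack.{v, w} K} {a b : D.ι} {N N' n k : ℕ}

variable {j j' : ℕ}

variable (hN : D.X.d + 2 * k + D.M ≤ N) (hn : D.M - 1 + n + 2 * k = D.X.d + N) {ω : ℚ}
  (hω : D.Ld a N (D.γ a N * D.eu a N * D.eu a N)
    (D.eo (D.lev a) - (D.c a + D.c' a) + D.c a + D.c a) ω)
  (hj : D.c a + j ≤ k) (hj' : D.c a + j' ≤ k)

theorem r2_exp_div (y : (D.Y N).B) (S : ℕ → ℝ) :
    (fun s : ℕ => ((D.Y N).t (y * (D.Rs N s * D.t N ^ n)) : ℝ) / S s) =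
      fun s : ℕ => ∑ m ∈ Finset.univ.image D.w, ∑ r ∈ Finset.range (mm D.w m),
        (Ts (D.β m) m s r : ℝ) / S s * (D.θ N n m r y : ℝ) := by
  funext s
  rw [r2_exp]
  push_cast
  rw [Finset.sum_div]
  refine Finset.sum_congr rfl fun m _ => ?_
  rw [Finset.sum_div]
  refine Finset.sum_congr rfl fun r _ => ?_
  ring

theorem r2_off (hab : a ≠ b) {x : (D.F a).B} {x' : (D.F b).B} (hx : x ∈ (D.F a).A j)
    (hx' : x' ∈ (D.F b).A j') (e e' : ℕ) :
    Tendsto (fun s : ℕ => ((D.Y N).t (D.t N ^ e * D.φ a N x * (D.t N ^ e' * D.φ b N x') *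
        (D.Rs N s * D.t N ^ n)) : ℝ) /
      (scl (D.lev a + 1) (D.f a) j s * scl (D.lev b + 1) (D.f b) j' s)) atTop (𝓝 0) := by
  rw [r2_exp_div]
  have h0 : (0 : ℝ) = ∑ m ∈ Finset.univ.image D.w, ∑ _r ∈ Finset.range (mm D.w m), (0 : ℝ) := by
    simp
  rw [h0]
  refine tendsto_finsetSum _ fun m _ => tendsto_finsetSum _ fun r _ => ?_
  by_cases h1 : (m + 1) ^ 2 < (D.lev a + 1) * (D.lev b + 1)
  · simpa using (ts_small (D.β m) h1 r (D.f a) j (D.f b) j').mul_const
      (D.θ N n m r (D.t N ^ e * D.φ a N x * (D.t N ^ e' * D.φ b N x')) : ℝ)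
  · rw [theta_zero hx hx' h1 (fun h => hab h.1)]
    simp

include hN hn hω hj hj' in
theorem r2_on {x x' : (D.F a).B} (hx : x ∈ (D.F a).A j) (hx' : x' ∈ (D.F a).A j') :
    Tendsto (fun s : ℕ => ((D.Y N).t (D.t N ^ (k - D.c a - j) * D.φ a N x *
        (D.t N ^ (k - D.c a - j') * D.φ a N x') * (D.Rs N s * D.t N ^ n)) : ℝ) /
      (scl (D.lev a + 1) (D.f a) j s * scl (D.lev a + 1) (D.f a) j' s)) atTop
      (𝓝 (D.β (D.lev a) 0 * ω * D.κ a N * (D.F a).t (x * x' * (D.F a).Th ex (D.h a)) : ℚ)) := by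
  rw [r2_exp_div]
  classical
  set L : ℚ := D.β (D.lev a) 0 * ω * D.κ a N * (D.F a).t (x * x' * (D.F a).Th ex (D.h a)) with hL
  let g : ℕ → ℚ := fun r => if r + j + j' = D.f a then
    D.β (D.lev a) 0 * ex r * (ω * D.κ a N * (D.F a).t (x * x' * D.h a ^ r)) else 0
  have hsum : L = ∑ r ∈ Finset.range (mm D.w (D.lev a)), g r := by
    rw [hL, Rg.th_entry (D.h_mem a) ex hx hx']
    have hf := f_lt (D := D) a
    split_ifs with hjj
    · rw [Finset.sum_eq_single (D.f a - (j + j'))]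
      · have : D.f a - (j + j') + j + j' = D.f a := by
          have : j + j' ≤ D.f a := hjj
          omega
        simp only [g, this, if_true]
        ring
      · intro r _ hr
        have : ¬ r + j + j' = D.f a := by omega
        simp only [g, this, if_false]
      · intro hr
        exact absurd (Finset.mem_range.2 (by omega)) hr
    · rw [mul_zero]
      refine (Finset.sum_eq_zero fun r _ => ?_).symm
      have : ¬ r + j + j' = D.f a := by
        have : ¬ j + j' ≤ D.f a := hjj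
        omega
      simp only [g, this, if_false]
  have h0 : (L : ℝ) = ∑ m ∈ Finset.univ.image D.w, ∑ r ∈ Finset.range (mm D.w m),
      (if m = D.lev a then (g r : ℝ) else 0) := by
    rw [Finset.sum_eq_single (D.lev a)]
    · rw [hsum]
      push_cast
      simp
    · intro m _ hm
      simp [hm]
    · intro hm
      exact absurd (lev_mem a) hm
  rw [h0]
  refine tendsto_finsetSum _ fun m _ => tendsto_finsetSum _ fun r hr => ?_
  by_cases hm : m = D.lev a
  · subst hm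
    rw [if_pos rfl]
    have hr' := Finset.mem_range.1 hr
    by_cases hle : r + j + j' ≤ D.f a
    · have h1 := (ts_main (D.β (D.lev a)) (D.lev a) hle).mul_const
        (D.θ N n (D.lev a) r (D.t N ^ (k - D.c a - j) * D.φ a N x *
          (D.t N ^ (k - D.c a - j') * D.φ a N x')) : ℝ)
      convert h1 using 2
      by_cases he : r + j + j' = D.f a
      · rw [theta_on hN hn hω hj hj' hx hx' hr' he.ge]
        simp only [g, he, if_true]
        push_cast
        ring
      · simp only [g, he, if_false]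
        simp
    · have he : ¬ r + j + j' = D.f a := fun h => hle h.le
      rw [theta_on hN hn hω hj hj' hx hx' hr' (by omega)]
      simp only [g, he, if_false]
      simp
  · rw [if_neg hm]
    by_cases h1 : (m + 1) ^ 2 < (D.lev a + 1) * (D.lev a + 1)
    · simpa using (ts_small (D.β m) h1 r (D.f a) j (D.f a) j').mul_const
        (D.θ N n m r (D.t N ^ (k - D.c a - j) * D.φ a N x *
          (D.t N ^ (k - D.c a - j') * D.φ a N x')) : ℝ)
    · rw [theta_zero hx hx' h1 (fun h => hm h.2)]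
      simp

end Pool.Agent.Work.MP_ffcd14_ag.Gm.Pack
end

-- merged part: Pool.Agent.Work.MP_ffcd14_ag.Gm.L3b
section
/-!
# Orthogonal polynomials for the exponential, and a counting lemma

Plan for `exists_orth`.  Take `π a = ∑ i ≤ a, (-1) ^ (a - i) * choose a i * (n - i)! / (n - a)! • X ^ i`.
Then `Lf n (π a * X ^ b) = (1 / (n - a)!) ∑ i ≤ a, (-1) ^ (a - i) * choose a i * descFactorial (n - i) b`
(the term is `0` when `n - i < b`, on both sides).  The sum is the `a`-th forward difference at `0`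
of the polynomial function `i ↦ (descPochhammer ℚ b).eval (n - i)` of degree `b` and leading
coefficient `(-1) ^ b`: it is `0` for `b < a` and `(-1) ^ a * a!` for `b = a`
(`fwdDiff_iter_eq_sum_shift`, `Polynomial.fwdDiff_iter_eq_zero_of_degree_lt`,
`Polynomial.fwdDiff_iter_degree_eq_factorial`, or a direct induction with Pascal's rule).

Plan for `defect`.  Summing `h1` and `h2` over `e ≤ d` gives the same total `∑ a, ∑ j ≤ f a, v a j`,
so `h2` is an equality for `e ≤ d`.  Put `δ a j = v a (f a - j) - v a j` in `ℤ` for `j ≤ f a`.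
By `hV`, `∑ a, δ a (e - c a) = 0` (sum over `c a ≤ e ≤ c a + f a`) for every `e ≤ d`.  Multiply by `e` and
sum over `e`: since `δ a (f a - j) = - δ a j`, `∑ j, δ a j = 0` and
`2 ∑ j, j * δ a j = ∑ j, (2 j - f a) * δ a j`, where every term is `≤ 0` by `hle`.  So all terms vanish.
-/

open Polynomial Finset

namespace Pool.Agent.Work.MP_ffcd14_ag.Gm

theorem L3b_shift (g : ℕ → ℤ) {c f d : ℕ} (h : c + f ≤ d) (v : ℕ → ℕ) (h0 : ∀ j, f < j → v j = 0) :
    ∑ e ∈ range (d + 1), g e * ((if c ≤ e then v (e - c) else 0 : ℕ) : ℤ) =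
      ∑ j ∈ range (f + 1), g (c + j) * v j := by
  rw [← sum_subset (s₁ := Ico c (c + f + 1)) (fun e he => ?_) (fun e _ he => ?_),
    sum_Ico_eq_sum_range, show c + f + 1 - c = f + 1 by omega]
  · refine sum_congr rfl fun j _ => ?_
    rw [if_pos (Nat.le_add_right c j), Nat.add_sub_cancel_left]
  · have := mem_Ico.1 he
    exact mem_range.2 (by omega)
  · rw [mem_Ico] at he
    split_ifs with hc
    · rw [h0 _ (by omega), Nat.cast_zero, mul_zero]
    · rw [Nat.cast_zero, mul_zero]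

theorem L3b_sum {ι : Type} [Fintype ι] (g : ℕ → ℤ) {d : ℕ} {c f : ι → ℕ} (h : ∀ a, c a + f a ≤ d)
    (v : ι → ℕ → ℕ) (h0 : ∀ a j, f a < j → v a j = 0) :
    ∑ e ∈ range (d + 1), g e * ((∑ a, if c a ≤ e then v a (e - c a) else 0 : ℕ) : ℤ) =
      ∑ a, ∑ j ∈ range (f a + 1), g (c a + j) * v a j := by
  simp only [Nat.cast_sum, mul_sum]
  rw [sum_comm]
  exact sum_congr rfl fun a _ => L3b_shift g (h a) (v a) (h0 a)

theorem L3b_refl (f : ℕ) (v : ℕ → ℕ) :
    ∑ j ∈ range (f + 1), (2 * (j : ℤ) - f) * ((v j : ℤ) - v (f - j)) =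
      2 * ∑ j ∈ range (f + 1), (2 * (j : ℤ) - f) * v j := by
  have h := sum_flip (n := f) fun j => (2 * (j : ℤ) - f) * v j
  rw [two_mul (∑ j ∈ range (f + 1), (2 * (j : ℤ) - f) * v j)]
  nth_rewrite 2 [← h]
  rw [← sum_add_distrib]
  refine sum_congr rfl fun j hj => ?_
  rw [Nat.cast_sub (Nat.lt_succ_iff.1 (mem_range.1 hj))]
  ring

theorem L3b_nonneg {f : ℕ} {v : ℕ → ℕ} (hle : ∀ j j', j + j' = f → j ≤ j' → v j ≤ v j') {j : ℕ}
    (hj : j ∈ range (f + 1)) : 0 ≤ (2 * (j : ℤ) - f) * ((v j : ℤ) - v (f - j)) := by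
  have h1 := mem_range.1 hj
  rcases le_total j (f - j) with h | h
  · have := hle j (f - j) (by omega) h
    exact mul_nonneg_of_nonpos_of_nonpos (by omega) (by omega)
  · have := hle (f - j) j (by omega) h
    exact mul_nonneg (by omega) (by omega)

theorem defect {ι : Type} [Fintype ι] (d : ℕ) (c c' f : ι → ℕ) (hd : ∀ a, c a + c' a + f a = d)
    (v : ι → ℕ → ℕ) (V : ℕ → ℕ) (h0 : ∀ a j, f a < j → v a j = 0)
    (hle : ∀ a j j', j + j' = f a → j ≤ j' → v a j ≤ v a j')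
    (h1 : ∀ e, V e = ∑ a, if c a ≤ e then v a (e - c a) else 0)
    (h2 : ∀ e, (∑ a, if c' a ≤ e then v a (e - c' a) else 0) ≤ V e)
    (hV : ∀ e e', e + e' = d → V e = V e') (a : ι) (j j' : ℕ) (h : j + j' = f a) :
    v a j = v a j' := by
  have A := fun g => L3b_sum g (d := d) (c := c) (fun a => by have := hd a; omega) v h0
  have B := fun g => L3b_sum g (d := d) (c := c') (fun a => by have := hd a; omega) v h0
  simp only [← h1] at A
  have e1 : ∀ e ∈ range (d + 1),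
      ((∑ a, if c' a ≤ e then v a (e - c' a) else 0 : ℕ) : ℤ) = V e := by
    have e0 := (B fun _ => 1).trans (A fun _ => 1).symm
    simp only [one_mul] at e0
    exact (sum_eq_sum_iff_of_le fun e _ => Nat.cast_le.2 (h2 e)).1 e0
  have e2 : ∑ e ∈ range (d + 1), (e : ℤ) * V e = ∑ e ∈ range (d + 1), ((d : ℤ) - e) * V e := by
    rw [← sum_flip fun e => (e : ℤ) * V e]
    refine sum_congr rfl fun e he => ?_
    have := mem_range.1 he
    rw [Nat.cast_sub (by omega), hV (d - e) e (by omega)]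
  have e3 : ∑ a, ∑ j ∈ range (f a + 1), (2 * (j : ℤ) - f a) * v a j = 0 := by
    have e4 := B fun e => (d : ℤ) - e
    rw [sum_congr rfl fun e he => congrArg _ (e1 e he), ← e2, A fun e => (e : ℤ), ← sub_eq_zero,
      ← sum_sub_distrib] at e4
    rw [← e4]
    refine sum_congr rfl fun a _ => ?_
    rw [← sum_sub_distrib]
    refine sum_congr rfl fun j _ => ?_
    rw [← hd a]
    push_cast
    ring
  have e5 : ∑ a, ∑ j ∈ range (f a + 1), (2 * (j : ℤ) - f a) * ((v a j : ℤ) - v a (f a - j)) = 0 := by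
    simp only [L3b_refl]
    rw [← mul_sum, e3, mul_zero]
  have e6 := (sum_eq_zero_iff_of_nonneg fun a _ => sum_nonneg fun j hj => L3b_nonneg (hle a) hj).1
    e5 a (mem_univ a)
  have e7 := (sum_eq_zero_iff_of_nonneg fun j hj => L3b_nonneg (hle a) hj).1 e6 j
    (mem_range.2 (by omega))
  rw [show f a - j = j' by omega] at e7
  rcases mul_eq_zero.1 e7 with e | e
  · rw [show j = j' by omega]
  · omega

end Pool.Agent.Work.MP_ffcd14_ag.Gm
end

-- merged part: Pool.Agent.Work.MP_ffcd14_ag.Gm.A4b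
section
/-!
# Triangularity and dimension counts

Plan.  `tri_off`: `φ x * φ' z = 0` by `E5`, `E5'` and `K`-linearity (span induction on `Base.V`).
`tri_on`: `IsRes.tr`, `E6` (extended to `V j` by linearity), `mu_ne`, `ρ_t`, `trP`; the exponent
`e + (n - e') + (N - n)` is `N` iff `e = e'`.
`vdim`: for `j ≤ f a` take the basis `v a j` of `V j` and the dual family `v' a j` in `G (f a - j)` of
`Base.exists_V_basis`; for `j > f a` the space `V j` is zero (`vd_zero`).  The family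
`r (t ^ i * φ (v a (e - c a - i) ν))`, `i ≤ n`, `c a + i ≤ e`, spans (`st`, `IsRes.nil`) and is linearly
independent: the matrix of the pairings with `r (t ^ (n - i) * φ' (v' ..))` is invertible by `tri_det`.
Then `finrank_span_eq_card`.  `vlow`: the family `i (φ' (v a (e - c' a) ν))` lies in `V e` and is
independent (duals `i (φ (v' ..))`, `tri_on'`, `tri_det` for the transposed matrix).
`vd_le`: multiplication by `h ^ (j' - j)` is injective (`HL_F`, `Base.V_mul_pow`).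
`hV_Y'`: by `vdim` and `vX` the dimension in degree `e` is `∑ i ≤ N, if i ≤ e then X.vd (e - i) else 0`;
reflect `i ↦ N - i` and use `hV_X`, `vd_zero`.
-/

open Module

namespace Pool.Agent.Work.MP_ffcd14_ag.Gm.Pack

universe v w

variable {K : Type v} [Field K] [CharZero K] {D : Pack.{v, w} K} {a b : D.ι} {N N' n : ℕ}

theorem A4b_basis (R : Rg.{v, w} K) (j m : ℕ) (p : Prop) [Decidable p]
    (hm : m = if p then R.vd j else 0) :
    ∃ v v' : Fin m → R.B, (∀ ν, p ∧ v ν ∈ R.S.V j) ∧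
      (∀ ν ν', R.tr (v ν * v' ν') = if ν = ν' then 1 else 0) ∧
      (p → ∀ x ∈ R.S.V j, x ∈ Submodule.span K (Set.range v)) := by
  by_cases hp : p
  · rw [if_pos hp] at hm
    rcases le_or_gt j R.d with h | h
    · subst hm
      obtain ⟨v, v', h1, -, h3, h4⟩ := R.S.exists_V_basis (c := j) (c' := R.d - j)
        (Nat.add_sub_cancel' h)
      exact ⟨v, v', fun ν => ⟨hp, h1 ν⟩, h3, fun _ => h4⟩
    · rw [vd_zero R h] at hm
      subst hm
      refine ⟨0, 0, fun ν => ν.elim0, fun ν => ν.elim0, fun _ x hx => ?_⟩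
      rw [R.S.eq_zero_of_lt (R.S.V_le _ hx) h]
      exact zero_mem _
  · rw [if_neg hp] at hm
    subst hm
    exact ⟨0, 0, fun ν => ν.elim0, fun ν => ν.elim0, fun h => absurd h hp⟩

theorem A4b_li (R : Rg.{v, w} K) {J : Type} [Fintype J] [DecidableEq J] (u u' : J → R.B)
    (h : (Matrix.of fun s s' => R.tr (u s * u' s')).det ≠ 0) : LinearIndependent K u := by
  refine Fintype.linearIndependent_iff.2 fun g hg => congrFun
    (Matrix.eq_zero_of_vecMul_eq_zero h (v := g) (funext fun s' => ?_))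
  have h1 := congrArg (fun y => R.tr (y * u' s')) hg
  simp only [Finset.sum_mul, smul_mul_assoc, map_sum, map_smul, smul_eq_mul, zero_mul,
    map_zero] at h1
  exact h1

omit [CharZero K] in
theorem A4b_map {B B' : Type*} [AddCommGroup B] [Module K B] [AddCommGroup B'] [Module K B']
    (L : B →ₗ[K] B') {s : Set B} {W : Submodule K B'} (h : ∀ x ∈ s, L x ∈ W) {x : B}
    (hx : x ∈ Submodule.span K s) : L x ∈ W :=
  (Submodule.span_le.2 h : Submodule.span K s ≤ W.comap L) hx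

variable {T : Rg.{v, w} K} {r : (D.Y N).B →ₐ[K] T.B}

theorem vdim (hr : D.IsRes N n T r) {e : ℕ} (hN : 2 * e + D.M ≤ N) :
    finrank K (Submodule.span K (r '' ((D.Y N).A e : Set (D.Y N).B))) =
      ∑ a, ∑ i ∈ Finset.range (n + 1),
        if D.c a + i ≤ e then (D.F a).vd (e - D.c a - i) else 0 := by
  choose v v' h1 h2 h3 using fun (a : D.ι) (i : Fin (n + 1)) =>
    A4b_basis (D.F a) (e - D.c a - i) _ (D.c a + i ≤ e) rfl
  choose ν hν hon using tri_on hr (show D.M ≤ N by omega)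
  let J : Type := Σ a : D.ι, Σ i : Fin (n + 1),
    Fin (if D.c a + i ≤ e then (D.F a).vd (e - D.c a - i) else 0)
  let L : ∀ (a : D.ι) (_ : ℕ), (D.F a).B →ₗ[K] T.B := fun a i =>
    r.toLinearMap ∘ₗ LinearMap.mulLeft K (D.t N ^ i) ∘ₗ D.φ a N
  let u : J → T.B := fun s => r (D.t N ^ (s.2.1 : ℕ) * D.φ s.1 N (v s.1 s.2.1 s.2.2))
  let u' : J → T.B := fun s => r (D.t N ^ (n - s.2.1) * D.φ' s.1 N (v' s.1 s.2.1 s.2.2))
  have hli : LinearIndependent K u := by
    refine A4b_li T u u' (tri_det _ Sigma.fst D.lev (fun a => (ν a : K))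
      (fun a => Rat.cast_ne_zero.2 (hν a)) ?_ ?_)
    · rintro ⟨a, i, k⟩ ⟨b, i', k'⟩ hb hl
      show T.tr (r _ * r _) = 0
      rw [tri_off r hb hl (Or.inl (h1 a i k).2), map_zero]
    · rintro ⟨a, i, k⟩ ⟨b, i', k'⟩ hb
      obtain rfl : b = a := hb
      show T.tr (r _ * r _) = _
      rw [hon b i (Nat.lt_succ_iff.1 i.2) i' (Nat.lt_succ_iff.1 i'.2) _ _ (h1 b i k).2]
      by_cases hi : i = i'
      · subst hi
        rw [if_pos rfl, h2]
        by_cases hk : k = k'
        · subst hk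
          simp
        · rw [if_neg hk, mul_zero, if_neg]
          intro h
          exact hk (eq_of_heq (Sigma.mk.inj (eq_of_heq (Sigma.mk.inj h).2)).2)
      · rw [if_neg fun h => hi (Fin.ext h), if_neg]
        intro h
        exact hi (Sigma.mk.inj (eq_of_heq (Sigma.mk.inj h).2)).1
  have hsp : Submodule.span K (r '' ((D.Y N).A e : Set (D.Y N).B)) =
      Submodule.span K (Set.range u) := by
    refine le_antisymm (Submodule.span_le.2 ?_) (Submodule.span_le.2 ?_)
    · rintro _ ⟨y, hy, rfl⟩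
      have h4 : D.T N e ≤ ((Submodule.span K (Set.range u)).comap r.toLinearMap).restrictScalars ℚ := by
        refine Submodule.span_le.2 ?_
        rintro _ ⟨a, i, j, x, hj, hx, rfl⟩
        show r (D.t N ^ i * D.φ a N x) ∈ Submodule.span K (Set.range u)
        rcases le_or_gt i n with hi | hi
        · obtain rfl : j = e - D.c a - i := by omega
          refine A4b_map (L a i) ?_ (h3 a ⟨i, Nat.lt_succ_of_le hi⟩ (show D.c a + i ≤ e by omega) x
            ((D.F a).S.mem_V hx))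
          rintro _ ⟨k, rfl⟩
          exact Submodule.subset_span ⟨⟨a, ⟨i, Nat.lt_succ_of_le hi⟩, k⟩, rfl⟩
        · rw [map_mul, map_pow, pow_eq_zero_of_le hi hr.nil, zero_mul]
          exact zero_mem _
      exact h4 (st hN hy)
    · rintro _ ⟨⟨a, i, k⟩, rfl⟩
      refine A4b_map (L a i) (fun x hx => ?_) (h1 a i k).2
      refine Submodule.subset_span (Set.mem_image_of_mem r ?_)
      have h4 := Rg.A_mul (Rg.pow_mem (D.t_mem N) i) (D.φ_mem a N _ x hx)
      have h5 := (h1 a i k).1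
      rwa [show (i : ℕ) + (D.c a + (e - D.c a - i)) = e by omega] at h4
  rw [hsp, finrank_span_eq_card hli]
  simp only [J, Fintype.card_sigma, Fintype.card_fin]
  exact Finset.sum_congr rfl fun a _ => Fin.sum_univ_eq_sum_range
    (fun i => if D.c a + i ≤ e then (D.F a).vd (e - D.c a - i) else 0) (n + 1)

variable (D)

theorem vX (e : ℕ) : D.X.vd e = ∑ a, if D.c a ≤ e then (D.F a).vd (e - D.c a) else 0 := by
  have h := vdim (D.isRes_i (2 * e + D.M)) (e := e) le_rfl
  have h1 : D.i (2 * e + D.M) '' ((D.Y (2 * e + D.M)).A e : Set (D.Y (2 * e + D.M)).B) =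
      (D.X.A e : Set D.X.B) := by
    refine Set.Subset.antisymm ?_ fun x hx => D.i_surj _ e x hx
    rintro _ ⟨y, hy, rfl⟩
    exact D.i_mem _ e y hy
  rw [h1] at h
  refine Eq.trans h ?_
  simp

theorem vlow (e : ℕ) : (∑ a, if D.c' a ≤ e then (D.F a).vd (e - D.c' a) else 0) ≤ D.X.vd e := by
  choose v v' h1 h2 h3 using fun a : D.ι => A4b_basis (D.F a) (e - D.c' a) _ (D.c' a ≤ e) rfl
  choose ν hν hon using tri_on' (D.isRes_i D.M) le_rfl
  let J : Type := Σ a : D.ι, Fin (if D.c' a ≤ e then (D.F a).vd (e - D.c' a) else 0)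
  let u : J → D.X.B := fun s => D.i D.M (D.t D.M ^ (0 - 0) * D.φ' s.1 D.M (v s.1 s.2))
  let u' : J → D.X.B := fun s => D.i D.M (D.t D.M ^ 0 * D.φ s.1 D.M (v' s.1 s.2))
  have hd := tri_det (Matrix.of fun s s' => D.X.tr (u' s * u s')) Sigma.fst D.lev
    (fun a => (ν a : K)) (fun a => Rat.cast_ne_zero.2 (hν a)) (by
      rintro ⟨a, k⟩ ⟨b, k'⟩ hb hl
      show D.X.tr (D.i D.M _ * D.i D.M _) = 0
      rw [tri_off (D.i D.M) hb hl (Or.inr (h1 b k').2), map_zero]) (by
      rintro ⟨a, k⟩ ⟨b, k'⟩ hb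
      obtain rfl : b = a := hb
      show D.X.tr (D.i D.M _ * D.i D.M _) = _
      rw [hon b 0 le_rfl 0 le_rfl _ _ _ (h1 b k').2, if_pos rfl, mul_comm (v' b k), h2]
      by_cases hk : k = k'
      · subst hk
        simp
      · rw [if_neg (Ne.symm hk), mul_zero, if_neg]
        intro h
        exact hk (eq_of_heq (Sigma.mk.inj h).2))
  have hli : LinearIndependent K u := by
    refine A4b_li D.X u u' ?_
    rw [← Matrix.det_transpose] at hd
    convert hd using 2
    ext s s'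
    exact congrArg D.X.tr (mul_comm _ _)
  have hle : Submodule.span K (Set.range u) ≤ D.X.S.V e := by
    refine Submodule.span_le.2 ?_
    rintro _ ⟨⟨a, k⟩, rfl⟩
    refine A4b_map ((D.i D.M).toLinearMap ∘ₗ LinearMap.mulLeft K (D.t D.M ^ (0 - 0)) ∘ₗ D.φ' a D.M)
      (fun x hx => D.X.S.mem_V (D.i_mem _ _ _ ?_)) (h1 a k).2
    have h4 := D.φ'_mem a D.M _ x hx
    have h5 := (h1 a k).1
    rw [show D.c' a + (e - D.c' a) = e by omega] at h4
    simpa using h4
  have h6 := Submodule.finrank_mono hle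
  rw [finrank_span_eq_card hli] at h6
  simp only [J, Fintype.card_sigma, Fintype.card_fin] at h6
  exact h6

theorem hV_X : D.X.HV := by
  refine D.hV_or.elim id fun h => ?_
  have key : ∀ e e', e + e' = D.X.d → D.X.vd e ≤ D.X.vd e' := fun e e' he => by
    refine le_trans ?_ (D.vlow e')
    rw [vX]
    refine Finset.sum_le_sum fun a _ => ?_
    have := D.dF a
    split_ifs with h1 h2
    · exact (h a _ _ (by omega)).le
    · exact (vd_zero _ (by omega)).le
    · exact Nat.zero_le _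
    · exact le_rfl
  exact fun e e' he => le_antisymm (key e e' he) (key e' e (by omega))

theorem hV_F (a : D.ι) : (D.F a).HV :=
  defect D.X.d D.c D.c' D.f D.dF (fun a => (D.F a).vd) D.X.vd (fun _ _ => vd_zero _)
    (fun a _ _ => vd_le a) D.vX D.vlow D.hV_X a

theorem hV_Y' (hN : N ≤ N') (h : 2 * (D.X.d + N) + D.M ≤ N') : (D.Y' hN).HV := by
  have key : ∀ e ≤ D.X.d + N, finrank K ((D.Y' hN).S.V e) =
      ∑ i ∈ Finset.range (N + 1), if i ≤ e then D.X.vd (e - i) else 0 := by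
    intro e he
    refine (vdim (D.isRes_res hN) (e := e) (by omega)).trans ?_
    rw [Finset.sum_comm]
    refine Finset.sum_congr rfl fun i _ => ?_
    split_ifs with hi
    · rw [vX]
      refine Finset.sum_congr rfl fun a _ => ?_
      rw [Nat.sub_right_comm]
      exact if_congr (by omega) rfl rfl
    · exact Finset.sum_eq_zero fun a _ => if_neg (by omega)
  intro e e' he
  have hd : e + e' = D.X.d + N := he.trans (D.dY N)
  rw [key e (by omega), key e' (by omega), ← Finset.sum_range_reflect]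
  refine Finset.sum_congr rfl fun i hi => ?_
  rw [Finset.mem_range] at hi
  split_ifs with h1 h2 h2
  · exact D.hV_X _ _ (by omega)
  · exact vd_zero _ (by omega)
  · exact (vd_zero _ (by omega)).symm
  · rfl

end Pool.Agent.Work.MP_ffcd14_ag.Gm.Pack
end

-- merged part: Pool.Agent.Work.MP_ffcd14_ag.Gm.A5b
section
/-!
# Numerical bases on the bundles

Plan.  `n0_phi`: `E7`.  `uu_gen`: `st`, `T_repr`, the first part of `nb`, `n0_phi`, `N0.mul`
(`Fintype.sum_sigma`, `Finset.sum_range`).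
`res_gen`: `Rg.span_of_gram` with `uu_gen` and the family
`v s = res (t ^ (N - (k - c b - j)) * φ' (e' b j ν))`; the determinant is not zero by `tri_det` with
`blk = Sigma.fst`, `ht = lev` (`tri_off`, `tri_on` for `isRes_res`, `Rg.t_cast`, `nb`).
`xx_gen`: for `x ∈ X.A j₀`, `j₀ ≤ k`: `i_surj`, `st`, `T_repr`, `i_t` (only the terms `j = j₀ - c a` survive);
if `x` is `N0` on `F a` then `i (φ x)` is `N0` on `X` (`i_surj`, `TRi`, `n0_phi`).
`xx_ind`: `Rg.ind_of_det` with `v s = i (φ' (e' b j ν))`, `tri_det`, `tri_on` for `isRes_i`; for `j ≠ j'`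
the degree is wrong (`Nb.le`, `Rg.t_deg`).
`sg_A'`: both sides are `sgM` of the Gram matrix of the family of `res_gen` (`Gen.sg`).
`sg_res`: `sig_congr` with `res` and the form of `q • (z * t ^ (N' - N))` (`TR`, `Rg.t_cast`), `sg_smul`.
`indep`: choose `N' = 2 (d + N) + M`; `sg_A'`, `Rg.sg_sub`, `Rg.sg_indep` for `Y'` (`hV_Y'`, `HL_Y`,
`Rg.power_sub`, `res_l`, `res_t`).
-/

open Module

namespace Pool.Agent.Work.MP_ffcd14_ag.Gm.Pack

universe v w

variable {K : Type v} [Field K] [CharZero K] {D : Pack.{v, w} K} {a b : D.ι} {N N' n : ℕ}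

variable {k : ℕ}

theorem sg_A' (h : N ≤ N') (hN : 2 * k + D.M ≤ N) {z : (D.Y N).B} (hz : z ∈ (D.Y N).Alg) :
    (D.Y N).sg z (D.A' h k) = (D.Y N).sg z ((D.Y N).A k) := by
  classical
  have hle : D.A' h k ≤ (D.Y N).A k := fun _ ⟨y, hy, e⟩ => e ▸ D.res_mem h k y hy
  have hg := res_gen (D := D) h hN
  have hg' : (D.Y N).Gen (D.A' h k) fun r => D.res h (D.uu N' k r) :=
    ⟨fun r => (D.mem_A' h).2 ⟨_, uu_mem r, rfl⟩, fun x hx => hg.2 x (hle hx)⟩
  rw [hg.sg (Rg.A_le k) hz, hg'.sg (hle.trans (Rg.A_le k)) hz]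

theorem sg_res (h : N ≤ N') (hN : 2 * k + D.M ≤ N) {z : (D.Y N').B} (hz : z ∈ (D.Y N').A n) :
    (D.Y N).sg (D.res h z) ((D.Y N).A k) =
      (D.Y N').sg (z * D.t N' ^ (N' - N)) ((D.Y N').A k) := by
  obtain ⟨q, hq, hT⟩ := D.TR h
  have hz' : z * D.t N' ^ (N' - N) ∈ (D.Y N').Alg :=
    Rg.A_le _ (Rg.A_mul hz (Rg.pow_mem (D.t_mem N') _))
  have hrz : D.res h z ∈ (D.Y N).Alg := Rg.A_le _ (D.res_mem h n z hz)
  rw [← Rg.sg_smul (z := z * D.t N' ^ (N' - N)) _ hq]
  refine sig_congr ((D.Y N).Qf_sym _) ((D.res h).toLinearMap.restrictScalars ℚ)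
    ((D.Y N').Qf_sym _) (Rg.fr (Rg.A_le k) (Submodule.smul_mem _ q hz'))
    (fun x hx => D.res_mem h k x hx) (fun x hx y hy => ?_) (fun x hx => ?_)
  · have hxy : x * y ∈ (D.Y N').A (k + k) := Rg.A_mul hx hy
    have h1 : D.res h x * D.res h y * D.res h z ∈ (D.Y N).Alg := by
      rw [← map_mul]
      exact Rg.alg_mul (Rg.A_le _ (D.res_mem h _ _ hxy)) hrz
    have h2 : x * y * (z * D.t N' ^ (N' - N)) ∈ (D.Y N').Alg := Rg.alg_mul (Rg.A_le _ hxy) hz'
    change (D.Y N).t (D.res h x * D.res h y * D.res h z) =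
      (D.Y N').t (x * y * (q • (z * D.t N' ^ (N' - N))))
    rw [mul_smul_comm, map_smul, smul_eq_mul]
    apply Rat.cast_injective (α := K)
    rw [Rat.cast_mul, Rg.t_cast h1, Rg.t_cast h2, ← map_mul, ← map_mul, hT, mul_assoc (x * y)]
  · obtain ⟨ξ, hξ⟩ := (res_gen (D := D) h hN).2 x hx
    refine ⟨∑ r, ξ r • D.uu N' k r,
      Submodule.sum_mem _ fun r _ => Submodule.smul_mem _ _ (uu_mem r), fun y hy => ?_⟩
    have e : ((D.res h).toLinearMap.restrictScalars ℚ) (∑ r, ξ r • D.uu N' k r) =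
        ∑ r, ξ r • D.res h (D.uu N' k r) := by
      rw [map_sum]
      exact Finset.sum_congr rfl fun r _ => by rw [map_smul]; rfl
    rw [e, Rg.Qf_apply, mul_assoc]
    refine hξ.t (Rg.A_le k (Submodule.sub_mem _ hx (Submodule.sum_mem _ fun r _ =>
      Submodule.smul_mem _ _ (D.res_mem h k _ (uu_mem r))))) (Rg.alg_mul (Rg.A_le k hy) hrz)

theorem indep (hN : 2 * k + D.M ≤ N) {s : ℕ} (hs : s + 2 * k = D.X.d + N) (ε : ℚ) {q q' : ℚ}
    (hq : 0 < q) (hq' : 0 < q') : (D.Y N).sg (ε • (D.l N + q • D.t N) ^ s) ((D.Y N).A k) =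
      (D.Y N).sg (ε • (D.l N + q' • D.t N) ^ s) ((D.Y N).A k) := by
  have h : N ≤ 2 * (D.X.d + N) + D.M := by omega
  have hm : ∀ q : ℚ, D.l N + q • D.t N ∈ (D.Y' h).A 1 := fun q =>
    (D.mem_A' h).2 ⟨D.l _ + q • D.t _,
      Submodule.add_mem _ (D.l_mem _) (Submodule.smul_mem _ q (D.t_mem _)), by
        rw [map_add, map_rat_smul, D.res_l, D.res_t]⟩
  have hp : ∀ q : ℚ, ε • (D.l N + q • D.t N) ^ s ∈ D.A' h s := fun q =>
    Submodule.smul_mem _ ε (Rg.pow_mem (R := D.Y' h) (hm q) s)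
  have key : ∀ q : ℚ, (D.Y N).sg (ε • (D.l N + q • D.t N) ^ s) ((D.Y N).A k) =
      (D.Y' h).sg (ε • (D.l N + q • D.t N) ^ s) ((D.Y' h).A k) := fun q => by
    have hz : ε • (D.l N + q • D.t N) ^ s ∈ (D.Y N).Alg := by
      obtain ⟨y, hy, e⟩ := (D.mem_A' h).1 (hp q)
      exact Rg.A_le s (e ▸ D.res_mem h s y hy)
    rw [← sg_A' h hN hz]
    exact (Rg.sg_sub _ _ _ (hp q)).symm
  rw [key q, key q']
  refine Rg.sg_indep (R := D.Y' h) (D.hV_Y' h le_rfl) (hm q) (hm q') (D.HL_Y N q hq)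
    (D.HL_Y N q' hq') (Rg.power_sub _ _ _ (D.pow_Y N q q' hq hq')) ?_ ε
  change 2 * k + s = (D.Y N).d
  rw [D.dY]
  omega

end Pool.Agent.Work.MP_ffcd14_ag.Gm.Pack
end

-- merged part: Pool.Agent.Work.MP_ffcd14_ag.Gm.A6d
section
/-!
# Second regime: large powers of `l + t` see the fixed components

Plan.  Expanding `Rs` and `Lam`, the numerator in `r2_off`, `r2_on` is
`∑ m, ∑ r < mm m, Ts (β m) m s r * θ m r`, where `θ m r` does not depend on `s` (`r2_exp`).
`theta_zero`: by `E1` the trace is a sum over the components `e` of level `m` of traces containing the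
factor `ρ e (φ a x) * ρ e (φ b x')`; by `E4` it vanishes unless (`e = a` or `lev e < lev a`) and
(`e = b` or `lev e < lev b`); in these cases `(m + 1) ^ 2 < (lev a + 1) * (lev b + 1)` or `e = a = b`.
`theta_on`: by `E1`, `E4` only `e = a` survives; `rho_phi`, `rho_lam`, `ρ_t` give
`tr (γ * eu * eu * p (x * x' * h ^ r) * tp ^ _)`; it is `0` for `j + j' + r > f` (`Rg.high`), and `Ld.tr`
applies for `j + j' + r = f`.
`r2_off`: `ts_small` termwise.  `r2_on`: `ts_small` for `m < lev a`, `theta_zero` for `m > lev a`, and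
`ts_main` for `m = lev a` (`lev_mem`, `f_lt`, `Rg.th_entry`).
`r2_ref`: `sg_limit` for the Gram matrices of `uu N k`, scalings `scl (lev a + 1) (f a) j s` (`scl_ne`).
The limit is `blockDiagonal'` of the Gram matrices of `(ε * (β₀ * ω a * κ a)) • Th ex (h a)` for the
families of `Rg.wm_gen` (`nb`); `det_block`, `gram_det`, `theta_nd` (`Rg.nhl`, `hV_F`), `sg_block`,
`Gen.sg`, and `sg_smul` with the positive number `(-1) ^ c * (β₀ * ω) * κ` (`sign`).
`r2`: fix `N₀ = d + 2 k + M`, `n` with `M - 1 + n + 2 k = d + N₀`.  For `N ≥ N₀`: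
`(l + t) ^ s = Rs N s * t ^ n * t ^ (N - N₀)` (`loc_s`), `res (Rs N s) = Rs N₀ s` (`map_Lam`, `map_lamS`),
`sg_res`; and `s → ∞` with `N`.
-/

open Module Filter Topology

namespace Pool.Agent.Work.MP_ffcd14_ag.Gm.Pack

universe v w

variable {K : Type v} [Field K] [CharZero K] {D : Pack.{v, w} K} {a b : D.ι} {N N' n k : ℕ}

variable {j j' : ℕ}

variable (hN : D.X.d + 2 * k + D.M ≤ N) (hn : D.M - 1 + n + 2 * k = D.X.d + N) {ω : ℚ}
  (hω : D.Ld a N (D.γ a N * D.eu a N * D.eu a N)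
    (D.eo (D.lev a) - (D.c a + D.c' a) + D.c a + D.c a) ω)
  (hj : D.c a + j ≤ k) (hj' : D.c a + j' ≤ k)

include hN hn in
theorem r2_ref {ε : ℚ} (hε : ε ≠ 0) : ∀ᶠ s : ℕ in atTop,
    (D.Y N).sg (ε • (D.Rs N s * D.t N ^ n)) ((D.Y N).A k) =
      ∑ a, (D.F a).sg ((ε * (-1) ^ D.c a) • (D.F a).Th ex (D.h a)) ((D.F a).Wm (k + 1 - D.c a)) :=
  by
  choose ω h1 h2 using fun a => sign (D := D) (N := N) (by omega) a
  obtain ⟨q, hq⟩ : ∃ q : D.ι → ℚ, ∀ a, q a = D.β (D.lev a) 0 * ω a * D.κ a N := ⟨_, fun _ => rfl⟩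
  have hp : ∀ a, 0 < (-1) ^ D.c a * q a := fun a => by
    rw [hq, ← mul_assoc]
    exact mul_pos (h1 a) (D.κ_pos a N)
  have hz : ∀ a (c : ℚ), c • (D.F a).Th ex (D.h a) ∈ (D.F a).Alg := fun a c =>
    Submodule.smul_mem _ _ (Rg.Th_mem ex (D.h_mem a))
  have hw := fun a => Rg.wm_gen (D.nb a) (k + 1 - D.c a)
  let G : ∀ a, Matrix (Σ j : Fin (k + 1 - D.c a), Fin (D.rn a j))
      (Σ j : Fin (k + 1 - D.c a), Fin (D.rn a j)) ℚ := fun a =>
    gram ((D.F a).Qf ((ε * q a) • (D.F a).Th ex (D.h a))) fun r => D.e a r.1 r.2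
  have hd : ∀ a, (G a).det ≠ 0 := fun a =>
    Rg.gram_det (hw a).1 (hw a).2 (Rg.Wm_le _) (hz a _)
      ((Rg.theta_nd (D.h_mem a) (Rg.nhl (D.hV_F a) (D.h_mem a) (D.HL_F a)) _).smul
        (mul_ne_zero hε (right_ne_zero_of_mul (hp a).ne')))
  have hs : ∀ a, sgM (G a) = (D.F a).sg ((ε * (-1) ^ D.c a) • (D.F a).Th ex (D.h a))
      ((D.F a).Wm (k + 1 - D.c a)) := fun a => by
    have e : (-1) ^ D.c a * q a * (ε * (-1) ^ D.c a) = ε * q a := by
      have : (-1 : ℚ) ^ D.c a * (-1) ^ D.c a = 1 := by rw [← mul_pow]; simp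
      linear_combination ε * q a * this
    rw [← (hw a).1.sg (Rg.Wm_le _) (hz a _), ← e, ← smul_smul, Rg.sg_smul _ (hp a)]
  have hG : (Matrix.blockDiagonal' G).transpose = Matrix.blockDiagonal' G := by
    rw [Matrix.blockDiagonal'_transpose]
    exact congrArg _ (funext fun a => Matrix.ext fun i j => (D.F a).Qf_sym _ _ _)
  have hlim := sg_limit atTop
    (fun s => gram ((D.Y N).Qf (ε • (D.Rs N s * D.t N ^ n))) (D.uu N k))
    (fun s => Matrix.ext fun i j => (D.Y N).Qf_sym _ _ _) (Matrix.blockDiagonal' G) hG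
    (det_block G hd) (fun s r => scl (D.lev r.1 + 1) (D.f r.1) r.2.1 s)
    ((eventually_gt_atTop 0).mono fun s hs r => scl_ne (Nat.succ_pos _) hs _ _) ?_
  · filter_upwards [hlim] with s hs'
    rw [(uu_gen (by omega)).sg (Rg.A_le k) (Submodule.smul_mem _ _
      (Rg.A_le _ (Rg.A_mul (Rs_mem s) (Rg.pow_mem (D.t_mem N) n)))), hs'.2, sg_block,
      Finset.sum_congr rfl fun a _ => hs a]
  rintro ⟨a, j, ν⟩ ⟨b, j', ν'⟩
  have hx := (D.nb a j).1.1 ν
  have hx' := (D.nb b j').1.1 ν'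
  have hj := j.2
  have hj' := j'.2
  simp only [gram, Matrix.of_apply, Rg.Qf_apply, mul_smul_comm, map_smul, smul_eq_mul,
    Rat.cast_mul, mul_div_assoc, uu]
  by_cases hab : a = b
  · subst hab
    rw [Matrix.blockDiagonal'_apply_eq]
    convert (r2_on hN hn (h2 a) (by omega) (by omega) hx hx').const_mul (ε : ℝ) using 2
    simp only [G, gram, Matrix.of_apply, Rg.Qf_apply, mul_smul_comm, map_smul, smul_eq_mul, hq]
    push_cast
    ring
  · rw [Matrix.blockDiagonal'_apply_ne _ _ _ hab]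
    simpa using (r2_off (N := N) (n := n) hab hx hx' (k - D.c a - j) (k - D.c b - j')).const_mul
      (ε : ℝ)

variable (D k) in
theorem r2 {ε : ℚ} (hε : ε ≠ 0) : ∀ᶠ N : ℕ in atTop, ∀ s, s + 2 * k = D.X.d + N →
    (D.Y N).sg (ε • (D.l N + D.t N) ^ s) ((D.Y N).A k) =
      ∑ a, (D.F a).sg ((ε * (-1) ^ D.c a) • (D.F a).Th ex (D.h a)) ((D.F a).Wm (k + 1 - D.c a)) :=
  by
  have hM : 0 < D.M := Fintype.card_pos
  obtain ⟨s₀, hs₀⟩ := eventually_atTop.1 (r2_ref (D := D) (N := D.X.d + 2 * k + D.M)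
    (n := 2 * D.X.d + 1) (k := k) le_rfl (by omega) hε)
  filter_upwards [eventually_ge_atTop (D.X.d + 2 * k + D.M), eventually_ge_atTop (s₀ + 2 * k)]
    with N h h' s hs
  have e : D.res h (ε • (D.Rs N s * D.t N ^ (2 * D.X.d + 1))) =
      ε • (D.Rs (D.X.d + 2 * k + D.M) s * D.t (D.X.d + 2 * k + D.M) ^ (2 * D.X.d + 1)) := by
    simp only [map_rat_smul, map_mul, map_pow, Rs, map_sum, map_Lam, map_lamS, D.res_l, D.res_t]
  rw [← hs₀ s (by omega), ← e, sg_res h (by omega) (Submodule.smul_mem _ _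
    (Rg.A_mul (Rs_mem s) (Rg.pow_mem (D.t_mem N) _))),
    D.loc_s N (n := 2 * D.X.d + 1 + (N - (D.X.d + 2 * k + D.M))) (by omega), pow_add,
    smul_mul_assoc, mul_assoc]

end Pool.Agent.Work.MP_ffcd14_ag.Gm.Pack
end

-- merged part: Pool.Agent.Work.MP_ffcd14_ag.Gm.A7
section
/-!
# The comparison of the signatures

Plan for `neg_eq`.  Let `ε = -(-1) ^ k`.  Use `sig_eq` for `m = k + 1` and `m = k`, and `Rg.lefstep` for `X`
at `k` (all `p ≤ k` pass the filter) and for each `F a` with `c a ≤ k` at `k - c a`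
(`k + 1 - c a = (k - c a) + 1`).  For `c a > k` both indices are `0` and the filter is empty.  The signs
are `ε * (-1) ^ (k - p) = -(-1) ^ p = ε * (-1) ^ c * (-1) ^ (k - c - p)`.  Cancel the common summand.
-/

open Module Filter Topology

namespace Pool.Agent.Work.MP_ffcd14_ag.Gm.Pack

universe v w

variable {K : Type v} [Field K] [CharZero K] {D : Pack.{v, w} K} {a b : D.ι} {N N' n k : ℕ}

variable (D)

theorem nhl_X : D.X.NHL D.hX := Rg.nhl D.hV_X D.hX_mem D.HL_X

theorem nhl_F (a : D.ι) : (D.F a).NHL (D.h a) := Rg.nhl (D.hV_F a) (D.h_mem a) (D.HL_F a)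

theorem sig_eq {ε : ℚ} (hε : ε ≠ 0) (m : ℕ) : D.X.sg (ε • D.X.Th ex D.hX) (D.X.Wm m) =
    ∑ a, (D.F a).sg ((ε * (-1) ^ D.c a) • (D.F a).Th ex (D.h a)) ((D.F a).Wm (m - D.c a)) := by
  rcases m with _ | k
  · simp [Rg.sg, Rg.Wm_zero, sig_bot]
  have h1 := (tendsto_add_atTop_nat D.X.d).eventually
    ((tendsto_sub_atTop_nat (2 * k)).eventually (Rg.theta_choose D.hX_mem D.nhl_X hε (k + 1)))
  obtain ⟨N, ⟨h2, h3⟩, h4, h5⟩ := (h1.and ((D.r2 k hε).and
    (eventually_ge_atTop (2 * k + D.M)))).exists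
  have hs : N + D.X.d - 2 * k + 2 * k = D.X.d + N := by omega
  obtain ⟨q, hq, h6⟩ := r1 h5 hs h2
  rw [← h3, ← h6, indep h5 hs ε hq one_pos, one_smul, h4 _ hs]

theorem neg_eq (k : ℕ) (hk : 2 * k ≤ D.X.d) :
    ∑ j ∈ Finset.range (k + 1), D.X.sg ((-(-1) ^ j : ℚ) • D.hX ^ (D.X.d - 2 * j))
      (D.X.Prim D.hX j) = ∑ a, ∑ j ∈ Finset.range (k + 1) with
        j + D.c a ≤ k ∧ j + k ≤ D.f a + D.c a,
      (D.F a).sg ((-(-1) ^ j : ℚ) • D.h a ^ (D.f a - 2 * j)) ((D.F a).Prim (D.h a) j) := by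
  have sg : ∀ c j : ℕ, j + c ≤ k →
      (-(-1) ^ k * (-1) ^ c * (-1) ^ (k - c - j) : ℚ) = -(-1) ^ j := fun c j h => by
    obtain ⟨r, rfl⟩ : ∃ r, k = j + c + r := ⟨k - (j + c), by omega⟩
    rw [show j + c + r - c - j = r by omega]
    have h1 : ((-1 : ℚ) ^ c) * (-1) ^ c = 1 := by rw [← mul_pow]; simp
    have h2 : ((-1 : ℚ) ^ r) * (-1) ^ r = 1 := by rw [← mul_pow]; simp
    rw [pow_add, pow_add]
    linear_combination (-(-1) ^ j * ((-1) ^ r * (-1) ^ r)) * h1 + (-(-1) ^ j) * h2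
  have hε : (-(-1) ^ k : ℚ) ≠ 0 := neg_ne_zero.2 (pow_ne_zero _ (by norm_num))
  have h1 := D.sig_eq hε (k + 1)
  have h2 := D.sig_eq hε k
  have h3 := Rg.lefstep D.hX_mem D.nhl_X (-(-1) ^ k) k
  rw [Finset.filter_true_of_mem fun j hj => by have := Finset.mem_range.1 hj; omega] at h3
  have h4 : ∀ a, (D.F a).sg ((-(-1) ^ k * (-1) ^ D.c a : ℚ) • (D.F a).Th ex (D.h a))
      ((D.F a).Wm (k + 1 - D.c a)) =
      (D.F a).sg ((-(-1) ^ k * (-1) ^ D.c a : ℚ) • (D.F a).Th ex (D.h a))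
        ((D.F a).Wm (k - D.c a)) + ∑ j ∈ Finset.range (k + 1) with
        j + D.c a ≤ k ∧ j + k ≤ D.f a + D.c a,
      (D.F a).sg ((-(-1) ^ j : ℚ) • D.h a ^ (D.f a - 2 * j)) ((D.F a).Prim (D.h a) j) := by
    intro a
    rcases le_or_gt (D.c a) k with h | h
    · rw [show k + 1 - D.c a = k - D.c a + 1 by omega, Rg.lefstep (D.h_mem a) (D.nhl_F a)]
      congr 1
      refine Finset.sum_congr ?_ fun j hj => ?_
      · ext j
        simp only [Finset.mem_filter, Finset.mem_range, Pack.f]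
        omega
      · rw [sg _ _ (Finset.mem_filter.1 hj).2.1]
    · rw [show k + 1 - D.c a = k - D.c a by omega,
        Finset.filter_false_of_mem fun j _ => by omega, Finset.sum_empty, add_zero]
  rw [Finset.sum_congr rfl fun a _ => h4 a, Finset.sum_add_distrib, ← h2, h3] at h1
  rw [← Nat.add_left_cancel h1]
  refine Finset.sum_congr rfl fun j hj => ?_
  have h5 := sg 0 j (by have := Finset.mem_range.1 hj; omega)
  rw [pow_zero, mul_one, Nat.sub_zero] at h5
  rw [h5]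

theorem main (k : ℕ) (hk : 2 * k ≤ D.X.d) :
    (∀ j ≤ k, D.X.S.HR D.hX j (D.X.d - 2 * j)) ↔ ∀ a j, j + D.c a ≤ k → j + k ≤ D.f a + D.c a →
      (D.F a).S.HR (D.h a) j (D.f a - 2 * j) := by
  have h := D.neg_eq k hk
  constructor
  · intro H a j h1 h2
    rw [Finset.sum_eq_zero fun j hj => (Rg.hr_iff D.hX_mem D.nhl_X (by
      have := Finset.mem_range.1 hj; omega)).1 (H j (by have := Finset.mem_range.1 hj; omega)),
      eq_comm, Finset.sum_eq_zero_iff] at h
    exact (Rg.hr_iff (D.h_mem a) (D.nhl_F a) (show 2 * j ≤ D.f a by omega)).2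
      (Finset.sum_eq_zero_iff.1 (h a (Finset.mem_univ a)) j (by simp; omega))
  · intro H j hj
    rw [Finset.sum_eq_zero (s := Finset.univ) fun a _ => Finset.sum_eq_zero fun j hj => by
      have := (Finset.mem_filter.1 hj).2
      exact (Rg.hr_iff (D.h_mem a) (D.nhl_F a) (show 2 * j ≤ D.f a by omega)).1
        (H a j this.1 this.2), Finset.sum_eq_zero_iff] at h
    exact (Rg.hr_iff D.hX_mem D.nhl_X (by omega)).2 (h j (by simp; omega))

end Pool.Agent.Work.MP_ffcd14_ag.Gm.Pack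
end
end
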