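import Pool.Agent.Work.MP_ffcd14_ag.Cyc.GDefs

/-!
# Linear actions of the multiplicative group on a projective space

The group `kˣ` acts on the projective space with coordinates `σ` by `τ • (x v) = (τ ^ w v * x v)`.
-/

namespace Pool.Agent.Work.MP_ffcd14_ag.Gm

universe u

variable {k : Type u} [Field k] {σ : Type} [Finite σ]

/-- The homogeneous coordinates of (a chosen representative of) a point. -/
noncomputable def crd (x : (Amb.one σ).Pt k) : σ → k := (x ()).rep

/-- `y = τ • x`. -/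
def Act (w : σ → ℤ) (τ : kˣ) (x y : (Amb.one σ).Pt k) : Prop :=
  ∃ c : k, ∀ v, crd y v = c * (τ : k) ^ w v * crd x v

/-- `S` is stable under the action. -/
def Stable (w : σ → ℤ) (S : Set ((Amb.one σ).Pt k)) : Prop :=
  ∀ x ∈ S, ∀ τ y, Act w τ x y → y ∈ S

/-- The fixed points in `S`. -/
def Fix (w : σ → ℤ) (S : Set ((Amb.one σ).Pt k)) : Set ((Amb.one σ).Pt k) :=
  {x ∈ S | ∀ τ, Act w τ x x}

/-- `y` is the limit of `τ • x` for `τ → 0`: only the coordinates of least weight survive. -/
def Lim (w : σ → ℤ) (x y : (Amb.one σ).Pt k) : Prop :=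
  ∃ (m : ℤ) (c : k), ∀ v, (w v < m → crd x v = 0) ∧ crd y v = if w v = m then c * crd x v else 0

/-- The points of `S` which flow to `F` for `τ → 0`. -/
def Cell (w : σ → ℤ) (S F : Set ((Amb.one σ).Pt k)) : Set ((Amb.one σ).Pt k) :=
  {x ∈ S | ∃ y ∈ F, Lim w x y}

/-- `F` is an irreducible component of `A`. -/
def Comp (A F : Set ((Amb.one σ).Pt k)) : Prop := Maximal (fun T => IsIrreducible T ∧ T ⊆ A) F

end Pool.Agent.Work.MP_ffcd14_ag.Gm
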