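import Pool.Agent.Work.MP_ffcd14_ag.Gm.Defs
import Pool.Agent.Work.MP_ffcd14_ag.Cyc.MvDefs
import Pool.Agent.Work.MP_ffcd14_ag.Chw.Cmp
import Pool.Agent.Work.MP_ffcd14_ag.Gm.A7
import Pool.Agent.Work.MP_ffcd14_ag.Cyc.Glue
import Pool.Agent.Work.MP_ffcd14_ag.Cyc.Gp0

-- merged part: Pool.Agent.Work.MP_ffcd14_ag.Gm.G9
section
-- merged part: Pool.Agent.Work.MP_ffcd14_ag.Gm.GD
section
/-! # Working definitions for the geometry of a torus action -/

open MvPolynomial Topology TopologicalSpace Filter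

namespace Pool.Agent.Work.MP_ffcd14_ag.Gm

universe u

variable {k : Type u} [Field k] {P Q S : Amb}

/-- `y = τ • x` for the action with weights `w` on a product of projective spaces. -/
def GAct (w : P.V → ℕ) (τ : k) (x y : P.Pt k) : Prop :=
  ∃ μ : P.ι → k, ∀ s, rp y s = μ s.1 * τ ^ w s * rp x s

/-- `A` is stable. -/
def GSt (w : P.V → ℕ) (A : Set (P.Pt k)) : Prop :=
  ∀ x ∈ A, ∀ τ : k, τ ≠ 0 → ∀ y, GAct w τ x y → y ∈ A

/-- The substitution `X s ↦ τ ^ w s * X s`. -/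
noncomputable def twist (w : P.V → ℕ) (τ : k) (f : MvPolynomial P.V k) : MvPolynomial P.V k :=
  aeval (fun s => C (τ ^ w s) * X s) f

/-- `Z` is an irreducible component of `A`. -/
def Mx (A : Set (P.Pt k)) (Z : Sub k P) : Prop :=
  (Z : Set (P.Pt k)) ⊆ A ∧ ∀ U : Sub k P, (U : Set (P.Pt k)) ⊆ A → Z ≤ U → U = Z

/-- `Z` is the largest irreducible closed subset of `A` through `x`. -/
def Top (A : Set (P.Pt k)) (x : P.Pt k) (Z : Sub k P) : Prop :=
  x ∈ Z ∧ (Z : Set (P.Pt k)) ⊆ A ∧ ∀ U : Sub k P, (U : Set (P.Pt k)) ⊆ A → x ∈ U → U ≤ Z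

/-- The point with the coordinates `F s (x)`. -/
noncomputable def ptF (F : Q.V → MvPolynomial P.V k) (x : P.Pt k)
    (h : ∀ j, (fun s => ev x (F ⟨j, s⟩)) ≠ 0) : Q.Pt k :=
  fun j => Projectivization.mk k (fun s => ev x (F ⟨j, s⟩)) (h j)

/-- The morphism given by forms without common zeros. -/
noncomputable def ofForms {X : Var k P} {Y : Var k Q} (F : Q.V → MvPolynomial P.V k)
    (b : Q.ι → P.ι →₀ ℕ) (hF : ∀ s, IsForm (F s) (b s.1))
    (h0 : ∀ x ∈ X.pts, ∀ j, (fun s => ev x (F ⟨j, s⟩)) ≠ 0)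
    (hY : ∀ x hx, ptF F x (h0 x hx) ∈ Y.pts) : Hom X Y where
  toFun x := ⟨ptF F x.1 (h0 x.1 x.2), hY x.1 x.2⟩
  reg _ j := ⟨b j, fun s => F ⟨j, s⟩, fun s => hF ⟨j, s⟩,
    Eventually.of_forall fun y => ⟨h0 y.1 y.2 j, rfl⟩⟩

/-- The morphism to a product with given components. -/
def pairH {W : Var k S} {X : Var k P} {Y : Var k Q} (φ : Hom W X) (ψ : Hom W Y) :
    Hom W (X.prod Y) where
  toFun x := ⟨mkPt (φ.toFun x).1 (ψ.toFun x).1, (φ.toFun x).2, (ψ.toFun x).2⟩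
  reg x := by
    rintro (i | j)
    · exact φ.reg x i
    · exact ψ.reg x j

/-- `Z'` is the image of `Z`. -/
def Im {X : Var k P} {Y : Var k Q} (φ : Hom X Y) (Z : Sub k P) (Z' : Sub k Q) : Prop :=
  ∀ y, y ∈ Z' ↔ ∃ x : X.pts, x.1 ∈ Z ∧ (φ.toFun x).1 = y

/-- The image of a morphism. -/
def Rng {X : Var k P} {Y : Var k Q} (φ : Hom X Y) : Set (Q.Pt k) :=
  {y | ∃ x : X.pts, (φ.toFun x).1 = y}

/-- The projective space of dimension `N`. -/
abbrev PN (N : ℕ) : Amb := Amb.one (Fin (N + 1))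

variable {σ : Type} [Finite σ]

/-- The variable of the coordinate `v`. -/
def vr (v : σ) : (Amb.one σ).V := ⟨(), v⟩

theorem rp_vr (x : (Amb.one σ).Pt k) (v : σ) : rp x (vr v) = crd x v := rfl

/-- The weights as a function on the variables. -/
def wl (w : σ → ℕ) : (Amb.one σ).V → ℕ := fun s => w s.2

/-- The points of `A` where the coordinates in `J` vanish. -/
def cut (A : Set ((Amb.one σ).Pt k)) (J : Finset σ) : Set ((Amb.one σ).Pt k) :=
  {x ∈ A | ∀ v ∈ J, crd x v = 0}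

/-- All non-zero coordinates of `x` have weight `m`. -/
def Lv (w : σ → ℕ) (m : ℕ) (x : (Amb.one σ).Pt k) : Prop := ∀ v, w v ≠ m → crd x v = 0

/-- `y` is the truncation of `x` in weight `m`. -/
def Tr (w : σ → ℕ) (m : ℕ) (x y : (Amb.one σ).Pt k) : Prop :=
  ∃ c : k, ∀ v, crd y v = if w v = m then c * crd x v else 0

theorem Lv.tr {w : σ → ℕ} {m : ℕ} {x : (Amb.one σ).Pt k} (h : Lv w m x) : Tr w m x x :=
  ⟨1, fun v => by split_ifs with e; exacts [(one_mul _).symm, h v e]⟩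

/-- A component `F` of the fixed locus, with a base point `f0`, local coordinates `Sp`, `Sm` in the
normal directions of positive and negative weight, and the components `Z J` through `f0` of the
coordinate sections. -/
structure Cmp [DecidableEq σ] (w : σ → ℕ) (X : Var k (Amb.one σ)) where
  F : Var k (Amb.one σ)
  irr : IsIrreducible F.pts
  lev : ℕ
  sub : F.pts ⊆ X.pts
  fix : ∀ x ∈ F.pts, Lv w lev x
  max : ∀ U : Sub k (Amb.one σ), (∀ x ∈ U, x ∈ X.pts ∧ Lv w lev x) → (∃ x ∈ U, x ∈ F.pts) →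
    (U : Set ((Amb.one σ).Pt k)) ⊆ F.pts
  Sp : Finset σ
  Sm : Finset σ
  hp : ∀ v ∈ Sp, lev < w v
  hm : ∀ v ∈ Sm, w v < lev
  f0 : (Amb.one σ).Pt k
  f0_mem : f0 ∈ F.pts
  Z : Finset σ → Sub k (Amb.one σ)
  Z_top : ∀ J ⊆ Sp ∪ Sm, Top (cut X.pts J) f0 (Z J)
  Z_dim : ∀ J ⊆ Sp ∪ Sm, sdim (Z J) + J.card = X.dim
  Z_st : ∀ J ⊆ Sp ∪ Sm, GSt (wl w) (Z J : Set ((Amb.one σ).Pt k))
  Z_all : (Z (Sp ∪ Sm) : Set ((Amb.one σ).Pt k)) = F.pts
  Zp_le : ∀ x ∈ Z Sp, ∀ v, lev < w v → crd x v = 0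
  Zm_le : ∀ x ∈ Z Sm, ∀ v, w v < lev → crd x v = 0
  Zp_lim : ∀ x ∈ Z Sp, ∀ y, Tr w lev x y → y ∈ F.pts
  Zm_lim : ∀ x ∈ Z Sm, ∀ y, Tr w lev x y → y ∈ F.pts
  cell_p : ∀ x ∈ X.pts, (∀ v, lev < w v → crd x v = 0) → ∀ y ∈ F.pts, Tr w lev x y → x ∈ Z Sp
  cell_m : ∀ x ∈ X.pts, (∀ v, w v < lev → crd x v = 0) → ∀ y ∈ F.pts, Tr w lev x y → x ∈ Z Sm

/-- The coordinates of the second factor of the ambient space of the twisted family. -/
abbrev TI (w : σ → ℕ) (N : ℕ) : Type := Σ v : σ, (Fin (w v) → Fin (N + 1))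

/-- The ambient space of the twisted family. -/
abbrev AT (w : σ → ℕ) (N : ℕ) : Amb := (PN N).sum (Amb.one (TI w N))

variable {w : σ → ℕ} {N : ℕ}

/-- The variables of the base. -/
def zv (w : σ → ℕ) (a : Fin (N + 1)) : (AT w N).V := ⟨Sum.inl (), a⟩

/-- The variables of the second factor. -/
def yv (v : σ) (a : Fin (w v) → Fin (N + 1)) : (AT w N).V := ⟨Sum.inr (), (⟨v, a⟩ : TI w N)⟩

/-- The coordinates of the base point. -/
noncomputable def zc (u : (AT w N).Pt k) (a : Fin (N + 1)) : k := rp u (zv w a)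

/-- The coordinates in the second factor. -/
noncomputable def yc (u : (AT w N).Pt k) (v : σ) (a : Fin (w v) → Fin (N + 1)) : k := rp u (yv v a)

/-- `u` is the class of `(x, z)` for a point `z` of the affine cone over the base point of `u`. -/
def Rel (u : (AT w N).Pt k) (x : (Amb.one σ).Pt k) : Prop :=
  ∃ μ ν : k, ν ≠ 0 ∧ ∀ v a, yc u v a = μ * crd x v * ∏ j, (ν * zc u (a j))

/-- The twisted family with fibre `A` over the linear subspace `z a = 0`, `a > j`. -/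
def Tw (w : σ → ℕ) (N j : ℕ) (A : Set ((Amb.one σ).Pt k)) : Set ((AT w N).Pt k) :=
  {u | (∃ x ∈ A, Rel u x) ∧ ∀ a : Fin (N + 1), j < a → zc u a = 0}

theorem mem_Tw {A : Set ((Amb.one σ).Pt k)} {u : (AT w N).Pt k} :
    u ∈ Tw w N N A ↔ ∃ x ∈ A, Rel u x :=
  ⟨fun h => h.1, fun h => ⟨h, fun a ha => absurd a.2 (by omega)⟩⟩

/-- The coordinate `v` vanishes at `u`. -/
def Vz (v : σ) (u : (AT w N).Pt k) : Prop := ∀ a, yc u v a = 0

/-- A variety with a torus action and the components of its fixed locus. -/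
structure Geo (k : Type u) [Field k] where
  σ : Type
  [fσ : Fintype σ]
  [dσ : DecidableEq σ]
  w : σ → ℕ
  X : Var k (Amb.one σ)
  irr : IsIrreducible X.pts
  st : GSt (wl w) X.pts
  ι : Type
  [fι : Fintype ι]
  [dι : DecidableEq ι]
  Φ : ι → Cmp w X
  cover : ∀ x ∈ X.pts, ∀ m, Lv w m x → ∃ a, x ∈ (Φ a).F.pts
  disj : ∀ a b x, x ∈ (Φ a).F.pts → x ∈ (Φ b).F.pts → a = b

attribute [instance] Geo.fσ Geo.dσ Geo.fι Geo.dι

end Pool.Agent.Work.MP_ffcd14_ag.Gm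
end

-- merged part: Pool.Agent.Work.MP_ffcd14_ag.Gm.G1
section
/-!
# Torus actions: elementary properties

Plan.  `act_exists`, `exists_tr`: `exists_pt`.  In `GAct w τ x y` all `μ i` are non-zero, because every
block of `rp y` is non-zero (`Projectivization.rep_nonzero`).  `pt_ext`: `Projectivization.mk_rep`,
`mk_eq_mk_iff'` (compare `Line_pt_eq`).  `GAct.ev`: `IsForm.eval_scale` and `eval` of `aeval`.
`gst_iff`: `subset_of_van` or `isClosed_iff_form`, `act_exists`.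
`ev_twist`: `sum_weightedHomogeneousComponent` (or `weightedHomogeneousComponent` and
`MvPolynomial.as_sum`); a weighted homogeneous polynomial of weight `n` is multiplied by `τ ^ n`.
`van_wcomp`: for `x ∈ A` the polynomial `∑ n, ev x (component n) • T ^ n` in one variable vanishes at all
`τ ≠ 0`, so it is zero (`Polynomial.eq_zero_of_infinite_isRoot`).
`lim_lo`: let `f` be a form of degree `a` vanishing on `A`, `n = a () * m`.  At the vector `y` only
monomials in the variables of weight `m` survive, they have weight `n`; at `x` every monomial of weight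
`n` which does not vanish is such a monomial (all its variables have weight `≥ m`).  So `ev y f` is a
multiple of `ev x (component n f) = 0`.  The same for `lim_hi`.
-/

open MvPolynomial Topology TopologicalSpace Filter

namespace Pool.Agent.Work.MP_ffcd14_ag.Gm

universe u

variable {k : Type u} [Field k] {P : Amb} {w : P.V → ℕ} {τ : k} {x y y' : P.Pt k}
  {A : Set (P.Pt k)} {f : MvPolynomial P.V k} {a : P.ι →₀ ℕ}

theorem G1_ne (x : P.Pt k) (i : P.ι) : ∃ s, rp x ⟨i, s⟩ ≠ 0 :=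
  Function.ne_iff.1 (x i).rep_nonzero

theorem G1_mu {μ : P.ι → k} (h : ∀ s, rp y s = μ s.1 * τ ^ w s * rp x s) (i : P.ι) : μ i ≠ 0 := by
  obtain ⟨s, hs⟩ := G1_ne y i
  rw [h] at hs
  exact left_ne_zero_of_mul (left_ne_zero_of_mul hs)

theorem G1_eval (v : P.V → k) (f : MvPolynomial P.V k) :
    eval v (twist w τ f) = eval (fun s => τ ^ w s * v s) f := by
  unfold twist
  induction f using MvPolynomial.induction_on with
  | C a => simp
  | add p q hp hq => simp only [map_add, hp, hq]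
  | mul_X p s h => simp only [map_mul, h, aeval_X, eval_C, eval_X]

theorem G1_hom {n : ℕ} (hf : f.IsWeightedHomogeneous w n) (v : P.V → k) :
    eval (fun s => τ ^ w s * v s) f = τ ^ n * eval v f := by
  induction hf using IsWeightedHomogeneous.induction_on with
  | zero => simp
  | add p q _ _ hp hq => rw [map_add, map_add, hp, hq, mul_add]
  | monomial d r hr =>
    rw [eval_monomial, eval_monomial, ← hr, Finsupp.weight_apply, mul_left_comm]
    simp only [mul_pow, Finsupp.prod, Finsupp.sum, Finset.prod_mul_distrib, ← pow_mul,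
      Finset.prod_pow_eq_pow_sum, smul_eq_mul, mul_comm (w _)]

theorem pt_ext {μ : P.ι → k} (h : ∀ s, rp y s = μ s.1 * rp x s) : y = x := by
  funext i
  rw [← (y i).mk_rep, ← (x i).mk_rep, Projectivization.mk_eq_mk_iff']
  exact ⟨μ i, funext fun l => (h ⟨i, l⟩).symm⟩

theorem act_exists (w : P.V → ℕ) (hτ : τ ≠ 0) (x : P.Pt k) : ∃ y, GAct w τ x y := by
  obtain ⟨y, μ, -, h⟩ := exists_pt (fun s => τ ^ w s * rp x s) fun i =>
    (G1_ne x i).imp fun s hs => mul_ne_zero (pow_ne_zero _ hτ) hs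
  exact ⟨y, μ, fun s => (congrFun h s).trans (mul_assoc _ _ _).symm⟩

theorem GAct.symm (hτ : τ ≠ 0) (h : GAct w τ x y) : GAct w τ⁻¹ y x := by
  obtain ⟨μ, h⟩ := h
  refine ⟨fun i => (μ i)⁻¹, fun s => ?_⟩
  rw [h, inv_pow, ← mul_inv, inv_mul_cancel_left₀ (mul_ne_zero (G1_mu h _) (pow_ne_zero _ hτ))]

theorem GAct.unique (h : GAct w τ x y) (h' : GAct w τ x y') : y = y' := by
  obtain ⟨μ, h⟩ := h
  obtain ⟨ν, h'⟩ := h'
  refine pt_ext (μ := fun i => μ i / ν i) fun s => ?_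
  rw [h, h', ← mul_assoc, ← mul_assoc, div_mul_cancel₀ _ (G1_mu h' _)]

theorem GAct.zero_iff (hτ : τ ≠ 0) (h : GAct w τ x y) (s : P.V) : rp y s = 0 ↔ rp x s = 0 := by
  obtain ⟨μ, h⟩ := h
  rw [h, mul_eq_zero_iff_left (mul_ne_zero (G1_mu h _) (pow_ne_zero _ hτ))]

theorem twist_form (hf : IsForm f a) : IsForm (twist w τ f) a := by
  exact wh_aeval (AddMonoidHom.id _) _ (fun s => (IsForm.X s).C_mul _) hf

theorem GAct.ev (h : GAct w τ x y) (hf : IsForm f a) :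
    ∃ c : k, c ≠ 0 ∧ ev y f = c * ev x (twist w τ f) := by
  obtain ⟨μ, h⟩ := h
  refine ⟨chi μ a, chi_ne_zero (G1_mu h) a, ?_⟩
  rw [ev_eq, ev_eq, G1_eval, ← hf.eval_scale]
  exact congrArg (fun v => eval v f) (funext fun s => (h s).trans (mul_assoc _ _ _))

theorem gst_iff (hA : IsClosed A) : GSt w A ↔
    ∀ τ : k, τ ≠ 0 → ∀ f a, IsForm f a → Van A f → Van A (twist w τ f) := by
  refine ⟨fun h τ hτ f a hf hv x hx => ?_, fun h x hx τ hτ y hy => ?_⟩
  · obtain ⟨y, hy⟩ := act_exists w hτ x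
    obtain ⟨c, hc, e⟩ := hy.ev hf
    exact (mul_eq_zero.1 (e.symm.trans (hv y (h x hx τ hτ y hy)))).resolve_left hc
  · refine subset_of_van (B := {y}) hA (fun f a hf hv z hz => ?_) rfl
    obtain ⟨c, -, e⟩ := hy.ev hf
    rw [hz, e, h τ hτ f a hf hv x hx, mul_zero]

theorem wcomp_form (hf : IsForm f a) (n : ℕ) : IsForm (weightedHomogeneousComponent w n f) a := by
  intro d hd
  rw [coeff_weightedHomogeneousComponent] at hd
  exact hf fun e => hd (by rw [e, ite_self])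

theorem ev_twist (f : MvPolynomial P.V k) (x : P.Pt k) : ev x (twist w τ f) =
    ∑ n ∈ Finset.range (weightedTotalDegree w f + 1),
      τ ^ n * ev x (weightedHomogeneousComponent w n f) := by
  have h := sum_weightedHomogeneousComponent w f
  rw [finsum_eq_sum_of_support_subset (s := Finset.range (weightedTotalDegree w f + 1)) _
    fun n hn => Finset.mem_coe.2 (Finset.mem_range.2 (Nat.lt_succ_of_le (not_lt.1 fun e =>
      hn (weightedHomogeneousComponent_eq_zero n f e))))] at h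
  rw [ev_eq, G1_eval, ← congrArg (eval _) h, map_sum]
  exact Finset.sum_congr rfl fun n _ =>
    G1_hom (weightedHomogeneousComponent_isWeightedHomogeneous n f) _

theorem van_wcomp [Infinite k] (hA : GSt w A) (hf : IsForm f a) (h : Van A f) (n : ℕ) :
    Van A (weightedHomogeneousComponent w n f) := by
  intro x hx
  by_cases hn : weightedTotalDegree w f < n
  · rw [weightedHomogeneousComponent_eq_zero n f hn, ev_eq, map_zero]
  have h1 : ∑ n ∈ Finset.range (weightedTotalDegree w f + 1),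
      Polynomial.monomial n (ev x (weightedHomogeneousComponent w n f)) = 0 := by
    refine Polynomial.eq_zero_of_infinite_isRoot _
      ((Set.finite_singleton (0 : k)).infinite_compl.mono fun τ hτ => ?_)
    obtain ⟨y, hy⟩ := act_exists w hτ x
    obtain ⟨c, hc, e⟩ := hy.ev hf
    have := (mul_eq_zero.1 (e.symm.trans (h y (hA x hx τ hτ y hy)))).resolve_left hc
    rw [ev_twist] at this
    simpa only [Set.mem_setOf_eq, Polynomial.IsRoot.def, Polynomial.eval_finset_sum,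
      Polynomial.eval_monomial, mul_comm] using this
  have h2 := congrArg (Polynomial.coeff · n) h1
  simpa [Polynomial.coeff_monomial, Nat.lt_succ_of_le (not_lt.1 hn)] using h2

end Pool.Agent.Work.MP_ffcd14_ag.Gm
end

-- merged part: Pool.Agent.Work.MP_ffcd14_ag.Gm.G1b
section
/-!
# Torus actions on one projective space

The plan is in the header of `G1`.
-/

open MvPolynomial Topology TopologicalSpace Filter

namespace Pool.Agent.Work.MP_ffcd14_ag.Gm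

universe u

variable {k : Type u} [Field k] {τ : k} {σ : Type} [Finite σ] {w : σ → ℕ} {m m' : ℕ} {x x' y y' : (Amb.one σ).Pt k}
  {A : Set ((Amb.one σ).Pt k)}

theorem card_one_V : Nat.card (Amb.one σ).V = Nat.card σ := by
  exact Nat.card_congr (Equiv.uniqueSigma fun _ : Unit => σ)

theorem card_one_ι : Nat.card (Amb.one σ).ι = 1 := by
  exact Nat.card_unique (α := Unit)

theorem crd_ne (x : (Amb.one σ).Pt k) : ∃ v, crd x v ≠ 0 := Function.ne_iff.1 (x ()).rep_nonzero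

theorem crd_ext {c : k} (h : ∀ v, crd y v = c * crd x v) : y = x :=
  pt_ext (μ := fun _ => c) fun s => h s.2

theorem crd_closed (p : σ → Prop) : IsClosed {x : (Amb.one σ).Pt k | ∀ v, p v → crd x v = 0} := by
  refine isClosed_iff_form.2 fun x hx => ?_
  obtain ⟨v, hv⟩ := not_forall.1 hx
  obtain ⟨h1, h2⟩ := Classical.not_imp.1 hv
  exact ⟨X (vr v), _, IsForm.X _, by rwa [ev_X], fun y hy => by rw [ev_X]; exact hy v h1⟩

theorem cut_closed (hA : IsClosed A) (J : Finset σ) : IsClosed (cut A J) :=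
  hA.inter (crd_closed (· ∈ J))

theorem gst_crd (hA : GSt (wl w) A) (p : σ → Prop) :
    GSt (wl w) {x ∈ A | ∀ v, p v → crd x v = 0} := by
  exact fun x hx τ hτ y h => ⟨hA x hx.1 τ hτ y h, fun v hv =>
    (h.zero_iff hτ (vr v)).2 (hx.2 v hv)⟩

theorem gst_cut (hA : GSt (wl w) A) (J : Finset σ) : GSt (wl w) (cut A J) := gst_crd hA (· ∈ J)

theorem Lv.unique (h : Lv w m x) (h' : Lv w m' x) : m = m' := by
  obtain ⟨v, hv⟩ := crd_ne x
  exact (not_not.1 fun e => hv (h v e)).symm.trans (not_not.1 fun e => hv (h' v e))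

theorem Lv.act (h : Lv w m x) (h' : GAct (wl w) τ x y) : y = x := by
  obtain ⟨μ, hμ⟩ := h'
  refine crd_ext (c := μ () * τ ^ m) fun v => (hμ (vr v)).trans ?_
  show μ () * τ ^ w v * crd x v = _
  by_cases e : w v = m
  · rw [e]
  · rw [h v e, mul_zero, mul_zero]

theorem exists_tr (h : ∃ v, w v = m ∧ crd x v ≠ 0) : ∃ y, Tr w m x y := by
  obtain ⟨v, h1, h2⟩ := h
  obtain ⟨y, μ, -, hy⟩ := exists_pt (P := Amb.one σ) (fun s => if w s.2 = m then crd x s.2 else 0)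
    fun _ => ⟨v, by rwa [if_pos h1]⟩
  exact ⟨y, μ (), fun u => (congrFun hy (vr u)).trans ((mul_ite _ _ _ _).trans (by rw [mul_zero]; rfl))⟩

theorem Tr.lv (h : Tr w m x y) : Lv w m y := by
  obtain ⟨c, h⟩ := h
  exact fun v e => (h v).trans (if_neg e)

theorem Tr.ne (h : Tr w m x y) : ∃ v, w v = m ∧ crd x v ≠ 0 := by
  obtain ⟨c, h⟩ := h
  obtain ⟨v, hv⟩ := crd_ne y
  rw [h v] at hv
  split_ifs at hv with e
  exacts [⟨v, e, right_ne_zero_of_mul hv⟩, absurd rfl hv]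

theorem G1b_ne {c : k} (h : ∀ v, crd y v = if w v = m then c * crd x v else 0) : c ≠ 0 := by
  rintro rfl
  obtain ⟨v, hv⟩ := crd_ne y
  exact hv (by rw [h v, zero_mul, ite_self])

theorem Tr.unique (h : Tr w m x y) (h' : Tr w m x y') : y = y' := by
  obtain ⟨c, h⟩ := h
  obtain ⟨c', h'⟩ := h'
  have h0 := G1b_ne h'
  refine crd_ext (c := c / c') fun v => ?_
  rw [h v, h' v]
  split_ifs
  · field_simp
  · rw [mul_zero]

theorem Tr.act (hτ : τ ≠ 0) (h : Tr w m x y) (h' : GAct (wl w) τ x x') : Tr w m x' y := by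
  obtain ⟨c, h⟩ := h
  obtain ⟨μ, hμ⟩ := h'.symm hτ
  refine ⟨c * (μ () * τ⁻¹ ^ m), fun v => (h v).trans ?_⟩
  split_ifs with e
  · rw [mul_assoc, ← e]
    exact congrArg (c * ·) (hμ (vr v))
  · rfl

theorem G1b_lim [Infinite k] (hc : IsClosed A) (hA : GSt (wl w) A) (hx : x ∈ A) (h : Tr w m x y)
    (key : ∀ d : (Amb.one σ).V →₀ ℕ, (∀ s ∈ d.support, rp x s ≠ 0) →
      ∑ s ∈ d.support, d s * w s.2 = ∑ s ∈ d.support, d s * m → ∀ s ∈ d.support, w s.2 = m) :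
    y ∈ A := by
  classical
  obtain ⟨c, h⟩ := h
  by_contra hy
  obtain ⟨g, a, hg, h1, h2⟩ := isClosed_iff_form.1 hc y hy
  have h3 := van_wcomp hA hg h2 (a () * m) x hx
  refine h1 (Eq.trans ?_ ((congrArg (c ^ a () * ·) h3).trans (mul_zero _)))
  rw [ev_eq, ev_eq, eval_eq, weightedHomogeneousComponent_apply, map_sum, Finset.sum_filter,
    Finset.mul_sum]
  refine Finset.sum_congr rfl fun d hd => ?_
  have e1 : ∑ s ∈ d.support, d s = a () := by
    rw [← hg (mem_support_iff.1 hd), Finsupp.weight_apply, Finsupp.sum_apply, Finsupp.sum]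
    refine Finset.sum_congr rfl fun s _ => ?_
    rw [Finsupp.smul_apply, show Finsupp.single s.1 1 () = 1 from Finsupp.single_eq_same,
      smul_eq_mul, mul_one]
  have e2 : Finsupp.weight (wl w) d = a () * m ↔
      ∑ s ∈ d.support, d s * w s.2 = ∑ s ∈ d.support, d s * m := by
    rw [← e1, Finset.sum_mul]
    rfl
  rw [eval_monomial, Finsupp.prod]
  by_cases e : ∀ s ∈ d.support, w s.2 = m
  · rw [if_pos (e2.2 (Finset.sum_congr rfl fun s hs => by rw [e s hs])), ← e1,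
      ← Finset.prod_pow_eq_pow_sum, mul_left_comm, ← Finset.prod_mul_distrib]
    refine congrArg _ (Finset.prod_congr rfl fun s hs => ?_)
    rw [← mul_pow]
    exact congrArg (· ^ d s) ((h s.2).trans (if_pos (e s hs)))
  · have z : ∀ {u : (Amb.one σ).Pt k} {s}, s ∈ d.support → rp u s = 0 →
        ∏ s ∈ d.support, rp u s ^ d s = 0 := fun hs h0 =>
      Finset.prod_eq_zero hs (by rw [h0, zero_pow (Finsupp.mem_support_iff.1 hs)])
    have e3 := e
    push Not at e3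
    obtain ⟨s, hs, e3⟩ := e3
    rw [z hs ((h s.2).trans (if_neg e3)), mul_zero]
    split_ifs with e4
    · have e5 := mt (key d · (e2.1 e4)) e
      push Not at e5
      obtain ⟨t, ht, e5⟩ := e5
      rw [z ht e5, mul_zero, mul_zero]
    · rw [mul_zero]

theorem lim_lo [Infinite k] (hc : IsClosed A) (hA : GSt (wl w) A) (hx : x ∈ A)
    (h0 : ∀ v, w v < m → crd x v = 0) (h : Tr w m x y) : y ∈ A := by
  refine G1b_lim hc hA hx h fun d h1 h2 s hs => ?_
  have k := (Finset.sum_eq_sum_iff_of_le fun s hs => Nat.mul_le_mul_left (d s)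
    (not_lt.1 fun c => h1 s hs (h0 s.2 c))).1 h2.symm s hs
  exact (Nat.eq_of_mul_eq_mul_left (Nat.pos_of_ne_zero (Finsupp.mem_support_iff.1 hs)) k).symm

theorem lim_hi [Infinite k] (hc : IsClosed A) (hA : GSt (wl w) A) (hx : x ∈ A)
    (h0 : ∀ v, m < w v → crd x v = 0) (h : Tr w m x y) : y ∈ A := by
  refine G1b_lim hc hA hx h fun d h1 h2 s hs => ?_
  have k := (Finset.sum_eq_sum_iff_of_le fun s hs => Nat.mul_le_mul_left (d s)
    (not_lt.1 fun c => h1 s hs (h0 s.2 c))).1 h2 s hs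
  exact Nat.eq_of_mul_eq_mul_left (Nat.pos_of_ne_zero (Finsupp.mem_support_iff.1 hs)) k

end Pool.Agent.Work.MP_ffcd14_ag.Gm
end

-- merged part: Pool.Agent.Work.MP_ffcd14_ag.Gm.G5
section
/-!
# The twisted family: elementary properties

Plan.  In `Rel u x` the scalar `μ` is not zero because the block `yc u` is not zero
(`Projectivization.rep_nonzero`); some `zc u a₀` is not zero, and `yc u v (fun _ => a₀)` is
`μ * crd x v * (ν * zc u a₀) ^ w v`.  `rel_exists`: `exists_pt` for the vector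
`crd x v * ∏ j, crd z (a j)`, then `mkPt z y`.  `rel_chart`: `exists_pt` for the vector
`yc u v (fun _ => a₀)`, which is not zero by the equations; `ν = (zc u a₀)⁻¹`.
`rel_ext`: `sum_ext`, `pt_ext`; for `w v = m` the factor `ν ^ w v` does not depend on `v`.
`tw_closed`: `isClosed_iff_form`.  Let `u` be outside.  If `zc u a ≠ 0` with `j < a` take this variable.  Fix
`a₀` with `zc u a₀ ≠ 0`.  If an equation of `rel_chart` fails take this equation (`Rel.eqn`).  Otherwise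
`rel_chart` gives `x ∉ A` and a form `g` vanishing on `A`, not at `x`; take
`X (zv w a₀) * rename (fun s => yv s.2 fun _ => a₀) g` (`IsForm.rename`, `IsForm.eval_scale`, `Rel.chart`).
-/

open MvPolynomial Topology TopologicalSpace Filter

namespace Pool.Agent.Work.MP_ffcd14_ag.Gm

universe u

variable {k : Type u} [Field k] {σ : Type} [Finite σ] {w : σ → ℕ} {N j m : ℕ} {τ : k}
  {u u' : (AT w N).Pt k} {x x' : (Amb.one σ).Pt k} {A B : Set ((Amb.one σ).Pt k)}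

theorem zc_eq (u : (AT w N).Pt k) (a : Fin (N + 1)) :
    zc u a = crd ((Crd.inl k (PN N) (Amb.one (TI w N))).pr u) a := rfl

theorem zc_ne (u : (AT w N).Pt k) : ∃ a, zc u a ≠ 0 :=
  crd_ne ((Crd.inl k (PN N) (Amb.one (TI w N))).pr u)

theorem yc_ne (u : (AT w N).Pt k) : ∃ v a, yc u v a ≠ 0 := by
  obtain ⟨⟨v, a⟩, h⟩ := crd_ne ((Crd.inr k (PN N) (Amb.one (TI w N))).pr u)
  exact ⟨v, a, h⟩

theorem g5_prod (ν : k) {n : ℕ} (z : Fin n → k) : ∏ j, (ν * z j) = ν ^ n * ∏ j, z j := by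
  rw [Finset.prod_mul_distrib, Fin.prod_const]

theorem g5_rel : Rel u x ↔ ∃ μ ν : k, μ ≠ 0 ∧ ν ≠ 0 ∧
    ∀ v a, yc u v a = μ * crd x v * ν ^ w v * ∏ j, zc u (a j) := by
  constructor
  · rintro ⟨μ, ν, hν, h⟩
    refine ⟨μ, ν, ?_, hν, fun v a => by rw [h, g5_prod, mul_assoc (μ * crd x v)]⟩
    rintro rfl
    obtain ⟨v, a, h'⟩ := yc_ne u
    exact h' (by rw [h, zero_mul, zero_mul])
  · rintro ⟨μ, ν, -, hν, h⟩
    exact ⟨μ, ν, hν, fun v a => by rw [h, g5_prod, mul_assoc (μ * crd x v)]⟩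

theorem g5_chart {a₀ : Fin (N + 1)} (hz : zc u a₀ ≠ 0)
    (h : ∀ v a, yc u v a * zc u a₀ ^ w v = yc u v (fun _ => a₀) * ∏ i, zc u (a i)) {c : k}
    (hx : ∀ v, crd x v = c * yc u v fun _ => a₀) : Rel u x := by
  have hc : c ≠ 0 := by
    rintro rfl
    obtain ⟨v, hv⟩ := crd_ne x
    exact hv (by rw [hx, zero_mul])
  refine g5_rel.2 ⟨c⁻¹, (zc u a₀)⁻¹, inv_ne_zero hc, inv_ne_zero hz, fun v a => ?_⟩
  have h1 := pow_ne_zero (w v) hz
  rw [hx, inv_mul_cancel_left₀ hc, inv_pow, mul_right_comm, ← h, mul_inv_cancel_right₀ h1]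

theorem rel_exists (w : σ → ℕ) (x : (Amb.one σ).Pt k) (z : (PN N).Pt k) :
    ∃ u : (AT w N).Pt k, (Crd.inl k _ _).pr u = z ∧ Rel u x := by
  obtain ⟨v₀, hv⟩ := crd_ne x
  obtain ⟨a₀, ha⟩ := crd_ne z
  obtain ⟨y, μ, -, hy⟩ := exists_pt (P := Amb.one (TI w N))
    (fun s => crd x s.2.1 * ∏ j, crd z (s.2.2 j)) fun _ => ⟨⟨v₀, fun _ => a₀⟩,
      mul_ne_zero hv (Finset.prod_ne_zero_iff.2 fun _ _ => ha)⟩
  refine ⟨mkPt z y, rfl, μ (), 1, one_ne_zero, fun v a => ?_⟩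
  simp only [one_mul, mul_assoc]
  exact congrFun hy ⟨(), ⟨v, a⟩⟩

theorem rel_act (h : Rel u x) (h' : Rel u x') : ∃ τ : k, τ ≠ 0 ∧ GAct (wl w) τ x x' := by
  obtain ⟨μ, ν, hμ, hν, e⟩ := g5_rel.1 h
  obtain ⟨μ', ν', hμ', hν', e'⟩ := g5_rel.1 h'
  obtain ⟨a₀, ha⟩ := zc_ne u
  refine ⟨ν / ν', div_ne_zero hν hν', fun _ => μ / μ', fun s => ?_⟩
  have h1 := mul_right_cancel₀ (Finset.prod_ne_zero_iff.2 fun _ _ => ha)
    ((e s.2 fun _ => a₀).symm.trans (e' s.2 fun _ => a₀))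
  have h2 := pow_ne_zero (w s.2) hν'
  change crd x' s.2 = μ / μ' * (ν / ν') ^ w s.2 * crd x s.2
  rw [div_pow]
  field_simp
  linear_combination -h1

theorem Rel.act (h : Rel u x) (hτ : τ ≠ 0) (h' : GAct (wl w) τ x x') : Rel u x' := by
  obtain ⟨μ, ν, hμ, hν, e⟩ := g5_rel.1 h
  obtain ⟨c, hc⟩ := h'
  have h0 := G1_mu hc ()
  refine g5_rel.2 ⟨μ / c (), ν / τ, div_ne_zero hμ h0, div_ne_zero hν hτ, fun v a => ?_⟩
  have h1 : crd x' v = c () * τ ^ w v * crd x v := hc (vr v)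
  have h2 := pow_ne_zero (w v) hτ
  rw [e, h1, div_pow]
  field_simp

theorem rel_zero (h : Rel u x) (v : σ) : crd x v = 0 ↔ Vz v u := by
  obtain ⟨μ, ν, hμ, hν, e⟩ := g5_rel.1 h
  obtain ⟨a₀, ha⟩ := zc_ne u
  refine ⟨fun h0 a => by rw [e, h0, mul_zero, zero_mul, zero_mul], fun h0 => ?_⟩
  by_contra h1
  exact mul_ne_zero (mul_ne_zero (mul_ne_zero hμ h1) (pow_ne_zero _ hν))
    (Finset.prod_ne_zero_iff.2 fun _ _ => ha) ((e v fun _ => a₀).symm.trans (h0 _))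

theorem Rel.eqn (h : Rel u x) (v : σ) (a b : Fin (w v) → Fin (N + 1)) :
    yc u v a * ∏ i, zc u (b i) = yc u v b * ∏ i, zc u (a i) := by
  obtain ⟨μ, ν, -, -, e⟩ := g5_rel.1 h
  rw [e, e, mul_right_comm]

theorem Rel.eqn2 (h : Rel u x) {v v' : σ} (hv : w v = w v') (a b : Fin (N + 1)) :
    yc u v (fun _ => a) * yc u v' (fun _ => b) = yc u v' (fun _ => a) * yc u v (fun _ => b) := by
  obtain ⟨μ, ν, -, -, e⟩ := g5_rel.1 h
  simp only [e, Fin.prod_const, hv]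
  ring

theorem rel_chart {a₀ : Fin (N + 1)} (hz : zc u a₀ ≠ 0)
    (h : ∀ v a, yc u v a * zc u a₀ ^ w v = yc u v (fun _ => a₀) * ∏ i, zc u (a i)) :
    ∃ x c, c ≠ 0 ∧ Rel u x ∧ ∀ v, crd x v = c * yc u v fun _ => a₀ := by
  obtain ⟨v₀, a₁, h0⟩ := yc_ne u
  obtain ⟨y, μ, hμ, hy⟩ := exists_pt (P := Amb.one σ) (fun s => yc u s.2 fun _ => a₀)
    fun _ => ⟨v₀, left_ne_zero_of_mul (h v₀ a₁ ▸ mul_ne_zero h0 (pow_ne_zero _ hz))⟩
  have h1 : ∀ v, crd y v = μ () * yc u v fun _ => a₀ := fun v => congrFun hy (vr v)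
  exact ⟨y, μ (), hμ (), g5_chart hz h h1, h1⟩

theorem Rel.chart (h : Rel u x) {a₀ : Fin (N + 1)} (hz : zc u a₀ ≠ 0) {c : k}
    (hx : ∀ v, crd x' v = c * yc u v fun _ => a₀) : Rel u x' := by
  exact g5_chart hz (fun v a => by rw [← Fin.prod_const]; exact h.eqn v a fun _ => a₀) hx

theorem rel_ext (h : Rel u x) (h' : Rel u' x) (hl : Lv w m x)
    (e : (Crd.inl k _ _).pr u = (Crd.inl k _ _).pr u') : u = u' := by
  obtain ⟨μ, ν, -, -, e1⟩ := g5_rel.1 h
  obtain ⟨μ', ν', hμ', hν', e2⟩ := g5_rel.1 h'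
  have hz : ∀ a, zc u a = zc u' a := fun a => by rw [zc_eq, zc_eq, e]
  refine sum_ext e (crd_ext (c := μ * ν ^ m / (μ' * ν' ^ m)) fun s => ?_)
  change yc u s.1 s.2 = _ * yc u' s.1 s.2
  have h2 := pow_ne_zero m hν'
  rw [e1, e2]
  simp only [hz]
  by_cases hv : w s.1 = m
  · generalize ∏ j, zc u' (s.2 j) = p
    rw [hv]
    field_simp
  · simp [hl s.1 hv]

theorem Rel.mem (hA : GSt (wl w) A) (hx : x ∈ A) (h : Rel u x) (h' : Rel u x') : x' ∈ A := by
  obtain ⟨τ, hτ, e⟩ := rel_act h h'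
  exact hA x hx τ hτ x' e

theorem Rel.fix (h : Rel u x) (hl : Lv w m x) (h' : Rel u x') : x' = x := by
  obtain ⟨τ, -, e⟩ := rel_act h h'
  exact hl.act e

theorem tw_mono (h : A ⊆ B) {j' : ℕ} (hj : j ≤ j') : Tw w N j A ⊆ Tw w N j' B :=
  fun _ ⟨⟨x, hx, e⟩, h0⟩ => ⟨⟨x, h hx, e⟩, fun a ha => h0 a (by omega)⟩

theorem g5_ev {a₀ : Fin (N + 1)} {c : k} (hx : ∀ v, crd x v = c * yc u v fun _ => a₀)
    {g : MvPolynomial (Amb.one σ).V k} {b : (Amb.one σ).ι →₀ ℕ} (hg : IsForm g b) :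
    ev x g = chi (fun _ => c) b *
      ev u (rename (fun s : (Amb.one σ).V => yv s.2 fun _ => a₀) g) := by
  rw [ev_eq, ev_eq, eval_rename, ← hg.eval_scale]
  exact congrArg (fun v => eval v g) (funext fun s => hx s.2)

theorem tw_closed (hc : IsClosed A) (hA : GSt (wl w) A) (N j : ℕ) : IsClosed (Tw w N j A) := by
  refine isClosed_iff_form.2 fun u hu => ?_
  by_cases h0 : ∀ a : Fin (N + 1), j < a → zc u a = 0
  swap
  · push Not at h0
    obtain ⟨a, h1, h2⟩ := h0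
    exact ⟨X (zv w a), _, IsForm.X _, by rwa [ev_X], fun y hy => by
      rw [ev_X]
      exact hy.2 a h1⟩
  obtain ⟨a₀, ha⟩ := zc_ne u
  by_cases h1 : ∀ v a, yc u v a * zc u a₀ ^ w v = yc u v (fun _ => a₀) * ∏ i, zc u (a i)
  swap
  · push Not at h1
    obtain ⟨v, a, h1⟩ := h1
    have hf : ∀ a b : Fin (w v) → Fin (N + 1),
        IsForm (X (yv v a) * ∏ i, X (zv w (b i)) : MvPolynomial (AT w N).V k)
          (Finsupp.single (Sum.inr ()) 1 + ∑ _i : Fin (w v), Finsupp.single (Sum.inl ()) 1) :=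
      fun a b => (IsForm.X _).mul
        (IsWeightedHomogeneous.prod _ _ _ fun i _ => IsForm.X (zv w (b i)))
    have he : ∀ y : (AT w N).Pt k, ev y (X (yv v a) * ∏ _i : Fin (w v), X (zv w a₀) -
        X (yv v fun _ => a₀) * ∏ i, X (zv w (a i))) =
        yc y v a * ∏ _i : Fin (w v), zc y a₀ - yc y v (fun _ => a₀) * ∏ i, zc y (a i) := fun y => by
      simp only [ev_eq, map_sub, map_mul, map_prod, eval_X]
      rfl
    refine ⟨_, _, IsWeightedHomogeneous.sub (hf a fun _ => a₀) (hf (fun _ => a₀) a), ?_,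
      fun y hy => ?_⟩
    · rwa [he, Fin.prod_const, sub_ne_zero]
    · obtain ⟨x, -, hx⟩ := hy.1
      rw [he, sub_eq_zero]
      exact hx.eqn v a fun _ => a₀
  obtain ⟨x, c, -, h2, h3⟩ := rel_chart ha h1
  obtain ⟨g, b, hg, hgx, hgA⟩ := isClosed_iff_form.1 hc x fun hx => hu ⟨⟨x, hx, h2⟩, h0⟩
  obtain ⟨b', hb'⟩ := hg.rename (P := AT w N) (φ := fun s => yv s.2 fun _ => a₀)
    (ψ := fun _ => Sum.inr ()) fun _ => rfl
  refine ⟨_, _, (IsForm.X (zv w a₀)).mul hb', ?_, fun y hy => ?_⟩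
  · rw [ev_mul, ev_X]
    exact mul_ne_zero ha (right_ne_zero_of_mul (g5_ev h3 hg ▸ hgx))
  · rw [ev_mul, ev_X]
    by_cases hz : zc y a₀ = 0
    · exact mul_eq_zero_of_left hz _
    obtain ⟨x₁, h4, h5⟩ := hy.1
    obtain ⟨x₂, c₂, h6, h7, h8⟩ := rel_chart hz fun v a => by
      rw [← Fin.prod_const]
      exact h5.eqn v a fun _ => a₀
    have h9 := hgA x₂ (Rel.mem hA h4 h5 h7)
    rw [g5_ev h8 hg] at h9
    exact mul_eq_zero_of_right _
      ((mul_eq_zero.1 h9).resolve_left (chi_ne_zero (fun _ => h6) _))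

end Pool.Agent.Work.MP_ffcd14_ag.Gm
end

-- merged part: Pool.Agent.Work.MP_ffcd14_ag.Gm.G5b
section
/-!
# The twisted family is smooth

Plan.  Fix `a₀` with `zc u a₀ ≠ 0` and let `x ∈ X`, `c` be given by `rel_chart` (`Rel.eqn`, `Rel.mem`).  Take
`X.smooth x`, with equations `f j`.  The equations at `u` are indexed by
`{t : TI w N // t.2 ≠ fun _ => a₀} ⊕ κ`: the forms
`X (yv v a) * X (zv w a₀) ^ w v - X (yv v fun _ => a₀) * ∏ i, X (zv w (a i))` and
`rename (fun s => yv s.2 fun _ => a₀) (f j)`.  The neighbourhood is given by `X (zv w a₀)` times the renamed form of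
`eventually_iff_form` (`rel_chart`, `Rel.chart`, `IsForm.eval_scale`).  Independence: the derivative in the
direction `yv v a`, `a ≠ fun _ => a₀`, kills all equations but one (`pderiv_rename_of_notMem`); then use
the directions `yv v fun _ => a₀` (`pderiv_rename`, `IsForm.eval_scale_pderiv`).  Count: the complement
of the subtype is in bijection with `σ`; `card_sum_V`, `card_sum_ι`, `card_one_V`, `card_one_ι`.
-/

open MvPolynomial Topology TopologicalSpace Filter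

namespace Pool.Agent.Work.MP_ffcd14_ag.Gm

universe u

variable {k : Type u} [Field k] {σ : Type} [Finite σ] {w : σ → ℕ}

section

variable {N : ℕ} {a₀ : Fin (N + 1)} {u : (AT w N).Pt k} {x : (Amb.one σ).Pt k} {c : k}
  {g : MvPolynomial (Amb.one σ).V k} {a : (Amb.one σ).ι →₀ ℕ} {t : TI w N}

/-- The variables of the second factor. -/
def G5b_y (t : TI w N) : (AT w N).V := yv t.1 t.2

theorem G5b_inj : Function.Injective (G5b_y (w := w) (N := N)) := fun _ _ h =>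
  eq_of_heq (Sigma.mk.inj h).2

/-- The variables of the chart. -/
def G5b_ph (w : σ → ℕ) (a₀ : Fin (N + 1)) (s : (Amb.one σ).V) : (AT w N).V :=
  G5b_y ⟨s.2, fun _ => a₀⟩

/-- The equations of the chart. -/
noncomputable def G5b_eq (a₀ : Fin (N + 1)) (t : TI w N) : MvPolynomial (AT w N).V k :=
  X (G5b_y t) * rename (zv w) (X a₀ ^ w t.1) -
    X (G5b_y ⟨t.1, fun _ => a₀⟩) * rename (zv w) (∏ i, X (t.2 i))

theorem G5b_form (a₀ : Fin (N + 1)) (t : TI w N) : IsForm (G5b_eq (k := k) a₀ t)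
    (Finsupp.single (Sum.inr ()) 1 + w t.1 • Finsupp.single (Sum.inl ()) 1) := by
  simp only [G5b_eq, map_pow, map_prod, rename_X]
  refine IsWeightedHomogeneous.sub ((IsForm.X _).mul
    (IsWeightedHomogeneous.pow (IsForm.X (zv w a₀)) _)) ((IsForm.X _).mul ?_)
  have h := IsWeightedHomogeneous.prod Finset.univ (fun i => X (zv w (t.2 i)))
    (fun _ => Finsupp.single (Sum.inl ()) 1) fun i _ => IsForm.X (k := k) (zv w (t.2 i))
  rwa [Finset.sum_const, Finset.card_univ, Fintype.card_fin] at h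

theorem G5b_ev_eq : ev u (G5b_eq a₀ t) = 0 ↔
    yc u t.1 t.2 * zc u a₀ ^ w t.1 = yc u t.1 (fun _ => a₀) * ∏ i, zc u (t.2 i) := by
  simp only [G5b_eq, ev_eq, map_sub, map_mul, map_pow, map_prod, rename_X, eval_X, sub_eq_zero]
  rfl

theorem G5b_rp (h : ∀ v, crd x v = c * yc u v fun _ => a₀) :
    rp x = fun s => c * (rp u ∘ G5b_ph w a₀) s := funext fun s => h s.2

theorem G5b_ev (h : ∀ v, crd x v = c * yc u v fun _ => a₀) (hg : IsForm g a) :
    ev x g = chi (fun _ => c) a * ev u (rename (G5b_ph w a₀) g) := by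
  rw [ev_eq, ev_eq, eval_rename, G5b_rp h]
  exact hg.eval_scale (fun _ => c) _

theorem G5b_pd (h : ∀ v, crd x v = c * yc u v fun _ => a₀) (hg : IsForm g a) (s : (Amb.one σ).V) :
    c * ev x (pderiv s g) =
      chi (fun _ => c) a * ev u (pderiv (G5b_ph w a₀ s) (rename (G5b_ph w a₀) g)) := by
  have hi : Function.Injective (G5b_ph w a₀) := fun s s' e =>
    congrArg (vr (σ := σ)) (congrArg Sigma.fst (G5b_inj e))
  rw [pderiv_rename hi, ev_eq, ev_eq, eval_rename, G5b_rp h]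
  exact hg.eval_scale_pderiv (fun _ => c) _ s

theorem G5b_d1 (ht : ¬ t.2 = fun _ => a₀) (g : MvPolynomial (Amb.one σ).V k) :
    ev u (pderiv (G5b_y t) (rename (G5b_ph w a₀) g)) = 0 := by
  rw [pderiv_rename_of_notMem, ev_eq, map_zero]
  rintro ⟨s, hs⟩
  obtain rfl := G5b_inj hs
  exact ht rfl

theorem G5b_d2 [DecidableEq (TI w N)] (ht : ¬ t.2 = fun _ => a₀) (t' : TI w N) :
    ev u (pderiv (G5b_y t) (G5b_eq a₀ t')) = if t' = t then zc u a₀ ^ w t.1 else 0 := by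
  have h0 : ∀ p : MvPolynomial (Fin (N + 1)) k, pderiv (G5b_y t) (rename (zv w) p) = 0 := fun p =>
    pderiv_rename_of_notMem _ (fun ⟨_, h⟩ => Sum.inl_ne_inr (congrArg Sigma.fst h)) p
  have h1 : G5b_y ⟨t'.1, fun _ => a₀⟩ ≠ G5b_y t := fun h => by
    obtain rfl := G5b_inj h
    exact ht rfl
  rw [G5b_eq, map_sub, pderiv_mul, pderiv_mul, h0, h0, pderiv_X_of_ne h1, mul_zero, mul_zero,
    zero_mul, add_zero, add_zero, sub_zero]
  split_ifs with e
  · rw [e, pderiv_X_self, one_mul, ev_eq, map_pow, rename_X, map_pow, eval_X]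
    rfl
  · rw [pderiv_X_of_ne (G5b_inj.ne e), zero_mul, ev_eq, map_zero]

end

theorem tw_smooth (X : Var k (Amb.one σ)) (hs : GSt (wl w) X.pts) (N : ℕ) :
    ∀ u ∈ Tw w N N X.pts, ∃ (κ : Type) (f : κ → MvPolynomial (AT w N).V k),
      Nat.card κ + (X.dim + N) + Nat.card (AT w N).ι = Nat.card (AT w N).V ∧
        LocEq (Tw w N N X.pts) u f := by
  classical
  intro u hu
  obtain ⟨a₀, hz⟩ := zc_ne u
  have ch : ∀ {u' : (AT w N).Pt k}, zc u' a₀ ≠ 0 → u' ∈ Tw w N N X.pts →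
      (∀ t, ev u' (G5b_eq a₀ t) = 0) ∧ ∃ x ∈ X.pts, ∃ c, c ≠ 0 ∧ ∀ v, crd x v = c * yc u' v fun _ => a₀ := fun h1 h2 => by
    obtain ⟨x', hx', r'⟩ := mem_Tw.1 h2
    have e := fun v a => r'.eqn v a fun _ => a₀
    simp only [Finset.prod_const, Finset.card_univ, Fintype.card_fin] at e
    obtain ⟨x, c, hc, r, hx⟩ := rel_chart h1 e
    exact ⟨fun t => G5b_ev_eq.2 (e _ _), x, r'.mem hs hx' r, c, hc, hx⟩
  obtain ⟨-, x, hx, c, hc, hxc⟩ := ch hz hu
  obtain ⟨κ, f, hκ, hL⟩ := X.smooth x hx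
  choose b hb using hL.1
  have hχ : ∀ {c : k}, c ≠ 0 → ∀ a, chi (P := Amb.one σ) (fun _ => c) a ≠ 0 := fun h a =>
    chi_ne_zero (fun _ => h) a
  have := hL.finite
  have := Fintype.ofFinite κ
  have := Fintype.ofFinite (TI w N)
  refine ⟨{t : TI w N // ¬ t.2 = fun _ => a₀} ⊕ κ,
    Sum.elim (fun t => G5b_eq a₀ t.1) fun j => rename (G5b_ph w a₀) (f j), ?_, ?_, ?_, ?_⟩
  · have e1 := Nat.card_congr (Equiv.sumCompl fun t : TI w N => t.2 = fun _ => a₀)
    have e2 : Nat.card {t : TI w N // t.2 = fun _ => a₀} = Nat.card σ := Nat.card_congr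
      ⟨fun t => t.1.1, fun v => ⟨⟨v, fun _ => a₀⟩, rfl⟩,
        fun t => Subtype.ext (Sigma.ext rfl (heq_of_eq t.2.symm)),
        fun _ => rfl⟩
    rw [card_one_V, card_one_ι] at hκ
    rw [Nat.card_sum, e2] at e1
    rw [card_sum_V, card_sum_ι, card_one_V, card_one_V, card_one_ι, card_one_ι, Nat.card_sum,
      Nat.card_eq_fintype_card (α := Fin (N + 1)), Fintype.card_fin]
    omega
  · rintro (t | j)
    · exact ⟨_, G5b_form a₀ t.1⟩
    · exact (hb j).rename (ψ := fun _ => Sum.inr ()) fun _ => rfl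
  · obtain ⟨g, a, hg, h1, h2⟩ := eventually_iff_form.1 hL.2.1
    obtain ⟨a', hg'⟩ := hg.rename (φ := G5b_ph w a₀) (ψ := fun _ => Sum.inr ()) fun _ => rfl
    filter_upwards [eventually_ne (IsForm.X (zv w a₀)) (by rwa [ev_X]),
      eventually_ne hg' (right_ne_zero_of_mul (G5b_ev hxc hg ▸ h1))] with u' k1 k2
    rw [ev_X] at k1
    constructor
    · intro h
      obtain ⟨k3, x', hx', c', hc', k4⟩ := ch k1 h
      have k5 := (h2 x' (G5b_ev k4 hg ▸ mul_ne_zero (hχ hc' _) k2)).1 hx'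
      rintro (t | j)
      · exact k3 t.1
      · exact (mul_eq_zero.1 ((G5b_ev k4 (hb j)).symm.trans (k5 j))).resolve_left (hχ hc' _)
    · intro h
      obtain ⟨x', c', hc', r, k4⟩ := rel_chart k1 fun v a => by
        by_cases e : a = fun _ => a₀
        · simp only [e, Finset.prod_const, Finset.card_univ, Fintype.card_fin]
        · exact (G5b_ev_eq (t := ⟨v, a⟩)).1 (h (Sum.inl ⟨_, e⟩))
      refine mem_Tw.2 ⟨x', (h2 x' (G5b_ev k4 hg ▸ mul_ne_zero (hχ hc' _) k2)).2 fun j => ?_, r⟩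
      exact (G5b_ev k4 (hb j)).trans (mul_eq_zero_of_right _ (h (Sum.inr j)))
  · refine Fintype.linearIndependent_iff.2 fun l hl => ?_
    have k1 : ∀ t, l (Sum.inl t) = 0 := fun t => by
      have e := congrFun hl (G5b_y t.1)
      simp only [Finset.sum_apply, Pi.smul_apply, Pi.zero_apply, Fintype.sum_sum_type, Sum.elim_inl,
        Sum.elim_inr, smul_eq_mul, G5b_d1 t.2, G5b_d2 t.2, ← Subtype.ext_iff, mul_ite, mul_zero,
        Finset.sum_ite_eq', Finset.mem_univ, if_true, Finset.sum_const_zero, add_zero] at e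
      exact (mul_eq_zero.1 e).resolve_right (pow_ne_zero _ hz)
    have k2 := Fintype.linearIndependent_iff.1 hL.2.2
      (fun j => l (Sum.inr j) * ((chi (P := Amb.one σ) (fun _ => c) (b j))⁻¹ * c)) (funext fun s => by
        have e := congrFun hl (G5b_ph w a₀ s)
        simp only [Finset.sum_apply, Pi.smul_apply, Pi.zero_apply, Fintype.sum_sum_type,
          Sum.elim_inr, smul_eq_mul, k1, zero_mul, Finset.sum_const_zero, zero_add] at e ⊢
        refine Eq.trans (Finset.sum_congr rfl fun j _ => ?_) e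
        rw [mul_assoc, mul_assoc, G5b_pd hxc (hb j), inv_mul_cancel_left₀ (hχ hc _)])
    rintro (t | j)
    · exact k1 t
    · exact (mul_eq_zero.1 (k2 j)).resolve_right (mul_ne_zero (inv_ne_zero (hχ hc _)) hc)

/-- The bundle with fibre `X` over the projective space of dimension `N`. -/
def twV (X : Var k (Amb.one σ)) (hs : GSt (wl w) X.pts) (N : ℕ) : Var k (AT w N) where
  pts := Tw w N N X.pts
  dim := X.dim + N
  closed := tw_closed X.closed hs N N
  smooth := tw_smooth X hs N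

end Pool.Agent.Work.MP_ffcd14_ag.Gm
end

-- merged part: Pool.Agent.Work.MP_ffcd14_ag.Gm.G2
section
/-!
# Components

Plan.  `sm_comp`: copy the proofs of `Var.chart_eq` (for a closed set with `LocEq` at one point),
`Chw.Cmp_top` and, for the upper bound of the dimension, the first half of `Var.sdim_top`
(`trdeg_le_emb`).  The natural number playing the role of `X.dim` exists because the vectors of
`chart_eq` are linearly independent, so `card (κ ⊕ ι) ≤ card V`.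
`mx_finite`, `exists_mx`: `exists_comps` (take a member of maximal dimension above `U`).
`Top.near`: the union of the finitely many components which do not contain `x` is closed.
`gst_mx`: let `O` be the complement of the other components; `Z ∩ O` is not empty (`exists_pt_avoid`).
For `x ∈ Z ∩ O` the infinite set of the `τ ≠ 0` is covered by the sets `{τ | τ • x ∈ Z'}`, `Z'` a
component; one of them is infinite; by `GAct.ev`, `ev_twist` and
`Polynomial.eq_zero_of_infinite_isRoot` it is everything, so `x ∈ Z'` (`τ = 1`) and `Z' = Z`.  Then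
`twist w τ f` vanishes on `Z ∩ O`, so on `Z` (`mem_nhds_iff_form`, `van_of_open`); `gst_iff`.
`krull_open`: `≤`: closure in the ambient space of the image is strictly monotone on irreducible closed
subsets of `Z ∩ O`, with values `≤ Z` (`height_eq`, `Order.krullDim_le_of_strictMono` or `RG_height_le`
style).  `≥`: a chain from `{x}` to `Z` by `exists_cover_up` as in `Chw.Cmp_chain`, intersected with `O`.
-/

open MvPolynomial Topology TopologicalSpace Filter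

namespace Pool.Agent.Work.MP_ffcd14_ag.Gm

universe u

variable {k : Type u} [Field k] {P : Amb} {A B : Set (P.Pt k)} {x : P.Pt k} {Z U : Sub k P}

theorem LocEq_congr {κ : Type} {f : κ → MvPolynomial P.V k} (h : LocEq A x f)
    (e : ∀ᶠ y in 𝓝 x, y ∈ B ↔ y ∈ A) : LocEq B x f :=
  ⟨h.1, by filter_upwards [h.2.1, e] with y h1 h2 using h2.trans h1, h.2.2⟩

theorem Top.mx (h : Top A x Z) : Mx A Z :=
  ⟨h.2.1, fun U hU hZ => le_antisymm (h.2.2 U hU (hZ h.1)) hZ⟩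

theorem Top.eq (h : Top A x Z) (hU : Mx A U) (hx : x ∈ U) : Z = U :=
  hU.2 Z h.2.1 (h.2.2 U hU.1 hx)

/-- Local equations at a smooth point in an affine chart. -/
theorem g2_chart (hx : x ∈ A) {κ : Type} {f : κ → MvPolynomial P.V k} (hL : LocEq A x f)
    {ς : ∀ i, P.σ i} (hς : InCh ς x) :
    ∃ (g : MvPolynomial P.V k) (b : P.ι →₀ ℕ), IsForm g b ∧ ev x g ≠ 0 ∧
      (∀ j, ∃ a, IsForm (g * f j) a) ∧ (∀ y, ev y g ≠ 0 → (∀ j, ev y (g * f j) = 0) → y ∈ A) ∧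
      (∀ j : κ ⊕ P.ι, Sum.elim (fun j => g * f j) (fun i => MvPolynomial.X ⟨i, ς i⟩ - 1) j ∈
        chI A ς) ∧
      LinearIndependent k fun (j : κ ⊕ P.ι) s => eval (hat ς x) (pderiv s
        (Sum.elim (fun j => g * f j) (fun i => MvPolynomial.X ⟨i, ς i⟩ - 1) j)) := by
  classical
  have := hL.finite
  let _ := Fintype.ofFinite κ
  let _ := Fintype.ofFinite P.V
  let _ := Fintype.ofFinite P.ι
  choose a ha using hL.1
  obtain ⟨g, b, hg, hgx, hgy⟩ := eventually_iff_form.mp hL.2.1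
  refine ⟨g, b, hg, hgx,
    fun j => ⟨_, hg.mul (ha j)⟩, fun y h1 h2 => (hgy y h1).2 fun j =>
      (mul_eq_zero.1 ((ev_mul y g (f j)).symm.trans (h2 j))).resolve_left h1, ?_, ?_⟩
  · rintro (j | i) y hy h
    · refine (eval_hat_eq_zero h (hg.mul (ha j))).2 ?_
      rw [ev_mul]
      by_cases h1 : ev y g = 0
      · rw [h1, zero_mul]
      · rw [(hgy y h1).1 hy j, mul_zero]
    · simp [hat_one h]
  · let μ : P.ι → k := fun i => (rp x ⟨i, ς i⟩)⁻¹
    have hμ : ∀ i, μ i ≠ 0 := fun i => inv_ne_zero (hς i)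
    have hw : hat ς x = fun s => μ s.1 * rp x s := funext fun s => by
      rw [hat, div_eq_inv_mul]
    have f0 : ∀ j, eval (hat ς x) (f j) = 0 := fun j =>
      (eval_hat_eq_zero hς (ha j)).2 (hL.ev_eq_zero hx j)
    have g0 : eval (hat ς x) g ≠ 0 := fun h => hgx ((eval_hat_eq_zero hς hg).1 h)
    refine Fintype.linearIndependent_iff.2 fun l hl => ?_
    have h1 : ∀ s, ∑ j, l (Sum.inl j) * eval (hat ς x) g * eval (hat ς x) (pderiv s (f j)) +
        ∑ i, l (Sum.inr i) * (if (⟨i, ς i⟩ : P.V) = s then 1 else 0) = 0 := fun s => by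
      have := congrFun hl s
      simpa [Finset.sum_apply, Fintype.sum_sum_type, f0, pderiv_X, Pi.single_apply, mul_assoc,
        apply_ite (eval (hat ς x))] using this
    have h2 : ∀ i, l (Sum.inr i) = 0 := fun i => by
      have e1 : ∑ s : P.V, (if s.1 = i then hat ς x s * ∑ j, l (Sum.inl j) * eval (hat ς x) g *
          eval (hat ς x) (pderiv s (f j)) else 0) = 0 := by
        have : ∀ j, l (Sum.inl j) * eval (hat ς x) g * ∑ s : P.V, (if s.1 = i then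
            hat ς x s * eval (hat ς x) (pderiv s (f j)) else 0) = 0 := fun j => by
          rw [(ha j).euler, f0]; simp
        refine Eq.trans ?_ (Finset.sum_eq_zero (s := Finset.univ) fun j _ => this j)
        simp only [Finset.mul_sum]
        rw [Finset.sum_comm]
        refine Finset.sum_congr rfl fun s _ => ?_
        split_ifs
        · exact Finset.sum_congr rfl fun j _ => by ring
        · simp
      have e2 : ∑ s : P.V, (if s.1 = i then hat ς x s * ∑ i', l (Sum.inr i') *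
          (if (⟨i', ς i'⟩ : P.V) = s then 1 else 0) else 0) = l (Sum.inr i) := by
        rw [Finset.sum_eq_single (⟨i, ς i⟩ : P.V), if_pos rfl, hat_one hς, one_mul,
          Finset.sum_eq_single i, if_pos rfl, mul_one]
        · intro i' _ h
          rw [if_neg fun h' => h (congrArg Sigma.fst h'), mul_zero]
        · simp
        · intro s _ h
          split_ifs with h'
          · subst h'
            rw [Finset.sum_eq_zero, mul_zero]
            intro i' _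
            rw [if_neg, mul_zero]
            rintro rfl
            exact h rfl
          · rfl
        · simp
      have e3 := congrArg₂ (· + ·) e1 e2
      simp only [zero_add] at e3
      rw [← e3, ← Finset.sum_add_distrib]
      refine Finset.sum_eq_zero fun s _ => ?_
      split_ifs
      · rw [← mul_add, h1 s, mul_zero]
      · simp
    have h3 := Fintype.linearIndependent_iff.1 hL.2.2
      (fun j => l (Sum.inl j) * eval (hat ς x) g * chi μ (a j)) (funext fun s => by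
        have := congrArg (μ s.1 * ·) (h1 s)
        simp only [h2, zero_mul, Finset.sum_const_zero, add_zero, mul_zero, Finset.mul_sum] at this
        rw [Finset.sum_apply, Pi.zero_apply, ← this]
        refine Finset.sum_congr rfl fun j _ => ?_
        rw [Pi.smul_apply, smul_eq_mul, ev_eq, mul_assoc, ← (ha j).eval_scale_pderiv μ, ← hw]
        ring)
    rintro (j | i)
    · exact (mul_eq_zero.1 ((mul_eq_zero.1 (h3 j)).resolve_right
        (chi_ne_zero hμ _))).resolve_right g0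
    · exact h2 i

variable [IsAlgClosed k]

theorem sm_comp (hA : IsClosed A) (hx : x ∈ A) {κ : Type} {f : κ → MvPolynomial P.V k}
    (h : LocEq A x f) :
    ∃ Z, Top A x Z ∧ sdim Z + Nat.card κ + Nat.card P.ι = Nat.card P.V := by
  have := h.finite
  obtain ⟨ς, hς⟩ := exists_inCh x
  obtain ⟨g, b, hg, hgx, hf, hloc, hI, hli⟩ := g2_chart hx h hς
  set e : κ ⊕ P.ι → MvPolynomial P.V k :=
    Sum.elim (fun j => g * f j) (fun i => MvPolynomial.X ⟨i, ς i⟩ - 1) with he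
  have hpr : (RingHom.ker (eval (hat ς x) : MvPolynomial P.V k →+* k)).IsPrime :=
    RingHom.ker_isPrime _
  have hJ : ∀ {p : Ideal (MvPolynomial P.V k)}, (∀ j, e j ∈ p) → Ideal.span (Set.range e) ≤ p :=
    fun h => Ideal.span_le.2 (by rintro _ ⟨j, rfl⟩; exact h j)
  have hJe : ∀ j, e j ∈ Ideal.span (Set.range e) := fun j => Ideal.subset_span ⟨j, rfl⟩
  have hJm : Ideal.span (Set.range e) ≤ RingHom.ker (eval (hat ς x)) := hJ fun j => hI j x hx hς
  obtain ⟨r, hr, -, h1, h2, h3⟩ := kr_many ⊥ (RingHom.ker (eval (hat ς x))) bot_le e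
    fun j => hI j x hx hς
  obtain ⟨Z, hZ, rfl⟩ := exists_chI_eq ς r fun i => h2 (Sum.inr i)
  rw [← sdim_eq_trdeg hZ, (AlgEquiv.quotientBot k (MvPolynomial P.V k)).trdeg_eq,
    MvPolynomial.trdeg_of_isDomain, ← Nat.cast_card, Cardinal.lift_natCast] at h3
  have h6 : Nat.card P.V ≤ sdim Z + Nat.card (κ ⊕ P.ι) := by exact_mod_cast h3
  have hmem : ∀ {W : Sub k P}, (∃ y ∈ W, InCh ς y) →
      chI (W : Set (P.Pt k)) ς ≤ RingHom.ker (eval (hat ς x)) → x ∈ W := fun hW h =>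
    le_of_chI_le (T := {x}) hW ⟨x, Set.mem_singleton x, hς⟩
      (fun φ hφ y hy _ => by rw [Set.mem_singleton_iff.1 hy]; exact h hφ) (Set.mem_singleton x)
  obtain ⟨y, hy, hm⟩ := exists_cotangent_gen (Ideal.span (Set.range e)) (hat ς x)
    (fun φ hφ => hJm hφ) e hJe hli (h6.trans_eq (add_comm _ _))
  obtain ⟨p₀, hp₀, a1, a2⟩ := Chw.Cmp_alg _ _ hJm y hy hm
    (Chw.Cmp_chain hς (hmem hZ h1) (hJ h2) le_rfl)
  obtain ⟨W, hW, rfl⟩ := exists_chI_eq ς p₀ fun i => a1 (hJe (Sum.inr i))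
  have hxW : x ∈ W := hmem hW (a2 _ hpr hJm le_rfl)
  have h4 : ¬ Van (W : Set (P.Pt k)) g := fun h' => hgx (h' x hxW)
  have h5 := sdim_mono (le_of_chI_le hW hZ (a2 _ hr (hJ h2) h1))
  have h7 := trdeg_le_emb (chI (W : Set (P.Pt k)) ς) (hat ς x) (fun φ hφ => hφ x hxW hς) e
    (fun j => a1 (hJe j)) hli
  rw [← sdim_eq_trdeg hW] at h7
  have h8 : sdim W + Nat.card (κ ⊕ P.ι) ≤ Nat.card P.V := by exact_mod_cast h7
  rw [Nat.card_sum] at h6 h8
  refine ⟨W, ⟨hxW, subset_of_van hA fun φ c hφ hv =>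
    van_of_open hφ hg h4 fun y hy hy' => hv y (hloc y hy' fun j =>
      let ⟨a, ha⟩ := hf j; (mem_chI_form hW ha).1 (a1 (hJe (Sum.inl j))) y hy),
    fun U hU hxU => ?_⟩, by omega⟩
  exact le_of_chI_le hW ⟨x, hxU, hς⟩ (a2 _ (chI_prime ⟨x, hxU, hς⟩)
    (hJ fun j => chI_anti hU ς (hI j)) fun φ hφ => hφ x hxU hς)

theorem mx_finite (hA : IsClosed A) : {Z | Mx A Z}.Finite := by
  obtain ⟨s, hs, h1, h2⟩ := exists_comps hA
  refine hs.subset fun c hc => ?_
  obtain ⟨Z, hZ, h⟩ := h2 c hc.1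
  rwa [← hc.2 Z (h1 Z hZ) h]

theorem exists_mx (hA : IsClosed A) (hU : (U : Set (P.Pt k)) ⊆ A) : ∃ Z, Mx A Z ∧ U ≤ Z := by
  obtain ⟨s, hs, h1, h2⟩ := exists_comps hA
  obtain ⟨Z₀, hZ₀, h₀⟩ := h2 U hU
  obtain ⟨Z, ⟨hZ, hUZ⟩, hm⟩ := Set.exists_max_image {Z ∈ s | U ≤ Z} sdim
    (hs.subset fun _ h => h.1) ⟨Z₀, hZ₀, h₀⟩
  refine ⟨Z, ⟨h1 Z hZ, fun V hV hZV => ?_⟩, hUZ⟩
  obtain ⟨Z', hZ', h'⟩ := h2 V hV
  exact (eq_of_sdim_le hZV ((sdim_mono h').trans (hm Z' ⟨hZ', hUZ.trans (hZV.trans h')⟩))).symm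

theorem Top.near (hA : IsClosed A) (h : Top A x Z) : ∀ᶠ y in 𝓝 x, y ∈ A → y ∈ Z := by
  have h5 : IsClosed (⋃ d ∈ {d | Mx A d} \ {Z}, (d : Set (P.Pt k))) :=
    ((mx_finite hA).subset Set.sdiff_subset).isClosed_biUnion fun d _ => d.isClosed
  have h6 : x ∉ ⋃ d ∈ {d | Mx A d} \ {Z}, (d : Set (P.Pt k)) := fun h' => by
    obtain ⟨d, hd, h'⟩ := Set.mem_iUnion₂.1 h'
    exact hd.2 (h.eq hd.1 h').symm
  filter_upwards [h5.isOpen_compl.mem_nhds h6] with y a2 a1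
  obtain ⟨d, hd, b⟩ := exists_mx (U := {y}) hA (Set.singleton_subset_iff.2 a1)
  by_cases e : d = Z
  · exact e ▸ b (Set.mem_singleton y)
  · exact absurd (Set.mem_iUnion₂.2 ⟨d, ⟨hd, e⟩, b (Set.mem_singleton y)⟩) a2

theorem var_ext {X Y : Var k P} (hX : IsIrreducible X.pts) (h : X.pts = Y.pts) : X = Y := by
  have h1 := X.sdim_top hX
  have h2 := Y.sdim_top (h ▸ hX)
  have h3 : X.top hX = Y.top (h ▸ hX) := SetLike.coe_injective h
  rw [h3, h2] at h1
  obtain ⟨p, d, c, s⟩ := X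
  obtain ⟨p', d', c', s'⟩ := Y
  obtain rfl : p = p' := h
  obtain rfl : d' = d := h1
  rfl

theorem sub_finite_union {ι : Type*} (s : Finset ι) (T : ι → Set (P.Pt k))
    (hT : ∀ i ∈ s, IsClosed (T i)) (h : ∀ x ∈ U, ∃ i ∈ s, x ∈ T i) :
    ∃ i ∈ s, (U : Set (P.Pt k)) ⊆ T i := by
  classical
  obtain ⟨z, hz, h'⟩ := isIrreducible_iff_sUnion_isClosed.mp U.isIrreducible (s.image T)
    (fun z hz => by
      obtain ⟨i, hi, rfl⟩ := Finset.mem_image.1 hz
      exact hT i hi) fun x hx => by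
      obtain ⟨i, hi, h'⟩ := h x hx
      exact ⟨T i, Finset.mem_coe.2 (Finset.mem_image_of_mem T hi), h'⟩
  obtain ⟨i, hi, rfl⟩ := Finset.mem_image.1 hz
  exact ⟨i, hi, h'⟩

end Pool.Agent.Work.MP_ffcd14_ag.Gm
end

-- merged part: Pool.Agent.Work.MP_ffcd14_ag.Gm.G2c
section
/-!
# Components of a stable set; the dimension of an open subset

The plan is in the header of `G2`.
-/

open MvPolynomial Topology TopologicalSpace Filter

namespace Pool.Agent.Work.MP_ffcd14_ag.Gm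

universe u

variable {k : Type u} [Field k] [IsAlgClosed k] {P : Amb} {A : Set (P.Pt k)} {Z : Sub k P}

omit [IsAlgClosed k] in
theorem G2c_le {O B : Set (P.Pt k)} (hO : IsOpen O) {x : P.Pt k} (hx : x ∈ Z) (hxO : x ∈ O)
    (hB : IsClosed B) (h : ∀ y ∈ Z, y ∈ O → y ∈ B) : (Z : Set (P.Pt k)) ⊆ B := by
  refine (isPreirreducible_iff_isClosed_union_isClosed.1 Z.isIrreducible.2 B Oᶜ hB
    hO.isClosed_compl fun y hy => ?_).resolve_right fun e => e hx hxO
  by_cases hy' : y ∈ O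
  exacts [Or.inl (h y hy hy'), Or.inr hy']

theorem G2c_inf {w : P.V → ℕ} (hA : IsClosed A) (hs : GSt w A) {x : P.Pt k} (hx : x ∈ A) :
    ∃ T, Mx A T ∧ {τ : k | ∃ y ∈ T, GAct w τ x y}.Infinite := by
  by_contra hc
  have h1 : (⋃ T ∈ {T | Mx A T}, {τ : k | ∃ y ∈ T, GAct w τ x y}).Finite :=
    (mx_finite hA).biUnion fun T hT => Set.not_infinite.1 fun e => hc ⟨T, hT, e⟩
  refine (Set.finite_singleton (0 : k)).infinite_compl (h1.subset fun τ hτ => ?_)
  obtain ⟨y, hy⟩ := act_exists w hτ x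
  obtain ⟨T, hT, hle⟩ := exists_mx (U := {y}) hA (Set.singleton_subset_iff.2 (hs x hx τ hτ y hy))
  exact Set.mem_biUnion hT ⟨y, hle rfl, hy⟩

omit [IsAlgClosed k] in
theorem G2c_key {w : P.V → ℕ} {x : P.Pt k} (hi : {τ : k | ∃ y ∈ Z, GAct w τ x y}.Infinite)
    {f : MvPolynomial P.V k} {a : P.ι →₀ ℕ} (hf : IsForm f a) (hv : Van (Z : Set (P.Pt k)) f)
    (τ : k) : ev x (twist w τ f) = 0 := by
  obtain ⟨p, hp⟩ : ∃ p : Polynomial k, ∀ τ, p.eval τ = ev x (twist w τ f) :=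
    ⟨∑ n ∈ Finset.range (weightedTotalDegree w f + 1),
      Polynomial.X ^ n * Polynomial.C (ev x (weightedHomogeneousComponent w n f)), fun τ => by
      simp only [ev_twist, Polynomial.eval_finsetSum, Polynomial.eval_mul, Polynomial.eval_pow,
        Polynomial.eval_X, Polynomial.eval_C]⟩
  have h0 : p = 0 := by
    refine Polynomial.eq_zero_of_infinite_isRoot p (hi.mono ?_)
    rintro t ⟨y, hy, ha⟩
    obtain ⟨c, hc, e⟩ := ha.ev hf
    rw [hv y hy] at e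
    exact (hp t).trans ((mul_eq_zero.1 e.symm).resolve_left hc)
  rw [← hp, h0, Polynomial.eval_zero]


theorem gst_mx {w : P.V → ℕ} (hA : IsClosed A) (hs : GSt w A) (h : Mx A Z) :
    GSt w (Z : Set (P.Pt k)) := by
  refine (gst_iff Z.isClosed).2 fun τ _ f a hf hv => ?_
  have hfin : {T | Mx A T ∧ T ≠ Z}.Finite := (mx_finite hA).subset fun T hT => hT.1
  have hO := (hfin.isClosed_biUnion fun T _ => T.isClosed).isOpen_compl
  obtain ⟨x0, hx0, hx1⟩ := exists_pt_avoid Z hfin fun T hT hle => hT.2 (h.2 T hT.1.1 hle)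
  refine G2c_le hO hx0 (fun e => ?_) (isClosed_zero (twist_form hf)) fun x hx hxO => ?_
  · obtain ⟨T, hT, e⟩ := Set.mem_iUnion₂.1 e
    exact hx1 T hT e
  obtain ⟨T, hT, hi⟩ := G2c_inf hA hs (h.1 hx)
  have hxT : x ∈ T := by
    by_contra hc
    obtain ⟨g, b, hg, h1, h2⟩ := isClosed_iff_form.1 T.isClosed x hc
    obtain ⟨c, -, e⟩ := (show GAct w 1 x x from ⟨1, fun s => by simp⟩).ev hg
    exact h1 (by rw [e, G2c_key hi hg h2, mul_zero])
  obtain rfl : T = Z := by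
    by_contra hne
    exact hxO (Set.mem_iUnion₂.2 ⟨T, ⟨hT, hne⟩, hxT⟩)
  exact G2c_key hi hf hv τ

theorem krull_open {O : Set (P.Pt k)} (hO : IsOpen O) (h : ∃ x ∈ Z, x ∈ O) :
    topologicalKrullDim ↥((Z : Set (P.Pt k)) ∩ O) = sdim Z := by
  obtain ⟨x, hx, hxO⟩ := h
  refine le_antisymm ?_ ?_
  · have h1 : ∀ T : IrreducibleCloseds ↥((Z : Set (P.Pt k)) ∩ O),
        T.map Subtype.val continuous_subtype_val ∈ Set.Iic Z := fun T =>
      closure_minimal (by rintro _ ⟨y, -, rfl⟩; exact y.2.1) Z.isClosed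
    have h2 := Order.krullDim_le_of_strictMono (fun T => (⟨_, h1 T⟩ : Set.Iic Z))
      (IrreducibleCloseds.map_strictMono_of_isInducing IsInducing.subtypeVal)
    rw [← Order.height_eq_krullDim_Iic, height_eq] at h2
    exact h2
  let F : ∀ T : Sub k P, x ∈ T → T ≤ Z → IrreducibleCloseds ↥((Z : Set (P.Pt k)) ∩ O) :=
    fun T h1 h2 => ⟨Subtype.val ⁻¹' (T : Set (P.Pt k)), ⟨⟨⟨x, hx, hxO⟩, h1⟩, by
      rintro _ _ ⟨U, hU, rfl⟩ ⟨V, hV, rfl⟩ ⟨a, ha, haU⟩ ⟨b, hb, hbV⟩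
      obtain ⟨y, hy, ⟨hyU, hyO⟩, hyV⟩ := T.isIrreducible.2 (U ∩ O) V (hU.inter hO) hV
        ⟨a.1, ha, haU, a.2.2⟩ ⟨b.1, hb, hbV⟩
      exact ⟨⟨y, h2 hy, hyO⟩, hy, hyU, hyV⟩⟩, T.isClosed.preimage continuous_subtype_val⟩
  have key : ∀ n : ℕ, n ≤ sdim Z → ∃ (T : Sub k P) (h1 : x ∈ T) (h2 : T ≤ Z), sdim T = n ∧
      (n : ℕ∞) ≤ Order.height (F T h1 h2) := by
    intro n
    induction n with
    | zero =>
      exact fun _ => ⟨{x}, Set.mem_singleton x, Set.singleton_subset_iff.2 hx, sdim_pt x, by simp⟩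
    | succ n ih =>
      intro h
      obtain ⟨T, h1, h2, h3, h4⟩ := ih (by omega)
      obtain ⟨T', a1, a2, a3⟩ := exists_cover_up
        (lt_of_le_of_ne h2 fun e => by rw [e] at h3; omega)
      refine ⟨T', a1 h1, a2, by omega, ?_⟩
      have a4 : F T h1 h2 < F T' (a1 h1) a2 := by
        refine lt_of_le_not_ge (fun y hy => a1 hy) fun e => ?_
        have := sdim_mono (show T' ≤ T from G2c_le hO (a1 h1) hxO T.isClosed fun y hy hyO =>
          e (show (⟨y, a2 hy, hyO⟩ : ↥((Z : Set (P.Pt k)) ∩ O)) ∈ F T' (a1 h1) a2 from hy))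
        omega
      push_cast
      exact (add_le_add_left h4 1).trans (Order.height_add_one_le a4)
  obtain ⟨T, h1, h2, -, h4⟩ := key _ le_rfl
  exact le_trans (by exact_mod_cast h4) (Order.height_le_krullDim (F T h1 h2))

end Pool.Agent.Work.MP_ffcd14_ag.Gm
end

-- merged part: Pool.Agent.Work.MP_ffcd14_ag.Gm.G3a
section
/-!
# Local equations which are homogeneous for the weights

Plan for `loc_hom`.  Take `X.smooth x` and a form `g` with `g x ≠ 0` such that the equivalence of `LocEq`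
holds where `g ≠ 0` (`eventually_iff_form`).  The forms `g * f j` vanish on `X`, their differentials at `x` are
`g x` times those of the `f j`.  The weight components of the `g * f j` are forms vanishing on `X`
(`wcomp_form`, `van_wcomp`), and the span of their differentials contains an independent family
indexed by `κ` (`sum_weightedHomogeneousComponent`).  So there is an independent subfamily `F` of
cardinality `card κ` (`exists_linearIndependent`, compare the ranks, restrict along an injection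
from `Fin (card κ)`).  Let `B` be its zero set: `LocEq B x F` is trivial; `sm_comp` for `B` and for `X.pts`
gives `Z ≤ Z'` of the same dimension (`eq_of_sdim_le`); `Top.near` shows `B ⊆ X` near `x`.

Plan for `loc_cols`.  Let `f j` have degree `a j` and weight `ω j`.  If `∂ f j / ∂ x v (y) ≠ 0` then some
monomial of `f j` contains `v` and otherwise only variables of weight `m`, so
`ω j + m = w v + a j * m`.  Take `v₀` with `crd y v₀ ≠ 0`; by `IsForm.euler` the differentials stay independent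
on the coordinates `v ≠ v₀`; `exists_col` gives `col` with non-zero determinant, and some term of the
Leibniz expansion is non-zero (`Matrix.det_apply`): a permutation `π` with
`∂ f j / ∂ x (col (π j)) (y) ≠ 0`.  Put `τ j = w (col (π j))`, and let `Sp`, `Sm` be the coordinates of
weight `> m`, `< m` outside the range of `col`.  If `m < τ j` then `a j * m < ω j`, so each monomial of
`f j` contains a variable of weight `> m`.
-/

open MvPolynomial Topology TopologicalSpace Filter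

namespace Pool.Agent.Work.MP_ffcd14_ag.Gm

universe u

variable {k : Type u} [Field k] [IsAlgClosed k] {P : Amb}

omit [IsAlgClosed k] in
theorem G3a_lin {V κ ι : Type*} [AddCommGroup V] [Module k V] [Module.Finite k V] {u : κ → V}
    (hu : LinearIndependent k u) (v : ι → V) (h : ∀ j, u j ∈ Submodule.span k (Set.range v)) :
    ∃ s : Set ι, Nat.card κ ≤ Nat.card s ∧ LinearIndependent k fun i : s => v i := by
  obtain ⟨κ', a, ha, h1, h2⟩ := exists_linearIndependent' k v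
  have := hu.finite
  have := h2.finite
  have := Fintype.ofFinite κ
  have := Fintype.ofFinite κ'
  refine ⟨Set.range a, ?_, ?_⟩
  · rw [Nat.card_range_of_injective ha, Nat.card_eq_fintype_card, Nat.card_eq_fintype_card,
      ← finrank_span_eq_card hu, ← finrank_span_eq_card h2, h1]
    exact Submodule.finrank_mono (Submodule.span_le.2 (Set.range_subset_iff.2 h))
  · exact (linearIndependent_equiv (Equiv.ofInjective a ha)).1 h2

omit [IsAlgClosed k] in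
theorem G3a_span (w : P.V → ℕ) (x : P.Pt k) {κ : Type} (F : κ → MvPolynomial P.V k) (j : κ) :
    (fun s => ev x (pderiv s (F j))) ∈ Submodule.span k (Set.range fun (i : κ × ℕ) (s : P.V) =>
      ev x (pderiv s (weightedHomogeneousComponent w i.2 (F i.1)))) := by
  let D : MvPolynomial P.V k →ₗ[k] P.V → k :=
    LinearMap.pi fun s => (aeval (rp x)).toLinearMap ∘ₗ (pderiv s).toLinearMap
  change D (F j) ∈ Submodule.span k (Set.range fun i : κ × ℕ =>
    D (weightedHomogeneousComponent w i.2 (F i.1)))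
  rw [← sum_weightedHomogeneousComponent (w := w) (F j),
    finsum_eq_sum _ (weightedHomogeneousComponent_finsupp _), map_sum]
  exact Submodule.sum_mem _ fun n _ => Submodule.subset_span ⟨(j, n), rfl⟩

theorem loc_hom (X : Var k P) {w : P.V → ℕ} (hs : GSt w X.pts) {x : P.Pt k} (hx : x ∈ X.pts) :
    ∃ (κ : Type) (f : κ → MvPolynomial P.V k),
      Nat.card κ + X.dim + Nat.card P.ι = Nat.card P.V ∧ LocEq X.pts x f ∧
      ∀ j, ∃ n, IsWeightedHomogeneous w (f j) n := by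
  obtain ⟨κ, f, hc, hf⟩ := X.smooth x hx
  obtain ⟨g, b, hg, hgx, h1⟩ := eventually_iff_form.1 hf.2.1
  choose a ha using hf.1
  have hv : ∀ j, Van X.pts (g * f j) := fun j y hy => by
    rw [ev_mul]
    by_cases h0 : ev y g = 0
    · rw [h0, zero_mul]
    · rw [(h1 y h0).1 hy j, mul_zero]
  have hu : LinearIndependent k fun j (s : P.V) => ev x (pderiv s (g * f j)) := by
    have := hf.2.2.units_smul fun _ => Units.mk0 _ hgx
    convert this using 1
    ext j s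
    have h2 := hf.ev_eq_zero hx j
    rw [ev_eq] at h2
    simp [ev_eq, h2, Units.smul_def]
  obtain ⟨s, h2, h3⟩ := G3a_lin hu _ (G3a_span w x fun j => g * f j)
  obtain ⟨F, hF⟩ : ∃ F : s → MvPolynomial P.V k,
      F = fun i => weightedHomogeneousComponent w i.1.2 (g * f i.1.1) := ⟨_, rfl⟩
  have hF1 : ∀ i, IsForm (F i) (b + a i.1.1) := fun i => hF ▸ wcomp_form (hg.mul (ha _)) _
  have hF2 : ∀ i, Van X.pts (F i) := fun i => hF ▸ van_wcomp hs (hg.mul (ha _)) (hv _) _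
  have hB : LocEq {y | ∀ i, ev y (F i) = 0} x F :=
    ⟨fun i => ⟨_, hF1 i⟩, Eventually.of_forall fun _ => Iff.rfl, hF ▸ h3⟩
  have hsub : X.pts ⊆ {y | ∀ i, ev y (F i) = 0} := fun y hy i => hF2 i y hy
  have hcl : IsClosed {y | ∀ i, ev y (F i) = 0} := by
    rw [Set.ofPred_forall]
    exact isClosed_iInter fun i => isClosed_zero (hF1 i)
  obtain ⟨Z, z1, z2⟩ := sm_comp X.closed hx hf
  obtain ⟨Z', z3, z4⟩ := sm_comp hcl (hsub hx) hB
  have e : Z = Z' := eq_of_sdim_le (z3.2.2 Z (z1.2.1.trans hsub) z1.1) (by omega)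
  subst e
  refine ⟨s, F, by omega, LocEq_congr hB ?_, fun i => ⟨i.1.2, ?_⟩⟩
  · filter_upwards [z3.near hcl] with y hy using ⟨fun h => hsub h, fun h => z1.2.1 (hy h)⟩
  · rw [hF]
    exact weightedHomogeneousComponent_isWeightedHomogeneous _ _

end Pool.Agent.Work.MP_ffcd14_ag.Gm
end

-- merged part: Pool.Agent.Work.MP_ffcd14_ag.Gm.G3b
section
/-!
# The Jacobian matrix at a fixed point

The plan is in the header of `G3a`.
-/

open MvPolynomial Topology TopologicalSpace Filter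

namespace Pool.Agent.Work.MP_ffcd14_ag.Gm

universe u

variable {k : Type u} [Field k] [IsAlgClosed k] {σ : Type} [Fintype σ] [DecidableEq σ]
  {w : σ → ℕ} {m : ℕ} {y : (Amb.one σ).Pt k}

section

variable {R : Type u} [Field R] {V : Type} {W : V → ℤ} {g : MvPolynomial V R} {ε : ℤ} {z : V → R}

theorem G3b_mon (hg : IsWeightedHomogeneous W g ε) (hz : eval z g ≠ 0) :
    ∃ d : V →₀ ℕ, ε = ∑ v ∈ d.support, d v • W v ∧ ∀ v ∈ d.support, z v ≠ 0 := by
  rw [eval_eq] at hz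
  obtain ⟨d, h1, h2⟩ := Finset.exists_ne_zero_of_sum_ne_zero hz
  refine ⟨d, (hg (mem_support_iff.1 h1)).symm.trans (Finsupp.weight_apply W d), fun v hv h => ?_⟩
  refine right_ne_zero_of_mul h2 (Finset.prod_eq_zero hv ?_)
  rw [h, zero_pow (Finsupp.mem_support_iff.1 hv)]

theorem G3b_le (hg : IsWeightedHomogeneous W g ε) (hz : eval z g ≠ 0)
    (h : ∀ v, 0 < W v → z v = 0) : ε ≤ 0 := by
  obtain ⟨d, rfl, h2⟩ := G3b_mon hg hz
  exact Finset.sum_nonpos fun v hv => nsmul_nonpos (not_lt.1 fun h' => h2 v hv (h v h')) _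

theorem G3b_ge (hg : IsWeightedHomogeneous W g ε) (hz : eval z g ≠ 0)
    (h : ∀ v, W v < 0 → z v = 0) : 0 ≤ ε := by
  obtain ⟨d, rfl, h2⟩ := G3b_mon hg hz
  exact Finset.sum_nonneg fun v hv => nsmul_nonneg (not_lt.1 fun h' => h2 v hv (h v h')) _

theorem G3b_der (hg : IsWeightedHomogeneous W g ε) {s : V} (hz : eval z (pderiv s g) ≠ 0)
    (h : ∀ v, W v ≠ 0 → z v = 0) : ε = W s := by
  have h1 : IsWeightedHomogeneous W (pderiv s g) (ε - W s) := hg.pderiv (sub_add_cancel _ _)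
  exact sub_eq_zero.1 (le_antisymm (G3b_le h1 hz fun v hv => h v hv.ne')
    (G3b_ge h1 hz fun v hv => h v hv.ne))

end

omit [IsAlgClosed k] [DecidableEq σ] in
theorem G3b_hom {f : MvPolynomial (Amb.one σ).V k} {a : (Amb.one σ).ι →₀ ℕ} {n : ℕ}
    (h : IsForm f a) (h' : IsWeightedHomogeneous (wl w) f n) (m : ℕ) :
    IsWeightedHomogeneous (fun s : (Amb.one σ).V => (w s.2 : ℤ) - m) f (n - a () * m) := by
  intro d hd
  have h1 := congrArg (fun b : (Amb.one σ).ι →₀ ℕ => b ()) (h hd)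
  have h2 := h' hd
  rw [Finsupp.weight_apply, Finsupp.sum] at h2 ⊢
  simp only [Finsupp.weight_apply, Finsupp.sum, Finsupp.finsetSum_apply, Finsupp.smul_apply] at h1
  rw [← h1, ← h2, Nat.cast_sum, Nat.cast_sum, Finset.sum_mul, ← Finset.sum_sub_distrib]
  refine Finset.sum_congr rfl fun s _ => ?_
  have h3 : (Finsupp.single s.1 1 : (Amb.one σ).ι →₀ ℕ) () = 1 := Finsupp.single_eq_same
  rw [h3, smul_eq_mul, smul_eq_mul, mul_one, nsmul_eq_mul, Nat.cast_mul, mul_sub]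
  rfl

theorem G3b_card {κ : Type} [Fintype κ] (p : σ → Prop) [DecidablePred p] {c : κ → σ}
    (hc : Function.Injective c) : (Finset.univ.filter p).card =
      ((Finset.univ.filter p).filter fun v => v ∉ Finset.univ.image c).card +
        (Finset.univ.filter fun j => p (c j)).card := by
  rw [← Finset.card_image_of_injective (Finset.univ.filter fun j => p (c j)) hc,
    ← Finset.filter_image, add_comm, ← Finset.card_filter_add_card_filter_not
      (s := Finset.univ.filter p) (fun v => v ∈ Finset.univ.image c)]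
  congr 2
  ext v
  simp only [Finset.mem_filter, Finset.mem_univ, true_and, and_comm]

theorem loc_cols (X : Var k (Amb.one σ)) (hs : GSt (wl w) X.pts) (hy : y ∈ X.pts)
    (hl : Lv w m y) : ∃ (κ : Type) (_ : Fintype κ) (f : κ → MvPolynomial (Amb.one σ).V k)
      (τ : κ → ℕ) (Sp Sm : Finset σ),
      Fintype.card κ + X.dim + 1 = Fintype.card σ ∧ LocEq X.pts y f ∧
      (∀ j x, m < τ j → (∀ v, m < w v → crd x v = 0) → ev x (f j) = 0) ∧
      (∀ j x, τ j < m → (∀ v, w v < m → crd x v = 0) → ev x (f j) = 0) ∧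
      (∀ j v, ev y (pderiv (vr v) (f j)) ≠ 0 → w v = τ j) ∧
      (∀ v ∈ Sp, m < w v) ∧ (∀ v ∈ Sm, w v < m) ∧
      (∀ l : κ → k, (∀ v ∉ Sp ∪ Sm, ∑ j, l j * ev y (pderiv (vr v) (f j)) = 0) → l = 0) ∧
      (Finset.univ.filter fun v => m < w v).card =
        Sp.card + (Finset.univ.filter fun j => m < τ j).card ∧
      (Finset.univ.filter fun v => w v < m).card =
        Sm.card + (Finset.univ.filter fun j => τ j < m).card := by
  classical
  obtain ⟨κ, f, h1, h2, h3⟩ := loc_hom X hs hy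
  let _ : Fintype (Amb.one σ).V := Fintype.ofFinite _
  have : Finite κ := h2.2.2.finite
  let _ := Fintype.ofFinite κ
  choose a ha using h2.1
  choose n hn using h3
  have hh := fun j => G3b_hom (ha j) (hn j) m
  obtain ⟨v₀, hv₀⟩ := crd_ne y
  obtain ⟨col, c1, -, c2⟩ := exists_col (fun j s => ev y (pderiv s (f j))) (· ≠ vr v₀)
    fun l hl' => by
      have e1 : ∀ j, ∑ s, rp y s * ev y (pderiv s (f j)) = 0 := fun j => by
        have e2 := (ha j).euler () (rp y)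
        rw [← ev_eq, h2.2.1.self_of_nhds.1 hy j, mul_zero] at e2
        exact (Finset.sum_congr rfl fun s _ => (if_pos rfl).symm).trans e2
      have e3 : ∑ s, rp y s * ∑ j, l j * ev y (pderiv s (f j)) = 0 := by
        simp only [Finset.mul_sum, mul_left_comm (rp y _)]
        rw [Finset.sum_comm]
        simp only [← Finset.mul_sum, e1, mul_zero, Finset.sum_const_zero]
      rw [Finset.sum_eq_single (vr v₀) (fun s _ h => by rw [hl' s h, mul_zero])
        fun h => absurd (Finset.mem_univ _) h] at e3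
      refine funext (Fintype.linearIndependent_iff.1 h2.2.2 l (funext fun s => ?_))
      rw [Finset.sum_apply]
      by_cases h : s = vr v₀
      · exact h ▸ (mul_eq_zero.1 e3).resolve_left hv₀
      · exact hl' s h
  obtain ⟨π, -, hπ⟩ := Finset.exists_ne_zero_of_sum_ne_zero ((Matrix.det_apply _).symm.trans_ne c2)
  have p1 : ∀ i, ev y (pderiv (col i) (f (π i))) ≠ 0 := fun i h =>
    hπ (by rw [Finset.prod_eq_zero (Finset.mem_univ i) (by exact h), smul_zero])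
  obtain ⟨c, hc⟩ : ∃ c : κ → σ, ∀ i, vr (c (π i)) = col i :=
    ⟨fun j => (col (π.symm j)).2, fun i => congrArg col (π.symm_apply_apply i)⟩
  have c3 : Function.Injective c := fun i j h => by
    obtain ⟨i, rfl⟩ := π.surjective i
    obtain ⟨j, rfl⟩ := π.surjective j
    rw [c1 ((hc i).symm.trans ((congrArg vr h).trans (hc j)))]
  have d1 : ∀ j v, ev y (pderiv (vr v) (f j)) ≠ 0 → (n j : ℤ) - a j () * m = w v - m :=
    fun j v h => G3b_der (hh j) h fun s hs' => hl s.2 fun e => hs' (by rw [e, sub_self])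
  have d2 : ∀ j, (n j : ℤ) - a j () * m = w (c j) - m := fun j => by
    obtain ⟨i, rfl⟩ := π.surjective j
    exact d1 _ _ (hc i ▸ p1 i)
  refine ⟨κ, inferInstance, f, fun j => w (c j),
    (Finset.univ.filter fun v => m < w v).filter fun v => v ∉ Finset.univ.image c,
    (Finset.univ.filter fun v => w v < m).filter fun v => v ∉ Finset.univ.image c, ?_, h2,
    fun j x e1 e2 => ?_, fun j x e1 e2 => ?_, fun j v h => ?_,
    fun v h => (Finset.mem_filter.1 (Finset.mem_filter.1 h).1).2,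
    fun v h => (Finset.mem_filter.1 (Finset.mem_filter.1 h).1).2, fun l h => ?_,
    G3b_card _ c3, G3b_card _ c3⟩
  · rwa [card_one_V, card_one_ι, Nat.card_eq_fintype_card, Nat.card_eq_fintype_card] at h1
  · by_contra h
    have := G3b_le (hh j) h fun s hs' => e2 s.2 (by omega)
    rw [d2] at this
    dsimp only at e1
    omega
  · by_contra h
    have := G3b_ge (hh j) h fun s hs' => e2 s.2 (by omega)
    rw [d2] at this
    dsimp only at e1
    omega
  · have := (d1 j v h).symm.trans (d2 j)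
    dsimp only
    omega
  · refine Matrix.eq_zero_of_vecMul_eq_zero c2 (funext fun i => ?_)
    have e1 : c (π i) ∈ Finset.univ.image c := Finset.mem_image_of_mem c (Finset.mem_univ _)
    have e2 := h (c (π i)) fun e => (Finset.mem_union.1 e).elim
      (fun e => (Finset.mem_filter.1 e).2 e1) fun e => (Finset.mem_filter.1 e).2 e1
    rw [hc] at e2
    exact e2

end Pool.Agent.Work.MP_ffcd14_ag.Gm
end

-- merged part: Pool.Agent.Work.MP_ffcd14_ag.Gm.G2b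
section
/-!
# Products, coordinate subspaces and subvarieties stable under the full torus

Plan.  `exists_prod`: copy the proof of `Var.prod_irr`; the dimension is given by `exists_fp` and
`sdim_le_add`.  `full_irr`: `exists_loc` for the generic point given by the variables in the fraction
field of the polynomial ring; a form which vanishes at this point is zero, so the resulting
subvariety is everything (`subset_of_van`).
`exists_lin`: `exists_rimg` for the whole space and the forms `if i ∈ I then X i else 0` gives an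
irreducible closed set with the right points.  Dimension: descending induction on `I`; for
`i ∉ I`, `krg` for `L I ≤ L (insert i I)` and the form `X i`; for `I = univ`, `Var.sdim_top`.
`torus`: let `I` be the set of the `i` such that `z i` does not vanish on `U`, and `g` the product of
these variables (`not_van_prod`).  For `u ∈ U` with `g u ≠ 0`, stability gives all points
`mkPt (inl u) z` with `z i ≠ 0 ↔ i ∈ I` (change one coordinate at a time), hence all `z ∈ L I`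
(`continuous_mkPt`, `le_of_open`).  For fixed `z ∈ L I` the closed set `{x | mkPt x z ∈ U}` contains the
image of the dense open subset `g ≠ 0` of `U` (`le_of_open` or `van_of_open` on `U`, `Crd.img_sub`).
-/

open MvPolynomial Topology TopologicalSpace Filter

namespace Pool.Agent.Work.MP_ffcd14_ag.Gm

universe u

variable {k : Type u} [Field k] [IsAlgClosed k] {P Q : Amb} {N : ℕ}

theorem exists_prod (Z : Sub k P) (Z' : Sub k Q) : ∃ T : Sub k (P.sum Q),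
    (∀ z, z ∈ T ↔ (Crd.inl k P Q).pr z ∈ Z ∧ (Crd.inr k P Q).pr z ∈ Z') ∧
      sdim T = sdim Z + sdim Z' := by
  have hle : ∀ Z Z' : Sub k FP_pt, Z ≤ Z' := fun Z Z' x _ => by
    obtain ⟨y, hy⟩ := Z'.isIrreducible.nonempty
    have : x = y := funext fun i => i.elim
    exact this ▸ hy
  obtain ⟨B, h1, h2, -, h3⟩ := exists_fp (FP_toPt k P) (FP_toPt k Q) (E := Z)
    (E' := Z') (le_antisymm (hle _ _) (hle _ _))
  have h0 : sdim ((FP_toPt k P).img Z) = 0 := by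
    have := sdim_le_card ((FP_toPt k P).img Z)
    have h4 : IsEmpty FP_pt.V := ⟨fun s => s.1.elim⟩
    rw [Nat.card_of_isEmpty (α := FP_pt.V)] at this
    omega
  have h7 := sdim_le_add B
  rw [h1, h2] at h7
  refine ⟨B, fun p => ⟨fun hp => ⟨?_, ?_⟩, fun hp => ?_⟩, by omega⟩
  · have := (Crd.inl k P Q).mem_img hp
    rwa [h1] at this
  · have := (Crd.inr k P Q).mem_img hp
    rwa [h2] at this
  · obtain ⟨z, hz, e⟩ := (Crd.inl k P Q).mem_img_iff.1
      (show (Crd.inl k P Q).pr p ∈ (Crd.inl k P Q).img B from h1 ▸ hp.1)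
    obtain ⟨T, hT, hzT, hc, h4⟩ := fib_low (Crd.inl k P Q) hz
    have h5 := sdim_img_of_inj (Crd.inr k P Q) (U := T) fun x hx y hy => sum_ext (hc x hx y hy)
    have h6 : (Crd.inr k P Q).img T = Z' := by
      refine eq_of_sdim_le (h2 ▸ (Crd.inr k P Q).img_mono hT) ?_
      rw [h1] at h4
      omega
    obtain ⟨z', hz', e'⟩ := (Crd.inr k P Q).mem_img_iff.1
      (show (Crd.inr k P Q).pr p ∈ (Crd.inr k P Q).img T from h6 ▸ hp.2)
    exact sum_ext ((hc z' hz' z hzT).trans e) e' ▸ hT hz'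

theorem full_irr (h : ∀ i, Nonempty (P.σ i)) : IsIrreducible (Var.full k P).pts := by
  have hi := IsFractionRing.injective (MvPolynomial P.V k) (FractionRing (MvPolynomial P.V k))
  obtain ⟨Z, hZ⟩ := exists_loc (k := k)
    (algebraMap (MvPolynomial P.V k) (FractionRing (MvPolynomial P.V k)) ∘ X) fun i => by
      obtain ⟨s⟩ := h i
      exact ⟨s, (map_ne_zero_iff _ hi).2 (X_ne_zero _)⟩
  have hU : (Set.univ : Set (P.Pt k)) ⊆ Z := subset_of_van Z.isClosed fun f a hf hv => by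
    have h0 := (hZ.iff f a hf).2 hv
    rw [aeval_algebraMap_apply, aeval_X_left_apply, map_eq_zero_iff _ hi] at h0
    intro x _
    rw [h0, ev_eq, map_zero]
  have e : (Var.full k P).pts = Z := (Set.eq_univ_of_univ_subset hU).symm
  rw [e]
  exact Z.isIrreducible

theorem pn_irr (N : ℕ) : IsIrreducible (Var.full k (PN N)).pts :=
  full_irr fun _ => ⟨(0 : Fin (N + 1))⟩

omit [IsAlgClosed k] in
theorem pn_dim (N : ℕ) : (Var.full k (PN N)).dim = N := by
  change Nat.card (PN N).V - Nat.card (PN N).ι = N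
  rw [card_one_V, card_one_ι]
  simp

theorem ext_irr {X : Var k P} (hX : IsIrreducible X.pts) (N : ℕ) :
    IsIrreducible (X.ext (PN N)).pts := Var.prod_irr hX (pn_irr N)

omit [IsAlgClosed k] in
theorem ext_dim (X : Var k P) (N : ℕ) : (X.ext (PN N)).dim = X.dim + N :=
  congrArg (X.dim + ·) (pn_dim N)

omit [IsAlgClosed k] in
theorem g2b_pt (i : Fin (N + 1)) :
    ∃ z : (PN N).Pt k, crd z i ≠ 0 ∧ ∀ j, j ≠ i → crd z j = 0 := by
  have hv : (Pi.single i 1 : Fin (N + 1) → k) ≠ 0 := by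
    intro h
    simpa using congrFun h i
  obtain ⟨c, hc⟩ := Projectivization.exists_smul_eq_mk_rep k _ hv
  have h : ∀ j, crd (σ := Fin (N + 1)) (fun _ => Projectivization.mk k _ hv) j =
      (c : k) * (Pi.single i 1 : Fin (N + 1) → k) j := fun j => (congrFun hc j).symm
  refine ⟨fun _ => Projectivization.mk k _ hv, ?_, fun j hj => ?_⟩
  · rw [h]; simp
  · rw [h]; simp [hj]

omit [IsAlgClosed k] in
theorem g2b_ev (z : (PN N).Pt k) (i : Fin (N + 1)) : ev z (X (vr i)) = crd z i := ev_X _ _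

theorem g2b_lin (I : Finset (Fin (N + 1))) (hI : I.Nonempty) : ∃ L : Sub k (PN N),
    ∀ z, z ∈ L ↔ ∀ i ∉ I, crd z i = 0 := by
  let F : (PN N).V → MvPolynomial (PN N).V k := fun s =>
    if (s.2 : Fin (N + 1)) ∈ I then X s else 0
  have hF : ∀ s, IsForm (F s) ((fun j => Finsupp.single j 1 : (PN N).ι → (PN N).ι →₀ ℕ) s.1) := by
    intro s
    by_cases h : (s.2 : Fin (N + 1)) ∈ I
    · simp only [F, if_pos h]; exact IsForm.X s
    · simp only [F, if_neg h]; exact isWeightedHomogeneous_zero _ _ _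
  obtain ⟨L, -, h1, h2⟩ := exists_rimg (Q := PN N) (F := F)
    (b := fun j => Finsupp.single j 1) ((Var.full k (PN N)).top (pn_irr N)) hF (by
    intro j
    obtain ⟨i, hi⟩ := hI
    obtain ⟨z, hz, -⟩ := g2b_pt (k := k) i
    refine ⟨i, fun h => hz ?_⟩
    have := h z trivial
    have e : F ⟨j, i⟩ = X ⟨j, i⟩ := if_pos hi
    rw [e, ev_X] at this
    exact this)
  refine ⟨L, fun z => ⟨fun hz i hi => ?_, fun hz => ?_⟩⟩
  · rw [← g2b_ev]
    refine (h1 _ _ (IsForm.X (vr i))).2 (fun x _ => ?_) z hz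
    have : F (vr i) = 0 := if_neg hi
    rw [aeval_X, this, ev_eq, map_zero]
  · refine h2 z trivial z fun j => ?_
    have e : (fun s => ev z (F ⟨j, s⟩)) = (z j).rep := by
      funext s
      by_cases h : (s : Fin (N + 1)) ∈ I
      · have : F ⟨j, s⟩ = X ⟨j, s⟩ := if_pos h
        rw [this, ev_X]
      · have : F ⟨j, s⟩ = 0 := if_neg h
        rw [this, ev_eq, map_zero]
        exact (hz s h).symm
    simp only [e]
    exact ⟨(z j).rep_nonzero, (Projectivization.mk_rep _).symm⟩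

theorem g2b_dim (n : ℕ) : ∀ I : Finset (Fin (N + 1)), I.Nonempty → I.card + n = N + 1 →
    ∀ L : Sub k (PN N), (∀ z, z ∈ L ↔ ∀ i ∉ I, crd z i = 0) → sdim L + 1 = I.card := by
  induction n with
  | zero =>
    intro I _ hc L hL
    have hu : I = Finset.univ := Finset.eq_univ_of_card I (by simpa using hc)
    have e : L = (Var.full k (PN N)).top (pn_irr N) :=
      le_antisymm (fun _ _ => trivial) fun z _ => (hL z).2 fun i hi => by simp [hu] at hi
    rw [e, Var.sdim_top, pn_dim]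
    omega
  | succ n ih =>
    intro I hI hc L hL
    obtain ⟨i, hi⟩ : ∃ i, i ∉ I := by
      by_contra h
      push Not at h
      have := Finset.card_le_card (s := Finset.univ) (t := I) fun i _ => h i
      simp at this
      omega
    obtain ⟨L', hL'⟩ := g2b_lin (k := k) (insert i I) (Finset.insert_nonempty _ _)
    have h1 := ih (insert i I) (Finset.insert_nonempty _ _)
      (by rw [Finset.card_insert_of_notMem hi]; omega) L' hL'
    rw [Finset.card_insert_of_notMem hi] at h1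
    have hle : L ≤ L' := fun z hz => (hL' z).2 fun j hj =>
      (hL z).1 hz j fun h => hj (Finset.mem_insert_of_mem h)
    obtain ⟨T, h2, h3, h4, h5⟩ := krg hle (IsForm.X (vr i)) (by
      obtain ⟨z, hz, hz'⟩ := g2b_pt (k := k) i
      intro h
      refine hz ((g2b_ev z i).symm.trans (h z ((hL' z).2 fun j hj => hz' j ?_)))
      rintro rfl
      exact hj (Finset.mem_insert_self _ _)) fun z hz => (g2b_ev z i).trans ((hL z).1 hz i hi)
    have e : T = L := by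
      refine le_antisymm (fun z hz => (hL z).2 fun j hj => ?_) h2
      by_cases hji : j = i
      · rw [hji, ← g2b_ev]; exact h4 z hz
      · exact (hL' z).1 (h3 hz) j (by simp [hji, hj])
    rw [e] at h5
    omega

theorem exists_lin (I : Finset (Fin (N + 1))) (hI : I.Nonempty) : ∃ L : Sub k (PN N),
    (∀ z, z ∈ L ↔ ∀ i ∉ I, crd z i = 0) ∧ sdim L + 1 = I.card := by
  obtain ⟨L, hL⟩ := g2b_lin (k := k) I hI
  have := Finset.card_le_univ I
  rw [Fintype.card_fin] at this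
  exact ⟨L, hL, g2b_dim (N + 1 - I.card) I hI (by omega) L hL⟩

/-- The weights of the action on the coordinate `i` of the second factor. -/
def ind (P : Amb) (i : Fin (N + 1)) : (P.sum (PN N)).V → ℕ :=
  Amb.elim (fun _ => 0) (wl fun a : Fin (N + 1) => if a = i then 1 else 0)

omit [IsAlgClosed k] in
theorem g2b_sub {Z : Sub k P} {A : Set (P.Pt k)} (hA : IsClosed A) {h : MvPolynomial P.V k}
    {a : P.ι →₀ ℕ} (hh : IsForm h a) (hZ : ¬ Van (Z : Set (P.Pt k)) h)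
    (H : ∀ x ∈ Z, ev x h ≠ 0 → x ∈ A) : (Z : Set (P.Pt k)) ⊆ A :=
  subset_of_van hA fun _ _ hf hv => van_of_open hf hh hZ fun x hx h0 => hv x (H x hx h0)

omit [IsAlgClosed k] in
theorem g2b_act {i : Fin (N + 1)} {τ : k} {x y : (P.sum (PN N)).Pt k}
    (h : GAct (ind P i) τ x y) : (Crd.inl k P (PN N)).pr y = (Crd.inl k P (PN N)).pr x ∧
      ∃ c : k, ∀ j, crd ((Crd.inr k P (PN N)).pr y) j =
        c * (if j = i then τ else 1) * crd ((Crd.inr k P (PN N)).pr x) j := by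
  obtain ⟨μ, hμ⟩ := h
  refine ⟨pt_ext (μ := fun i => μ (Sum.inl i)) fun s => ?_, μ (Sum.inr ()), fun j => ?_⟩
  · have := hμ ⟨Sum.inl s.1, s.2⟩
    rw [show ind P i ⟨Sum.inl s.1, s.2⟩ = 0 from rfl, pow_zero, mul_one] at this
    exact this
  · have := hμ ⟨Sum.inr (), j⟩
    rw [show ind P i ⟨Sum.inr (), j⟩ = if j = i then 1 else 0 from rfl, pow_ite, pow_one,
      pow_zero] at this
    exact this

omit [IsAlgClosed k] in
theorem g2b_scale {A : Set ((P.sum (PN N)).Pt k)} (h : ∀ i, GSt (ind P i) A)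
    (τ : Fin (N + 1) → k) (hτ : ∀ i, τ i ≠ 0) {u : (P.sum (PN N)).Pt k} (hu : u ∈ A)
    (s : Finset (Fin (N + 1))) :
    ∃ y ∈ A, (Crd.inl k P (PN N)).pr y = (Crd.inl k P (PN N)).pr u ∧
      ∃ c : k, ∀ j, crd ((Crd.inr k P (PN N)).pr y) j =
        c * (if j ∈ s then τ j else 1) * crd ((Crd.inr k P (PN N)).pr u) j := by
  induction s using Finset.induction_on with
  | empty => exact ⟨u, hu, rfl, 1, fun j => by simp⟩
  | insert a s ha ih =>
    obtain ⟨y, hy, e, c, hc⟩ := ih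
    obtain ⟨y', hy'⟩ := act_exists (ind P a) (hτ a) y
    obtain ⟨e', c', hc'⟩ := g2b_act hy'
    refine ⟨y', h a y hy _ (hτ a) _ hy', e'.trans e, c' * c, fun j => ?_⟩
    rw [hc', hc]
    by_cases hj : j = a
    · subst hj
      simp only [if_pos, if_neg ha, Finset.mem_insert_self]
      ring
    · simp only [Finset.mem_insert, hj, false_or, if_false]
      ring

omit [IsAlgClosed k] in
theorem g2b_cont (z : Q.Pt k) : Continuous fun x : P.Pt k => mkPt x z := by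
  have e : (fun x : P.Pt k => mkPt x z) = (Crd.swap k Q P).pr ∘ mkPt z :=
    funext fun _ => sum_ext rfl rfl
  rw [e]
  exact (Crd.swap k Q P).continuous.comp (continuous_mkPt z)

omit [IsAlgClosed k] in
theorem g2b_evp {κ : Type} (s : Finset κ) (f : κ → P.V) (x : P.Pt k) :
    ev x (∏ j ∈ s, X (f j)) ≠ 0 ↔ ∀ j ∈ s, rp x (f j) ≠ 0 := by
  rw [ev_eq, map_prod, Finset.prod_ne_zero_iff]
  simp only [eval_X]

theorem torus (U : Sub k (P.sum (PN N)))
    (h : ∀ i, GSt (ind P i) (U : Set ((P.sum (PN N)).Pt k))) :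
    ∃ I : Finset (Fin (N + 1)), I.Nonempty ∧ ∀ z, z ∈ U ↔
      (Crd.inl k P (PN N)).pr z ∈ (Crd.inl k P (PN N)).img U ∧
        ∀ i ∉ I, crd ((Crd.inr k P (PN N)).pr z) i = 0 := by
  classical
  let zi : Fin (N + 1) → (P.sum (PN N)).V := fun i => ⟨Sum.inr (), i⟩
  have hzi : ∀ u i, ev u (X (zi i)) = crd ((Crd.inr k P (PN N)).pr u) i := fun u i => ev_X _ _
  let I : Finset (Fin (N + 1)) :=
    Finset.univ.filter fun i => ¬ Van (U : Set ((P.sum (PN N)).Pt k)) (X (zi i))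
  have hI : ∀ i, i ∈ I ↔ ¬ Van (U : Set ((P.sum (PN N)).Pt k)) (X (zi i)) := fun i => by
    simp [I]
  have h0 : ∀ u ∈ U, ∀ i ∉ I, crd ((Crd.inr k P (PN N)).pr u) i = 0 := fun u hu i hi => by
    rw [hI, not_not] at hi
    rw [← hzi]; exact hi u hu
  have hne : I.Nonempty := by
    obtain ⟨u, hu⟩ := U.isIrreducible.nonempty
    obtain ⟨i, hi⟩ := crd_ne ((Crd.inr k P (PN N)).pr u)
    exact ⟨i, by_contra fun h' => hi (h0 u hu i h')⟩
  obtain ⟨L, hL⟩ := g2b_lin (k := k) I hne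
  obtain ⟨a, ha⟩ := form_prod (k := k) I (fun i => X (zi i)) fun i _ => ⟨_, IsForm.X _⟩
  have hg := not_van_prod (Z := U) I (fun i => X (zi i)) (fun i _ => ⟨_, IsForm.X _⟩)
    fun i hi => (hI i).1 hi
  obtain ⟨a', ha'⟩ := form_prod (k := k) (P := PN N) I (fun i => X (vr i))
    fun i _ => ⟨_, IsForm.X _⟩
  have hg' := not_van_prod (Z := L) I (fun i => X (vr i)) (fun i _ => ⟨_, IsForm.X _⟩)
    fun i hi hv => by
      obtain ⟨z, hz, hz'⟩ := g2b_pt (k := k) i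
      refine hz ((g2b_ev z i).symm.trans (hv z ((hL z).2 fun j hj => hz' j ?_)))
      rintro rfl
      exact hj hi
  have key : ∀ u ∈ U, ev u (∏ i ∈ I, X (zi i)) ≠ 0 → ∀ z ∈ L,
      mkPt ((Crd.inl k P (PN N)).pr u) z ∈ U := by
    intro u hu hgu
    have hu' : ∀ i ∈ I, crd ((Crd.inr k P (PN N)).pr u) i ≠ 0 := (g2b_evp I zi u).1 hgu
    refine g2b_sub (U.isClosed.preimage (continuous_mkPt _)) ha' hg' fun z hz hgz => ?_
    have hz' : ∀ i ∈ I, crd z i ≠ 0 := (g2b_evp (P := PN N) I vr z).1 hgz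
    obtain ⟨y, hy, e, c, hc⟩ := g2b_scale h
      (fun i => if i ∈ I then crd z i / crd ((Crd.inr k P (PN N)).pr u) i else 1)
      (fun i => by
        split_ifs with hi
        exacts [div_ne_zero (hz' i hi) (hu' i hi), one_ne_zero]) hu Finset.univ
    have e' : (Crd.inr k P (PN N)).pr y = z := crd_ext (c := c) fun j => by
      rw [hc, if_pos (Finset.mem_univ j)]
      by_cases hj : j ∈ I
      · rw [if_pos hj, mul_assoc, div_mul_cancel₀ _ (hu' j hj)]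
      · rw [h0 u hu j hj, (hL z).1 hz j hj, mul_zero, mul_zero]
    have : mkPt ((Crd.inl k P (PN N)).pr u) z = y := sum_ext e.symm e'.symm
    show mkPt _ z ∈ U
    rw [this]; exact hy
  refine ⟨I, hne, fun z => ⟨fun hz => ⟨(Crd.inl k P (PN N)).mem_img hz, h0 z hz⟩, ?_⟩⟩
  rintro ⟨h1, h2⟩
  have hA : IsClosed {x : P.Pt k | mkPt x ((Crd.inr k P (PN N)).pr z) ∈ U} :=
    U.isClosed.preimage (g2b_cont _)
  have h3 := ((Crd.inl k P (PN N)).img_sub (Z := U) hA).2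
    (g2b_sub (hA.preimage (Crd.inl k P (PN N)).continuous) ha hg
      fun u hu hgu => key u hu hgu _ ((hL _).2 h2)) h1
  have e : mkPt ((Crd.inl k P (PN N)).pr z) ((Crd.inr k P (PN N)).pr z) = z := sum_ext rfl rfl
  rw [← e]; exact h3

omit [IsAlgClosed k] in
theorem gst_ext (X : Var k P) (i : Fin (N + 1)) : GSt (ind P i) (X.ext (PN N)).pts := by
  intro x hx τ _ y hy
  rw [Var.mem_ext] at hx ⊢
  rw [(g2b_act hy).1]
  exact hx

end Pool.Agent.Work.MP_ffcd14_ag.Gm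
end

-- merged part: Pool.Agent.Work.MP_ffcd14_ag.Gm.G6
section
/-!
# The twisted family is irreducible

Plan.  Let `T₀ = Z × L`, `L = {z a = 0 for j < a}` (`exists_lin`, `exists_prod`), and `W` a bound for `w`.
`tw_chart`: `exists_rimg` for `T₀` and the forms `z a`, `x v * ∏ i, z (a i) * z a₀ ^ (W - w v)`.  The image of a
point `(x, z)` with `z a₀ ≠ 0` is a point `u` with `Rel u x` (`ν = (z a₀)⁻¹`).  Every `u ∈ Tw w N j Z` with
`zc u a₀ ≠ 0` is such an image: take the point `x` of `rel_chart` (`Rel.eqn`, `Rel.mem`).  `T ⊆ Tw`: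
`tw_closed`, `subset_of_van`, `van_of_open` with the variable `z a₀`.
`tw_irr`: let `T a₀` be given by `tw_chart`; `z a₁` does not vanish on `T a₀` for `a₁ ≤ j` (`rel_exists` for a
point `z` with `z a ≠ 0 ↔ a ≤ j`), so `T a₀ ≤ T a₁` (`le_of_open`) and `Tw = T 0`.
`tw_sdim`, lower bound: `exists_rimg` for `twS` and the forms `yv v fun _ => 0`, `zv w a` gives a
subvariety which contains the points of `T₀` with `z 0 ≠ 0` (`Rel.act`, `act_exists`), hence `T₀`.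
`tw_comp`: `mx_finite`, `exists_mx` for points, `gst_mx`, `tw_closed`, `sub_finite_union`, `Rel.mem`.
`tw_img`: `rel_exists`, `Crd.mem_img`, `Var.sdim_top`, `pn_dim`.
-/

open MvPolynomial Topology TopologicalSpace Filter

namespace Pool.Agent.Work.MP_ffcd14_ag.Gm

universe u

variable {k : Type u} [Field k] [IsAlgClosed k] {σ : Type} [Finite σ] {w : σ → ℕ} {N j : ℕ}
  {Z : Sub k (Amb.one σ)} {A : Set ((Amb.one σ).Pt k)}

theorem g6_rimg {P Q : Amb} (Z : Sub k P) {F : Q.V → MvPolynomial P.V k} {b : Q.ι → P.ι →₀ ℕ}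
    (hF : ∀ s, IsForm (F s) (b s.1)) {h : MvPolynomial P.V k} {a : P.ι →₀ ℕ} (hh : IsForm h a)
    (hZ : ¬ Van (Z : Set (P.Pt k)) h)
    (hne : ∀ x ∈ Z, ev x h ≠ 0 → ∀ j, ∃ s, ev x (F ⟨j, s⟩) ≠ 0) :
    ∃ Z' : Sub k Q, sdim Z' ≤ sdim Z ∧
      (∀ x ∈ Z, ∀ (y : Q.Pt k) (μ : Q.ι → k), (∀ s, rp y s = μ s.1 * ev x (F s)) → y ∈ Z') ∧
      ∀ A : Set (Q.Pt k), IsClosed A → (∀ x ∈ Z, ev x h ≠ 0 → ∀ (y : Q.Pt k) (μ : Q.ι → k),
        (∀ s, rp y s = μ s.1 * ev x (F s)) → y ∈ A) → (Z' : Set (Q.Pt k)) ⊆ A := by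
  obtain ⟨Z', h1, h2, h3⟩ := exists_rimg Z hF (by
    intro j
    obtain ⟨x, hx⟩ := not_forall.1 hZ
    obtain ⟨hx, hx'⟩ := Classical.not_imp.1 hx
    obtain ⟨s, hs⟩ := hne x hx hx' j
    exact ⟨s, fun hv => hs (hv x hx)⟩)
  refine ⟨Z', h1, fun x hx y μ hy => h3 x hx y fun j => ?_, fun A hA H => ?_⟩
  · have h0 : (fun s => ev x (F ⟨j, s⟩)) ≠ 0 := by
      obtain ⟨s, hs⟩ := G1_ne y j
      rw [hy] at hs
      exact Function.ne_iff.2 ⟨s, right_ne_zero_of_mul hs⟩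
    refine ⟨h0, ?_⟩
    rw [← (y j).mk_rep, Projectivization.mk_eq_mk_iff']
    exact ⟨μ j, funext fun l => (hy ⟨j, l⟩).symm⟩
  · refine subset_of_van hA fun f c hf hv => (h2 f c hf).2 ?_
    refine van_of_open (hf.aeval hF) hh hZ fun x hx h0 => ?_
    obtain ⟨y, μ, hμ, e⟩ := exists_pt (fun s => ev x (F s)) (hne x hx h0)
    have h4 := hv y (H x hx h0 y μ (congrFun e))
    rw [ev_eq, e, hf.eval_scale] at h4
    have h5 := (mul_eq_zero.1 h4).resolve_left (chi_ne_zero hμ c)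
    rw [ev_eq, ← coe_aeval_eq_eval, RingHom.coe_coe, comp_aeval_apply]
    exact h5

omit [IsAlgClosed k] in
theorem g6_rel {u : (AT w N).Pt k} {x : (Amb.one σ).Pt k} {z : Fin (N + 1) → k} {m μ t : k}
    (ht : t ≠ 0) (hz : ∀ a, zc u a = m * z a)
    (hy : ∀ v a, yc u v a = μ * crd x v * ∏ i, (t * z (a i))) : Rel u x := by
  have hm : m ≠ 0 := by
    obtain ⟨a, ha⟩ := zc_ne u
    rw [hz] at ha
    exact left_ne_zero_of_mul ha
  refine ⟨μ, t / m, div_ne_zero ht hm, fun v a => ?_⟩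
  rw [hy]
  refine congrArg _ (Finset.prod_congr rfl fun i _ => ?_)
  rw [hz, ← mul_assoc, div_mul_cancel₀ _ hm]

theorem g6_prod (Z : Sub k (Amb.one σ)) (hj : j ≤ N) :
    ∃ T : Sub k ((Amb.one σ).sum (PN N)), sdim T = sdim Z + j ∧
      (∀ p, p ∈ T ↔ (Crd.inl k _ _).pr p ∈ Z ∧
        ∀ a : Fin (N + 1), j < a → crd ((Crd.inr k _ _).pr p) a = 0) ∧
      ∀ a : Fin (N + 1), (a : ℕ) ≤ j →
        ¬ Van (T : Set (((Amb.one σ).sum (PN N)).Pt k)) (X ⟨Sum.inr (), a⟩) := by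
  obtain ⟨L, hL, hd⟩ := exists_lin (k := k) (Finset.Iic (⟨j, by omega⟩ : Fin (N + 1)))
    ⟨0, Finset.mem_Iic.2 (Fin.zero_le _)⟩
  obtain ⟨T, hT, hd'⟩ := exists_prod Z L
  rw [Fin.card_Iic] at hd
  have hL' : ∀ z, z ∈ L ↔ ∀ a : Fin (N + 1), j < a → crd z a = 0 := fun z => by
    rw [hL]
    refine forall_congr' fun a => ?_
    rw [Finset.mem_Iic, not_le, Fin.lt_def]
  refine ⟨T, by simp only at hd; omega, fun p => by rw [hT, hL'], fun a ha hv => ?_⟩
  obtain ⟨x, hx⟩ := Z.isIrreducible.nonempty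
  obtain ⟨z, hz, hz'⟩ := g2b_pt (k := k) a
  have := hv (mkPt x z) ((hT _).2 ⟨hx, (hL' _).2 fun i hi => hz' i (by rintro rfl; omega)⟩)
  rw [ev_X] at this
  exact hz this

omit [IsAlgClosed k] in
theorem g6_pt (Z : Sub k (Amb.one σ)) (w : σ → ℕ) (N j : ℕ) :
    ∃ u ∈ Tw w N j (Z : Set ((Amb.one σ).Pt k)), ∀ a : Fin (N + 1), (a : ℕ) ≤ j → zc u a ≠ 0 := by
  obtain ⟨x, hx⟩ := Z.isIrreducible.nonempty
  obtain ⟨z, μ, hμ, e⟩ := exists_pt (k := k) (P := PN N)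
    (fun s => if ((show Fin (N + 1) from s.2 : Fin (N + 1)) : ℕ) ≤ j then 1 else 0)
    fun _ => ⟨(0 : Fin (N + 1)), by simp⟩
  have hz : ∀ a : Fin (N + 1), crd z a = μ () * if (a : ℕ) ≤ j then 1 else 0 :=
    fun a => congrFun e (vr a)
  obtain ⟨u, h1, h2⟩ := rel_exists w x z
  refine ⟨u, ⟨⟨x, hx, h2⟩, fun a ha => ?_⟩, fun a ha => ?_⟩
  · rw [zc_eq, h1, hz, if_neg (by omega), mul_zero]
  · rw [zc_eq, h1, hz, if_pos ha, mul_one]
    exact hμ ()

theorem tw_chart (hZ : GSt (wl w) (Z : Set ((Amb.one σ).Pt k))) (hj : j ≤ N) {a₀ : Fin (N + 1)}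
    (ha : (a₀ : ℕ) ≤ j) : ∃ T : Sub k (AT w N), sdim T ≤ sdim Z + j ∧
      (T : Set ((AT w N).Pt k)) ⊆ Tw w N j Z ∧ ∀ u ∈ Tw w N j Z, zc u a₀ ≠ 0 → u ∈ T := by
  obtain ⟨W, hW⟩ : ∃ W, ∀ v, w v ≤ W := by
    obtain ⟨W, hW⟩ := (Set.finite_range w).bddAbove
    exact ⟨W, fun v => hW ⟨v, rfl⟩⟩
  obtain ⟨T₀, hd, hT, hv⟩ := g6_prod Z hj
  let xv : σ → ((Amb.one σ).sum (PN N)).V := fun v => ⟨Sum.inl (), v⟩
  let zw : Fin (N + 1) → ((Amb.one σ).sum (PN N)).V := fun a => ⟨Sum.inr (), a⟩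
  let G : TI w N → MvPolynomial ((Amb.one σ).sum (PN N)).V k := fun t =>
    X (xv t.1) * (∏ i, X (zw (t.2 i))) * X (zw a₀) ^ (W - w t.1)
  let F : (AT w N).V → MvPolynomial ((Amb.one σ).sum (PN N)).V k :=
    Amb.elim (fun s => X (zw s.2)) (fun s => G s.2)
  let b : (AT w N).ι → ((Amb.one σ).sum (PN N)).ι →₀ ℕ :=
    Sum.elim (fun _ => Finsupp.single (Sum.inr ()) 1)
      (fun _ => Finsupp.single (Sum.inl ()) 1 + W • Finsupp.single (Sum.inr ()) 1)
  have hG : ∀ t, IsForm (G t)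
      (Finsupp.single (Sum.inl ()) 1 + W • Finsupp.single (Sum.inr ()) 1) := by
    intro t
    have h1 : IsForm (k := k) (∏ i, X (zw (t.2 i)))
        (∑ _i : Fin (w t.1), Finsupp.single (Sum.inr ()) 1) :=
      IsWeightedHomogeneous.prod _ _ _ fun i _ => IsForm.X (zw (t.2 i))
    have h2 : IsForm (k := k) (X (zw a₀) ^ (W - w t.1))
        ((W - w t.1) • Finsupp.single (Sum.inr ()) 1) :=
      IsWeightedHomogeneous.pow (IsForm.X (zw a₀)) _
    have h3 := ((IsForm.X (k := k) (xv t.1)).mul h1).mul h2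
    have h4 : ∀ c d : ((Amb.one σ).sum (PN N)).ι →₀ ℕ,
        c + ∑ _i : Fin (w t.1), d + (W - w t.1) • d = c + W • d := fun c d => by
      ext i
      have := hW t.1
      simp only [Finset.sum_const, Finset.card_univ, Fintype.card_fin, Finsupp.add_apply,
        Finsupp.smul_apply, smul_eq_mul]
      rw [add_assoc, ← add_mul, Nat.add_sub_cancel' this]
    exact (congrArg (IsForm (G t)) (h4 _ _)).mp h3
  have hF : ∀ s, IsForm (F s) (b s.1) := by
    rintro ⟨i | i, s⟩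
    · exact IsForm.X (zw s)
    · exact hG s
  have e1 : ∀ p a, ev p (X (zw a)) = crd ((Crd.inr k (Amb.one σ) (PN N)).pr p) a :=
    fun p a => ev_X _ _
  have e2 : ∀ p v a, ev p (G ⟨v, a⟩) = crd ((Crd.inl k (Amb.one σ) (PN N)).pr p) v *
      (∏ i, crd ((Crd.inr k (Amb.one σ) (PN N)).pr p) (a i)) *
        crd ((Crd.inr k (Amb.one σ) (PN N)).pr p) a₀ ^ (W - w v) := fun p v a => by
    simp only [G, ev_eq, map_mul, map_prod, map_pow, eval_X]
    rfl
  obtain ⟨T, h1, h2, h3⟩ := g6_rimg T₀ hF (IsForm.X (zw a₀)) (hv a₀ ha) (by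
    rintro p - hp (i | i)
    · exact ⟨a₀, hp⟩
    · obtain ⟨v, hv⟩ := crd_ne ((Crd.inl k (Amb.one σ) (PN N)).pr p)
      rw [e1] at hp
      refine ⟨(⟨v, fun _ => a₀⟩ : TI w N), ?_⟩
      have := e2 p v fun _ => a₀
      exact this ▸ mul_ne_zero (mul_ne_zero hv (Finset.prod_ne_zero_iff.2 fun _ _ => hp))
        (pow_ne_zero _ hp))
  refine ⟨T, hd ▸ h1, h3 _ (tw_closed Z.isClosed hZ N j) fun p hp h0 y μ hy => ?_,
    fun u hu h0 => ?_⟩
  · rw [e1] at h0
    obtain ⟨hp1, hp2⟩ := (hT p).1 hp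
    have hz : ∀ a, zc y a = μ (Sum.inl ()) * crd ((Crd.inr k (Amb.one σ) (PN N)).pr p) a :=
      fun a => (hy (zv w a)).trans (congrArg _ (e1 p a))
    refine ⟨⟨_, hp1, g6_rel (μ := μ (Sum.inr ()) *
      crd ((Crd.inr k (Amb.one σ) (PN N)).pr p) a₀ ^ W) (inv_ne_zero h0) hz fun v a => ?_⟩,
      fun a ha => by rw [hz, hp2 a ha, mul_zero]⟩
    have := (hy (yv v a)).trans (congrArg _ (e2 p v a))
    refine this.trans ?_
    rw [Finset.prod_mul_distrib, Finset.prod_const, Finset.card_univ, Fintype.card_fin,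
      pow_sub₀ _ h0 (hW v), inv_pow]
    change μ (Sum.inr ()) * _ = _
    ring
  · obtain ⟨⟨x₀, hx₀, μ, ν, hν, hr⟩, hu⟩ := hu
    obtain ⟨x, m, hm⟩ := act_exists (wl w) (mul_ne_zero hν h0) x₀
    have hx := hZ x₀ hx₀ _ (mul_ne_zero hν h0) x ⟨m, hm⟩
    have hm0 := G1_mu hm ()
    have hm' : ∀ v, crd x v = m () * (ν * zc u a₀) ^ w v * crd x₀ v := fun v => hm (vr v)
    refine h2 (mkPt x ((Crd.inl k (PN N) (Amb.one (TI w N))).pr u)) ((hT _).2 ⟨hx, hu⟩) u
      (Sum.elim (fun _ => 1) fun _ => μ / (m () * zc u a₀ ^ W)) ?_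
    rintro ⟨i | i, s⟩
    · exact ((one_mul _).trans (e1 (mkPt x ((Crd.inl k (PN N) (Amb.one (TI w N))).pr u)) s)).symm
    · obtain ⟨v, a⟩ := s
      refine (hr v a).trans (Eq.trans ?_ (congrArg _ (e2 _ v a).symm))
      change _ = μ / (m () * zc u a₀ ^ W) *
        (crd x v * (∏ i, zc u (a i)) * zc u a₀ ^ (W - w v))
      rw [Finset.prod_mul_distrib, Finset.prod_const, Finset.card_univ, Fintype.card_fin,
        pow_sub₀ _ h0 (hW v), hm', mul_pow]
      field_simp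

theorem g6_T (hZ : GSt (wl w) (Z : Set ((Amb.one σ).Pt k))) (hj : j ≤ N) :
    ∃ T : Sub k (AT w N), sdim T ≤ sdim Z + j ∧ (T : Set ((AT w N).Pt k)) = Tw w N j Z := by
  obtain ⟨T, h1, h2, h3⟩ := tw_chart hZ hj (a₀ := 0) (Nat.zero_le j)
  refine ⟨T, h1, h2.antisymm fun u hu => ?_⟩
  obtain ⟨a, ha⟩ := zc_ne u
  have haj : (a : ℕ) ≤ j := not_lt.1 fun h => ha (hu.2 a h)
  obtain ⟨T', -, h4, h5⟩ := tw_chart hZ hj haj
  obtain ⟨u', hu', h6⟩ := g6_pt Z w N j
  refine le_of_open (Z := T') (T := T) (IsForm.X (zv w 0)) (fun hv => ?_)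
    (fun y hy h0 => h3 y (h4 hy) ?_) (h5 u hu ha)
  · have := hv u' (h5 u' hu' (h6 a haj))
    rw [ev_X] at this
    exact h6 0 (Nat.zero_le j) this
  · rw [ev_X] at h0
    exact h0

theorem tw_irr (hZ : GSt (wl w) (Z : Set ((Amb.one σ).Pt k))) (hj : j ≤ N) :
    IsIrreducible (Tw w N j (Z : Set ((Amb.one σ).Pt k))) := by
  obtain ⟨T, -, h⟩ := g6_T hZ hj
  rw [← h]
  exact T.isIrreducible

/-- The twisted family with fibre `Z` as a subvariety. -/
def twS (Z : Sub k (Amb.one σ)) (hZ : GSt (wl w) (Z : Set ((Amb.one σ).Pt k))) (hj : j ≤ N) :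
    Sub k (AT w N) := ⟨Tw w N j Z, tw_irr hZ hj, tw_closed Z.isClosed hZ N j⟩

theorem mem_twS {hZ : GSt (wl w) (Z : Set ((Amb.one σ).Pt k))} {hj : j ≤ N} {u : (AT w N).Pt k} :
    u ∈ twS Z hZ hj ↔ u ∈ Tw w N j Z := Iff.rfl

theorem tw_sdim (hZ : GSt (wl w) (Z : Set ((Amb.one σ).Pt k))) (hj : j ≤ N) :
    sdim (twS Z hZ hj) = sdim Z + j := by
  refine le_antisymm ?_ ?_
  · obtain ⟨T, h1, h⟩ := g6_T hZ hj
    have e : twS Z hZ hj = T := SetLike.coe_injective h.symm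
    rw [e]
    exact h1
  obtain ⟨T₀, hd, hT, hv⟩ := g6_prod Z hj
  let F : ((Amb.one σ).sum (PN N)).V → MvPolynomial (AT w N).V k :=
    Amb.elim (fun s => X (yv (show σ from s.2) fun _ => 0)) (fun s => X (zv w s.2))
  let b : ((Amb.one σ).sum (PN N)).ι → (AT w N).ι →₀ ℕ :=
    Sum.elim (fun _ => Finsupp.single (Sum.inr ()) 1) (fun _ => Finsupp.single (Sum.inl ()) 1)
  have hF : ∀ s, IsForm (F s) (b s.1) := by
    rintro ⟨i | i, s⟩
    · exact IsForm.X (yv (show σ from s) fun _ => 0)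
    · exact IsForm.X (zv w s)
  have e1 : ∀ (u : (AT w N).Pt k) a, ev u (X (zv w a)) = zc u a := fun p a => ev_X _ _
  have e2 : ∀ (u : (AT w N).Pt k) v a, ev u (X (yv v a)) = yc u v a := fun p v a => ev_X _ _
  obtain ⟨T, h1, h2, -⟩ := g6_rimg (twS Z hZ hj) hF (IsForm.X (zv w 0)) (by
    obtain ⟨u, hu, h⟩ := g6_pt Z w N j
    exact fun hv => h 0 (Nat.zero_le j) ((e1 u 0).symm.trans (hv u hu))) (by
    rintro u ⟨⟨x, -, μ, ν, hν, hr⟩, -⟩ hu (i | i)
    · obtain ⟨v, hv⟩ := crd_ne x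
      have hμ : μ ≠ 0 := by
        obtain ⟨v, a, h⟩ := yc_ne u
        rw [hr] at h
        exact left_ne_zero_of_mul (left_ne_zero_of_mul h)
      rw [e1] at hu
      refine ⟨v, fun h => ?_⟩
      have := ((hr v fun _ => 0).symm.trans (e2 u v fun _ => 0).symm).trans h
      exact mul_ne_zero (mul_ne_zero hμ hv)
        (Finset.prod_ne_zero_iff.2 fun _ _ => mul_ne_zero hν hu) this
    · exact ⟨(0 : Fin (N + 1)), hu⟩)
  refine hd.ge.trans ((sdim_mono ?_).trans h1)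
  refine le_of_open (IsForm.X _) (hv 0 (Nat.zero_le j)) fun p hp h0 => ?_
  obtain ⟨hp1, hp2⟩ := (hT p).1 hp
  set x := (Crd.inl k (Amb.one σ) (PN N)).pr p
  set z := (Crd.inr k (Amb.one σ) (PN N)).pr p
  have h0' : crd z 0 ≠ 0 := by
    rw [ev_X] at h0
    exact h0
  let G : TI w N → k := fun t => crd x t.1 * ∏ i, ((crd z 0)⁻¹ * crd z (t.2 i))
  have hG : ∀ v, G ⟨v, fun _ => 0⟩ = crd x v := fun v => by
    simp only [G, inv_mul_cancel₀ h0', Finset.prod_const_one, mul_one]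
  obtain ⟨u, μ, hμ, e⟩ := exists_pt (k := k) (P := AT w N)
    (Amb.elim (fun s => crd z s.2) (fun s => G s.2)) (by
      rintro (i | i)
      · exact ⟨(0 : Fin (N + 1)), h0'⟩
      · obtain ⟨v, hv⟩ := crd_ne x
        exact ⟨(⟨v, fun _ => 0⟩ : TI w N), fun h => hv ((hG v).symm.trans h)⟩)
  have hz : ∀ a, zc u a = μ (Sum.inl ()) * crd z a := fun a => congrFun e (zv w a)
  have hy : ∀ v a, yc u v a = μ (Sum.inr ()) * G ⟨v, a⟩ := fun v a => congrFun e (yv v a)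
  refine h2 u ⟨⟨x, hp1, g6_rel (μ := μ (Sum.inr ())) (inv_ne_zero h0') hz fun v a => ?_⟩,
    fun a ha => by rw [hz, hp2 a ha, mul_zero]⟩ p
    (Sum.elim (fun _ => (μ (Sum.inr ()))⁻¹) fun _ => (μ (Sum.inl ()))⁻¹) ?_
  · rw [hy, mul_assoc]
  · rintro ⟨i | i, s⟩
    · refine Eq.trans ?_ (congrArg _ (e2 u s fun _ => 0).symm)
      rw [hy, hG]
      exact (inv_mul_cancel_left₀ (hμ _) _).symm
    · refine Eq.trans ?_ (congrArg _ (e1 u s).symm)
      rw [hz]
      exact (inv_mul_cancel_left₀ (hμ _) _).symm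

theorem twV_irr {X : Var k (Amb.one σ)} (hX : IsIrreducible X.pts) (hs : GSt (wl w) X.pts)
    (N : ℕ) : IsIrreducible (twV X hs N).pts := tw_irr (Z := X.top hX) hs le_rfl

theorem tw_comp (hc : IsClosed A) (hA : GSt (wl w) A) {U : Sub k (AT w N)}
    (hU : (U : Set ((AT w N).Pt k)) ⊆ Tw w N N A) : ∃ Z, Mx A Z ∧
      (U : Set ((AT w N).Pt k)) ⊆ Tw w N N Z ∧ ∀ u ∈ U, ∀ x, Rel u x → x ∈ Z := by
  obtain ⟨Z, hZ, h⟩ := sub_finite_union (U := U) (mx_finite hc).toFinset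
    (fun Z => Tw w N N (Z : Set ((Amb.one σ).Pt k)))
    (fun Z hZ => tw_closed Z.isClosed (gst_mx hc hA ((mx_finite hc).mem_toFinset.1 hZ)) N N)
    fun u hu => by
      obtain ⟨x, hx, hr⟩ := mem_Tw.1 (hU hu)
      obtain ⟨Z, hZ, h⟩ := exists_mx (U := {x}) hc (Set.singleton_subset_iff.2 hx)
      exact ⟨Z, (mx_finite hc).mem_toFinset.2 hZ, mem_Tw.2 ⟨x, h (Set.mem_singleton x), hr⟩⟩
  have hZ' : Mx A Z := (mx_finite hc).mem_toFinset.1 hZ
  refine ⟨Z, hZ', h, fun u hu x hr => ?_⟩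
  obtain ⟨x', hx', hr'⟩ := mem_Tw.1 (h hu)
  exact Rel.mem (gst_mx hc hA hZ') hx' hr' hr

theorem tw_img (hZ : GSt (wl w) (Z : Set ((Amb.one σ).Pt k))) (N : ℕ) :
    sdim ((Crd.inl k _ _).img (twS Z hZ (le_refl N))) = N := by
  have e : (Crd.inl k _ _).img (twS Z hZ (le_refl N)) = (Var.full k (PN N)).top (pn_irr N) := by
    refine le_antisymm (fun _ _ => trivial) fun z _ => ?_
    obtain ⟨x, hx⟩ := Z.isIrreducible.nonempty
    obtain ⟨u, h1, h2⟩ := rel_exists w x z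
    rw [← h1]
    exact (Crd.inl k _ _).mem_img (Z := twS Z hZ (le_refl N)) (mem_Tw.2 ⟨x, hx, h2⟩)
  rw [e, Var.sdim_top, pn_dim]

end Pool.Agent.Work.MP_ffcd14_ag.Gm
end

-- merged part: Pool.Agent.Work.MP_ffcd14_ag.Gm.G8
section
/-!
# The closure of the graph of the truncation

Plan.  For `a₀` let `G a₀ v` be `if w v = m then X (yv v fun _ => a₀) else 0`.  `exists_gc` for `twS Z hZ le_rfl` and
`G 0`; it is defined there (`rel_exists` for the point `x ∈ Z` of level `m` and a point `z` with `z 0 ≠ 0`,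
`rel_zero`, `Rel.eqn`).  `OnGraph.sdim_eq`, `tw_sdim`.  For `γ ∈ Γ` choose `a₀` with `zc (inl γ) a₀ ≠ 0`; by
`OnGraph.change` and `Rel.eqn2`, `Γ` lies on the graph of `G a₀`, and `OnGraph.eq_mk` gives the last
claim (`Tr.ne`, `exists_rep_eq`, `crd_ext`).  `Γ ⊆ prod`: where some `G 0 v` is not zero the truncation of `x` exists
(`exists_tr`), so the second component lies in `F`; `subset_of_van`, `van_of_open`, `Crd.van_img`.
-/

open MvPolynomial Topology TopologicalSpace Filter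

namespace Pool.Agent.Work.MP_ffcd14_ag.Gm

universe u

variable {k : Type u} [Field k] [IsAlgClosed k] {σ : Type} [Finite σ] {w : σ → ℕ} {m : ℕ}

section Aux

variable {N : ℕ} {u : (AT w N).Pt k} {x y : (Amb.one σ).Pt k} {a₀ : Fin (N + 1)}

/-- The forms which define the truncation in the chart `a₀`. -/
noncomputable def g8G (k : Type u) [Field k] (w : σ → ℕ) (m : ℕ) {N : ℕ} (a₀ : Fin (N + 1))
    (s : (Amb.one σ).V) : MvPolynomial (AT w N).V k :=
  if w s.2 = m then X (yv s.2 fun _ => a₀) else 0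

/-- Their degree. -/
noncomputable def g8b (w : σ → ℕ) (N : ℕ) (_ : (Amb.one σ).ι) : (AT w N).ι →₀ ℕ :=
  Finsupp.single (Sum.inr ()) 1

omit [IsAlgClosed k] in
theorem g8_form (a₀ : Fin (N + 1)) (s : (Amb.one σ).V) :
    IsForm (g8G k w m a₀ s) (g8b w N s.1) := by
  unfold g8G
  split_ifs
  · exact IsForm.X _
  · exact isWeightedHomogeneous_zero k _ _

omit [IsAlgClosed k] in
theorem g8_ev (u : (AT w N).Pt k) (a₀ : Fin (N + 1)) (j : (Amb.one σ).ι) (v : σ) :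
    ev u (g8G k w m a₀ ⟨j, v⟩) = if w v = m then yc u v fun _ => a₀ else 0 := by
  unfold g8G
  split_ifs
  · exact ev_X _ _
  · exact map_zero (eval (rp u))

omit [IsAlgClosed k] in
theorem g8_ne (h : Rel u x) (hz : zc u a₀ ≠ 0) {v : σ} (hv : crd x v ≠ 0) :
    yc u v (fun _ => a₀) ≠ 0 := by
  obtain ⟨μ, ν, hν, h⟩ := h
  obtain ⟨v', a', h'⟩ := yc_ne u
  rw [h v' a'] at h'
  rw [h]
  exact mul_ne_zero (mul_ne_zero (left_ne_zero_of_mul (left_ne_zero_of_mul h')) hv)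
    (Finset.prod_ne_zero_iff.2 fun _ _ => mul_ne_zero hν hz)

omit [IsAlgClosed k] in
theorem g8_tr {T : Set (((AT w N).sum (Amb.one σ)).Pt k)} (hT : OnGraph T (g8G k w m a₀))
    {γ : ((AT w N).sum (Amb.one σ)).Pt k} (hγ : γ ∈ T) (h : Rel ((Crd.inl k _ _).pr γ) x) {v : σ}
    (hv : ev ((Crd.inl k _ _).pr γ) (g8G k w m a₀ (vr v)) ≠ 0) :
    Tr w m x ((Crd.inr k _ _).pr γ) := by
  obtain ⟨c, -, hc⟩ := exists_rep_eq (hT.eq_mk hγ () (Function.ne_iff.2 ⟨v, hv⟩))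
  obtain ⟨μ, ν, -, h⟩ := h
  refine ⟨c * μ * (ν * zc ((Crd.inl k _ _).pr γ) a₀) ^ m, fun v' => (hc v').trans ?_⟩
  rw [g8_ev]
  split_ifs with e
  · rw [h, Finset.prod_const, Finset.card_univ, Fintype.card_fin, e]
    ring
  · exact mul_zero _

end Aux

theorem exists_gam (X : Var k (Amb.one σ)) (hs : GSt (wl w) X.pts) (F : Var k (Amb.one σ))
    {Z : Sub k (Amb.one σ)} (hZ : GSt (wl w) (Z : Set ((Amb.one σ).Pt k)))
    (hX : (Z : Set ((Amb.one σ).Pt k)) ⊆ X.pts) (h0 : ∃ x ∈ Z, Lv w m x)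
    (hF : ∀ x ∈ Z, ∀ y, Tr w m x y → y ∈ F.pts) (N : ℕ) :
    ∃ Γ : Sub k ((AT w N).sum (Amb.one σ)),
      (Γ : Set (((AT w N).sum (Amb.one σ)).Pt k)) ⊆ ((twV X hs N).prod F).pts ∧
      (Crd.inl k _ _).img Γ = twS Z hZ le_rfl ∧ sdim Γ = sdim Z + N ∧
      ∀ γ ∈ Γ, ∀ x y, Rel ((Crd.inl k _ _).pr γ) x → Tr w m x y → (Crd.inr k _ _).pr γ = y := by
  have hd : DefOn (twS Z hZ (le_refl N) : Set ((AT w N).Pt k)) (g8G k w m 0) := fun j => by
    obtain ⟨x, hx, hl⟩ := h0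
    obtain ⟨z, μ, hμ, hz⟩ := exists_pt (k := k) (P := PN N) (fun _ => 1)
      fun _ => ⟨(0 : Fin (N + 1)), one_ne_zero⟩
    obtain ⟨u, hu, hr⟩ := rel_exists w x z
    obtain ⟨v, hv⟩ := crd_ne x
    refine ⟨v, fun h => ?_⟩
    have h1 := h u (mem_Tw.2 ⟨x, hx, hr⟩)
    rw [g8_ev, if_pos (not_not.1 fun e => hv (hl v e))] at h1
    refine g8_ne hr ?_ hv h1
    rw [zc_eq, hu, ← rp_vr, hz]
    exact mul_ne_zero (hμ _) one_ne_zero
  obtain ⟨Γ, hi, hΓ⟩ := exists_gc (twS Z hZ (le_refl N)) (g8_form (m := m) 0) hd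
  have hm : ∀ γ ∈ Γ, (Crd.inl k _ _).pr γ ∈ Tw w N N (Z : Set ((Amb.one σ).Pt k)) := fun γ hγ => by
    have h1 := (Crd.inl k _ _).mem_img hγ
    rwa [hi] at h1
  have ha : ∀ a₀, OnGraph (Γ : Set (((AT w N).sum (Amb.one σ)).Pt k)) (g8G k w m a₀) := fun a₀ => by
    refine hΓ.change (g8_form 0) (g8_form a₀) (hi ▸ hd) fun j s t u hu => ?_
    rw [hi] at hu
    obtain ⟨x, -, hr⟩ := mem_Tw.1 hu
    rw [ev_eq, map_sub, map_mul, map_mul]
    simp only [← ev_eq, g8_ev]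
    split_ifs with e1 e2 e2
    · exact sub_eq_zero.2 (hr.eqn2 (e1.trans e2.symm) 0 a₀)
    all_goals simp
  refine ⟨Γ, fun γ hγ => ⟨tw_mono hX le_rfl (hm γ hγ), ?_⟩, hi, ?_, fun γ hγ x y hr ht => ?_⟩
  · obtain ⟨v, hv⟩ := hd ()
    have hb := (Crd.inl k (AT w N) (Amb.one σ)).form (g8_form (m := m) (0 : Fin (N + 1)) (vr v))
    refine subset_of_van (F.closed.preimage (Crd.inr k (AT w N) (Amb.one σ)).continuous)
      (fun f a hf h => van_of_open hf hb (fun h' => hv ?_) fun γ' hγ' h' => h γ' ?_) hγ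
    · rw [← hi]
      exact ((Crd.inl k _ _).van_img (g8_form (m := m) (0 : Fin (N + 1)) (vr v))).2 h'
    · obtain ⟨x, hx, hr⟩ := mem_Tw.1 (hm γ' hγ')
      rw [Crd.ev_rename] at h'
      exact hF x hx _ (g8_tr hΓ hγ' hr h')
  · rw [hΓ.sdim_eq (g8_form 0) (hi ▸ hd), hi, tw_sdim]
  · obtain ⟨v, e, hv⟩ := ht.ne
    obtain ⟨a₀, hz⟩ := zc_ne ((Crd.inl k _ _).pr γ)
    refine (g8_tr (ha a₀) hγ hr (v := v) ?_).unique ht
    rw [vr, g8_ev, if_pos e]
    exact g8_ne hr hz hv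

end Pool.Agent.Work.MP_ffcd14_ag.Gm
end

-- merged part: Pool.Agent.Work.MP_ffcd14_ag.Gm.G9
section
/-!
# The family of the translates of a subvariety

Plan.  `gst_of_open`: `gst_iff`, `act_exists`, `GAct.ev`, `van_of_open`.
`exists_sweep`: `T₀ = Z × ℙ¹` (`exists_prod`, `Var.top`, `pn_dim`), `W` a bound for `w`; `exists_rimg` for the
forms `x s * s₀ ^ w s * s₁ ^ (W - w s)` and `s₀`, `s₁`.  Conversely, for a form `f` vanishing on `Z` the form
`f (x s * s₁ ^ w s * s₀ ^ (W - w s))` vanishes on `T` (its pull-back is `f` times a monomial, `IsForm.scale`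
or `van_of_open`); at a point `p ∈ T` with `s₀ s₁ ≠ 0` this says that the translate of `inl p` by
`(s₀ / s₁)⁻¹` lies in `Z` (`act_exists`, `GAct.symm`, `subset_of_van`).
-/

open MvPolynomial Topology TopologicalSpace Filter

namespace Pool.Agent.Work.MP_ffcd14_ag.Gm

universe u

variable {k : Type u} [Field k] [IsAlgClosed k] {P : Amb}

omit [IsAlgClosed k] in
theorem gst_of_open {w : P.V → ℕ} {Z : Sub k P} {g : MvPolynomial P.V k} {a : P.ι →₀ ℕ}
    (hg : IsForm g a) (hZ : ¬ Van (Z : Set (P.Pt k)) g)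
    (h : ∀ x ∈ Z, ev x g ≠ 0 → ∀ τ : k, τ ≠ 0 → ∀ y, GAct w τ x y → y ∈ Z) :
    GSt w (Z : Set (P.Pt k)) := by
  refine (gst_iff Z.isClosed).2 fun τ hτ f b hf hv =>
    van_of_open (twist_form hf) hg hZ fun x hx h0 => ?_
  obtain ⟨y, hy⟩ := act_exists w hτ x
  obtain ⟨c, hc, e⟩ := hy.ev hf
  exact (mul_eq_zero.1 (e.symm.trans (hv y (h x hx h0 τ hτ y hy)))).resolve_left hc

omit [IsAlgClosed k] in
theorem GAct.comm {w w' : P.V → ℕ} {τ τ' : k} {x y x' y' : P.Pt k} (h : GAct w τ x y)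
    (h1 : GAct w' τ' y y') (hτ : τ' ≠ 0) (h2 : GAct w' τ' x x') : GAct w τ x' y' := by
  obtain ⟨μ, h⟩ := h
  obtain ⟨ν, h1⟩ := h1
  obtain ⟨ρ, h2⟩ := h2.symm hτ
  refine ⟨fun i => ν i * μ i * ρ i, fun s => ?_⟩
  have e : τ' ^ w' s * τ'⁻¹ ^ w' s = 1 := by rw [← mul_pow, mul_inv_cancel₀ hτ, one_pow]
  rw [h1, h, h2]
  linear_combination ν s.1 * μ s.1 * ρ s.1 * τ ^ w s * rp x' s * e

/-- The variables of the line. -/
def sv (P : Amb) (a : Fin 2) : (P.sum (PN 1)).V := ⟨Sum.inr (), a⟩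

omit [IsAlgClosed k] in
theorem G9_ev {Q : Amb} (x : P.Pt k) (F : Q.V → MvPolynomial P.V k) (g : MvPolynomial Q.V k) :
    ev x (aeval F g) = eval (fun s => ev x (F s)) g := by
  induction g using MvPolynomial.induction_on with
  | C a => simp [ev_eq]
  | add p q hp hq => rw [map_add, map_add, ← hp, ← hq, ev_eq, map_add, ev_eq, ev_eq]
  | mul_X p s h => rw [map_mul, map_mul, ev_mul, h, aeval_X, eval_X]

omit [IsAlgClosed k] in
theorem G9_mk {σ : Type} (y : Projectivization k (σ → k)) {v : σ → k} {c : k} (hc : c ≠ 0)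
    (h : ∀ s, v s = c * y.rep s) : ∃ h, y = Projectivization.mk k v h := by
  have e : v = c • y.rep := funext h
  refine ⟨e ▸ smul_ne_zero hc y.rep_nonzero, ?_⟩
  conv_lhs => rw [← y.mk_rep]
  exact ((Projectivization.mk_eq_mk_iff' k _ _ _ _).2 ⟨c, e.symm⟩).symm

omit [IsAlgClosed k] in
theorem G9_pow (j : P.ι) (a b : P.σ j) {n W : ℕ} (h : n ≤ W) :
    IsForm (X ⟨j, a⟩ ^ n * X ⟨j, b⟩ ^ (W - n) : MvPolynomial P.V k) (W • Finsupp.single j 1) := by
  have h1 := IsForm.mul (k := k) (IsWeightedHomogeneous.pow (IsForm.X (⟨j, a⟩ : P.V)) n)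
    (IsWeightedHomogeneous.pow (IsForm.X (⟨j, b⟩ : P.V)) (W - n))
  rwa [← add_nsmul, Nat.add_sub_cancel' h] at h1

/-- The forms of the twisted coordinates. -/
noncomputable def G9_F (k : Type u) [Field k] (w : P.V → ℕ) (W : ℕ) (a b : Fin 2) (s : P.V) :
    MvPolynomial (P.sum (PN 1)).V k :=
  X ⟨Sum.inl s.1, s.2⟩ * (X (sv P a) ^ w s * X (sv P b) ^ (W - w s))

omit [IsAlgClosed k] in
theorem G9_form {w : P.V → ℕ} {W : ℕ} (hW : ∀ s, w s ≤ W) (a b : Fin 2) (s : P.V) :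
    IsForm (G9_F k w W a b s)
      (Finsupp.single (Sum.inl s.1) 1 + W • Finsupp.single (Sum.inr ()) 1) := by
  exact (IsForm.X _).mul (G9_pow (P := P.sum (PN 1)) (Sum.inr ()) a b (hW s))

omit [IsAlgClosed k] in
theorem G9_val (w : P.V → ℕ) (W : ℕ) (a b : Fin 2) (s : P.V) (p : (P.sum (PN 1)).Pt k) :
    ev p (G9_F k w W a b s) = rp ((Crd.inl k _ _).pr p) s *
      (rp p (sv P a) ^ w s * rp p (sv P b) ^ (W - w s)) := by
  rw [G9_F, ev_eq, map_mul, map_mul, map_pow, map_pow, eval_X, eval_X, eval_X]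
  rfl

omit [IsAlgClosed k] in
theorem G9_val' {w : P.V → ℕ} {W : ℕ} (hW : ∀ s, w s ≤ W) (a b : Fin 2) (s : P.V)
    {p : (P.sum (PN 1)).Pt k} (hb : rp p (sv P b) ≠ 0) :
    ev p (G9_F k w W a b s) = rp p (sv P b) ^ W *
      ((rp p (sv P a) / rp p (sv P b)) ^ w s * rp ((Crd.inl k _ _).pr p) s) := by
  obtain ⟨n, rfl⟩ := Nat.exists_eq_add_of_le (hW s)
  rw [G9_val, Nat.add_sub_cancel_left, div_pow, pow_add]
  field_simp

theorem exists_sweep (w : P.V → ℕ) (Z : Sub k P) : ∃ T : Sub k (P.sum (PN 1)),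
    sdim T ≤ sdim Z + 1 ∧ ¬ Van (T : Set ((P.sum (PN 1)).Pt k)) (X (sv P 0) * X (sv P 1)) ∧
      ∀ p, rp p (sv P 0) ≠ 0 → rp p (sv P 1) ≠ 0 → (p ∈ T ↔
        ∃ x ∈ Z, GAct w (rp p (sv P 0) / rp p (sv P 1)) x ((Crd.inl k _ _).pr p)) := by
  obtain ⟨T₀, t1, t2⟩ := exists_prod Z ((Var.full k (PN 1)).top (pn_irr 1))
  rw [Var.sdim_top, pn_dim] at t2
  obtain ⟨W, hW⟩ : ∃ W, ∀ s, w s ≤ W :=
    (Set.finite_range w).bddAbove.imp fun W h s => h ⟨s, rfl⟩
  let F : (P.sum (PN 1)).V → MvPolynomial (P.sum (PN 1)).V k :=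
    Amb.elim (G9_F k w W 0 1) fun s => X (sv P s.2)
  let b : (P.sum (PN 1)).ι → (P.sum (PN 1)).ι →₀ ℕ :=
    Sum.elim (fun i => Finsupp.single (Sum.inl i) 1 + W • Finsupp.single (Sum.inr ()) 1)
      fun j => Finsupp.single (Sum.inr j) 1
  have hF : ∀ s, IsForm (F s) (b s.1) := by
    rintro ⟨i | j, s⟩
    exacts [G9_form hW 0 1 ⟨i, s⟩, IsForm.X _]
  have hs : ∀ q a, ev q (F (sv P a)) = rp q (sv P a) := fun q a => ev_X q (sv P a)
  obtain ⟨z, hz⟩ := Z.isIrreducible.nonempty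
  obtain ⟨u, μ, hμ, hu⟩ := exists_pt (P := PN 1) (k := k) (fun _ => 1) fun _ =>
    ⟨(0 : Fin 2), one_ne_zero⟩
  have h0 : mkPt z u ∈ T₀ := (t1 _).2 ⟨hz, trivial⟩
  have h0' : ∀ a, rp (mkPt z u) (sv P a) ≠ 0 := fun a =>
    (congrFun hu (vr a)).trans_ne (mul_ne_zero (hμ _) one_ne_zero)
  obtain ⟨T, a1, a2, a3⟩ := exists_rimg (F := F) T₀ hF (by
    rintro (i | j)
    · obtain ⟨s, hs⟩ := G1_ne z i
      refine ⟨s, fun h => ?_⟩
      have := (G9_val w W 0 1 ⟨i, s⟩ _).symm.trans (h _ h0)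
      exact mul_ne_zero hs (mul_ne_zero (pow_ne_zero _ (h0' 0)) (pow_ne_zero _ (h0' 1))) this
    · exact ⟨(0 : Fin 2), fun h => h0' 0 ((hs _ 0).symm.trans (h _ h0))⟩)
  refine ⟨T, t2 ▸ a1, fun h => ?_, fun p p0 p1 => ⟨fun hp => ?_, ?_⟩⟩
  · have := (a2 _ _ ((IsForm.X _).mul (IsForm.X _))).1 h _ h0
    rw [map_mul, aeval_X, aeval_X, ev_mul, hs, hs] at this
    exact mul_ne_zero (h0' 0) (h0' 1) this
  · obtain ⟨x, hx⟩ := act_exists w (div_ne_zero p1 p0) ((Crd.inl k _ _).pr p)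
    refine ⟨x, subset_of_van (B := {x}) Z.isClosed (fun f a hf hv y hy => ?_) rfl,
      inv_div (rp p (sv P 1)) _ ▸ hx.symm (div_ne_zero p1 p0)⟩
    obtain ⟨c, -, e⟩ := hx.ev hf
    have h1 := (a2 _ _ (IsForm.aeval (b := fun i => b (Sum.inl i)) (G9_form hW 1 0) hf)).2
      (fun q hq => by
        have e1 : ∀ s, eval (fun s => ev q (F s)) (G9_F k w W 1 0 s) =
            (rp q (sv P 0) * rp q (sv P 1)) ^ W * rp ((Crd.inl k _ _).pr q) s := fun s => by
          obtain ⟨n, hn⟩ := Nat.exists_eq_add_of_le (hW s)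
          rw [G9_F, map_mul, map_mul, map_pow, map_pow, eval_X, eval_X, eval_X, hs, hs]
          refine (congrArg (· * _) (G9_val w W 0 1 s q)).trans ?_
          rw [hn, Nat.add_sub_cancel_left]
          ring
        rw [G9_ev, ← aeval_eq_eval, comp_aeval_apply]
        simp only [aeval_eq_eval, e1]
        rw [hf.eval_scale fun _ => (rp q (sv P 0) * rp q (sv P 1)) ^ W, ← ev_eq,
          hv _ ((t1 q).1 hq).1, mul_zero]) p hp
    rw [G9_ev] at h1
    simp only [G9_val' hW 1 0 _ p0] at h1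
    rw [hf.eval_scale fun _ => rp p (sv P 0) ^ W] at h1
    rw [hy, e, ev_eq, G1_eval, (mul_eq_zero.1 h1).resolve_left
      (chi_ne_zero (fun _ => pow_ne_zero _ p0) a), mul_zero]
  · rintro ⟨x, hx, ν, hν⟩
    refine a3 (mkPt x ((Crd.inr k _ _).pr p)) ((t1 _).2 ⟨hx, trivial⟩) p ?_
    rintro (i | j)
    · refine G9_mk _ (div_ne_zero (pow_ne_zero W p1) (G1_mu hν i)) fun s => ?_
      refine (G9_val' hW 0 1 ⟨i, s⟩ (p := mkPt x ((Crd.inr k _ _).pr p)) p1).trans ?_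
      refine Eq.trans ?_ (congrArg (_ * ·) (hν ⟨i, s⟩).symm)
      rw [mul_assoc, ← mul_assoc _ (ν _), div_mul_cancel₀ _ (G1_mu hν i)]
      rfl
    · exact G9_mk _ one_ne_zero fun s => (hs _ s).trans (one_mul _).symm

end Pool.Agent.Work.MP_ffcd14_ag.Gm
end
end

-- merged part: Pool.Agent.Work.MP_ffcd14_ag.Gm.Fin
section
-- merged part: Pool.Agent.Work.MP_ffcd14_ag.Gm.CD
section
/-! # Push-forward, correspondences and the ring of even classes -/

open MvPolynomial Topology TopologicalSpace Filter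

namespace Pool.Agent.Work.MP_ffcd14_ag.Gm

universe u v w

variable {k : Type u} [Field k] {K : Type v} [Field K] [CharZero K] {P P' Q S : Amb}
  (C : Weil.{u, v, w} k K)

instance (X : Var k P) : Module.Finite K (W.EE C X) :=
  have := (C.pd X).1
  Module.Finite.of_injective (W.vl C X).toLinearMap (W.vl_inj C X)

/-- The trace on even classes. -/
noncomputable def trK (X : Var k P) : W.EE C X →ₗ[K] K := W.trL C X ∘ₗ (W.vl C X).toLinearMap

omit [CharZero K] in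
theorem trK_apply (X : Var k P) (x : W.EE C X) : trK C X x = C.tr X (W.vl C X x) := rfl

theorem tau_trK (X : Var k P) {c : ℕ} {x : W.EE C X} (hx : x ∈ W.AA C X c) :
    (W.tau C X x : K) = trK C X x := W.tau_cast C X hx

theorem trK_qsmul (X : Var k P) (q : ℚ) (x : W.EE C X) : trK C X (q • x) = q * trK C X x := by
  rw [LinearMap.map_smul_of_tower, Rat.smul_def]

theorem pdK (X : Var k P) {x : W.EE C X} (h : ∀ y, trK C X (x * y) = 0) : x = 0 :=
  W.tau_pd0 C X fun z => by rw [W.tau_eq, ← trK_apply, h, map_zero]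

theorem pdK' (X : Var k P) {x x' : W.EE C X} (h : ∀ y, trK C X (x * y) = trK C X (x' * y)) :
    x = x' :=
  sub_eq_zero.1 (pdK C X fun y => by rw [sub_mul, map_sub, h, sub_self])

theorem exists_psh {X : Var k P} {Y : Var k Q} (φ : Hom X Y) :
    ∃ f : W.EE C X →ₗ[K] W.EE C Y, ∀ x y, trK C Y (f x * y) = trK C X (x * W.plK C φ y) := by
  let β : LinearMap.BilinForm K (W.EE C Y) := (LinearMap.mul K _).compr₂ (trK C Y)
  have hβ : β.Nondegenerate := ⟨fun x h => pdK C Y h, fun x h => pdK C Y fun y => by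
    rw [mul_comm]; exact h y⟩
  refine ⟨(β.toDual hβ).symm.toLinearMap ∘ₗ
    ((LinearMap.mul K _).compr₂ (trK C X)).compl₂ (W.plK C φ).toLinearMap, fun x y => ?_⟩
  exact LinearMap.BilinForm.apply_toDual_symm_apply (hB := hβ) _ y

/-- The push-forward. -/
noncomputable def psh {X : Var k P} {Y : Var k Q} (φ : Hom X Y) : W.EE C X →ₗ[K] W.EE C Y :=
  (exists_psh C φ).choose

theorem psh_tr {X : Var k P} {Y : Var k Q} (φ : Hom X Y) (x : W.EE C X) (y : W.EE C Y) :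
    trK C Y (psh C φ x * y) = trK C X (x * W.plK C φ y) := (exists_psh C φ).choose_spec x y

theorem psh_proj {X : Var k P} {Y : Var k Q} (φ : Hom X Y) (x : W.EE C X) (y : W.EE C Y) :
    psh C φ (x * W.plK C φ y) = psh C φ x * y :=
  pdK' C Y fun z => by rw [psh_tr, mul_assoc (psh C φ x), psh_tr, map_mul (W.plK C φ), mul_assoc]

theorem psh_qsmul {X : Var k P} {Y : Var k Q} (φ : Hom X Y) (q : ℚ) (x : W.EE C X) :
    psh C φ (q • x) = q • psh C φ x := LinearMap.map_smul_of_tower _ q x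

theorem plK_qsmul {X : Var k P} {Y : Var k Q} (φ : Hom X Y) (q : ℚ) (y : W.EE C Y) :
    W.plK C φ (q • y) = q • W.plK C φ y := map_smul (W.pl C φ) q y

theorem plK_comp {X : Var k P} {Y : Var k Q} {Z : Var k S} (φ : Hom X Y) (ψ : Hom Y Z)
    (χ : Hom X Z) (h : ∀ x, χ.toFun x = ψ.toFun (φ.toFun x)) (z : W.EE C Z) :
    W.plK C χ z = W.plK C φ (W.plK C ψ z) := W.pl_comp C φ ψ χ h z

theorem plK_AA {X : Var k P} {Y : Var k Q} (φ : Hom X Y) {c : ℕ} {y : W.EE C Y}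
    (hy : y ∈ W.AA C Y c) : W.plK C φ y ∈ W.AA C X c := W.AA_pl C φ hy

theorem plK_hy {Ω : Var k P'} {X : Var k P} (π : Prj Ω X) (i : P.ι) :
    W.plK C π.hom (W.hy C X i) = W.hy C Ω (π.ψ i) := W.pl_hy C π i

theorem hy_AA (X : Var k P) (i : P.ι) : W.hy C X i ∈ W.AA C X 1 := C.hyp_alg X i

theorem trK_AA (X : Var k P) {c : ℕ} {x : W.EE C X} (hx : x ∈ W.AA C X c) (hc : c ≠ X.dim) :
    trK C X x = 0 := by rw [← tau_trK C X hx, W.tau_AA C X hx hc, Rat.cast_zero]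

/-- The action of the correspondence `Γ ⊆ Y × F`. -/
noncomputable def cor (Y : Var k P) (F : Var k Q) (Γ : Sub k (P.sum Q)) :
    W.EE C F →ₗ[K] W.EE C Y :=
  psh C (Prj.p1 Y F).hom ∘ₗ LinearMap.mulLeft K (W.cy C (Y.prod F) Γ) ∘ₗ
    (W.plK C (Prj.p2 Y F).hom).toLinearMap

theorem cor_apply (Y : Var k P) (F : Var k Q) (Γ : Sub k (P.sum Q)) (x : W.EE C F) :
    cor C Y F Γ x = psh C (Prj.p1 Y F).hom (W.cy C (Y.prod F) Γ * W.plK C (Prj.p2 Y F).hom x) :=
  rfl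

theorem cor_tr (Y : Var k P) (F : Var k Q) (Γ : Sub k (P.sum Q)) (x : W.EE C F) (y : W.EE C Y) :
    trK C Y (cor C Y F Γ x * y) = trK C (Y.prod F)
      (W.cy C (Y.prod F) Γ * W.plK C (Prj.p2 Y F).hom x * W.plK C (Prj.p1 Y F).hom y) :=
  psh_tr C _ _ y

/-- The projection of `Y × F × F'` to `Y × F'`. -/
def p13 (Y : Var k P) (F : Var k Q) (F' : Var k S) : Prj ((Y.prod F).prod F') (Y.prod F') where
  toCrd := (Crd.inl k P Q).map S
  maps _ hx := ⟨hx.1.1, hx.2⟩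

variable {C}

theorem CS_mem (X : Var k P) {p : Sub k P → Prop} {U : Sub k P}
    (hU : (U : Set (P.Pt k)) ⊆ X.pts) (hp : p U) : W.cy C X U ∈ W.CS C X p :=
  Submodule.subset_span ⟨U, hU, hp, rfl⟩

theorem CS_mono (X : Var k P) {p q : Sub k P → Prop}
    (h : ∀ U : Sub k P, (U : Set (P.Pt k)) ⊆ X.pts → p U → q U) : W.CS C X p ≤ W.CS C X q :=
  Submodule.span_mono fun _ ⟨U, hU, hp, e⟩ => ⟨U, hU, h U hU hp, e⟩

theorem CS_le (X : Var k P) {p : Sub k P → Prop} {M : Submodule ℚ (W.EE C X)}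
    (h : ∀ U : Sub k P, (U : Set (P.Pt k)) ⊆ X.pts → p U → W.cy C X U ∈ M) : W.CS C X p ≤ M :=
  Submodule.span_le.2 fun _ ⟨U, hU, hp, e⟩ => e ▸ h U hU hp

theorem CS_map (X : Var k P) {p : Sub k P → Prop} {M : Type*} [AddCommGroup M] [Module ℚ M]
    (f : W.EE C X →ₗ[ℚ] M) (N : Submodule ℚ M)
    (h : ∀ U : Sub k P, (U : Set (P.Pt k)) ⊆ X.pts → p U → f (W.cy C X U) ∈ N) {y : W.EE C X}
    (hy : y ∈ W.CS C X p) : f y ∈ N := CS_le X (M := N.comap f) h hy

theorem CS_mul (X : Var k P) {p : Sub k P → Prop} (z : W.EE C X) (N : Submodule ℚ (W.EE C X))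
    (h : ∀ U : Sub k P, (U : Set (P.Pt k)) ⊆ X.pts → p U → W.cy C X U * z ∈ N) {y : W.EE C X}
    (hy : y ∈ W.CS C X p) : y * z ∈ N := CS_map X (LinearMap.mulRight ℚ z) N h hy

theorem CS_zero (X : Var k P) {p : Sub k P → Prop}
    (h : ∀ U : Sub k P, (U : Set (P.Pt k)) ⊆ X.pts → ¬ p U) {y : W.EE C X}
    (hy : y ∈ W.CS C X p) : y = 0 :=
  (Submodule.mem_bot ℚ).1 (CS_le X (fun U hU hp => absurd hp (h U hU)) hy)

theorem CS_one (X : Var k P) {p : Sub k P → Prop} {T : Sub k P}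
    (h : ∀ U : Sub k P, (U : Set (P.Pt k)) ⊆ X.pts → p U → U = T) {y : W.EE C X}
    (hy : y ∈ W.CS C X p) : ∃ q : ℚ, y = q • W.cy C X T := by
  obtain ⟨q, e⟩ := Submodule.mem_span_singleton.1 (CS_le X (M := Submodule.span ℚ {W.cy C X T})
    (fun U hU hp => h U hU hp ▸ Submodule.mem_span_singleton_self _) hy)
  exact ⟨q, e.symm⟩

variable [IsAlgClosed k]

theorem cy_AA {X : Var k P} (hX : IsIrreducible X.pts) {U : Sub k P}
    (hU : (U : Set (P.Pt k)) ⊆ X.pts) {c : ℕ} (h : sdim U + c = X.dim) :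
    W.cy C X U ∈ W.AA C X c := by
  rw [W.AA_eq_CS C X hX]
  exact CS_mem X hU h

theorem one_AA {X : Var k P} (hX : IsIrreducible X.pts) : (1 : W.EE C X) ∈ W.AA C X 0 := by
  rw [← W.cy_top C X hX]
  exact cy_AA hX subset_rfl (X.sdim_top hX)

theorem ln_AA (X : Var k P) (a : P.ι →₀ ℕ) : W.ln C X a ∈ W.AA C X 1 :=
  glue_ln (C := W.nt C) X a

theorem ln_add' (X : Var k P) (a b : P.ι →₀ ℕ) : W.ln C X (a + b) = W.ln C X a + W.ln C X b :=
  ln_add (W.nt C) X a b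

theorem ln_nsmul (X : Var k P) (n : ℕ) (a : P.ι →₀ ℕ) : W.ln C X (n • a) = n • W.ln C X a :=
  (ln_smul (W.nt C) X n a).trans (Nat.cast_smul_eq_nsmul ℚ n _)

theorem ln_zero' (X : Var k P) : W.ln C X 0 = 0 := ln_zero (W.nt C) X

theorem plK_ln {Ω : Var k P'} {X : Var k P} (π : Prj Ω X) (a : P.ι →₀ ℕ) :
    W.plK C π.hom (W.ln C X a) = W.ln C Ω (a.mapDomain π.ψ) := pl_ln (W.nt C) π a

theorem pow_AA {X : Var k P} {l y : W.EE C X} (hl : l ∈ W.AA C X 1) {c : ℕ}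
    (hy : y ∈ W.AA C X c) (n : ℕ) : l ^ n * y ∈ W.AA C X (c + n) := glue_pow (C := W.nt C) hl hy n

variable (C) in
/-- The ring of even classes of an irreducible variety. -/
noncomputable def rg (X : Var k P) (hX : IsIrreducible X.pts) : Rg.{v, w} K where
  B := W.EE C X
  S :=
    { d := X.dim
      tr := trK C X
      G := fun c => (C.toCoh.gr X (2 * c)).comap (W.vl C X).toLinearMap
      A := W.AA C X
      G_mul := fun i j x hx y hy => by
        have := SetLike.GradedMul.mul_mem (A := C.toCoh.gr X) hx hy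
        rw [← mul_add] at this
        exact this
      tr_G := fun i x hx hi =>
        (C.pd X).2.2.2.2.1 _ _ ((C.gr_iff X _ _).1 hx) (by omega)
      dual := fun i x hx h => pdK C X fun y => by
        obtain ⟨y, hy⟩ := y
        induction hy using Submodule.iSup_induction' with
        | zero => exact (congrArg (trK C X) (mul_zero x)).trans (map_zero _)
        | add a b ha hb h1 h2 =>
          exact (congrArg (trK C X) (mul_add x ⟨a, ha⟩ ⟨b, hb⟩)).trans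
            ((map_add _ _ _).trans ((congrArg₂ (· + ·) h1 h2).trans (add_zero 0)))
        | mem c a ha => exact h c _ ha
      A_le := fun c x hx => (C.gr_iff X _ _).2 (C.alg_gr X c _ hx)
      A_mul := fun _ _ _ hx _ hy => W.AA_mul C X hx hy
      A_tr := fun _ _ hx => ⟨_, (tau_trK C X hx).symm⟩ }
  one_mem := one_AA hX
  pd _ := pdK C X

variable (hC : C.Chow)
include hC

theorem w_div (X : Var k P) {Z : Sub k P} (hZ : (Z : Set (P.Pt k)) ⊆ X.pts)
    {f : MvPolynomial P.V k} {a : P.ι →₀ ℕ} (hf : IsForm f a) (h : ¬ Van (Z : Set (P.Pt k)) f) :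
    ∃ (s : Finset (Sub k P)) (m : Sub k P → ℚ),
      (∀ T, T ∈ s ↔ T ≤ Z ∧ sdim T + 1 = sdim Z ∧ Van (T : Set (P.Pt k)) f) ∧
      (∀ T ∈ s, 0 < m T) ∧ W.cy C X Z * W.ln C X a = ∑ T ∈ s, m T • W.cy C X T :=
  n_div' (W.nt_chow hC).cyc X hZ hf h

theorem w_ratio (X : Var k P) {Z : Sub k P} (hZ : (Z : Set (P.Pt k)) ⊆ X.pts) {κ : Type}
    {f e : κ → MvPolynomial P.V k} {a b : P.ι →₀ ℕ} (hf : ∀ s, IsForm (f s) a)
    (he : ∀ s, IsForm (e s) b) (hfe : ∀ s t, Van (Z : Set (P.Pt k)) (f s * e t - f t * e s))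
    (h0 : ∃ s, ¬ Van (Z : Set (P.Pt k)) (f s))
    (h1 : ∀ T ≤ Z, ∃ s, ¬ Van (T : Set (P.Pt k)) (e s)) :
    ∃ (s : Finset (Sub k P)) (m : Sub k P → ℚ),
      (∀ T, T ∈ s ↔ T ≤ Z ∧ sdim T + 1 = sdim Z ∧ ∀ t, Van (T : Set (P.Pt k)) (f t)) ∧
      (∀ T ∈ s, 0 < m T) ∧
      W.cy C X Z * (W.ln C X a - W.ln C X b) = ∑ T ∈ s, m T • W.cy C X T :=
  n_ratio (W.nt_chow hC).cyc X hZ hf he hfe h0 h1

theorem w_ln (X : Var k P) {Z : Sub k P} (hZ : (Z : Set (P.Pt k)) ⊆ X.pts) (a : P.ι →₀ ℕ) :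
    W.cy C X Z * W.ln C X a ∈ W.CS C X fun U => U ≤ Z ∧ sdim U + 1 = sdim Z :=
  cy_mul_HS (W.nt_chow hC).cyc X hZ (ln_mem_HS (W.nt C) X a)

theorem w_genpos {Ω : Var k P'} {X : Var k P} (hX : IsIrreducible X.pts) (ρ : Prj Ω X)
    {𝒵 : Set (Sub k P')} (h𝒵 : 𝒵.Finite) (h : ∀ Z ∈ 𝒵, (Z : Set (P'.Pt k)) ⊆ Ω.pts) {n : ℕ}
    {y : W.EE C X} (hy : y ∈ W.AA C X n) : y ∈ W.CS C X fun S => sdim S + n = X.dim ∧
      ∀ Z ∈ 𝒵, ∀ V ≤ Z, ρ.img V ≤ S → sdim V + n ≤ sdim Z :=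
  genpos (W.nt_chow hC).cyc hX ρ h𝒵 h hy

theorem w_meet {Ω : Var k P'} {X : Var k P} (π : Prj Ω X) {Z : Sub k P'}
    (hZ : (Z : Set (P'.Pt k)) ⊆ Ω.pts) {T : Sub k P} (hT : (T : Set (P.Pt k)) ⊆ X.pts)
    (hp : ∀ U ≤ Z, π.img U ≤ T → sdim U + X.dim ≤ sdim Z + sdim T) :
    W.cy C Ω Z * W.plK C π.hom (W.cy C X T) ∈
      W.CS C Ω fun U => U ≤ Z ∧ π.img U ≤ T ∧ sdim U + X.dim = sdim Z + sdim T :=
  n_meet (W.nt_chow hC).cyc π hZ hT hp

theorem w_van (X : Var k P') (β : Crd k P P') {Z : Sub k P'} (hZ : (Z : Set (P'.Pt k)) ⊆ X.pts)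
    (a : P.ι →₀ ℕ) {n : ℕ} (h : sdim (β.img Z) < n) :
    W.cy C X Z * W.ln C X (a.mapDomain β.ψ) ^ n = 0 := by
  have := cy_van (W.nt_chow hC).cyc X β hZ (List.replicate n a) (by rwa [List.length_replicate])
  rwa [List.map_replicate, HI_lp] at this

theorem w_pos (X : Var k P') (β : Crd k P P') {Z : Sub k P'} (hZ : (Z : Set (P'.Pt k)) ⊆ X.pts)
    {a : P.ι →₀ ℕ} (ha : ∀ i, 0 < a i) {b : P'.ι →₀ ℕ} (hb : ∀ i, 0 < b i) (j e : ℕ)
    (hj : j ≤ sdim (β.img Z)) (he : j + e = sdim Z) :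
    0 < W.tau C X (W.cy C X Z * (W.ln C X (a.mapDomain β.ψ) ^ j * W.ln C X b ^ e)) := by
  have := nm_pos (W.nt_chow hC).cyc X β (Crd.refl k P') hZ (fun U _ => by rw [Crd.img_refl]) ha hb
    j e hj he
  rwa [show b.mapDomain (Crd.refl k P').ψ = b from Finsupp.mapDomain_id] at this

theorem w_pos1 (X : Var k P) {Z : Sub k P} (hZ : (Z : Set (P.Pt k)) ⊆ X.pts)
    {a : P.ι →₀ ℕ} (ha : ∀ i, 0 < a i) : 0 < W.tau C X (W.cy C X Z * W.ln C X a ^ sdim Z) := by
  have := w_pos hC X (Crd.refl k P) hZ ha ha 0 _ (Nat.zero_le _) (zero_add _)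
  rwa [pow_zero, one_mul] at this

end Pool.Agent.Work.MP_ffcd14_ag.Gm
end

-- merged part: Pool.Agent.Work.MP_ffcd14_ag.Gm.G6b
section
/-!
# Three morphisms to the twisted family

Plan.  All three are `ofForms`.  `exists_hi`: the forms are `if a = 0 then 1 else 0` and
`if ∀ i, a i = 0 then X (vr v) else 0`; a point of `Tw w N 0 X.pts` is the image of the point of `rel_chart`
with `a₀ = 0`.  `exists_hj`: `z a`, and `if w v = m then x v * ∏ i, z (a i) else 0`.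
`exists_hr`: with `e = Fin.castLE`, the forms are `z (e⁻¹ a)` and `y v (e⁻¹ ∘ a)` if all indices are at most
`N`, and `0` otherwise (use `dite`).  The coordinates of `Projectivization.mk` are given by `exists_rep_eq`.
For the surjectivity on `Tw w N' N X.pts` use `exists_pt` for the restricted coordinates and `pt_ext`.
-/

open MvPolynomial Topology TopologicalSpace Filter

namespace Pool.Agent.Work.MP_ffcd14_ag.Gm

universe u

variable {k : Type u} [Field k] {P Q : Amb} {σ : Type} [Finite σ] {w : σ → ℕ}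

/-- The component `j` of `φ` is given by forms of degree `b` without common zeros. -/
def Glob {X : Var k P} {Y : Var k Q} (φ : Hom X Y) (j : Q.ι) (b : P.ι →₀ ℕ) : Prop :=
  ∃ F : Q.σ j → MvPolynomial P.V k, (∀ s, IsForm (F s) b) ∧
    ∀ x, ∃ h, (φ.toFun x).1 j = Projectivization.mk k (fun s => ev x.1 (F s)) h

theorem glob_ofForms {X : Var k P} {Y : Var k Q} (F : Q.V → MvPolynomial P.V k)
    (b : Q.ι → P.ι →₀ ℕ) (hF : ∀ s, IsForm (F s) (b s.1))
    (h0 : ∀ x ∈ X.pts, ∀ j, (fun s => ev x (F ⟨j, s⟩)) ≠ 0)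
    (hY : ∀ x hx, ptF F x (h0 x hx) ∈ Y.pts) (j : Q.ι) : Glob (ofForms F b hF h0 hY) j (b j) :=
  ⟨fun s => F ⟨j, s⟩, fun s => hF ⟨j, s⟩, fun x => ⟨h0 x.1 x.2 j, rfl⟩⟩

variable (X : Var k (Amb.one σ)) (hs : GSt (wl w) X.pts)

theorem G6b_ext {N : ℕ} {u u' : (AT w N).Pt k} {c d : k} (h1 : ∀ a, zc u a = c * zc u' a)
    (h2 : ∀ v a, yc u v a = d * yc u' v a) : u = u' := by
  refine pt_ext (μ := Sum.elim (fun _ => c) fun _ => d) ?_
  rintro ⟨i | j, s⟩
  · exact h1 s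
  · exact h2 s.1 s.2

theorem G6b_zero {b : P.ι →₀ ℕ} : IsForm (0 : MvPolynomial P.V k) b :=
  isWeightedHomogeneous_zero k _ _

theorem G6b_prod {n : ℕ} {b : P.ι →₀ ℕ} (f : Fin n → MvPolynomial P.V k)
    (hf : ∀ i, IsForm (f i) b) : IsForm (∏ i, f i) (n • b) := by
  have := IsWeightedHomogeneous.prod Finset.univ f (fun _ => b) fun i _ => hf i
  rwa [Finset.sum_const, Finset.card_univ, Fintype.card_fin] at this

theorem G6b_ev0 (x : P.Pt k) : ev x 0 = 0 := map_zero _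

theorem G6b_ev1 (x : P.Pt k) : ev x 1 = 1 := map_one _

theorem G6b_hom {W : Var k P} {N : ℕ} (f : Fin (N + 1) → MvPolynomial P.V k)
    (g : ∀ v : σ, (Fin (w v) → Fin (N + 1)) → MvPolynomial P.V k) {b1 b2 : P.ι →₀ ℕ}
    (hf : ∀ a, IsForm (f a) b1) (hg : ∀ v a, IsForm (g v a) b2)
    (h1 : ∀ p ∈ W.pts, ∃ a, ev p (f a) ≠ 0) (h2 : ∀ p ∈ W.pts, ∃ v a, ev p (g v a) ≠ 0)
    (hY : ∀ p ∈ W.pts, ∀ (u : (AT w N).Pt k) (c d : k), c ≠ 0 → (∀ a, zc u a = c * ev p (f a)) →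
      (∀ v a, yc u v a = d * ev p (g v a)) → ∃ x ∈ X.pts, Rel u x) :
    ∃ φ : Hom W (twV X hs N), (∀ p, ∃ c d : k, c ≠ 0 ∧
      (∀ a, zc (φ.toFun p).1 a = c * ev p.1 (f a)) ∧
        ∀ v a, yc (φ.toFun p).1 v a = d * ev p.1 (g v a)) ∧
      Glob φ (Sum.inl ()) b1 ∧ Glob φ (Sum.inr ()) b2 := by
  let F : (AT w N).V → MvPolynomial P.V k := Amb.elim (fun s => f s.2) fun s => g s.2.1 s.2.2
  let b : (AT w N).ι → P.ι →₀ ℕ := Sum.elim (fun _ => b1) fun _ => b2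
  have hF : ∀ s, IsForm (F s) (b s.1) := by
    rintro ⟨i | j, s⟩
    · exact hf s
    · exact hg s.1 s.2
  have h0 : ∀ x ∈ W.pts, ∀ j, (fun s => ev x (F ⟨j, s⟩)) ≠ 0 := by
    rintro x hx (i | j)
    · obtain ⟨a, ha⟩ := h1 x hx
      exact Function.ne_iff.mpr ⟨a, ha⟩
    · obtain ⟨v, a, ha⟩ := h2 x hx
      exact Function.ne_iff.mpr ⟨(⟨v, a⟩ : TI w N), ha⟩
  have key : ∀ x hx, ∃ c d : k, c ≠ 0 ∧ (∀ a, zc (ptF F x (h0 x hx)) a = c * ev x (f a)) ∧
      ∀ v a, yc (ptF F x (h0 x hx)) v a = d * ev x (g v a) := by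
    intro x hx
    obtain ⟨c, hc, e1⟩ := exists_rep_eq (p := ptF F x (h0 x hx) (Sum.inl ())) rfl
    obtain ⟨d, -, e2⟩ := exists_rep_eq (p := ptF F x (h0 x hx) (Sum.inr ())) rfl
    exact ⟨c, d, hc, fun a => e1 a, fun v a => e2 (⟨v, a⟩ : TI w N)⟩
  have hY' : ∀ x hx, ptF F x (h0 x hx) ∈ (twV X hs N).pts := by
    intro x hx
    obtain ⟨c, d, hc, e1, e2⟩ := key x hx
    exact mem_Tw.2 (hY x hx _ c d hc e1 e2)
  exact ⟨ofForms F b hF h0 hY', fun p => key p.1 p.2, glob_ofForms F b hF h0 hY' _,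
    glob_ofForms F b hF h0 hY' _⟩

theorem G6b_rel0 {N : ℕ} {u : (AT w N).Pt k} {x : (Amb.one σ).Pt k} {c d : k} (hc : c ≠ 0)
    (e1 : ∀ a, zc u a = c * if a = 0 then 1 else 0)
    (e2 : ∀ v a, yc u v a = d * if ∀ i, a i = 0 then crd x v else 0) : Rel u x := by
  refine ⟨d, c⁻¹, inv_ne_zero hc, fun v a => ?_⟩
  rw [e2]
  split_ifs with h
  · rw [Finset.prod_eq_one, mul_one]
    intro j _
    rw [e1, if_pos (h j), mul_one, inv_mul_cancel₀ hc]
  · obtain ⟨j, hj⟩ := not_forall.mp h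
    rw [Finset.prod_eq_zero (Finset.mem_univ j), mul_zero, mul_zero]
    rw [e1, if_neg hj, mul_zero, mul_zero]

theorem exists_hi (N : ℕ) : ∃ φ : Hom X (twV X hs N), (∀ x, Rel (φ.toFun x).1 x.1) ∧
    Rng φ = Tw w N 0 X.pts ∧ Glob φ (Sum.inl ()) 0 ∧
      Glob φ (Sum.inr ()) (Finsupp.single () 1) := by
  have ev1 : ∀ (x : (Amb.one σ).Pt k) (a : Fin (N + 1)),
      ev x (if a = 0 then 1 else 0) = if a = 0 then 1 else 0 := by
    intro x a
    split_ifs
    exacts [G6b_ev1 x, G6b_ev0 x]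
  have ev2 : ∀ (x : (Amb.one σ).Pt k) (v : σ) (a : Fin (w v) → Fin (N + 1)),
      ev x (if ∀ i, a i = 0 then MvPolynomial.X (vr v) else 0) =
        if ∀ i, a i = 0 then crd x v else 0 := by
    intro x v a
    split_ifs
    exacts [ev_X x _, G6b_ev0 x]
  obtain ⟨φ, hφ, g1, g2⟩ := G6b_hom X hs (W := X) (N := N) (fun a => if a = 0 then 1 else 0)
    (fun v a => if ∀ i, a i = 0 then MvPolynomial.X (vr v) else 0) (b1 := 0)
    (b2 := Finsupp.single () 1)
    (fun a => by split_ifs; exacts [IsForm.one, G6b_zero])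
    (fun v a => by split_ifs; exacts [IsForm.X (vr v), G6b_zero])
    (fun p _ => ⟨0, by rw [ev1, if_pos rfl]; exact one_ne_zero⟩)
    (fun p _ => by
      obtain ⟨v, hv⟩ := crd_ne p
      exact ⟨v, fun _ => 0, by rwa [ev2, if_pos fun _ => rfl]⟩)
    (fun p hp u c d hc e1 e2 => ⟨p, hp, G6b_rel0 hc (fun a => by rw [e1, ev1])
      fun v a => by rw [e2, ev2]⟩)
  simp only [ev1, ev2] at hφ
  have hrel : ∀ x, Rel (φ.toFun x).1 x.1 := fun x => by
    obtain ⟨c, d, hc, e1, e2⟩ := hφ x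
    exact G6b_rel0 hc e1 e2
  refine ⟨φ, hrel, Set.Subset.antisymm ?_ ?_, g1, g2⟩
  · rintro _ ⟨x, rfl⟩
    refine ⟨⟨x.1, x.2, hrel x⟩, fun a ha => ?_⟩
    obtain ⟨c, d, hc, e1, e2⟩ := hφ x
    rw [e1, if_neg, mul_zero]
    rintro rfl
    exact absurd ha (by simp)
  · rintro u ⟨⟨x, hx, hu⟩, hz⟩
    have hz' : ∀ a : Fin (N + 1), a ≠ 0 → zc u a = 0 := fun a ha =>
      hz a (Nat.pos_of_ne_zero fun e => ha (Fin.ext e))
    have h0 : zc u 0 ≠ 0 := by
      obtain ⟨a, ha⟩ := zc_ne u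
      by_cases e : a = 0
      · exact e ▸ ha
      · exact absurd (hz' a e) ha
    obtain ⟨x', c', -, hu', hx'⟩ := rel_chart h0 fun v a => by
      simpa using hu.eqn v a fun _ => 0
    refine ⟨⟨x', Rel.mem hs hx hu hu'⟩, ?_⟩
    obtain ⟨c, d, hc, e1, e2⟩ := hφ ⟨x', Rel.mem hs hx hu hu'⟩
    refine G6b_ext (c := c * (zc u 0)⁻¹) (d := d * c') (fun a => ?_) fun v a => ?_
    · rw [e1]
      split_ifs with e
      · rw [e, mul_assoc, inv_mul_cancel₀ h0]
      · rw [hz' a e, mul_zero, mul_zero]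
    · rw [e2]
      split_ifs with e
      · obtain rfl : a = fun _ => 0 := funext e
        rw [hx', mul_assoc]
      · obtain ⟨j, hj⟩ := not_forall.mp e
        obtain ⟨μ, ν, -, hμ⟩ := hu
        rw [hμ, Finset.prod_eq_zero (Finset.mem_univ j) (by rw [hz' _ hj, mul_zero])]
        simp only [mul_zero]

theorem exists_hj {F : Var k (Amb.one σ)} {m : ℕ} (hF : F.pts ⊆ X.pts)
    (hl : ∀ x ∈ F.pts, Lv w m x) (N : ℕ) : ∃ φ : Hom (F.ext (PN N)) (twV X hs N),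
      (∀ p, Rel (φ.toFun p).1 ((Crd.inl k _ _).pr p.1)) ∧
      (∀ p, (Crd.inl k _ _).pr (φ.toFun p).1 = (Crd.inr k _ _).pr p.1) ∧
      Glob φ (Sum.inl ()) (Finsupp.single (Sum.inr ()) 1) ∧
      Glob φ (Sum.inr ())
        (Finsupp.single (Sum.inl ()) 1 + m • Finsupp.single (Sum.inr ()) 1) := by
  let xv : σ → ((Amb.one σ).sum (PN N)).V := fun v => ⟨Sum.inl (), v⟩
  let zw : Fin (N + 1) → ((Amb.one σ).sum (PN N)).V := fun a => ⟨Sum.inr (), a⟩
  have ev1 : ∀ (p : ((Amb.one σ).sum (PN N)).Pt k) (a : Fin (N + 1)),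
      ev p (MvPolynomial.X (zw a)) = crd ((Crd.inr k _ _).pr p) a := fun p a => ev_X p _
  have ev2 : ∀ p ∈ (F.ext (PN N)).pts, ∀ (v : σ) (a : Fin (w v) → Fin (N + 1)),
      ev p (if w v = m then MvPolynomial.X (xv v) * ∏ i, MvPolynomial.X (zw (a i)) else 0) =
        crd ((Crd.inl k _ _).pr p) v * ∏ i, crd ((Crd.inr k _ _).pr p) (a i) := by
    intro p hp v a
    split_ifs with e
    · rw [ev_eq, map_mul, map_prod]
      simp only [eval_X]
      rfl
    · rw [G6b_ev0, hl _ (Var.mem_ext.1 hp) v e, zero_mul]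
  have rel : ∀ p ∈ (F.ext (PN N)).pts, ∀ (u : (AT w N).Pt k) (c d : k), c ≠ 0 →
      (∀ a, zc u a = c * ev p (MvPolynomial.X (zw a))) →
      (∀ v a, yc u v a = d * ev p
        (if w v = m then MvPolynomial.X (xv v) * ∏ i, MvPolynomial.X (zw (a i)) else 0)) →
      Rel u ((Crd.inl k _ _).pr p) := by
    intro p hp u c d hc e1 e2
    refine ⟨d, c⁻¹, inv_ne_zero hc, fun v a => ?_⟩
    rw [e2, ev2 p hp, mul_assoc]
    congr 2
    refine Finset.prod_congr rfl fun j _ => ?_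
    rw [e1, ev1, inv_mul_cancel_left₀ hc]
  obtain ⟨φ, hφ, g1, g2⟩ := G6b_hom X hs (W := F.ext (PN N)) (N := N)
    (fun a => MvPolynomial.X (zw a))
    (fun v a => if w v = m then MvPolynomial.X (xv v) * ∏ i, MvPolynomial.X (zw (a i)) else 0)
    (b1 := Finsupp.single (Sum.inr ()) 1)
    (b2 := Finsupp.single (Sum.inl ()) 1 + m • Finsupp.single (Sum.inr ()) 1)
    (fun a => IsForm.X (zw a))
    (fun v a => by
      split_ifs with e
      · refine (IsForm.X (xv v)).mul ?_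
        exact e ▸ G6b_prod _ fun i => IsForm.X (zw (a i))
      · exact G6b_zero)
    (fun p _ => by
      obtain ⟨a, ha⟩ := crd_ne ((Crd.inr k _ _).pr p)
      exact ⟨a, by rwa [ev1]⟩)
    (fun p hp => by
      obtain ⟨a, ha⟩ := crd_ne ((Crd.inr k _ _).pr p)
      obtain ⟨v, hv⟩ := crd_ne ((Crd.inl k _ _).pr p)
      exact ⟨v, fun _ => a, by
        rw [ev2 p hp]
        exact mul_ne_zero hv (Finset.prod_ne_zero_iff.mpr fun _ _ => ha)⟩)
    (fun p hp u c d hc e1 e2 => ⟨_, hF (Var.mem_ext.1 hp), rel p hp u c d hc e1 e2⟩)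
  refine ⟨φ, fun p => ?_, fun p => ?_, g1, g2⟩
  · obtain ⟨c, d, hc, e1, e2⟩ := hφ p
    exact rel p.1 p.2 _ c d hc e1 e2
  · obtain ⟨c, d, hc, e1, e2⟩ := hφ p
    exact crd_ext (c := c) fun a => by rw [← zc_eq, e1, ev1]

theorem exists_hr {N N' : ℕ} (h : N ≤ N') : ∃ φ : Hom (twV X hs N) (twV X hs N'),
    Rng φ = Tw w N' N X.pts ∧ Glob φ (Sum.inl ()) (Finsupp.single (Sum.inl ()) 1) ∧
      Glob φ (Sum.inr ()) (Finsupp.single (Sum.inr ()) 1) := by
  have ev1 : ∀ (p : (AT w N).Pt k) (a : Fin (N' + 1)),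
      ev p (if e : (a : ℕ) < N + 1 then MvPolynomial.X (zv w ⟨a, e⟩) else 0) =
        if e : (a : ℕ) < N + 1 then zc p ⟨a, e⟩ else 0 := by
    intro p a
    split_ifs
    exacts [ev_X p _, G6b_ev0 p]
  have ev2 : ∀ (p : (AT w N).Pt k) (v : σ) (a : Fin (w v) → Fin (N' + 1)),
      ev p (if e : ∀ i, (a i : ℕ) < N + 1 then MvPolynomial.X (yv v fun i => ⟨a i, e i⟩) else 0) =
        if e : ∀ i, (a i : ℕ) < N + 1 then yc p v fun i => ⟨a i, e i⟩ else 0 := by
    intro p v a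
    split_ifs
    exacts [ev_X p _, G6b_ev0 p]
  have hN : N + 1 ≤ N' + 1 := Nat.succ_le_succ h
  obtain ⟨φ, hφ, g1, g2⟩ := G6b_hom X hs (W := twV X hs N) (N := N')
    (fun a => if e : (a : ℕ) < N + 1 then MvPolynomial.X (zv w ⟨a, e⟩) else 0)
    (fun v a => if e : ∀ i, (a i : ℕ) < N + 1 then
      MvPolynomial.X (yv v fun i => ⟨a i, e i⟩) else 0)
    (b1 := Finsupp.single (Sum.inl ()) 1) (b2 := Finsupp.single (Sum.inr ()) 1)
    (fun a => by split_ifs; exacts [IsForm.X _, G6b_zero])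
    (fun v a => by split_ifs; exacts [IsForm.X _, G6b_zero])
    (fun p _ => by
      obtain ⟨a, ha⟩ := zc_ne p
      exact ⟨Fin.castLE hN a, by rw [ev1, dif_pos (by exact a.2)]; exact ha⟩)
    (fun p _ => by
      obtain ⟨v, a, ha⟩ := yc_ne p
      exact ⟨v, fun i => Fin.castLE hN (a i), by
        rw [ev2, dif_pos (by exact fun i => (a i).2)]; exact ha⟩)
    (fun p hp u c d hc e1 e2 => by
      obtain ⟨x, hx, μ, ν, hν, hμ⟩ := mem_Tw.1 hp
      refine ⟨x, hx, d * μ, ν * c⁻¹, mul_ne_zero hν (inv_ne_zero hc), fun v a => ?_⟩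
      rw [e2, ev2]
      split_ifs with e
      · rw [hμ, ← mul_assoc, ← mul_assoc]
        congr 1
        refine Finset.prod_congr rfl fun j _ => ?_
        rw [e1, ev1, dif_pos (e j), mul_assoc, inv_mul_cancel_left₀ hc]
      · obtain ⟨j, hj⟩ := not_forall.mp e
        rw [Finset.prod_eq_zero (Finset.mem_univ j), mul_zero, mul_zero]
        rw [e1, ev1, dif_neg hj, mul_zero, mul_zero])
  simp only [ev1, ev2] at hφ
  refine ⟨φ, Set.Subset.antisymm ?_ ?_, g1, g2⟩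
  · rintro _ ⟨p, rfl⟩
    refine ⟨mem_Tw.1 (φ.toFun p).2, fun a ha => ?_⟩
    obtain ⟨c, d, hc, e1, e2⟩ := hφ p
    rw [e1, dif_neg (by omega), mul_zero]
  · rintro u ⟨⟨x, hx, μ, ν, hν, hμ⟩, hz⟩
    have hz' : ∀ a : Fin (N' + 1), ¬ (a : ℕ) < N + 1 → zc u a = 0 := fun a ha => hz a (by omega)
    have hy' : ∀ v (a : Fin (w v) → Fin (N' + 1)), ¬ (∀ i, (a i : ℕ) < N + 1) → yc u v a = 0 := by
      intro v a e
      obtain ⟨j, hj⟩ := not_forall.mp e
      rw [hμ, Finset.prod_eq_zero (Finset.mem_univ j) (by rw [hz' _ hj, mul_zero]), mul_zero]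
    obtain ⟨p, t, ht, hp⟩ := exists_pt (P := AT w N)
      (Amb.elim (fun s => zc u (Fin.castLE hN s.2))
        fun s => yc u s.2.1 fun i => Fin.castLE hN (s.2.2 i)) (by
        rintro (i | j)
        · obtain ⟨a, ha⟩ := zc_ne u
          have e : (a : ℕ) < N + 1 := by_contra fun e => ha (hz' a e)
          exact ⟨(⟨a, e⟩ : Fin (N + 1)), ha⟩
        · obtain ⟨v, a, ha⟩ := yc_ne u
          have e : ∀ i, (a i : ℕ) < N + 1 := by_contra fun e => ha (hy' v a e)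
          exact ⟨(⟨v, fun i => ⟨a i, e i⟩⟩ : TI w N), ha⟩)
    have p1 : ∀ a, zc p a = t (Sum.inl ()) * zc u (Fin.castLE hN a) := fun a =>
      congrFun hp (zv w a)
    have p2 : ∀ v a, yc p v a = t (Sum.inr ()) * yc u v fun i => Fin.castLE hN (a i) :=
      fun v a => congrFun hp (yv v a)
    have hpm : p ∈ (twV X hs N).pts := by
      refine mem_Tw.2 ⟨x, hx, t (Sum.inr ()) * μ, ν * (t (Sum.inl ()))⁻¹,
        mul_ne_zero hν (inv_ne_zero (ht _)), fun v a => ?_⟩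
      rw [p2, hμ, ← mul_assoc, ← mul_assoc]
      congr 1
      refine Finset.prod_congr rfl fun j _ => ?_
      rw [p1, mul_assoc, inv_mul_cancel_left₀ (ht (Sum.inl ()))]
    refine ⟨⟨p, hpm⟩, ?_⟩
    obtain ⟨c, d, hc, e1, e2⟩ := hφ ⟨p, hpm⟩
    refine G6b_ext (c := c * t (Sum.inl ())) (d := d * t (Sum.inr ())) (fun a => ?_)
      fun v a => ?_
    · rw [e1]
      split_ifs with e
      · rw [p1, mul_assoc]
        rfl
      · rw [hz' a e, mul_zero, mul_zero]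
    · rw [e2]
      split_ifs with e
      · rw [p2, mul_assoc]
        rfl
      · rw [hy' v a e, mul_zero, mul_zero]

end Pool.Agent.Work.MP_ffcd14_ag.Gm
end

-- merged part: Pool.Agent.Work.MP_ffcd14_ag.Gm.G7
section
/-!
# Images and preimages under morphisms

Plan.  `exists_im`: let `T` be the image of `X.res Z hZ` under `φ.graphInv`, seen in the ambient space
(`IrreducibleCloseds.map`, `Var.amb`; or directly the set of the points of `φ.graph` over `Z`, which is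
closed and the continuous image of an irreducible set).  Then `Z = inl.img T` and `Z' = inr.img T`
(`Crd.mem_img_iff`); `sdim_img_of_inj`, `Crd.sdim_img_le`.
`pre_closed`: `Hom.continuous`, `X.closed.isClosedEmbedding_subtypeVal`.
`exists_pre`: `exists_comps` for the set of `pre_closed`, `exists_im` for each member (a point is a
subvariety, `FibA_pt_le`), `sub_finite_union`.
`Im.closure`: the two sets are equal, and the second one is closed.
-/

open MvPolynomial Topology TopologicalSpace Filter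

namespace Pool.Agent.Work.MP_ffcd14_ag.Gm

universe u

variable {k : Type u} [Field k] {P Q : Amb} {X : Var k P} {Y : Var k Q} {φ : Hom X Y}
  {Z : Sub k P} {Z' : Sub k Q}

theorem Im.sub (h : Im φ Z Z') : (Z' : Set (Q.Pt k)) ⊆ Y.pts := fun y hy => by
  obtain ⟨x, -, rfl⟩ := (h y).1 hy
  exact (φ.toFun x).2

theorem Im.closure (h : Im φ Z Z') (hZ : (Z : Set (P.Pt k)) ⊆ X.pts) :
    closure (φ.toFun '' (X.res Z hZ : Set X.pts)) = (Y.res Z' h.sub : Set Y.pts) := by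
  have e : φ.toFun '' (X.res Z hZ : Set X.pts) = (Y.res Z' h.sub : Set Y.pts) := Set.ext fun y =>
    ⟨fun ⟨x, hx, e⟩ => (h y.1).2 ⟨x, hx, congrArg Subtype.val e⟩,
      fun hy => ((h y.1).1 hy).imp fun _ hx => ⟨hx.1, Subtype.ext hx.2⟩⟩
  rw [e, (Y.res Z' h.sub).isClosed.closure_eq]

theorem im_top {hX : IsIrreducible X.pts} (h : Rng φ = Z') : Im φ (X.top hX) Z' := fun y => by
  rw [← SetLike.mem_coe, ← h]
  exact ⟨fun ⟨x, e⟩ => ⟨x, x.2, e⟩, fun ⟨x, _, e⟩ => ⟨x, e⟩⟩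

theorem pre_closed (φ : Hom X Y) {B : Set (Q.Pt k)} (hB : IsClosed B) :
    IsClosed {x : P.Pt k | ∃ h : x ∈ X.pts, (φ.toFun ⟨x, h⟩).1 ∈ B} := by
  refine (congrArg IsClosed (Set.ext fun x => ?_)).mp
    (X.closed.isClosedEmbedding_subtypeVal.isClosedMap _
      (hB.preimage (continuous_subtype_val.comp φ.continuous)))
  exact ⟨fun ⟨y, hy, e⟩ => e ▸ ⟨y.2, hy⟩, fun ⟨h, hx⟩ => ⟨⟨x, h⟩, hx, rfl⟩⟩

variable [IsAlgClosed k]

theorem im_prj (π : Prj X Y) (hZ : (Z : Set (P.Pt k)) ⊆ X.pts) : Im π.hom Z (π.img Z) := fun y => by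
  rw [Crd.mem_img_iff]
  exact ⟨fun ⟨z, hz, e⟩ => ⟨⟨z, hZ hz⟩, hz, e⟩, fun ⟨x, hx, e⟩ => ⟨x.1, hx, e⟩⟩

theorem exists_im (φ : Hom X Y) (hZ : (Z : Set (P.Pt k)) ⊆ X.pts) : ∃ Z', Im φ Z Z' ∧
    sdim Z' ≤ sdim Z ∧ (Function.Injective φ.toFun → sdim Z' = sdim Z) := by
  have e : (fun x => (φ.graphInv.toFun x).1) '' (X.res Z hZ : Set X.pts) =
      φ.graph.pts ∩ (Crd.inl k P Q).pr ⁻¹' (Z : Set (P.Pt k)) := Set.ext fun z =>
    ⟨fun ⟨x, hx, e⟩ => e ▸ ⟨(φ.graphInv.toFun x).2, hx⟩, fun ⟨h1, h2⟩ =>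
      ⟨φ.graphFst.toFun ⟨z, h1⟩, h2, congrArg Subtype.val (φ.graphInv_fst ⟨z, h1⟩)⟩⟩
  obtain ⟨T, hT⟩ : ∃ T : Sub k (P.sum Q),
      ∀ z, z ∈ T ↔ ∃ x : X.pts, x.1 ∈ Z ∧ (φ.graphInv.toFun x).1 = z :=
    ⟨⟨_, (X.res Z hZ).isIrreducible.image _
      (continuous_subtype_val.comp φ.graphInv.continuous).continuousOn,
      (congrArg IsClosed e).mpr
        (φ.graph.closed.inter (Z.isClosed.preimage (Crd.inl k P Q).continuous))⟩,
      fun _ => Iff.rfl⟩
  have h1 : (Crd.inl k P Q).img T = Z := SetLike.ext fun x => by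
    rw [Crd.mem_img_iff]
    refine ⟨fun ⟨z, hz, e⟩ => ?_, fun hx => ⟨_, (hT _).2 ⟨⟨x, hZ hx⟩, hx, rfl⟩, rfl⟩⟩
    obtain ⟨y, hy, rfl⟩ := (hT z).1 hz
    exact e ▸ hy
  have h2 : sdim Z = sdim T := h1 ▸ sdim_img_of_inj _ fun z hz z' hz' e => by
    obtain ⟨y, -, rfl⟩ := (hT z).1 hz
    obtain ⟨y', -, rfl⟩ := (hT z').1 hz'
    rw [show y = y' from Subtype.ext e]
  refine ⟨(Crd.inr k P Q).img T, fun y => ?_, h2 ▸ Crd.sdim_img_le _ T, fun hφ =>
    h2 ▸ sdim_img_of_inj _ fun z hz z' hz' e => ?_⟩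
  · rw [Crd.mem_img_iff]
    refine ⟨fun ⟨z, hz, e⟩ => ?_, fun ⟨x, hx, e⟩ => ⟨_, (hT _).2 ⟨x, hx, rfl⟩, e⟩⟩
    obtain ⟨x, hx, rfl⟩ := (hT z).1 hz
    exact ⟨x, hx, e⟩
  · obtain ⟨y, -, rfl⟩ := (hT z).1 hz
    obtain ⟨y', -, rfl⟩ := (hT z').1 hz'
    rw [hφ (Subtype.ext e : φ.toFun y = φ.toFun y')]

theorem exists_pre (hφ : Function.Injective φ.toFun) (h : (Z' : Set (Q.Pt k)) ⊆ Rng φ) :
    ∃ Z : Sub k P, (Z : Set (P.Pt k)) ⊆ X.pts ∧ Im φ Z Z' ∧ sdim Z = sdim Z' := by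
  obtain ⟨s, hs, h1, h2⟩ := exists_comps (pre_closed φ Z'.isClosed)
  have h3 : ∀ W : s, (W.1 : Set (P.Pt k)) ⊆ X.pts := fun W x hx => (h1 W.1 W.2 hx).1
  choose T t1 _ t2 using fun W : s => exists_im φ (h3 W)
  let _ := hs.fintype
  obtain ⟨W, -, hW⟩ := sub_finite_union (U := Z') Finset.univ (fun W => (T W : Set (Q.Pt k)))
    (fun W _ => (T W).isClosed) fun y hy => by
      obtain ⟨x, rfl⟩ := h hy
      obtain ⟨W, w1, w2⟩ := h2 {x.1} fun z hz => by
        rw [show z = x.1 from hz]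
        exact ⟨x.2, hy⟩
      exact ⟨⟨W, w1⟩, Finset.mem_univ _, (t1 ⟨W, w1⟩ _).2 ⟨x, w2 rfl, rfl⟩⟩
  obtain rfl : Z' = T W := le_antisymm hW fun y hy => by
    obtain ⟨x, hx, rfl⟩ := (t1 W y).1 hy
    exact (h1 W.1 W.2 hx).2
  exact ⟨W.1, h3 W, t1 W, (t2 W hφ).symm⟩

end Pool.Agent.Work.MP_ffcd14_ag.Gm
end

-- merged part: Pool.Agent.Work.MP_ffcd14_ag.Gm.C1
section
/-!
# Push-forward and pull-back of cycle classes

Plan.  `hom_push`, `hom_meet`: copy the fields `push` and `meet` of `W.nt_chow` (file `Cyc/WN`), with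
`Im.closure` in place of `n1_closure`.  `psh_cy`: `pdK'`, `psh_tr`, `trK_qsmul`.  `hom_disj`: `hom_meet`,
`CS_zero` (a subvariety has a point).  `psh_CS`: `CS_map` for `(psh C φ).restrictScalars ℚ`, `exists_im`, `psh_cy`.
`psh_AA`, `psh_zero`: `W.AA_eq_CS`, `psh_CS`, `Var.sdim_le`, `CS_zero`.  `emb`: the image under `psh` of the
span is a `ℚ`-submodule which contains the generators (`exists_pre`, `psh_cy`).  `supp`: `w_genpos` for the
family `{Z}`, `w_meet`.  `tr_top`: `hom_push`, `im_top`, `W.cy_top`.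
-/

open MvPolynomial Topology TopologicalSpace Filter

namespace Pool.Agent.Work.MP_ffcd14_ag.Gm

universe u v w

variable {k : Type u} [Field k] [IsAlgClosed k] {K : Type v} [Field K] [CharZero K] {P Q : Amb}
  {C : Weil.{u, v, w} k K} {X : Var k P} {Y : Var k Q} {φ : Hom X Y} {Z : Sub k P} {Z' : Sub k Q}

omit [IsAlgClosed k] in
theorem glob_hy {j : Q.ι} {b : P.ι →₀ ℕ} (h : Glob φ j b) :
    W.plK C φ (W.hy C Y j) = W.ln C X b := by
  obtain ⟨F, h1, h2⟩ := h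
  exact W.vl_inj C X ((W.vl_pl C φ _).trans ((C.hyp_pull φ j b F h1 h2).trans (W.vl_ln C X b).symm))

variable (hC : C.Chow)
include hC

theorem hom_push (hZ : (Z : Set (P.Pt k)) ⊆ X.pts) (h : Im φ Z Z') :
    ∃ n : ℕ, (0 < n ↔ sdim Z = sdim Z') ∧
      ∀ y, trK C X (W.cy C X Z * W.plK C φ y) = n * trK C Y (W.cy C Y Z' * y) := by
  obtain ⟨n, h1, h2⟩ := hC.2.1 φ _ _ (h.closure hZ)
  refine ⟨n, ?_, fun y => ?_⟩
  · rw [h1, hgt, hgt, n1_height_res, n1_height_res]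
    norm_cast
  · rw [trK_apply, trK_apply, map_mul, map_mul, W.vl_cy C X hZ, W.vl_cy C Y h.sub, ← h2]
    congr 2
    exact W.vl_pl C φ y

theorem psh_cy (hZ : (Z : Set (P.Pt k)) ⊆ X.pts) (h : Im φ Z Z') :
    ∃ n : ℕ, (0 < n ↔ sdim Z = sdim Z') ∧ psh C φ (W.cy C X Z) = (n : ℚ) • W.cy C Y Z' := by
  obtain ⟨n, h1, h2⟩ := hom_push hC hZ h
  refine ⟨n, h1, pdK' C Y fun y => ?_⟩
  rw [psh_tr, h2, smul_mul_assoc, trK_qsmul, Rat.cast_natCast]

theorem hom_meet (φ : Hom X Y) (hZ : (Z : Set (P.Pt k)) ⊆ X.pts)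
    (hZ' : (Z' : Set (Q.Pt k)) ⊆ Y.pts)
    (h : ∀ U ≤ Z, (∀ x : X.pts, x.1 ∈ U → (φ.toFun x).1 ∈ Z') →
      sdim U + Y.dim ≤ sdim Z + sdim Z') :
    W.cy C X Z * W.plK C φ (W.cy C Y Z') ∈ W.CS C X fun U => U ≤ Z ∧
      (∀ x : X.pts, x.1 ∈ U → (φ.toFun x).1 ∈ Z') ∧ sdim U + Y.dim = sdim Z + sdim Z' := by
  have e : W.vl C X (W.plK C φ (W.cy C Y Z')) = C.pull φ (W.vl C Y (W.cy C Y Z')) :=
    W.vl_pl C φ _
  rw [W.mem_CS_iff, map_mul, W.vl_cy C X hZ, e, W.vl_cy C Y hZ']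
  refine W.n1_cyc_mono C X ?_ (hC.2.2 φ _ _ fun U h1 h2 => by
    have := h (X.amb U) ((n1_le_res X hZ).1 h1) (by
      rintro x ⟨x', hx, e⟩
      obtain rfl : x' = x := Subtype.ext e
      exact h2 x' hx)
    rw [hgt, hgt, hgt, n1_height_res, n1_height_res, X.height_eq]
    exact_mod_cast this)
  rintro U ⟨h1, h2, h3⟩
  refine ⟨(n1_le_res X hZ).1 h1, ?_, ?_⟩
  · rintro x ⟨x', hx, e⟩
    obtain rfl : x' = x := Subtype.ext e
    exact h2 x' hx
  · rw [hgt, hgt, hgt, n1_height_res, n1_height_res, X.height_eq] at h3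
    exact_mod_cast h3

theorem hom_disj (φ : Hom X Y) (hZ : (Z : Set (P.Pt k)) ⊆ X.pts)
    (hZ' : (Z' : Set (Q.Pt k)) ⊆ Y.pts) (h : ∀ x : X.pts, x.1 ∈ Z → (φ.toFun x).1 ∉ Z') :
    W.cy C X Z * W.plK C φ (W.cy C Y Z') = 0 := by
  have key : ∀ U ≤ Z, ¬ ∀ x : X.pts, x.1 ∈ U → (φ.toFun x).1 ∈ Z' := fun U hU h' => by
    obtain ⟨x, hx⟩ := U.isIrreducible.nonempty
    exact h ⟨x, hZ (hU hx)⟩ (hU hx) (h' _ hx)
  exact CS_zero X (fun U _ hp => key U hp.1 hp.2.1)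
    (hom_meet hC φ hZ hZ' fun U hU h' => absurd h' (key U hU))

theorem psh_CS (φ : Hom X Y) {p : Sub k P → Prop} {x : W.EE C X} (hx : x ∈ W.CS C X p) :
    psh C φ x ∈ W.CS C Y fun U' => ∃ U : Sub k P, (U : Set (P.Pt k)) ⊆ X.pts ∧ p U ∧ Im φ U U' ∧
      sdim U = sdim U' := by
  refine CS_map X ((psh C φ).restrictScalars ℚ) _ (fun U hU hp => ?_) hx
  obtain ⟨U', h1, -, -⟩ := exists_im φ hU
  obtain ⟨n, h2, h3⟩ := psh_cy hC hU h1
  change psh C φ (W.cy C X U) ∈ _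
  rw [h3]
  rcases Nat.eq_zero_or_pos n with rfl | hn
  · rw [Nat.cast_zero, zero_smul]
    exact zero_mem _
  · exact Submodule.smul_mem _ _ (CS_mem Y h1.sub ⟨U, hU, hp, h1, h2.1 hn⟩)

theorem psh_AA (φ : Hom X Y) (hX : IsIrreducible X.pts) (hY : IsIrreducible Y.pts) {c j : ℕ}
    {x : W.EE C X} (hx : x ∈ W.AA C X c) (h : c + Y.dim = X.dim + j) :
    psh C φ x ∈ W.AA C Y j := by
  rw [W.AA_eq_CS C X hX] at hx
  rw [W.AA_eq_CS C Y hY]
  refine CS_mono Y ?_ (psh_CS hC φ hx)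
  rintro U' - ⟨U, -, h1, -, h2⟩
  omega

theorem psh_zero (φ : Hom X Y) (hX : IsIrreducible X.pts) (hY : IsIrreducible Y.pts) {c : ℕ}
    {x : W.EE C X} (hx : x ∈ W.AA C X c) (h : c + Y.dim < X.dim) : psh C φ x = 0 := by
  rw [W.AA_eq_CS C X hX] at hx
  refine CS_zero Y ?_ (psh_CS hC φ hx)
  rintro U' hU' ⟨U, -, h1, -, h2⟩
  have := Y.sdim_le hY hU'
  omega

theorem emb (hφ : Function.Injective φ.toFun) (hX : IsIrreducible X.pts) {e : ℕ} {y : W.EE C Y}
    (hy : y ∈ W.CS C Y fun U => (U : Set (Q.Pt k)) ⊆ Rng φ ∧ sdim U + e = X.dim) :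
    ∃ x ∈ W.AA C X e, psh C φ x = y := by
  refine CS_le Y (M := (W.AA C X e).map ((psh C φ).restrictScalars ℚ)) (fun U hU hp => ?_) hy
  obtain ⟨Z, h1, h2, h3⟩ := exists_pre hφ hp.1
  obtain ⟨n, h4, h5⟩ := psh_cy hC h1 h2
  have hn : (n : ℚ) ≠ 0 := Nat.cast_ne_zero.2 (h4.2 h3).ne'
  refine ⟨(n : ℚ)⁻¹ • W.cy C X Z, Submodule.smul_mem _ _ (cy_AA hX h1 (h3 ▸ hp.2)), ?_⟩
  change psh C φ _ = _
  rw [psh_qsmul, h5, smul_smul, inv_mul_cancel₀ hn, one_smul]

theorem supp (π : Prj X Y) (hY : IsIrreducible Y.pts) (hZ : (Z : Set (P.Pt k)) ⊆ X.pts) {n : ℕ}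
    {y : W.EE C Y} (hy : y ∈ W.AA C Y n) :
    W.cy C X Z * W.plK C π.hom y ∈ W.CS C X fun U => U ≤ Z ∧ sdim U + n = sdim Z := by
  have h1 := w_genpos hC hY π (Set.finite_singleton Z) (fun _ h => h ▸ hZ) hy
  refine CS_map Y (LinearMap.mulLeft ℚ (W.cy C X Z) ∘ₗ (W.pl C π.hom).toLinearMap) _
    (fun S hS hp => ?_) h1
  refine CS_mono X ?_ (w_meet hC π hZ hS fun U hU h' => ?_)
  · rintro U - ⟨h2, -, h3⟩
    exact ⟨h2, by omega⟩
  · have := hp.2 Z rfl U hU h'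
    omega

theorem tr_top (hX : IsIrreducible X.pts) (h : Rng φ = Z') (hd : sdim Z' = X.dim) :
    ∃ q : ℚ, 0 < q ∧ ∀ y, trK C X (W.plK C φ y) = q * trK C Y (W.cy C Y Z' * y) := by
  obtain ⟨n, h1, h2⟩ := hom_push hC (Z := X.top hX) subset_rfl (im_top h)
  refine ⟨n, Nat.cast_pos.2 (h1.2 ((X.sdim_top hX).trans hd.symm)), fun y => ?_⟩
  rw [Rat.cast_natCast, ← h2, W.cy_top, one_mul]

end Pool.Agent.Work.MP_ffcd14_ag.Gm
end

-- merged part: Pool.Agent.Work.MP_ffcd14_ag.Gm.G3c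
section
/-!
# The local structure at a fixed point

Plan.  Take the data of `loc_cols`.  For `J ⊆ Sp ∪ Sm` the equations are `Sum.elim f (X (vr v))`, `v ∈ J`.
Let `B = {x ∈ X | x v = 0 for m < w v}`.  It has the local equations `f j` (`τ j ≤ m`) and `X (vr v)`
(`m < w v`): where these vanish, the other `f j` vanish too.  They are independent: look first at the
coordinates of weight `> m`, where the differentials of the `f j`, `τ j ≤ m`, vanish.  Their number is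
`card κ + Sp.card`.  By `sm_comp` for `B ⊆ cut X.pts Sp` the two largest subvarieties through `y` have
the same dimension, so they agree (`eq_of_sdim_le`), and `Top.near` gives the claim.  The same for `Sm`
(prove one lemma for a predicate `p` on weights, `p = (m < ·)` or `p = (· < m)`).
-/

open MvPolynomial Topology TopologicalSpace Filter

namespace Pool.Agent.Work.MP_ffcd14_ag.Gm

universe u

variable {k : Type u} [Field k] [IsAlgClosed k] {σ : Type} [Fintype σ] [DecidableEq σ]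
  {w : σ → ℕ} {m : ℕ} {y : (Amb.one σ).Pt k}

omit [IsAlgClosed k] in
theorem G3c_der (u v : σ) :
    ev y (pderiv (vr v) (X (vr u) : MvPolynomial (Amb.one σ).V k)) = if u = v then 1 else 0 := by
  split_ifs with e
  · rw [e, pderiv_X_self, ev_eq, map_one]
  · rw [pderiv_X_of_ne fun h => e (congrArg (fun s : (Amb.one σ).V => (s.2 : σ)) h), ev_eq,
      map_zero]

omit [IsAlgClosed k] in
theorem G3c_eq {κ : Type} [Fintype κ] {f : κ → MvPolynomial (Amb.one σ).V k} {J : Finset σ}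
    {A : Set ((Amb.one σ).Pt k)} (h1 : ∀ j, ∃ a, IsForm (f j) a)
    (h2 : ∀ᶠ x in 𝓝 y, x ∈ A ↔ (∀ j, ev x (f j) = 0) ∧ ∀ v ∈ J, crd x v = 0)
    (h3 : ∀ l : κ → k, (∀ v ∉ J, ∑ j, l j * ev y (pderiv (vr v) (f j)) = 0) → l = 0) :
    LocEq A y (Sum.elim f fun v : J => X (vr v.1)) := by
  refine ⟨?_, ?_, Fintype.linearIndependent_iff.2 fun l hl => ?_⟩
  · rintro (j | v)
    exacts [h1 j, ⟨_, IsForm.X _⟩]
  · filter_upwards [h2] with x hx
    rw [hx, Sum.forall]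
    exact and_congr Iff.rfl ⟨fun h v => (ev_X x _).trans (h v.1 v.2),
      fun h v hv => (ev_X x (vr v)).symm.trans (h ⟨v, hv⟩)⟩
  · have e : ∀ v, ∑ j, l (Sum.inl j) * ev y (pderiv (vr v) (f j)) +
        ∑ u : J, l (Sum.inr u) * (if u.1 = v then 1 else 0) = 0 := fun v => by
      have := congrFun hl (vr v)
      rw [Finset.sum_apply, Fintype.sum_sum_type] at this
      simpa only [Pi.smul_apply, smul_eq_mul, Sum.elim_inl, Sum.elim_inr, G3c_der,
        Pi.zero_apply] using this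
    have e1 : (fun j => l (Sum.inl j)) = 0 := h3 _ fun v hv => by
      have := e v
      rwa [Finset.sum_eq_zero (s := Finset.univ) fun (u : J) _ => by
        rw [if_neg fun h : u.1 = v => hv (h ▸ u.2), mul_zero], add_zero] at this
    rintro (j | u)
    · exact congrFun e1 j
    · have := e u.1
      rwa [Finset.sum_eq_zero fun j _ => by rw [congrFun e1 j, Pi.zero_apply, zero_mul], zero_add,
        Finset.sum_eq_single u (fun u' _ h => by rw [if_neg fun h' => h (Subtype.ext h'), mul_zero])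
          fun h => absurd (Finset.mem_univ _) h, if_pos rfl, mul_one] at this

omit [IsAlgClosed k] in
theorem G3c_cut {κ : Type} [Fintype κ] {f : κ → MvPolynomial (Amb.one σ).V k} {J : Finset σ}
    {A : Set ((Amb.one σ).Pt k)} (h : LocEq A y f)
    (h3 : ∀ l : κ → k, (∀ v ∉ J, ∑ j, l j * ev y (pderiv (vr v) (f j)) = 0) → l = 0) :
    LocEq (cut A J) y (Sum.elim f fun v : J => X (vr v.1)) := by
  refine G3c_eq h.1 ?_ h3
  filter_upwards [h.2.1] with x hx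
  exact and_congr hx Iff.rfl

theorem G3c_near {κ : Type} [Fintype κ] {f : κ → MvPolynomial (Amb.one σ).V k} {τ : κ → ℕ}
    {S : Finset σ} {A : Set ((Amb.one σ).Pt k)} (p : ℕ → Prop) [DecidablePred p]
    (hA : IsClosed A) (hy : y ∈ A) (hy' : ∀ v, p (w v) → crd y v = 0) (h : LocEq A y f)
    (h1 : ∀ j x, p (τ j) → (∀ v, p (w v) → crd x v = 0) → ev x (f j) = 0)
    (h2 : ∀ j v, ev y (pderiv (vr v) (f j)) ≠ 0 → w v = τ j) (hS : ∀ v ∈ S, p (w v))
    (h3 : ∀ l : κ → k, (∀ v ∉ S, ∑ j, l j * ev y (pderiv (vr v) (f j)) = 0) → l = 0)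
    (h4 : (Finset.univ.filter fun v => p (w v)).card =
      S.card + (Finset.univ.filter fun j => p (τ j)).card) :
    ∀ᶠ x in 𝓝 y, x ∈ cut A S → ∀ v, p (w v) → crd x v = 0 := by
  classical
  obtain ⟨I, hI⟩ : ∃ I : Finset σ, I = Finset.univ.filter fun v => p (w v) := ⟨_, rfl⟩
  have mI : ∀ v, v ∈ I ↔ p (w v) := fun v => by simp [hI]
  have hB : LocEq (cut A I) y
      (Sum.elim (fun j : {j // ¬ p (τ j)} => f j.1) fun v : I => X (vr v.1)) := by
    refine G3c_eq (fun j => h.1 j.1) ?_ fun l hl => ?_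
    · filter_upwards [h.2.1] with x hx
      refine ⟨fun e => ⟨fun j => hx.1 e.1 j.1, e.2⟩, fun e => ⟨hx.2 fun j => ?_, e.2⟩⟩
      by_cases hj : p (τ j)
      exacts [h1 j x hj fun v hv => e.2 v ((mI v).2 hv), e.1 ⟨j, hj⟩]
    · have e := h3 (fun j => if hj : ¬ p (τ j) then l ⟨j, hj⟩ else 0) fun v _ => by
        rw [← Fintype.sum_subtype_add_sum_subtype (fun j => ¬ p (τ j)),
          Finset.sum_eq_zero (s := (Finset.univ : Finset {j // ¬ ¬ p (τ j)})) fun j _ => by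
            rw [dif_neg j.2, zero_mul], add_zero]
        refine Eq.trans (Finset.sum_congr rfl fun j _ => by rw [dif_pos j.2]) ?_
        by_cases hv : v ∈ I
        · refine Finset.sum_eq_zero fun j _ => ?_
          rw [not_not.1 fun e => j.2 (h2 j.1 v e ▸ (mI v).1 hv), mul_zero]
        · exact hl v hv
      exact funext fun j => (dif_pos j.2).symm.trans (congrFun e j.1)
  have hsub : cut A I ⊆ cut A S := fun x hx => ⟨hx.1, fun v hv => hx.2 v ((mI v).2 (hS v hv))⟩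
  have hyI : y ∈ cut A I := ⟨hy, fun v hv => hy' v ((mI v).1 hv)⟩
  obtain ⟨Z, z1, z2⟩ := sm_comp (cut_closed hA I) hyI hB
  obtain ⟨Z', z3, z4⟩ := sm_comp (cut_closed hA S) (hsub hyI) (G3c_cut h h3)
  have c1 := Finset.card_filter_add_card_filter_not (s := Finset.univ) fun j => p (τ j)
  rw [Nat.card_sum, Nat.card_eq_fintype_card, Nat.card_eq_fintype_card, Fintype.card_coe,
    Fintype.card_subtype, hI, h4] at z2
  rw [Nat.card_sum, Nat.card_eq_fintype_card, Nat.card_eq_fintype_card, Fintype.card_coe,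
    ← Finset.card_univ] at z4
  obtain rfl : Z = Z' := eq_of_sdim_le (z3.2.2 Z (z1.2.1.trans hsub) z1.1) (by omega)
  filter_upwards [z3.near (cut_closed hA S)] with x hx e v hv
  exact (z1.2.1 (hx e)).2 v ((mI v).2 hv)

theorem loc_struct (X : Var k (Amb.one σ)) (hs : GSt (wl w) X.pts) (hy : y ∈ X.pts)
    (hl : Lv w m y) : ∃ Sp Sm : Finset σ, (∀ v ∈ Sp, m < w v) ∧ (∀ v ∈ Sm, w v < m) ∧
      (∀ J ⊆ Sp ∪ Sm, ∃ (κ : Type) (f : κ → MvPolynomial (Amb.one σ).V k),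
        LocEq (cut X.pts J) y f ∧ Nat.card κ + X.dim + 1 = Nat.card σ + J.card) ∧
      (∀ᶠ x in 𝓝 y, x ∈ cut X.pts Sp → ∀ v, m < w v → crd x v = 0) ∧
      ∀ᶠ x in 𝓝 y, x ∈ cut X.pts Sm → ∀ v, w v < m → crd x v = 0 := by
  obtain ⟨κ, _, f, τ, Sp, Sm, c1, c2, c3, c4, c5, c6, c7, c8, c9, c10⟩ := loc_cols X hs hy hl
  have h3 : ∀ J ⊆ Sp ∪ Sm, ∀ l : κ → k,
      (∀ v ∉ J, ∑ j, l j * ev y (pderiv (vr v) (f j)) = 0) → l = 0 :=
    fun J hJ l h => c8 l fun v hv => h v fun e => hv (hJ e)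
  refine ⟨Sp, Sm, c6, c7, fun J hJ => ⟨_, _, G3c_cut c2 (h3 J hJ), ?_⟩,
    G3c_near (m < ·) X.closed hy (fun v hv => hl v hv.ne') c2 c3 c5 c6
      (h3 _ Finset.subset_union_left) c9,
    G3c_near (· < m) X.closed hy (fun v hv => hl v hv.ne) c2 c4 c5 c7
      (h3 _ Finset.subset_union_right) c10⟩
  rw [Nat.card_sum, Nat.card_eq_fintype_card, Nat.card_eq_fintype_card, Nat.card_eq_fintype_card,
    Fintype.card_coe]
  omega

end Pool.Agent.Work.MP_ffcd14_ag.Gm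
end

-- merged part: Pool.Agent.Work.MP_ffcd14_ag.Gm.G4
section
/-!
# The components of the fixed locus

Plan.  `fix_loc`, `hi_top`, `lo_top`: `loc_struct`, `LocEq_congr` (near `y` the set agrees with
`cut X.pts (Sp ∪ Sm)`, `cut X.pts Sp`, `cut X.pts Sm`), `sm_comp`.
`fix_var`: dimension `sdim F`; at `y ∈ F` use `fix_loc`, `sm_comp`, `Top.eq`, `Top.near`, `LocEq_congr`.
`trunc_sub`: `exists_rimg` for the forms `if w v = m then X (vr v) else 0` gives an irreducible `T` which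
contains all truncations.  `T ⊆ X`: a form vanishing on `X` vanishes on the truncations (hypothesis
`h`), so its pull-back vanishes on `Z` (at points where all the forms vanish a form of positive degree
vanishes trivially; or use `van_of_open`).
`exists_cmp`: base point `f0 ∈ F`, `loc_struct` at `f0`, `Z J` from `sm_comp` (`choose`, with `F` as the value
for other `J`), `gst_mx`, `gst_cut`.  `Zp_le`: `le_of_open` or `van_of_open`.  `Z_all`: both are the largest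
subvariety through `f0` of `{x ∈ X | Lv w m x}`.  `Zp_lim`: `trunc_sub`, `lim_hi`.  `cell_p`: let `A` be the set
of `hi_top` and `Z'` a component of `A` through `x` (`exists_mx`); it is stable, so it contains `y`
(`lim_hi`); `Z Sp` is a component of `A` which contains `F`, so both are the largest subvariety of `A`
through `y` (`hi_top`, `Top.eq`).
`exists_family`: index by the finite set of the pairs `(m, F)`, `m` in the range of `w`, `F` a component
(`mx_finite`); `Lv.unique`, the field `max`.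
-/

open MvPolynomial Topology TopologicalSpace Filter

namespace Pool.Agent.Work.MP_ffcd14_ag.Gm

universe u

theorem G4_eval {R : Type u} [CommRing R] {α β : Type} (v : α → R) (F : β → MvPolynomial α R)
    (g : MvPolynomial β R) : eval v (aeval F g) = eval (fun s => eval v (F s)) g := by
  induction g using MvPolynomial.induction_on with
  | C a => simp
  | add p q hp hq => simp only [map_add, hp, hq]
  | mul_X p s hp => simp only [map_mul, hp, aeval_X, eval_X]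

variable {k : Type u} [Field k] [IsAlgClosed k] {σ : Type} [Fintype σ] [DecidableEq σ]
  {w : σ → ℕ} {m : ℕ} {y : (Amb.one σ).Pt k} {X : Var k (Amb.one σ)} (hs : GSt (wl w) X.pts)
include hs

theorem fix_loc (hy : y ∈ X.pts) (hl : Lv w m y) :
    ∃ (κ : Type) (f : κ → MvPolynomial (Amb.one σ).V k), LocEq {x ∈ X.pts | Lv w m x} y f := by
  obtain ⟨Sp, Sm, hp, hm, hJ, e1, e2⟩ := loc_struct X hs hy hl
  obtain ⟨κ, f, hL, -⟩ := hJ _ subset_rfl
  refine ⟨κ, f, LocEq_congr hL ?_⟩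
  filter_upwards [e1, e2] with x h1 h2
  refine ⟨fun h => ⟨h.1, fun v hv => h.2 v ?_⟩, fun h => ⟨h.1, fun v hv => ?_⟩⟩
  · rcases Finset.mem_union.1 hv with hv | hv
    exacts [(hp v hv).ne', (hm v hv).ne]
  · rcases lt_or_gt_of_ne hv with hv | hv
    · exact h2 ⟨h.1, fun u hu => h.2 u (Finset.mem_union_right _ hu)⟩ v hv
    · exact h1 ⟨h.1, fun u hu => h.2 u (Finset.mem_union_left _ hu)⟩ v hv

theorem hi_top (hy : y ∈ X.pts) (hl : Lv w m y) :
    ∃ Z, Top {x ∈ X.pts | ∀ v, m < w v → crd x v = 0} y Z := by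
  obtain ⟨Sp, Sm, hp, -, hJ, e1, -⟩ := loc_struct X hs hy hl
  obtain ⟨κ, f, hL, -⟩ := hJ Sp Finset.subset_union_left
  have h : LocEq {x ∈ X.pts | ∀ v, m < w v → crd x v = 0} y f := by
    refine LocEq_congr hL ?_
    filter_upwards [e1] with x h1
    exact ⟨fun h => ⟨h.1, fun v hv => h.2 v (hp v hv)⟩, fun h => ⟨h.1, h1 h⟩⟩
  obtain ⟨Z, hZ, -⟩ := sm_comp (X.closed.inter (crd_closed fun v => m < w v))
    ⟨hy, fun v hv => hl v hv.ne'⟩ h
  exact ⟨Z, hZ⟩

theorem lo_top (hy : y ∈ X.pts) (hl : Lv w m y) :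
    ∃ Z, Top {x ∈ X.pts | ∀ v, w v < m → crd x v = 0} y Z := by
  obtain ⟨Sp, Sm, -, hm, hJ, -, e2⟩ := loc_struct X hs hy hl
  obtain ⟨κ, f, hL, -⟩ := hJ Sm Finset.subset_union_right
  have h : LocEq {x ∈ X.pts | ∀ v, w v < m → crd x v = 0} y f := by
    refine LocEq_congr hL ?_
    filter_upwards [e2] with x h1
    exact ⟨fun h => ⟨h.1, fun v hv => h.2 v (hm v hv)⟩, fun h => ⟨h.1, h1 h⟩⟩
  obtain ⟨Z, hZ, -⟩ := sm_comp (X.closed.inter (crd_closed fun v => w v < m))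
    ⟨hy, fun v hv => hl v hv.ne⟩ h
  exact ⟨Z, hZ⟩

theorem fix_top {F : Sub k (Amb.one σ)} (hF : Mx {x ∈ X.pts | Lv w m x} F) (hy : y ∈ F) :
    Top {x ∈ X.pts | Lv w m x} y F := by
  obtain ⟨κ, f, hL⟩ := fix_loc hs (hF.1 hy).1 (hF.1 hy).2
  obtain ⟨Z, hZ, -⟩ := sm_comp (X.closed.inter (crd_closed fun v => w v ≠ m)) (hF.1 hy) hL
  exact hZ.eq hF hy ▸ hZ

theorem fix_var {F : Sub k (Amb.one σ)} (hF : Mx {x ∈ X.pts | Lv w m x} F) :
    ∃ F' : Var k (Amb.one σ), F'.pts = F := by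
  refine ⟨⟨F, sdim F, F.isClosed, fun y hy => ?_⟩, rfl⟩
  have hA : IsClosed {x ∈ X.pts | Lv w m x} := X.closed.inter (crd_closed fun v => w v ≠ m)
  obtain ⟨κ, f, hL⟩ := fix_loc hs (hF.1 hy).1 (hF.1 hy).2
  obtain ⟨Z, hZ, hd⟩ := sm_comp hA (hF.1 hy) hL
  obtain rfl := hZ.eq hF hy
  refine ⟨κ, f, by omega, LocEq_congr hL ?_⟩
  filter_upwards [hZ.near hA] with x hx
  exact ⟨fun h => hF.1 h, hx⟩

omit hs [DecidableEq σ] in
theorem trunc_sub {Z : Sub k (Amb.one σ)} (hy : y ∈ Z) (hl : Lv w m y)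
    (h : ∀ x ∈ Z, ∀ x', Tr w m x x' → x' ∈ X.pts) : ∃ T : Sub k (Amb.one σ),
      (∀ x ∈ T, x ∈ X.pts ∧ Lv w m x) ∧ ∀ x ∈ Z, ∀ x', Tr w m x x' → x' ∈ T := by
  obtain ⟨v₀, hv₀⟩ := crd_ne y
  have hw : w v₀ = m := by_contra fun e => hv₀ (hl v₀ e)
  obtain ⟨F, hF⟩ : ∃ F : (Amb.one σ).V → MvPolynomial (Amb.one σ).V k,
      F = fun s => if w s.2 = m then MvPolynomial.X s else 0 := ⟨_, rfl⟩
  have hev : ∀ x s, ev x (F s) = if w s.2 = m then crd x s.2 else 0 := fun x s => by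
    rw [hF]
    dsimp only
    split_ifs
    exacts [ev_X x s, map_zero _]
  have hf : ∀ s, IsForm (F s) (Finsupp.single s.1 1) := fun s => by
    rw [hF]
    dsimp only
    split_ifs
    exacts [IsForm.X s, isWeightedHomogeneous_zero k _ _]
  have hd : DefOn (Z : Set ((Amb.one σ).Pt k)) F := fun j => ⟨v₀, fun e => hv₀ (by
    have := (hev y (vr v₀)).symm.trans (e y hy)
    exact (if_pos hw).symm.trans this)⟩
  obtain ⟨T, -, h1, h2⟩ := exists_rimg (b := fun i => Finsupp.single i 1) Z hf hd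
  refine ⟨T, fun x hx => ?_, fun x hx x' hx' => h2 x hx x' fun j => ?_⟩
  · refine subset_of_van (A := {x ∈ X.pts | Lv w m x})
      (X.closed.inter (crd_closed fun v => w v ≠ m)) (fun g a hg hv => (h1 g a hg).2 ?_) hx
    refine van_of_open (IsForm.aeval (b := fun i => Finsupp.single i 1) hf hg) (IsForm.X (vr v₀))
      (fun e => hv₀ ((ev_X y (vr v₀)).symm.trans (e y hy))) fun z hz hz0 => ?_
    obtain ⟨z', hz'⟩ := exists_tr (k := k) (w := w) (m := m) (x := z)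
      ⟨v₀, hw, fun e => hz0 ((ev_X z (vr v₀)).trans e)⟩
    have h3 := hv z' ⟨h z hz z' hz', hz'.lv⟩
    obtain ⟨c, hc⟩ := hz'
    have h4 : rp z' = fun s => c * ev z (F s) := funext fun s => by
      rw [hev]
      refine (hc s.2).trans ?_
      split_ifs
      exacts [rfl, (mul_zero _).symm]
    rw [ev_eq, h4] at h3
    have h5 := (mul_eq_zero.1 ((hg.eval_scale (fun _ => c) fun s => ev z (F s)).symm.trans
      h3)).resolve_left (chi_ne_zero (fun _ => G1b_ne hc) a)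
    rw [ev_eq, ← h5]
    exact G4_eval _ F g
  · obtain ⟨v, hv, hv'⟩ := hx'.ne
    obtain ⟨c, hc⟩ := hx'
    refine ⟨fun e => hv' ?_, ?_⟩
    · have := congrFun e v
      rwa [hev, if_pos hv] at this
    · rw [← Projectivization.mk_rep (x' j), Projectivization.mk_eq_mk_iff']
      refine ⟨c, funext fun s => ?_⟩
      rw [Pi.smul_apply, hev, smul_eq_mul]
      refine Eq.trans ?_ (hc s).symm
      split_ifs
      exacts [rfl, mul_zero _]

end Pool.Agent.Work.MP_ffcd14_ag.Gm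
end

-- merged part: Pool.Agent.Work.MP_ffcd14_ag.Gm.G4b
section
/-!
# The data attached to a component of the fixed locus

The plan is in the header of `G4`.
-/

open MvPolynomial Topology TopologicalSpace Filter

namespace Pool.Agent.Work.MP_ffcd14_ag.Gm

universe u

variable {k : Type u} [Field k] [IsAlgClosed k] {σ : Type} [Fintype σ] [DecidableEq σ]
  {w : σ → ℕ} {m : ℕ} {X : Var k (Amb.one σ)}

omit [DecidableEq σ] in
theorem G4b_pt {A : Set ((Amb.one σ).Pt k)} (hA : IsClosed A) {x : (Amb.one σ).Pt k} (hx : x ∈ A) :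
    ∃ Z, Mx A Z ∧ x ∈ Z := by
  obtain ⟨Z, h1, h2⟩ := exists_mx hA (U := ⟨closure {x}, isIrreducible_singleton.closure,
    isClosed_closure⟩) (closure_minimal (Set.singleton_subset_iff.2 hx) hA)
  exact ⟨Z, h1, h2 (subset_closure rfl)⟩

omit [DecidableEq σ] [IsAlgClosed k] in
theorem G4b_near {Z : Sub k (Amb.one σ)} {x : (Amb.one σ).Pt k} (hx : x ∈ Z)
    {T : Set ((Amb.one σ).Pt k)} (hT : IsClosed T) (h : ∀ᶠ y in 𝓝 x, y ∈ Z → y ∈ T) :
    (Z : Set ((Amb.one σ).Pt k)) ⊆ T := by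
  obtain ⟨O, h1, h2, h3⟩ := eventually_nhds_iff.1 h
  refine (isPreirreducible_iff_isClosed_union_isClosed.1 Z.isIrreducible.2 T Oᶜ hT h2.isClosed_compl
    fun y hy => ?_).resolve_right fun e => e hx h3
  exact (em (y ∈ O)).imp_left fun e => h1 y e hy

theorem G4b_side (hs : GSt (wl w) X.pts) {F Z : Sub k (Amb.one σ)}
    (hF : Mx {x ∈ X.pts | Lv w m x} F) {f : (Amb.one σ).Pt k} (hf : f ∈ F) {p : σ → Prop}
    (hp : ∀ v, p v → w v ≠ m) {S : Finset σ} (hS : ∀ v ∈ S, p v) (hZ : Top (cut X.pts S) f Z)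
    (near : ∀ᶠ x in 𝓝 f, x ∈ cut X.pts S → ∀ v, p v → crd x v = 0)
    (lim : ∀ {A : Set ((Amb.one σ).Pt k)} {x y}, IsClosed A → GSt (wl w) A → x ∈ A →
      (∀ v, p v → crd x v = 0) → Tr w m x y → y ∈ A)
    (top : ∀ {y}, y ∈ X.pts → Lv w m y → ∃ Z, Top {x ∈ X.pts | ∀ v, p v → crd x v = 0} y Z) :
    (∀ x ∈ Z, ∀ v, p v → crd x v = 0) ∧ (∀ x ∈ Z, ∀ y, Tr w m x y → y ∈ F) ∧
      ∀ x ∈ X.pts, (∀ v, p v → crd x v = 0) → ∀ y ∈ F, Tr w m x y → x ∈ Z := by
  have h1 : ∀ x ∈ Z, ∀ v, p v → crd x v = 0 :=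
    G4b_near hZ.1 (crd_closed p) (near.mono fun x h hx => h (hZ.2.1 hx))
  refine ⟨h1, fun x hx y hy => ?_, fun x hx h0 y hy ht => ?_⟩
  · obtain ⟨T, h2, h3⟩ := trunc_sub hZ.1 (hF.1 hf).2 fun x hx x' h =>
      lim X.closed hs (hZ.2.1 hx).1 (h1 x hx) h
    exact (fix_top hs hF hf).2.2 T h2 (h3 f hZ.1 f (hF.1 hf).2.tr) (h3 x hx y hy)
  · have hA : IsClosed {x ∈ X.pts | ∀ v, p v → crd x v = 0} := X.closed.inter (crd_closed p)
    obtain ⟨Z', h2, h3⟩ := G4b_pt hA (x := x) ⟨hx, h0⟩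
    obtain ⟨Z'', h4⟩ := top (hF.1 hy).1 (hF.1 hy).2
    have h5 : Mx {x ∈ X.pts | ∀ v, p v → crd x v = 0} Z :=
      ⟨fun x hx => ⟨(hZ.2.1 hx).1, h1 x hx⟩, fun U hU h => le_antisymm (hZ.2.2 U
        (fun x hx => ⟨(hU hx).1, fun v hv => (hU hx).2 v (hS v hv)⟩) (h hZ.1)) h⟩
    have h6 : F ≤ Z := hZ.2.2 F
      (fun x hx => ⟨(hF.1 hx).1, fun v hv => (hF.1 hx).2 v (hp v (hS v hv))⟩) hf
    rwa [← h4.eq h5 (h6 hy), h4.eq h2 (lim Z'.isClosed (gst_mx hA (gst_crd hs p) h2) h3 h0 ht)]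

theorem exists_cmp (hs : GSt (wl w) X.pts) {F : Sub k (Amb.one σ)}
    (hF : Mx {x ∈ X.pts | Lv w m x} F) : ∃ Φ : Cmp w X, Φ.F.pts = F ∧ Φ.lev = m := by
  obtain ⟨f, hf⟩ : ∃ f, f ∈ F := F.isIrreducible.1
  obtain ⟨F', hF'⟩ := fix_var hs hF
  obtain ⟨Sp, Sm, hp, hm, h1, h2, h3⟩ := loc_struct X hs (hF.1 hf).1 (hF.1 hf).2
  have hc : ∀ J ⊆ Sp ∪ Sm, (F : Set ((Amb.one σ).Pt k)) ⊆ cut X.pts J := fun J hJ x hx =>
    ⟨(hF.1 hx).1, fun v hv => (hF.1 hx).2 v ((Finset.mem_union.1 (hJ hv)).elim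
      (fun h => (hp v h).ne') fun h => (hm v h).ne)⟩
  have h4 : ∀ J : Finset σ, ∃ Z : Sub k (Amb.one σ), J ⊆ Sp ∪ Sm →
      Top (cut X.pts J) f Z ∧ sdim Z + J.card = X.dim := fun J => by
    by_cases hJ : J ⊆ Sp ∪ Sm
    · obtain ⟨κ, g, k1, k2⟩ := h1 J hJ
      obtain ⟨Z, k3, k4⟩ := sm_comp (cut_closed X.closed J) (hc J hJ hf) k1
      rw [card_one_V, card_one_ι] at k4
      exact ⟨Z, fun _ => ⟨k3, by omega⟩⟩
    · exact ⟨F, fun h => absurd h hJ⟩
  choose Z hZ using h4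
  have tp := (hZ Sp Finset.subset_union_left).1
  have tm := (hZ Sm Finset.subset_union_right).1
  have ta := (hZ _ subset_rfl).1
  obtain ⟨p1, p2, p3⟩ := G4b_side hs hF hf (fun v (h : m < w v) => h.ne') hp tp h2 lim_hi
    (hi_top hs)
  obtain ⟨m1, m2, m3⟩ := G4b_side hs hF hf (fun v (h : w v < m) => h.ne) hm tm h3 lim_lo
    (lo_top hs)
  have ha : (Z (Sp ∪ Sm) : Set ((Amb.one σ).Pt k)) = F := by
    refine subset_antisymm ((fix_top hs hF hf).2.2 _ (fun x hx => ⟨(ta.2.1 hx).1, fun v hv => ?_⟩)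
      ta.1) (ta.2.2 F (hc _ subset_rfl) hf)
    rcases hv.lt_or_gt with h | h
    · exact m1 x (tm.2.2 _ (fun y hy => ⟨(ta.2.1 hy).1, fun v hv =>
        (ta.2.1 hy).2 v (Finset.mem_union_right _ hv)⟩) ta.1 hx) v h
    · exact p1 x (tp.2.2 _ (fun y hy => ⟨(ta.2.1 hy).1, fun v hv =>
        (ta.2.1 hy).2 v (Finset.mem_union_left _ hv)⟩) ta.1 hx) v h
  exact ⟨⟨F', hF' ▸ F.isIrreducible, m, hF' ▸ fun x hx => (hF.1 hx).1,
    hF' ▸ fun x hx => (hF.1 hx).2, hF' ▸ fun U hU ⟨x, hx, hx'⟩ => (fix_top hs hF hx').2.2 U hU hx,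
    Sp, Sm, hp, hm, f, hF' ▸ hf, Z, fun J hJ => (hZ J hJ).1, fun J hJ => (hZ J hJ).2,
    fun J hJ => gst_mx (cut_closed X.closed J) (gst_cut hs J) (hZ J hJ).1.mx, ha.trans hF'.symm,
    p1, m1, hF' ▸ p2, hF' ▸ m2, hF' ▸ p3, hF' ▸ m3⟩, hF', rfl⟩

theorem exists_family (hs : GSt (wl w) X.pts) :
    ∃ (ι : Type) (_ : Fintype ι) (Φ : ι → Cmp w X),
      (∀ x ∈ X.pts, ∀ m, Lv w m x → ∃ a, x ∈ (Φ a).F.pts) ∧
      ∀ a b x, x ∈ (Φ a).F.pts → x ∈ (Φ b).F.pts → a = b := by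
  have hc : ∀ m, IsClosed {x ∈ X.pts | Lv w m x} := fun m =>
    X.closed.inter (crd_closed fun v => w v ≠ m)
  have hfin : {q : ℕ × Sub k (Amb.one σ) |
      (∃ v, w v = q.1) ∧ Mx {x ∈ X.pts | Lv w q.1 x} q.2}.Finite := by
    refine ((Set.finite_range w).prod (Set.finite_iUnion fun v => mx_finite (hc (w v)))).subset ?_
    rintro ⟨m, F⟩ ⟨⟨v, rfl⟩, h⟩
    exact ⟨⟨v, rfl⟩, Set.mem_iUnion.2 ⟨v, h⟩⟩
  obtain ⟨n, ⟨e⟩⟩ := hfin.to_subtype.exists_equiv_fin
  choose Φ h1 h2 using fun a : Fin n => exists_cmp hs (e.symm a).2.2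
  refine ⟨Fin n, inferInstance, Φ, fun x hx m hl => ?_, fun a b x ha hb => ?_⟩
  · obtain ⟨F, h3, h4⟩ := G4b_pt (hc m) (x := x) ⟨hx, hl⟩
    obtain ⟨v, hv⟩ := crd_ne x
    refine ⟨e ⟨(m, F), ⟨v, by_contra fun h => hv (hl v h)⟩, h3⟩, ?_⟩
    rwa [h1, e.symm_apply_apply]
  · rw [h1] at ha hb
    refine e.symm.injective ?_
    generalize e.symm a = q at ha
    generalize e.symm b = q' at hb
    obtain ⟨⟨m, F⟩, h3, h4⟩ := q
    obtain ⟨⟨m', F'⟩, h5, h6⟩ := q'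
    obtain rfl : m = m' := (h4.1 ha).2.unique (h6.1 hb).2
    obtain rfl : F = F' := (fix_top hs h4 ha).eq h6 hb
    rfl

namespace Cmp

variable (Φ : Cmp w X)

omit [IsAlgClosed k] in
theorem disj : Disjoint Φ.Sp Φ.Sm :=
  Finset.disjoint_left.2 fun v h h' => absurd ((Φ.hp v h).trans (Φ.hm v h')) (lt_irrefl _)

omit [IsAlgClosed k] in
theorem Z_sub {J : Finset σ} (hJ : J ⊆ Φ.Sp ∪ Φ.Sm) :
    (Φ.Z J : Set ((Amb.one σ).Pt k)) ⊆ X.pts := fun _ hx => ((Φ.Z_top J hJ).2.1 hx).1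

omit [IsAlgClosed k] in
theorem Z_anti {J J' : Finset σ} (h : J ⊆ J') (hJ : J' ⊆ Φ.Sp ∪ Φ.Sm) : Φ.Z J' ≤ Φ.Z J :=
  (Φ.Z_top J (h.trans hJ)).2.2 _ (fun _ hx =>
    ⟨Φ.Z_sub hJ hx, fun v hv => ((Φ.Z_top J' hJ).2.1 hx).2 v (h hv)⟩) (Φ.Z_top J' hJ).1

omit [IsAlgClosed k] in
theorem F_st : GSt (wl w) Φ.F.pts := fun x hx _ _ _ h => (Φ.fix x hx).act h ▸ hx

theorem dim_eq : Φ.Sp.card + Φ.Sm.card + Φ.F.dim = X.dim := by
  have h := Φ.Z_dim _ subset_rfl
  have e : Φ.Z (Φ.Sp ∪ Φ.Sm) = Φ.F.top Φ.irr := IrreducibleCloseds.ext Φ.Z_all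
  rw [e, Var.sdim_top, Finset.card_union_of_disjoint Φ.disj] at h
  omega

theorem Z_empty (hX : IsIrreducible X.pts) : Φ.Z ∅ = X.top hX := by
  have h := Φ.Z_dim ∅ (Finset.empty_subset _)
  refine eq_of_sdim_le (Φ.Z_sub (Finset.empty_subset _)) ?_
  rw [Var.sdim_top]
  simpa using h.ge

end Cmp

end Pool.Agent.Work.MP_ffcd14_ag.Gm
end

-- merged part: Pool.Agent.Work.MP_ffcd14_ag.Gm.GG
section
/-! # The varieties, morphisms and correspondences attached to a torus action -/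

open MvPolynomial Topology TopologicalSpace Filter

namespace Pool.Agent.Work.MP_ffcd14_ag.Gm

universe u

variable {k : Type u} [Field k] [IsAlgClosed k]

/-- No point of `U` lies over the orbit of `x`. -/
def Bad {σ : Type} [Finite σ] {w : σ → ℕ} {N : ℕ} (x : (Amb.one σ).Pt k) (U : Sub k (AT w N)) :
    Prop := ∀ u ∈ U, ¬ Rel u x

namespace Geo

variable (G : Geo k) (a b : G.ι) (N : ℕ)

/-- The ambient space. -/
abbrev A : Amb := Amb.one G.σ

/-- A component of the fixed locus. -/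
abbrev F : Var k G.A := (G.Φ a).F

/-- Its level. -/
abbrev lev : ℕ := (G.Φ a).lev

/-- The codimension of the first cell. -/
abbrev c : ℕ := (G.Φ a).Sp.card

/-- The codimension of the second cell. -/
abbrev c' : ℕ := (G.Φ a).Sm.card

/-- The bundle with fibre `X`. -/
abbrev Y : Var k (AT G.w N) := twV G.X G.st N

/-- The product of a fixed component with the base. -/
noncomputable abbrev P : Var k (G.A.sum (PN N)) := (G.F a).prod (Var.full k (PN N))

theorem Y_irr : IsIrreducible (G.Y N).pts := twV_irr G.irr G.st N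

theorem P_irr : IsIrreducible (G.P a N).pts := ext_irr (G.Φ a).irr N

omit [IsAlgClosed k] in
theorem Y_dim : (G.Y N).dim = G.X.dim + N := rfl

omit [IsAlgClosed k] in
theorem P_dim : (G.P a N).dim = (G.F a).dim + N := ext_dim _ N

theorem dF : G.c a + G.c' a + (G.F a).dim = G.X.dim := (G.Φ a).dim_eq

/-- The first projection. -/
noncomputable abbrev pF : Prj (G.P a N) (G.F a) := Prj.p1 _ _

/-- The inclusion of a fibre. -/
noncomputable def hi : Hom G.X (G.Y N) := (exists_hi G.X G.st N).choose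

omit [IsAlgClosed k] in
theorem hi_spec : (∀ x, Rel ((G.hi N).toFun x).1 x.1) ∧
    Rng (G.hi N) = Tw G.w N 0 G.X.pts ∧ Glob (G.hi N) (Sum.inl ()) 0 ∧
      Glob (G.hi N) (Sum.inr ()) (Finsupp.single () 1) := (exists_hi G.X G.st N).choose_spec

/-- The inclusion of a component of the fixed locus. -/
noncomputable def hj : Hom (G.P a N) (G.Y N) :=
  (exists_hj G.X G.st (G.Φ a).sub (G.Φ a).fix N).choose

omit [IsAlgClosed k] in
theorem hj_spec : (∀ p, Rel ((G.hj a N).toFun p).1 ((Crd.inl k _ _).pr p.1)) ∧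
    (∀ p, (Crd.inl k _ _).pr ((G.hj a N).toFun p).1 = (Crd.inr k _ _).pr p.1) ∧
    Glob (G.hj a N) (Sum.inl ()) (Finsupp.single (Sum.inr ()) 1) ∧
    Glob (G.hj a N) (Sum.inr ())
      (Finsupp.single (Sum.inl ()) 1 + G.lev a • Finsupp.single (Sum.inr ()) 1) :=
  (exists_hj G.X G.st (G.Φ a).sub (G.Φ a).fix N).choose_spec

/-- The restriction to a linear subspace of the base. -/
noncomputable def hr {N N' : ℕ} (h : N ≤ N') : Hom (G.Y N) (G.Y N') :=
  (exists_hr G.X G.st h).choose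

omit [IsAlgClosed k] in
theorem hr_spec {N N' : ℕ} (h : N ≤ N') : Rng (G.hr h) = Tw G.w N' N G.X.pts ∧
    Glob (G.hr h) (Sum.inl ()) (Finsupp.single (Sum.inl ()) 1) ∧
      Glob (G.hr h) (Sum.inr ()) (Finsupp.single (Sum.inr ()) 1) :=
  (exists_hr G.X G.st h).choose_spec

/-- The bundle over a linear subspace of dimension `j`. -/
def TL {N j : ℕ} (h : j ≤ N) : Sub k (AT G.w N) := twS (G.X.top G.irr) G.st h

/-- The bundle whose fibre is the closure of the first cell. -/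
def Tp : Sub k (AT G.w N) :=
  twS ((G.Φ a).Z (G.Φ a).Sp) ((G.Φ a).Z_st _ Finset.subset_union_left) le_rfl

/-- The bundle whose fibre is the closure of the second cell. -/
def Tm : Sub k (AT G.w N) :=
  twS ((G.Φ a).Z (G.Φ a).Sm) ((G.Φ a).Z_st _ Finset.subset_union_right) le_rfl

/-- The bundle whose fibre is a component of the fixed locus. -/
def TF : Sub k (AT G.w N) := twS ((G.F a).top (G.Φ a).irr) (G.Φ a).F_st le_rfl

/-- `Γ` is the closure of the graph of the truncation on `T`. -/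
structure IsGam (T : Sub k (AT G.w N)) (Γ : Sub k ((AT G.w N).sum G.A)) : Prop where
  sub : (Γ : Set (((AT G.w N).sum G.A).Pt k)) ⊆ ((G.Y N).prod (G.F a)).pts
  img : (Crd.inl k _ _).img Γ = T
  dim : sdim Γ = sdim T
  lim : ∀ γ ∈ Γ, ∀ x y, Rel ((Crd.inl k _ _).pr γ) x → Tr G.w (G.lev a) x y →
    (Crd.inr k _ _).pr γ = y

theorem exists_Γp : ∃ Γ, G.IsGam a N (G.Tp a N) Γ := by
  obtain ⟨Γ, h1, h2, h3, h4⟩ := exists_gam G.X G.st (G.F a)
    ((G.Φ a).Z_st _ Finset.subset_union_left) ((G.Φ a).Z_sub Finset.subset_union_left)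
    ⟨_, ((G.Φ a).Z_top _ Finset.subset_union_left).1, (G.Φ a).fix _ (G.Φ a).f0_mem⟩
    (G.Φ a).Zp_lim N
  exact ⟨Γ, h1, h2, h3.trans (tw_sdim _ _).symm, h4⟩

theorem exists_Γm : ∃ Γ, G.IsGam a N (G.Tm a N) Γ := by
  obtain ⟨Γ, h1, h2, h3, h4⟩ := exists_gam G.X G.st (G.F a)
    ((G.Φ a).Z_st _ Finset.subset_union_right) ((G.Φ a).Z_sub Finset.subset_union_right)
    ⟨_, ((G.Φ a).Z_top _ Finset.subset_union_right).1, (G.Φ a).fix _ (G.Φ a).f0_mem⟩
    (G.Φ a).Zm_lim N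
  exact ⟨Γ, h1, h2, h3.trans (tw_sdim _ _).symm, h4⟩

/-- The correspondence given by the first cell. -/
noncomputable def Γp : Sub k ((AT G.w N).sum G.A) := (G.exists_Γp a N).choose

/-- The correspondence given by the second cell. -/
noncomputable def Γm : Sub k ((AT G.w N).sum G.A) := (G.exists_Γm a N).choose

theorem Γp_spec : G.IsGam a N (G.Tp a N) (G.Γp a N) := (G.exists_Γp a N).choose_spec

theorem Γm_spec : G.IsGam a N (G.Tm a N) (G.Γm a N) := (G.exists_Γm a N).choose_spec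

theorem TL_dim {N j : ℕ} (h : j ≤ N) : sdim (G.TL h) = G.X.dim + j := by
  rw [TL, tw_sdim, Var.sdim_top]

theorem Tp_dim : sdim (G.Tp a N) + G.c a = G.X.dim + N := by
  have := (G.Φ a).Z_dim _ Finset.subset_union_left
  rw [Tp, tw_sdim, c]
  omega

theorem Tm_dim : sdim (G.Tm a N) + G.c' a = G.X.dim + N := by
  have := (G.Φ a).Z_dim _ Finset.subset_union_right
  rw [Tm, tw_sdim, c']
  omega

theorem TF_dim : sdim (G.TF a N) = (G.F a).dim + N := by rw [TF, tw_sdim, Var.sdim_top]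

theorem TL_sub {N j : ℕ} (h : j ≤ N) : (G.TL h : Set ((AT G.w N).Pt k)) ⊆ (G.Y N).pts :=
  tw_mono subset_rfl h

theorem Tp_sub : (G.Tp a N : Set ((AT G.w N).Pt k)) ⊆ (G.Y N).pts :=
  tw_mono ((G.Φ a).Z_sub Finset.subset_union_left) le_rfl

theorem Tm_sub : (G.Tm a N : Set ((AT G.w N).Pt k)) ⊆ (G.Y N).pts :=
  tw_mono ((G.Φ a).Z_sub Finset.subset_union_right) le_rfl

theorem TF_sub : (G.TF a N : Set ((AT G.w N).Pt k)) ⊆ (G.Y N).pts := tw_mono (G.Φ a).sub le_rfl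

theorem TL_top : G.TL (le_refl N) = (G.Y N).top (G.Y_irr N) := rfl

end Geo

end Pool.Agent.Work.MP_ffcd14_ag.Gm
end

-- merged part: Pool.Agent.Work.MP_ffcd14_ag.Gm.C4
section
/-!
# The coordinates as sections of line bundles on the twisted family

Plan.  `sec_pos`: `w_ratio` on `Ω` for the forms `f a = rename π.ε (X (yv v a))` and
`e a = rename π.ε (∏ i, X (zv w (a i)))` (`Crd.form`, `Crd.ev_rename`, `Rel.eqn`); for `T ≤ U` take a point of `T`,
`a₀` from `zc_ne` and the constant family.  The degrees are the images of `single (inr ()) 1` and of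
`w v • single (inl ()) 1`; `plK_ln`, `ln_nsmul`, `W.ln_single`.
`sec_one`: if the coordinate vanishes on `U` use `w_ln` for both summands, otherwise `sec_pos`.
`sec_many`: induction on `S`, `CS_mul`, `CS_mono`.  `sec_top`: `Prj.refl`, `W.pl_id`, `W.cy_top`, `Var.sdim_top`.
`lam_all`: `sec_top`, `CS_zero`, `yc_ne`.  `t_pow`: `w_van` for `Crd.inl`, `tw_img` (see `TL_top`).
-/

open MvPolynomial Topology TopologicalSpace Filter

namespace Pool.Agent.Work.MP_ffcd14_ag.Gm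

universe u v w

variable {k : Type u} [Field k] [IsAlgClosed k] {K : Type v} [Field K] [CharZero K] {P : Amb}
  (C : Weil.{u, v, w} k K)

namespace Geo

variable (G : Geo k) (a : G.ι) (N : ℕ)

/-- The hyperplane class of the second factor. -/
noncomputable abbrev l : W.EE C (G.Y N) := W.hy C (G.Y N) (Sum.inr ())

/-- The hyperplane class of the base. -/
noncomputable abbrev t : W.EE C (G.Y N) := W.hy C (G.Y N) (Sum.inl ())

/-- The product of the classes of the coordinates in `S`. -/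
noncomputable abbrev lam (S : Finset G.σ) : W.EE C (G.Y N) := lamS G.w S (G.l C N) (G.t C N)

/-- The hyperplane class of the base on `P a N`. -/
noncomputable abbrev tp : W.EE C (G.P a N) := W.hy C (G.P a N) (Sum.inr ())

/-- The pull-back from the fixed component. -/
noncomputable abbrev p : W.EE C (G.F a) →ₐ[K] W.EE C (G.P a N) := W.plK C (G.pF a N).hom

/-- The restriction to the fixed component. -/
noncomputable abbrev ρ : W.EE C (G.Y N) →ₐ[K] W.EE C (G.P a N) := W.plK C (G.hj a N)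

/-- The action of the first correspondence. -/
noncomputable abbrev φ : W.EE C (G.F a) →ₗ[K] W.EE C (G.Y N) := cor C (G.Y N) (G.F a) (G.Γp a N)

/-- The action of the second correspondence. -/
noncomputable abbrev φ' : W.EE C (G.F a) →ₗ[K] W.EE C (G.Y N) := cor C (G.Y N) (G.F a) (G.Γm a N)

variable {C} (hC : C.Chow) {N} {Ω : Var k P} (π : Prj Ω (G.Y N)) {U : Sub k P}
  (hU : (U : Set (P.Pt k)) ⊆ Ω.pts)
include hC

omit hC in
theorem c4_pl (v : G.σ) : W.plK C π.hom (G.l C N - G.w v • G.t C N) =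
    W.ln C Ω ((Finsupp.single (Sum.inr ()) 1 : (AT G.w N).ι →₀ ℕ).mapDomain π.ψ) -
      W.ln C Ω ((G.w v • Finsupp.single (Sum.inl ()) 1 : (AT G.w N).ι →₀ ℕ).mapDomain π.ψ) := by
  rw [← plK_ln, ← plK_ln, ← map_sub]
  exact congrArg _ (congrArg₂ (· - ·) (W.ln_single C (G.Y N) (Sum.inr ())).symm
    ((ln_nsmul (G.Y N) _ _).trans (congrArg _ (W.ln_single C (G.Y N) (Sum.inl ())))).symm)

include hU in
theorem sec_pos {v : G.σ} (h : ¬ ∀ u ∈ U, Vz v (π.pr u)) :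
    ∃ (s : Finset (Sub k P)) (m : Sub k P → ℚ),
      (∀ T, T ∈ s ↔ T ≤ U ∧ sdim T + 1 = sdim U ∧ ∀ u ∈ T, Vz v (π.pr u)) ∧ (∀ T ∈ s, 0 < m T) ∧
      W.cy C Ω U * W.plK C π.hom (G.l C N - G.w v • G.t C N) = ∑ T ∈ s, m T • W.cy C Ω T := by
  have ef : ∀ (u : P.Pt k) (b : Fin (G.w v) → Fin (N + 1)),
      ev u (rename π.ε (MvPolynomial.X (yv v b))) = yc (π.pr u) v b := fun u b => by
    rw [Crd.ev_rename, ev_X]
    rfl
  have ee : ∀ (u : P.Pt k) (b : Fin (G.w v) → Fin (N + 1)),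
      ev u (rename π.ε (∏ i, MvPolynomial.X (zv G.w (b i)))) = ∏ i, zc (π.pr u) (b i) :=
    fun u b => by
      rw [Crd.ev_rename, ev_eq, map_prod]
      simp only [eval_X]
      rfl
  have he : ∀ b : Fin (G.w v) → Fin (N + 1),
      IsForm (∏ i, MvPolynomial.X (zv G.w (b i)) : MvPolynomial (AT G.w N).V k)
        (G.w v • Finsupp.single (Sum.inl ()) 1) := fun b => by
    have h1 : IsForm (∏ i, MvPolynomial.X (zv G.w (b i)) : MvPolynomial (AT G.w N).V k)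
        (∑ _i : Fin (G.w v), Finsupp.single (Sum.inl ()) 1) :=
      IsWeightedHomogeneous.prod _ _ _ fun i _ => IsForm.X (zv G.w (b i))
    rwa [Finset.sum_const, Finset.card_univ, Fintype.card_fin] at h1
  have hf : ∀ b : Fin (G.w v) → Fin (N + 1),
      IsForm (MvPolynomial.X (yv v b) : MvPolynomial (AT G.w N).V k)
        (Finsupp.single (Sum.inr ()) 1) := fun b => IsForm.X (P := AT G.w N) (yv v b)
  obtain ⟨s, m, h1, h2, h3⟩ := w_ratio hC Ω hU (κ := Fin (G.w v) → Fin (N + 1))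
    (f := fun b => rename π.ε (MvPolynomial.X (yv v b)))
    (e := fun b => rename π.ε (∏ i, MvPolynomial.X (zv G.w (b i))))
    (fun b => π.toCrd.form (hf b)) (fun b => π.toCrd.form (he b))
    (fun b b' u hu => by
      obtain ⟨x, -, hx⟩ := mem_Tw.1 (π.maps u (hU hu))
      rw [ev_eq, map_sub, ← ev_eq, ← ev_eq, ev_mul, ev_mul, ef, ef, ee, ee, hx.eqn v b b', sub_self])
    (by
      by_contra h0
      refine h fun u hu b => ?_
      rw [← ef]
      by_contra h4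
      exact h0 ⟨b, fun h5 => h4 (h5 u hu)⟩)
    (fun T _ => by
      obtain ⟨u, hu⟩ := T.isIrreducible.nonempty
      obtain ⟨a₀, ha⟩ := zc_ne (π.pr u)
      refine ⟨fun _ => a₀, fun h4 => ?_⟩
      have h5 := h4 u hu
      rw [ee] at h5
      exact Finset.prod_ne_zero_iff.2 (fun _ _ => ha) h5)
  refine ⟨s, m, fun T => (h1 T).trans (and_congr_right fun _ => and_congr_right fun _ =>
    ⟨fun h4 u hu b => (ef u b).symm.trans (h4 b u hu), fun h4 b u hu =>
      (ef u b).trans (h4 u hu b)⟩), h2, ?_⟩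
  rw [c4_pl G π v]
  exact h3

include hU in
theorem sec_one (v : G.σ) : W.cy C Ω U * W.plK C π.hom (G.l C N - G.w v • G.t C N) ∈
    W.CS C Ω fun V => V ≤ U ∧ sdim V + 1 = sdim U ∧ ∀ u ∈ V, Vz v (π.pr u) := by
  by_cases h : ∀ u ∈ U, Vz v (π.pr u)
  · rw [c4_pl G π v, mul_sub]
    have hle : (W.CS C Ω fun V => V ≤ U ∧ sdim V + 1 = sdim U) ≤
        W.CS C Ω fun V => V ≤ U ∧ sdim V + 1 = sdim U ∧ ∀ u ∈ V, Vz v (π.pr u) :=
      CS_mono Ω fun V _ hV => ⟨hV.1, hV.2, fun u hu => h u (hV.1 hu)⟩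
    exact sub_mem (hle (w_ln hC Ω hU _)) (hle (w_ln hC Ω hU _))
  · obtain ⟨s, m, h1, -, h3⟩ := G.sec_pos hC π hU h
    rw [h3]
    exact Submodule.sum_mem _ fun T hT => Submodule.smul_mem _ _
      (CS_mem Ω (fun u hu => hU (((h1 T).1 hT).1 hu)) ((h1 T).1 hT))

include hU in
theorem sec_many (S : Finset G.σ) : W.cy C Ω U * W.plK C π.hom (G.lam C N S) ∈
    W.CS C Ω fun V => V ≤ U ∧ sdim V + S.card = sdim U ∧ ∀ v ∈ S, ∀ u ∈ V, Vz v (π.pr u) := by
  induction S using Finset.induction_on with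
  | empty =>
    rw [lam, lamS, Finset.prod_empty, map_one, mul_one]
    exact CS_mem Ω hU ⟨le_rfl, rfl, fun v hv => absurd hv (Finset.notMem_empty v)⟩
  | insert v S hv ih =>
    rw [lam, lamS, Finset.prod_insert hv, mul_comm (G.l C N - G.w v • G.t C N), map_mul,
      ← mul_assoc]
    refine CS_mul Ω _ _ (fun V hV hp => ?_) ih
    refine CS_mono Ω (fun V' _ hq => ⟨hq.1.trans hp.1, ?_, fun v' hv' u hu => ?_⟩)
      (G.sec_one hC π hV v)
    · rw [Finset.card_insert_of_notMem hv]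
      have := hp.2.1
      have := hq.2.1
      omega
    · rcases Finset.mem_insert.1 hv' with rfl | h
      · exact hq.2.2 u hu
      · exact hp.2.2 v' h u (hq.1 hu)

variable (N)

theorem sec_top (S : Finset G.σ) : G.lam C N S ∈
    W.CS C (G.Y N) fun V => sdim V + S.card = G.X.dim + N ∧ ∀ v ∈ S, ∀ u ∈ V, Vz v u := by
  have h1 := G.sec_many hC (Prj.refl (G.Y N)) (U := (G.Y N).top (G.Y_irr N)) subset_rfl S
  have h2 : W.plK C (Prj.refl (G.Y N)).hom (G.lam C N S) = G.lam C N S :=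
    W.pl_id C _ (fun _ => rfl) _
  rw [W.cy_top, one_mul, h2, Var.sdim_top] at h1
  exact CS_mono _ (fun V _ hV => hV.2) h1

theorem lam_all : G.lam C N Finset.univ = 0 := by
  refine CS_zero _ (fun V _ hV => ?_) (G.sec_top N hC Finset.univ)
  obtain ⟨u, hu⟩ := V.isIrreducible.nonempty
  obtain ⟨v, b, h⟩ := yc_ne u
  exact h (hV.2 v (Finset.mem_univ v) u hu b)

theorem t_pow : G.t C N ^ (N + 1) = 0 := by
  have h1 := w_van hC (G.Y N) (Crd.inl k _ _) (G.TL_sub (le_refl N)) (Finsupp.single () 1)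
    (n := N + 1) (by rw [TL, tw_img]; exact Nat.lt_succ_self N)
  rw [TL_top, W.cy_top, one_mul, Finsupp.mapDomain_single, W.ln_single] at h1
  exact h1

end Geo

end Pool.Agent.Work.MP_ffcd14_ag.Gm
end

-- merged part: Pool.Agent.Work.MP_ffcd14_ag.Gm.C4b
section
/-!
# Cutting with the normal coordinates

Plan.  `cut_step`: `sec_pos` for `Prj.refl` (`W.pl_id`).  The coordinate `v` does not vanish on `T`: otherwise
`Z J ⊆ cut X (insert v J)` (`rel_exists`, `rel_zero`), so `Z J ≤ Z (insert v J)` by `Z_top`, against `Z_dim`.  `T'` is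
a member of the finite set (`T = twS ..`, `tw_sdim`, `Z_dim`, `Cmp.Z_anti`, `tw_mono`).  Let `V` be another member and
`u ∈ V` with `Rel u f0`.  Then `V ⊆ Tw w N N (cut X (insert v J))`, and `tw_comp` (`cut_closed`, `gst_cut`) gives a
component through `f0`, which is `≤ Z (insert v J)`; so `V ≤ T'` and `V = T'` (`eq_of_sdim_le`).
`cut_chain`: induction on `S`; the property `U ≤ T ∧ Bad f0 U` passes to subvarieties (`sec_one`, `CS_mul`).
`kill`: `exists_comps` for the closed set of `pre_closed j`; the images `inl.img V` of its members are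
contained in `F` and do not contain `f0` (`Crd.mem_img_iff`), so their dimension is `< F.dim` (`sdim_lt`,
`Var.sdim_top`).  By `w_genpos` for `Prj.refl F` and this family, `x` is a combination of classes of points `S`
outside these images (a point is a subvariety, `FibA_pt_le`, `Crd.img_refl`).  By `w_meet` for the whole
product (`sdim_le_add`), `plK p1 (cy S)` is a combination of classes of subvarieties over `S`; `hom_disj`.
-/

open MvPolynomial Topology TopologicalSpace Filter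

namespace Pool.Agent.Work.MP_ffcd14_ag.Gm

universe u v w

variable {k : Type u} [Field k] [IsAlgClosed k] {K : Type v} [Field K] [CharZero K] {P Q S : Amb}
  {C : Weil.{u, v, w} k K} (hC : C.Chow)
include hC

theorem kill {F : Var k P} {V : Var k Q} {Y : Var k S} (hF : IsIrreducible F.pts)
    (hV : IsIrreducible V.pts) (j : Hom (F.prod V) Y) {f0 : P.Pt k} (h0 : f0 ∈ F.pts) {U : Sub k S}
    (hU : (U : Set (S.Pt k)) ⊆ Y.pts)
    (h : ∀ q : (F.prod V).pts, (Crd.inl k P Q).pr q.1 = f0 → (j.toFun q).1 ∉ U) {x : W.EE C F}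
    (hx : x ∈ W.AA C F F.dim) :
    W.plK C j (W.cy C Y U) * W.plK C (Prj.p1 F V).hom x = 0 := by
  obtain ⟨s, hs, hA, hm⟩ := exists_comps (pre_closed j U.isClosed)
  have hF' : ∀ Z ∈ (Crd.inl k P Q).img '' s, (Z : Set (P.Pt k)) ⊆ F.pts := by
    rintro _ ⟨Z, hZ, rfl⟩
    exact ((Crd.inl k P Q).img_sub F.closed).2 fun q hq => (hA Z hZ hq).1.1
  have hlt : ∀ Z ∈ s, sdim ((Crd.inl k P Q).img Z) < F.dim := fun Z hZ => by
    rw [← F.sdim_top hF]
    refine sdim_lt (lt_of_le_of_ne (hF' _ ⟨Z, hZ, rfl⟩) fun e => ?_)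
    obtain ⟨q, hq, e'⟩ := (Crd.inl k P Q).mem_img_iff.1 (e.ge (show f0 ∈ F.top hF from h0))
    obtain ⟨h1, h2⟩ := hA Z hZ hq
    exact h ⟨q, h1⟩ e' h2
  have hirr := Var.prod_irr hF hV
  refine (Submodule.mem_bot ℚ).1 (CS_map F (LinearMap.mulLeft ℚ (W.plK C j (W.cy C Y U)) ∘ₗ
    (W.pl C (Prj.p1 F V).hom).toLinearMap) ⊥ (fun T hT hp => ?_)
    (w_genpos hC hF (Prj.refl F) (hs.image _) hF' hx))
  have h1 := w_meet hC (Prj.p1 F V) (Z := (F.prod V).top hirr) subset_rfl hT fun U' hU' hi => by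
    have h2 := sdim_le_add U'
    have h3 : sdim ((Crd.inl k P Q).img U') ≤ sdim T := sdim_mono hi
    have h4 : sdim ((Crd.inr k P Q).img U') ≤ sdim (V.top hV) :=
      sdim_mono (((Crd.inr k P Q).img_sub V.closed).2 fun q hq => (hU' hq).2)
    have h5 : (F.prod V).dim = F.dim + V.dim := rfl
    rw [Var.sdim_top] at h4 ⊢
    omega
  rw [W.cy_top, one_mul] at h1
  have h2 := CS_mul (F.prod V) (W.plK C j (W.cy C Y U)) ⊥ (fun U' hU' hp' =>
    (Submodule.mem_bot ℚ).2 (hom_disj hC j hU' hU fun q hq hj => by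
      obtain ⟨Z, hZ, hle⟩ := hm {q.1} fun y hy => by
        obtain rfl : y = q.1 := hy
        exact ⟨q.2, hj⟩
      have h3 := hp.2 _ ⟨Z, hZ, rfl⟩ {(Crd.inl k P Q).pr q.1}
        (FibA_pt_le ((Crd.inl k P Q).mem_img (hle rfl)))
        ((Crd.img_refl _).trans_le (FibA_pt_le (hp'.2.1 ((Crd.inl k P Q).mem_img hq))))
      have h4 := hlt Z hZ
      omega)) h1
  rw [mul_comm] at h2
  exact h2

namespace Geo

variable (G : Geo k) (a : G.ι) (N : ℕ) {T T' : Sub k (AT G.w N)} {J : Finset G.σ}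

theorem cut_step {v : G.σ} (hv : v ∉ J) (hJ : insert v J ⊆ (G.Φ a).Sp ∪ (G.Φ a).Sm)
    (hT : (T : Set ((AT G.w N).Pt k)) = Tw G.w N N ((G.Φ a).Z J))
    (hT' : (T' : Set ((AT G.w N).Pt k)) = Tw G.w N N ((G.Φ a).Z (insert v J))) :
    ∃ μ : ℚ, 0 < μ ∧ W.cy C (G.Y N) T * (G.l C N - G.w v • G.t C N) - μ • W.cy C (G.Y N) T' ∈
      W.CS C (G.Y N) fun U => U ≤ T ∧ Bad (G.Φ a).f0 U := by
  classical
  have hJ0 : J ⊆ (G.Φ a).Sp ∪ (G.Φ a).Sm := (Finset.subset_insert v J).trans hJ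
  obtain rfl : T = twS _ ((G.Φ a).Z_st J hJ0) le_rfl := SetLike.coe_injective hT
  obtain rfl : T' = twS _ ((G.Φ a).Z_st _ hJ) le_rfl := SetLike.coe_injective hT'
  have d1 := (G.Φ a).Z_dim J hJ0
  have d2 := (G.Φ a).Z_dim _ hJ
  rw [Finset.card_insert_of_notMem hv] at d2
  have hTY : (twS _ ((G.Φ a).Z_st J hJ0) (le_refl N) : Set ((AT G.w N).Pt k)) ⊆ (G.Y N).pts :=
    tw_mono ((G.Φ a).Z_sub hJ0) le_rfl
  have hcut : ∀ x ∈ (G.Φ a).Z J, crd x v = 0 → x ∈ cut G.X.pts (insert v J) := fun x hx h0 =>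
    ⟨(G.Φ a).Z_sub hJ0 hx, fun v' hv' => by
      rcases Finset.mem_insert.1 hv' with rfl | hv'
      exacts [h0, (((G.Φ a).Z_top J hJ0).2.1 hx).2 v' hv']⟩
  obtain ⟨s, m, h1, h2, h3⟩ := G.sec_pos hC (Prj.refl (G.Y N)) hTY (v := v) fun hz => by
    obtain ⟨z, -⟩ := (pn_irr (k := k) N).nonempty
    have h4 := sdim_mono (((G.Φ a).Z_top _ hJ).2.2 ((G.Φ a).Z J) (fun x hx => hcut x hx (by
      obtain ⟨u, -, hu⟩ := rel_exists G.w x z
      exact (rel_zero hu v).2 (hz u (mem_Tw.2 ⟨x, hx, hu⟩)))) ((G.Φ a).Z_top J hJ0).1)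
    omega
  have hm : twS _ ((G.Φ a).Z_st _ hJ) (le_refl N) ∈ s := (h1 _).2
    ⟨tw_mono ((G.Φ a).Z_anti (Finset.subset_insert v J) hJ) le_rfl,
      by rw [tw_sdim, tw_sdim]; omega, fun u hu => by
        obtain ⟨x, hx, hr⟩ := mem_Tw.1 hu
        exact (rel_zero hr v).1
          ((((G.Φ a).Z_top _ hJ).2.1 hx).2 v (Finset.mem_insert_self v J))⟩
  refine ⟨_, h2 _ hm, ?_⟩
  have h4 := W.pl_id C (Prj.refl (G.Y N)).hom (fun _ => rfl) (G.l C N - G.w v • G.t C N)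
  rw [show W.plK C (Prj.refl (G.Y N)).hom (G.l C N - G.w v • G.t C N) = _ from h4] at h3
  rw [h3, ← Finset.add_sum_erase s _ hm, add_sub_cancel_left]
  refine Submodule.sum_mem _ fun V hV => Submodule.smul_mem _ _ ?_
  obtain ⟨hne, hV⟩ := Finset.mem_erase.1 hV
  obtain ⟨h5, h6, h7⟩ := (h1 V).1 hV
  refine CS_mem _ (fun u hu => hTY (h5 hu)) ⟨h5, fun u hu hr => hne ?_⟩
  obtain ⟨Z, hZ, h8, h9⟩ := tw_comp (cut_closed G.X.closed (insert v J)) (gst_cut G.st _) (U := V)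
    fun u' hu' => by
      obtain ⟨x, hx, hr'⟩ := mem_Tw.1 (h5 hu')
      exact mem_Tw.2 ⟨x, hcut x hx ((rel_zero hr' v).2 (h7 u' hu')), hr'⟩
  have h10 := ((G.Φ a).Z_top _ hJ).2.2 Z hZ.1 (h9 u hu _ hr)
  refine eq_of_sdim_le (fun u' hu' => tw_mono h10 le_rfl (h8 hu')) ?_
  rw [tw_sdim] at h6 ⊢
  omega

theorem cut_chain {S : Finset G.σ} (hd : Disjoint S J) (hJ : S ∪ J ⊆ (G.Φ a).Sp ∪ (G.Φ a).Sm)
    (hT : (T : Set ((AT G.w N).Pt k)) = Tw G.w N N ((G.Φ a).Z J))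
    (hT' : (T' : Set ((AT G.w N).Pt k)) = Tw G.w N N ((G.Φ a).Z (S ∪ J))) :
    ∃ μ : ℚ, 0 < μ ∧ W.cy C (G.Y N) T * G.lam C N S - μ • W.cy C (G.Y N) T' ∈
      W.CS C (G.Y N) fun U => U ≤ T ∧ Bad (G.Φ a).f0 U := by
  induction S using Finset.induction_on generalizing T' with
  | empty =>
    obtain rfl : T = T' := SetLike.coe_injective (by rw [hT, hT', Finset.empty_union])
    refine ⟨1, one_pos, ?_⟩
    rw [lam, lamS, Finset.prod_empty, mul_one, one_smul, sub_self]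
    exact Submodule.zero_mem _
  | insert v S hv ih =>
    rw [Finset.insert_union] at hJ hT'
    rw [Finset.disjoint_insert_left] at hd
    have hJ1 : S ∪ J ⊆ (G.Φ a).Sp ∪ (G.Φ a).Sm := (Finset.subset_insert _ _).trans hJ
    obtain ⟨μ, hμ, h1⟩ := ih (T' := twS _ ((G.Φ a).Z_st _ hJ1) le_rfl) hd.2 hJ1 rfl
    obtain ⟨ν, hν, h2⟩ := G.cut_step hC a N (T := twS _ ((G.Φ a).Z_st _ hJ1) le_rfl)
      (fun h => (Finset.mem_union.1 h).elim hv hd.1) hJ rfl hT'
    refine ⟨μ * ν, mul_pos hμ hν, ?_⟩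
    have h3 := CS_mul (G.Y N) (G.l C N - G.w v • G.t C N)
      (W.CS C (G.Y N) fun U => U ≤ T ∧ Bad (G.Φ a).f0 U) (fun U hU hp => by
        have h4 := G.sec_one hC (Prj.refl (G.Y N)) hU v
        have h5 := W.pl_id C (Prj.refl (G.Y N)).hom (fun _ => rfl) (G.l C N - G.w v • G.t C N)
        rw [show W.plK C (Prj.refl (G.Y N)).hom (G.l C N - G.w v • G.t C N) = _ from h5] at h4
        exact CS_mono _ (fun V _ hV => ⟨hV.1.trans hp.1, fun u hu => hp.2 u (hV.1 hu)⟩) h4) h1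
    have h6 : twS _ ((G.Φ a).Z_st _ hJ1) (le_refl N) ≤ T := fun u hu => by
      change u ∈ (T : Set ((AT G.w N).Pt k))
      rw [hT]
      exact tw_mono ((G.Φ a).Z_anti Finset.subset_union_right hJ1) le_rfl hu
    have h7 := Submodule.add_mem _ h3 (Submodule.smul_mem _ μ
      (CS_mono _ (fun V _ hV => ⟨hV.1.trans h6, hV.2⟩) h2))
    convert h7 using 1
    rw [lam, lam, lamS, lamS, Finset.prod_insert hv]
    generalize G.l C N - G.w v • G.t C N = e
    rw [sub_mul, smul_sub, smul_mul_assoc, mul_smul, mul_comm e, mul_assoc]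
    abel

theorem kill_bad {y : W.EE C (G.Y N)} (hy : y ∈ W.CS C (G.Y N) (Bad (G.Φ a).f0))
    {x : W.EE C (G.F a)} (hx : x ∈ W.AA C (G.F a) (G.F a).dim) :
    G.ρ C a N y * G.p C a N x = 0 :=
  (Submodule.mem_bot ℚ).1 (CS_map (G.Y N)
    (LinearMap.mulRight ℚ (G.p C a N x) ∘ₗ (W.pl C (G.hj a N)).toLinearMap) ⊥ (fun U hU hb =>
      kill hC (G.Φ a).irr (pn_irr N) (G.hj a N) (G.Φ a).f0_mem hU
        (fun q e hq => hb _ hq (e ▸ (G.hj_spec a N).1 q)) hx) hy)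

end Geo

end Pool.Agent.Work.MP_ffcd14_ag.Gm
end

-- merged part: Pool.Agent.Work.MP_ffcd14_ag.Gm.C1b
section
/-!
# The product formula for two factors

Plan.  Let `R : Fin 2 → Amb` be `![P, Q]` (or a definition by cases) and `V j : Var k (R j)` the family `X`, `Y`.
The varieties `Var.pi V` and `X.prod Y` are isomorphic: one map is `pairH (Hom.proj V 0) (Hom.proj V 1)`, the
other is built like `pairH` (or is a `Prj`).  Apply `C.tr_pi V (Var.pi V) (Hom.proj V)`, `C.tr_iso`,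
`C.pull_comp`; `List.ofFn` for `Fin 2`, `Fin.prod_univ_two`; `trK_apply`, `W.vl_pl`.
-/

open MvPolynomial Topology TopologicalSpace Filter

namespace Pool.Agent.Work.MP_ffcd14_ag.Gm

universe u v w

variable {k : Type u} [Field k] {K : Type v} [Field K] [CharZero K] {P Q : Amb}
  (C : WeilL.{u, v, w} k K)

/-- The morphism to a finite product with given components. -/
def C1b_pi {R : ℕ} {S : Fin R → Amb} {W : Var k P} {V : ∀ j, Var k (S j)} (φ : ∀ j, Hom W (V j)) :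
    Hom W (Var.pi V) where
  toFun x := ⟨fun p => ((φ p.1).toFun x).1 p.2, fun j => ((φ j).toFun x).2⟩
  reg x p := (φ p.1).reg x p.2

omit [CharZero K] in
theorem C1b_two {S : Fin 2 → Amb} (V : ∀ j, Var k (S j)) (x : ∀ j, C.H (V j)) :
    C.tr ((V 0).prod (V 1)) (C.pull (Prj.p1 (V 0) (V 1)).hom (x 0) *
      C.pull (Prj.p2 (V 0) (V 1)).hom (x 1)) = C.tr (V 0) (x 0) * C.tr (V 1) (x 1) := by
  let ψ : Hom ((V 0).prod (V 1)) (Var.pi V) := C1b_pi
    (Fin.cases (Prj.p1 (V 0) (V 1)).hom (Fin.cases (Prj.p2 (V 0) (V 1)).hom finZeroElim))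
  have hi : Inv ψ (pairH (Hom.proj V 0) (Hom.proj V 1)) := by
    refine ⟨fun z => Subtype.ext (sum_ext rfl rfl), fun y => Subtype.ext (funext ?_)⟩
    rintro ⟨j, i⟩
    revert i
    refine Fin.cases (fun _ => rfl) (Fin.cases (fun _ => rfl) finZeroElim) j
  have h := C.tr_pi V (Var.pi V) (Hom.proj V) rfl (fun _ _ _ => rfl) x
  obtain ⟨f, hf⟩ := C.pull_hom ψ
  rw [Fin.prod_univ_two, ← C.tr_iso ψ _ hi, List.ofFn_succ, List.ofFn_succ, List.ofFn_zero,
    List.prod_cons, List.prod_cons, List.prod_nil, mul_one, ← hf, map_mul, hf] at h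
  rw [C.pull_comp ψ (Hom.proj V 0) (Prj.p1 (V 0) (V 1)).hom fun _ => rfl,
    C.pull_comp ψ (Hom.proj V 1) (Prj.p2 (V 0) (V 1)).hom fun _ => rfl]
  exact h

theorem tr_prod (X : Var k P) (Y : Var k Q) (x : W.EE C.toWeil X) (y : W.EE C.toWeil Y) :
    trK C.toWeil (X.prod Y)
        (W.plK C.toWeil (Prj.p1 X Y).hom x * W.plK C.toWeil (Prj.p2 X Y).hom y) =
      trK C.toWeil X x * trK C.toWeil Y y := by
  have h := C1b_two C (S := Fin.cons P (Fin.cons Q finZeroElim))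
    (Fin.cons X (Fin.cons Y finZeroElim))
    (Fin.cons (W.vl C.toWeil X x) (Fin.cons (W.vl C.toWeil Y y) finZeroElim))
  rw [trK_apply, map_mul]
  exact (congrArg (C.tr _) (congrArg₂ (· * ·) (W.vl_pl C.toWeil _ x) (W.vl_pl C.toWeil _ y))).trans h

end Pool.Agent.Work.MP_ffcd14_ag.Gm
end

-- merged part: Pool.Agent.Work.MP_ffcd14_ag.Gm.C1c
section
/-!
# The ring of even classes: Lefschetz properties

Plan.  The structure `(rg C X hX).S` agrees by definition with `base C.isWeil X (C.A X) ..` of the file `Main`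
(the types `W.EE` and `Ev` are the same subalgebra), so `rg_power` should be
`power C.isWeil X (C.A X) .. l l' (C.ample hl) (C.ample hl')` (see the end of `Sec/S1` for the three side conditions),
and `rg_hdg`, `rg_HL`, `rg_hV` are copies of `hdg_iff` and of the first lines of `main`.
`rg_indep`: `Base.HR_of_HR`.  `rg_A0`: `W.AA_eq_CS`, `CS_one`, `eq_of_sdim_le`, `W.cy_top`.
`rg_t`: `Base.t_cast`, `tau_trK`.  `ample_comb`: take `m = q.den` and the identity.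
`hdg_low'`: `W.glue_iff`, `hn_zero`, `hn_one`.
-/

open MvPolynomial Topology TopologicalSpace Filter

namespace Pool.Agent.Work.MP_ffcd14_ag.Gm

universe u v w

variable {k : Type u} [Field k] [IsAlgClosed k] {K : Type v} [Field K] [CharZero K] {P Q : Amb}

section Weil

variable {C : Weil.{u, v, w} k K} {X : Var k P}

theorem ample_mem {l : C.H X} (hl : C.Ample X l) : l ∈ C.A X 1 := by
  obtain ⟨m, Q, Y, φ, ψ, a, hm, -, -, -, e⟩ := hl
  rw [W.glue_l φ hm e]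
  refine W.n1_cyc_smul C X _ (W.glue_A φ 1 _ ?_)
  rw [← W.vl_ln]
  exact ln_AA Y a

omit [IsAlgClosed k] in
theorem ample_ln (X : Var k P) {a : P.ι →₀ ℕ} (ha : ∀ i, 0 < a i) :
    C.Ample X (W.vl C X (W.ln C X a)) :=
  ⟨1, P, X, Hom.incl le_rfl, Hom.incl le_rfl, a, one_pos, rfl, ⟨fun _ => rfl, fun _ => rfl⟩, ha, by
    rw [one_smul, C.pull_id _ fun _ => rfl, W.vl_ln]⟩

theorem single_pos (i : Unit) : 0 < (Finsupp.single () 1 : Unit →₀ ℕ) i := by simp

omit [IsAlgClosed k] in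
theorem ample_hy {σ : Type} [Finite σ] (X : Var k (Amb.one σ)) :
    C.Ample X (W.vl C X (W.hy C X ())) := by
  rw [← W.ln_single]
  exact ample_ln X single_pos

theorem ample_two (X : Var k P) (i j : P.ι) (h : ∀ s, s = i ∨ s = j) {q : ℚ} (hq : 0 < q) :
    C.Ample X (W.vl C X (W.hy C X i + q • W.hy C X j)) := by
  have hn : 0 < q.num.natAbs := Int.natAbs_pos.mpr (Rat.num_pos.mpr hq).ne'
  have f1 : (q.num.natAbs : ℚ) = q.den * q := by
    rw [mul_comm, Rat.mul_den_eq_num, ← Int.cast_natCast,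
      Int.natAbs_of_nonneg (Rat.num_pos.mpr hq).le]
  refine ⟨q.den, _, X, Hom.incl le_rfl, Hom.incl le_rfl,
    q.den • Finsupp.single i 1 + q.num.natAbs • Finsupp.single j 1, q.den_pos, rfl,
    ⟨fun _ => rfl, fun _ => rfl⟩, fun s => ?_, ?_⟩
  · rcases h s with rfl | rfl
    · refine Nat.add_pos_left ?_ _
      rw [Finsupp.smul_apply, Finsupp.single_eq_same, smul_eq_mul, mul_one]
      exact q.den_pos
    · refine Nat.add_pos_right _ ?_
      rw [Finsupp.smul_apply, Finsupp.single_eq_same, smul_eq_mul, mul_one]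
      exact hn
  · rw [C.pull_id _ fun _ => rfl, ← W.vl_ln, ← map_nsmul, ln_add', ln_nsmul, ln_nsmul,
      W.ln_single, W.ln_single, smul_add, ← Nat.cast_smul_eq_nsmul ℚ q.num.natAbs, f1, mul_smul,
      Nat.cast_smul_eq_nsmul]

theorem ample_comb {σ τ : Type} [Finite σ] [Finite τ] (Y : Var k ((Amb.one σ).sum (Amb.one τ)))
    {q : ℚ} (hq : 0 < q) :
    C.Ample Y (W.vl C Y (W.hy C Y (Sum.inr ()) + q • W.hy C Y (Sum.inl ()))) := by
  refine ample_two Y _ _ ?_ hq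
  rintro (⟨⟨⟩⟩ | ⟨⟨⟩⟩)
  · exact Or.inr rfl
  · exact Or.inl rfl

theorem rg_hdg (hX : IsIrreducible X.pts) (l : W.EE C X) (n : ℕ) :
    Hdg (C.tr X) X.dim (C.A X) (W.vl C X l) n ↔ (rg C X hX).S.HR l n (X.dim - 2 * n) := by
  have hN : ∀ x : W.EE C X, (rg C X hX).S.N0 x ↔ Num0 (C.tr X) (C.A X) (W.vl C X x) := fun x =>
    ⟨fun h c y hy => by
      obtain ⟨y, hy, rfl⟩ := W.exists_vl C X hy
      rw [← map_mul]
      exact h c y hy,
    fun h c (y : W.EE C X) hy => by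
      have := h c _ hy
      rw [← map_mul] at this
      exact this⟩
  constructor
  · intro H (x : W.EE C X) hx h1 h2
    have h1' := (hN (l ^ (X.dim - 2 * n + 1) * x)).1 h1
    rw [map_mul, map_pow] at h1'
    obtain ⟨q, hq, e⟩ := H _ hx h1' (mt (hN x).2 h2)
    refine ⟨q, hq, ?_⟩
    rw [← map_pow, ← map_mul, ← map_mul] at e
    exact e
  · intro H x hx h1 h2
    obtain ⟨x, hx, rfl⟩ := W.exists_vl C X hx
    rw [← map_pow, ← map_mul] at h1
    obtain ⟨q, hq, e⟩ := H x hx ((hN _).2 h1) (mt (hN x).1 h2)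
    refine ⟨q, hq, ?_⟩
    rw [← map_pow, ← map_mul, ← map_mul]
    exact e

theorem rg_A0 (hX : IsIrreducible X.pts) {x : W.EE C X} (hx : x ∈ W.AA C X 0) :
    ∃ q : ℚ, x = q • 1 := by
  rw [W.AA_eq_CS C X hX] at hx
  rw [← W.cy_top C X hX]
  exact CS_one X (fun U hU hd =>
    eq_of_sdim_le (U := U) (Z := X.top hX) hU (by rw [X.sdim_top hX]; omega)) hx

theorem rg_t (hX : IsIrreducible X.pts) {c : ℕ} {x : W.EE C X} (hx : x ∈ W.AA C X c) :
    (rg C X hX).t x = W.tau C X x := by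
  have h1 : (((rg C X hX).t x : ℚ) : K) = trK C X x := (rg C X hX).S.t_cast (c := c) hx
  rw [← tau_trK C X hx] at h1
  exact_mod_cast h1

theorem tau_pow_pos (hC : C.Chow) (hX : IsIrreducible X.pts) {a : P.ι →₀ ℕ} (ha : ∀ i, 0 < a i) :
    0 < W.tau C X (W.ln C X a ^ X.dim) := tau_pos (W.nt_chow hC).cyc X hX ha

theorem hdg_low' (hC : C.Chow) (hX : IsIrreducible X.pts) {a : P.ι →₀ ℕ} (ha : ∀ i, 0 < a i)
    {n : ℕ} (hn : n ≤ 1) (hd : 2 * n ≤ X.dim) :
    Hdg (C.tr X) X.dim (C.A X) (W.vl C X (W.ln C X a)) n := by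
  rw [W.vl_ln]
  obtain rfl | rfl : n = 0 ∨ n = 1 := by omega
  · exact (W.glue_iff X a 0 X.dim rfl).2 (hn_zero (W.nt_chow hC).cyc X hX ha)
  · exact (W.glue_iff X a 1 (X.dim - 2) (by omega)).2
      (hn_one (W.nt_chow hC).cyc X hX (by omega) ha)

end Weil

variable (C : WeilL.{u, v, w} k K) {X : Var k P} (hX : IsIrreducible X.pts) {l l' : W.EE C.toWeil X}

theorem rg_HL (hl : C.Ample X (W.vl C.toWeil X l)) : (rg C.toWeil X hX).S.HL l := by
  intro i e hie (x : W.EE C.toWeil X) hx h0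
  have h1 : l ^ e * x = 0 := h0
  refine W.vl_inj C.toWeil X ((C.isWeil.hard_ample (C.ample hl) _ e hie (W.vl C.toWeil X x) hx
    ?_).trans (map_zero (W.vl C.toWeil X)).symm)
  have := congrArg (W.vl C.toWeil X) h1
  rw [map_mul, map_pow, map_zero] at this
  exact this

theorem rg_power (hl : C.Ample X (W.vl C.toWeil X l)) (hl' : C.Ample X (W.vl C.toWeil X l')) :
    (rg C.toWeil X hX).S.Power l l' := by
  exact power C.isWeil X (C.A X) (fun _ _ h => h)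
    (fun c c' x hx y hy => C.alg_mul X c c' x y hx hy)
    (fun c q x hx => W.n1_cyc_smul C.toWeil X q hx) l l' (C.ample hl) (C.ample hl')

theorem rg_hV (hl : C.Ample X (W.vl C.toWeil X l))
    (hL : LefA X.dim (C.A X) (W.vl C.toWeil X l)) : (rg C.toWeil X hX).HV := by
  refine (rg C.toWeil X hX).S.finrank_V (l := l) (ample_mem hl) (rg_HL C hX hl)
    fun i e hie (y : W.EE C.toWeil X) hy => ?_
  obtain ⟨x, hx, hxy⟩ := hL i e hie _ hy
  obtain ⟨x, hx, rfl⟩ := W.exists_vl C.toWeil X hx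
  exact ⟨x, hx, show y = l ^ e * x from W.vl_inj C.toWeil X (by rw [hxy, map_mul, map_pow])⟩

theorem rg_indep (hV : (rg C.toWeil X hX).HV) (hl : C.Ample X (W.vl C.toWeil X l))
    (hl' : C.Ample X (W.vl C.toWeil X l')) {n : ℕ} (hn : 2 * n ≤ X.dim) :
    (rg C.toWeil X hX).S.HR l n (X.dim - 2 * n) ↔ (rg C.toWeil X hX).S.HR l' n (X.dim - 2 * n) := by
  have hd : 2 * n + (X.dim - 2 * n) = (rg C.toWeil X hX).S.d := Nat.add_sub_cancel' hn
  exact ⟨(rg C.toWeil X hX).S.HR_of_HR hV (ample_mem hl) (ample_mem hl') (rg_HL C hX hl)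
      (rg_HL C hX hl') (rg_power C hX hl hl') hd,
    (rg C.toWeil X hX).S.HR_of_HR hV (ample_mem hl') (ample_mem hl) (rg_HL C hX hl')
      (rg_HL C hX hl) (rg_power C hX hl' hl) hd⟩

end Pool.Agent.Work.MP_ffcd14_ag.Gm
end

-- merged part: Pool.Agent.Work.MP_ffcd14_ag.Gm.C2
section
/-!
# Base change

Plan.  `pl_prod0`: `w_meet` for `Z = (Y.prod F).top` (`W.cy_top`, `Var.sdim_top`); the bound is `sdim_le_add` with
`Var.sdim_le`; `T'` is the product of `exists_prod`, so `sdim T' = sdim T + F.dim`; `CS_one`, `eq_of_sdim_le`.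
`pl_test`: `tr_prod`, `tau_trK`, `w_pos1`, `tau_pow_pos`; take `a = Finsupp.equivFunOnFinite.symm fun _ => 1`.
`base_change`: both sides are `ℚ`-linear in `α`, so let `α` be the class of `T` (`W.AA_le_CS`, `CS_map`), and
`T₁ = inl.img T`.  Let `T' = T × F'` and `T₁' = T₁ × F'` (`exists_prod`); `p13` maps `T'` onto `T₁'` (`im_prj`,
`Crd.mem_img_iff`).  By `pl_prod` and `psh_cy` both sides are rational multiples of
`plK p1 (cy T₁)`.  To compare the multiples use the test class `plK p1 y * plK p2 z` of `pl_test`: by `psh_tr`,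
`plK_comp` and `tr_prod` both sides pair to `trK (cy T * plK p1 y) * trK z`.
-/

open MvPolynomial Topology TopologicalSpace Filter

namespace Pool.Agent.Work.MP_ffcd14_ag.Gm

universe u v w

variable {k : Type u} [Field k] [IsAlgClosed k] {K : Type v} [Field K] [CharZero K] {P Q S : Amb}
  {Y : Var k P} {F : Var k Q} {F' : Var k S} {T : Sub k P} {T' : Sub k (P.sum Q)}

theorem pl_prod0 {C : Weil.{u, v, w} k K} (hC : C.Chow) (hY : IsIrreducible Y.pts)
    (hF : IsIrreducible F.pts) (hT : (T : Set (P.Pt k)) ⊆ Y.pts)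
    (h : ∀ z, z ∈ T' ↔ (Crd.inl k P Q).pr z ∈ T ∧ (Crd.inr k P Q).pr z ∈ F.pts) :
    ∃ q : ℚ, W.plK C (Prj.p1 Y F).hom (W.cy C Y T) = q • W.cy C (Y.prod F) T' := by
  have hI := Var.prod_irr hY hF
  obtain ⟨T'', h1, h2⟩ := exists_prod T (F.top hF)
  obtain rfl : T' = T'' := SetLike.ext fun z => (h z).trans (h1 z).symm
  rw [F.sdim_top hF] at h2
  have hd : sdim ((Y.prod F).top hI) = Y.dim + F.dim := (Y.prod F).sdim_top hI
  have hm := w_meet hC (Prj.p1 Y F) (Z := (Y.prod F).top hI) subset_rfl hT fun U hU hUT => by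
    have a1 := sdim_le_add U
    have a2 : sdim ((Crd.inl k P Q).img U) ≤ sdim T := sdim_mono hUT
    have a3 : sdim ((Crd.inr k P Q).img U) ≤ F.dim := F.sdim_le hF fun x hx => by
      obtain ⟨z, hz, rfl⟩ := (Crd.mem_img_iff _).1 hx
      exact (hU hz).2
    omega
  rw [W.cy_top, one_mul] at hm
  exact CS_one _ (fun U hU ⟨_, h3, h4⟩ => eq_of_sdim_le
    (fun z hz => (h z).2 ⟨h3 ((Crd.mem_img_iff _).2 ⟨z, hz, rfl⟩), (hU hz).2⟩) (by omega)) hm

variable {C : WeilL.{u, v, w} k K} (hC : C.toWeil.Chow)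
include hC

theorem pl_test (hY : IsIrreducible Y.pts) (hF : IsIrreducible F.pts)
    (hT : (T : Set (P.Pt k)) ⊆ Y.pts) : ∃ y z, trK C.toWeil (Y.prod F)
      (W.plK C.toWeil (Prj.p1 Y F).hom (W.cy C.toWeil Y T) *
        (W.plK C.toWeil (Prj.p1 Y F).hom y * W.plK C.toWeil (Prj.p2 Y F).hom z)) ≠ 0 := by
  let a : P.ι →₀ ℕ := Finsupp.equivFunOnFinite.symm fun _ => 1
  let b : Q.ι →₀ ℕ := Finsupp.equivFunOnFinite.symm fun _ => 1
  have ha : ∀ i, 0 < a i := fun _ => Nat.one_pos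
  have hb : ∀ i, 0 < b i := fun _ => Nat.one_pos
  refine ⟨W.ln C.toWeil Y a ^ sdim T, W.ln C.toWeil F b ^ F.dim, ?_⟩
  rw [← mul_assoc, ← map_mul, tr_prod]
  have h1 := pow_AA (ln_AA (C := C.toWeil) Y a)
    (cy_AA hY hT (Nat.add_sub_cancel' (Y.sdim_le hY hT))) (sdim T)
  have h2 := pow_AA (ln_AA (C := C.toWeil) F b) (one_AA hF) F.dim
  rw [mul_comm] at h1
  rw [mul_one] at h2
  rw [← tau_trK _ _ h1, ← tau_trK _ _ h2]
  exact mul_ne_zero (Rat.cast_ne_zero.2 (w_pos1 hC Y hT ha).ne')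
    (Rat.cast_ne_zero.2 (tau_pow_pos hC hF hb).ne')

theorem pl_prod (hY : IsIrreducible Y.pts) (hF : IsIrreducible F.pts)
    (hT : (T : Set (P.Pt k)) ⊆ Y.pts)
    (h : ∀ z, z ∈ T' ↔ (Crd.inl k P Q).pr z ∈ T ∧ (Crd.inr k P Q).pr z ∈ F.pts) :
    ∃ q : ℚ, W.cy C.toWeil (Y.prod F) T' =
      q • W.plK C.toWeil (Prj.p1 Y F).hom (W.cy C.toWeil Y T) := by
  obtain ⟨q, e⟩ := pl_prod0 hC hY hF hT h
  obtain ⟨y, z, hyz⟩ := pl_test hC hY hF hT
  have hq : q ≠ 0 := by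
    rintro rfl
    rw [e, zero_smul, zero_mul, map_zero] at hyz
    exact hyz rfl
  exact ⟨q⁻¹, by rw [e, smul_smul, inv_mul_cancel₀ hq, one_smul]⟩

omit [IsAlgClosed k] hC in
theorem c2_test (α : W.EE C.toWeil (Y.prod F)) (y : W.EE C.toWeil Y) (z : W.EE C.toWeil F') :
    trK C.toWeil (Y.prod F')
      (psh C.toWeil (p13 Y F F').hom (W.plK C.toWeil (Prj.p1 (Y.prod F) F').hom α) *
        (W.plK C.toWeil (Prj.p1 Y F').hom y * W.plK C.toWeil (Prj.p2 Y F').hom z)) =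
    trK C.toWeil (Y.prod F')
      (W.plK C.toWeil (Prj.p1 Y F').hom (psh C.toWeil (Prj.p1 Y F).hom α) *
        (W.plK C.toWeil (Prj.p1 Y F').hom y * W.plK C.toWeil (Prj.p2 Y F').hom z)) := by
  have e1 : W.plK C.toWeil (p13 Y F F').hom (W.plK C.toWeil (Prj.p1 Y F').hom y) =
      W.plK C.toWeil (Prj.p1 (Y.prod F) F').hom (W.plK C.toWeil (Prj.p1 Y F).hom y) := by
    let χ : Prj ((Y.prod F).prod F') Y :=
      ⟨(Crd.inl k P Q).comp (Crd.inl k (P.sum Q) S), fun _ hx => hx.1.1⟩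
    rw [← plK_comp C.toWeil _ _ χ.hom fun _ => rfl, ← plK_comp C.toWeil _ _ χ.hom fun _ => rfl]
  have e2 : W.plK C.toWeil (p13 Y F F').hom (W.plK C.toWeil (Prj.p2 Y F').hom z) =
      W.plK C.toWeil (Prj.p2 (Y.prod F) F').hom z :=
    (plK_comp C.toWeil _ _ _ (fun _ => rfl) z).symm
  rw [psh_tr, map_mul (W.plK C.toWeil (p13 Y F F').hom), e1, e2, ← mul_assoc, ← mul_assoc,
    ← map_mul, ← map_mul, tr_prod, tr_prod, psh_tr]

theorem c2_gen (hY : IsIrreducible Y.pts) (hF : IsIrreducible F.pts)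
    (hF' : IsIrreducible F'.pts) {T : Sub k (P.sum Q)}
    (hT : (T : Set ((P.sum Q).Pt k)) ⊆ (Y.prod F).pts) :
    psh C.toWeil (p13 Y F F').hom
        (W.plK C.toWeil (Prj.p1 (Y.prod F) F').hom (W.cy C.toWeil (Y.prod F) T)) =
      W.plK C.toWeil (Prj.p1 Y F').hom
        (psh C.toWeil (Prj.p1 Y F).hom (W.cy C.toWeil (Y.prod F) T)) := by
  have hI := Var.prod_irr hY hF
  have i1 := im_prj (Prj.p1 Y F) hT
  obtain ⟨T', h1, -⟩ := exists_prod T (F'.top hF')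
  obtain ⟨T₁', h2, -⟩ := exists_prod ((Prj.p1 Y F).img T) (F'.top hF')
  have hT' : (T' : Set (((P.sum Q).sum S).Pt k)) ⊆ ((Y.prod F).prod F').pts :=
    fun z hz => ⟨hT ((h1 z).1 hz).1, ((h1 z).1 hz).2⟩
  have i2 : Im (p13 Y F F').hom T' T₁' := fun y => by
    rw [h2]
    constructor
    · rintro ⟨a1, a2⟩
      obtain ⟨z, hz, e⟩ := (Crd.mem_img_iff _).1 a1
      have hz' : mkPt z ((Crd.inr k P S).pr y) ∈ T' := (h1 _).2 ⟨hz, a2⟩
      exact ⟨⟨_, hT' hz'⟩, hz', sum_ext e rfl⟩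
    · rintro ⟨x, hx, rfl⟩
      exact ⟨(Crd.mem_img_iff _).2 ⟨_, ((h1 _).1 hx).1, rfl⟩, ((h1 _).1 hx).2⟩
  obtain ⟨q1, e1⟩ := pl_prod0 (C := C.toWeil) hC hI hF' hT h1
  obtain ⟨n, -, e2⟩ := psh_cy hC hT' i2
  obtain ⟨q2, e3⟩ := pl_prod hC hY hF' i1.sub h2
  obtain ⟨m, -, e4⟩ := psh_cy hC hT i1
  obtain ⟨y, z, hyz⟩ := pl_test hC hY hF' i1.sub
  have key := c2_test (C := C) (W.cy C.toWeil (Y.prod F) T) y z
  rw [e1, psh_qsmul, e2, e3, e4, plK_qsmul, smul_smul, smul_smul] at key ⊢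
  rw [smul_mul_assoc, smul_mul_assoc, trK_qsmul, trK_qsmul] at key
  rw [Rat.cast_injective (mul_right_cancel₀ hyz key)]

theorem base_change (hY : IsIrreducible Y.pts) (hF : IsIrreducible F.pts)
    (hF' : IsIrreducible F'.pts) {c : ℕ} {α : W.EE C.toWeil (Y.prod F)}
    (hα : α ∈ W.AA C.toWeil (Y.prod F) c) :
    psh C.toWeil (p13 Y F F').hom (W.plK C.toWeil (Prj.p1 (Y.prod F) F').hom α) =
      W.plK C.toWeil (Prj.p1 Y F').hom (psh C.toWeil (Prj.p1 Y F).hom α) := by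
  exact CS_le (Y.prod F) (M := LinearMap.eqLocus
    ((psh C.toWeil (p13 Y F F').hom ∘ₗ
      (W.plK C.toWeil (Prj.p1 (Y.prod F) F').hom).toLinearMap).restrictScalars ℚ)
    (((W.plK C.toWeil (Prj.p1 Y F').hom).toLinearMap ∘ₗ
      psh C.toWeil (Prj.p1 Y F).hom).restrictScalars ℚ))
    (fun U hU _ => c2_gen hC hY hF hF' hU) (W.AA_le_CS _ _ c hα)

end Pool.Agent.Work.MP_ffcd14_ag.Gm
end

-- merged part: Pool.Agent.Work.MP_ffcd14_ag.Gm.C5
section
/-!
# Correspondences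

Plan.  `cor_AA`: `cy_AA`, `W.AA_mul`, `plK_AA`, `psh_AA`, `Var.prod_irr`.  `cor_supp`: `supp`, `psh_CS`; an image
under `p1` is `inl.img` (`im_prj`), or argue pointwise with `Crd.mem_img`.  `cor_adj`: `z` is the push-forward to `F`
of `cy Γ * plK p1 y`; `cor_tr`, `psh_tr`, `psh_AA`, `psh_zero`; the codimension of `Γ` exists by `Var.sdim_le`.
`cor_one`: `psh_cy`, `im_prj`.  `cor_kill`: `psh_proj`.  `cor_disj`: `cor_kill`, `hom_disj`.
`cor_loc`: `emb` for `pairH j π`, `cor_tr`, `psh_tr`, `plK_comp`.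
`cor_meet`: on `Ω = (Y.prod F).prod F`, `plK p1 (cy Γ)` is a multiple of the class of `Γ × F` (`pl_prod0`,
`exists_prod`), and `w_meet` for `p13` applies: a subvariety of `Γ × F` over `Γ'` is contained in the image `Δ` of
`pairH (pairH j π) π` (`exists_im` for the whole of `V`, injective), so its dimension is at most `V.dim`.  By
`CS_one` the product is a multiple of `cy Δ`; `tr_top` or `hom_push`.  Finally
`trK (cor Γ x * cor Γ' z * y) = trK (plK p1 (cor Γ x) * (cy Γ' * plK p2 z * plK p1 y))` on `Y × F`; use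
`base_change` for `cy Γ * plK p2 x`, `psh_tr`, `plK_comp`.
-/

open MvPolynomial Topology TopologicalSpace Filter

namespace Pool.Agent.Work.MP_ffcd14_ag.Gm

universe u v w

variable {k : Type u} [Field k] [IsAlgClosed k] {K : Type v} [Field K] [CharZero K] {P Q S : Amb}
  {Y : Var k P} {F : Var k Q} {V : Var k S} {Γ Γ' : Sub k (P.sum Q)}

section Weil

variable {C : Weil.{u, v, w} k K}

omit [IsAlgClosed k] in
theorem cor_kill {y : W.EE C Y} (h : W.cy C (Y.prod F) Γ * W.plK C (Prj.p1 Y F).hom y = 0)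
    (z : W.EE C F) : y * cor C Y F Γ z = 0 := by
  rw [mul_comm, cor_apply, ← psh_proj, mul_right_comm, h, zero_mul, map_zero]

omit [IsAlgClosed k] in
theorem c5_p1 (j : Hom V Y) (π : Hom V F) (y : W.EE C Y) :
    W.plK C (pairH j π) (W.plK C (Prj.p1 Y F).hom y) = W.plK C j y :=
  (plK_comp C _ _ _ (fun _ => rfl) y).symm

omit [IsAlgClosed k] in
theorem c5_p2 (j : Hom V Y) (π : Hom V F) (z : W.EE C F) :
    W.plK C (pairH j π) (W.plK C (Prj.p2 Y F).hom z) = W.plK C π z :=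
  (plK_comp C _ _ _ (fun _ => rfl) z).symm

omit [IsAlgClosed k] in
theorem c5_inj (j : Hom V Y) (π : Hom V F) (hj : Function.Injective j.toFun) :
    Function.Injective (pairH j π).toFun := fun _ _ h =>
  hj (Subtype.ext (congrArg (fun z : (Y.prod F).pts => (Crd.inl k P Q).pr z.1) h))

variable (hC : C.Chow) (hΓ : (Γ : Set ((P.sum Q).Pt k)) ⊆ (Y.prod F).pts)
include hC hΓ

theorem cor_AA (hY : IsIrreducible Y.pts) (hF : IsIrreducible F.pts) {c j : ℕ}
    (hc : sdim Γ + c = Y.dim) {x : W.EE C F} (hx : x ∈ W.AA C F j) :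
    cor C Y F Γ x ∈ W.AA C Y (c + j) := by
  have hI := Var.prod_irr hY hF
  have hd : (Y.prod F).dim = Y.dim + F.dim := rfl
  have h1 : W.cy C (Y.prod F) Γ ∈ W.AA C (Y.prod F) (c + F.dim) := cy_AA hI hΓ (by omega)
  exact psh_AA hC _ hI hY (W.AA_mul C _ h1 (plK_AA C _ hx)) (by omega)

theorem cor_supp (hF : IsIrreducible F.pts) {j : ℕ} {x : W.EE C F} (hx : x ∈ W.AA C F j) :
    cor C Y F Γ x ∈ W.CS C Y fun U => U ≤ (Crd.inl k P Q).img Γ := by
  refine CS_mono Y ?_ (psh_CS hC (Prj.p1 Y F).hom (supp hC (Prj.p2 Y F) hF hΓ hx))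
  rintro U' - ⟨U, -, ⟨h1, -⟩, h2, -⟩ y hy
  obtain ⟨z, hz, rfl⟩ := (h2 y).1 hy
  exact (Crd.inl k P Q).mem_img (h1 hz)

theorem cor_adj (hY : IsIrreducible Y.pts) (hF : IsIrreducible F.pts) {e : ℕ} {y : W.EE C Y}
    (hy : y ∈ W.AA C Y e) : ∃ z, (∀ x, trK C Y (cor C Y F Γ x * y) = trK C F (x * z)) ∧
      (∀ j, j + sdim Γ = e + F.dim → z ∈ W.AA C F j) ∧ (e + F.dim < sdim Γ → z = 0) := by
  have hI := Var.prod_irr hY hF
  have hd : (Y.prod F).dim = Y.dim + F.dim := rfl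
  obtain ⟨d, hd'⟩ := Nat.exists_eq_add_of_le ((Y.prod F).sdim_le hI hΓ)
  have h1 := W.AA_mul C _ (cy_AA (C := C) hI hΓ hd'.symm) (plK_AA C (Prj.p1 Y F).hom hy)
  refine ⟨psh C (Prj.p2 Y F).hom (W.cy C (Y.prod F) Γ * W.plK C (Prj.p1 Y F).hom y),
    fun x => ?_, fun j hj => psh_AA hC _ hI hF h1 (by omega),
    fun h => psh_zero hC _ hI hF h1 (by omega)⟩
  rw [cor_tr, mul_comm x, psh_tr, mul_right_comm]

theorem cor_one (h : sdim Γ = sdim ((Crd.inl k P Q).img Γ)) :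
    ∃ q : ℚ, 0 < q ∧ cor C Y F Γ 1 = q • W.cy C Y ((Crd.inl k P Q).img Γ) := by
  obtain ⟨n, h1, h2⟩ := psh_cy hC hΓ (im_prj (Prj.p1 Y F) hΓ)
  refine ⟨n, Nat.cast_pos.2 (h1.2 h), ?_⟩
  rw [cor_apply, map_one, mul_one, h2]
  rfl

theorem cor_disj {U : Sub k P} (hU : (U : Set (P.Pt k)) ⊆ Y.pts)
    (h : ∀ u ∈ (Crd.inl k P Q).img Γ, u ∉ U) (z : W.EE C F) :
    W.cy C Y U * cor C Y F Γ z = 0 := by
  exact cor_kill (hom_disj hC (Prj.p1 Y F).hom hΓ hU fun x hx =>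
    h _ ((Crd.inl k P Q).mem_img hx)) z

omit hΓ in
theorem cor_loc (hV : IsIrreducible V.pts) (j : Hom V Y) (π : Hom V F)
    (hj : Function.Injective j.toFun) {e : ℕ} {α : W.EE C Y}
    (h : W.cy C (Y.prod F) Γ * W.plK C (Prj.p1 Y F).hom α ∈ W.CS C (Y.prod F) fun U =>
      (U : Set ((P.sum Q).Pt k)) ⊆ Rng (pairH j π) ∧ sdim U + e = V.dim) :
    ∃ g ∈ W.AA C V e, ∀ z y,
      trK C Y (α * cor C Y F Γ z * y) = trK C V (g * W.plK C π z * W.plK C j y) := by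
  obtain ⟨g, hg, e1⟩ := emb hC (c5_inj j π hj) hV h
  refine ⟨g, hg, fun z y => ?_⟩
  have e2 : W.cy C (Y.prod F) Γ * W.plK C (Prj.p2 Y F).hom z *
      W.plK C (Prj.p1 Y F).hom (α * y) = W.cy C (Y.prod F) Γ * W.plK C (Prj.p1 Y F).hom α *
        (W.plK C (Prj.p2 Y F).hom z * W.plK C (Prj.p1 Y F).hom y) := by
    rw [map_mul]
    ring
  rw [mul_comm α, mul_assoc, cor_tr, e2, ← e1, psh_tr, map_mul (W.plK C (pairH j π)), c5_p1, c5_p2,
    mul_assoc]

end Weil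

theorem cor_meet {C : WeilL.{u, v, w} k K} (hC : C.toWeil.Chow) (hY : IsIrreducible Y.pts)
    (hF : IsIrreducible F.pts) (hV : IsIrreducible V.pts)
    (hΓ : (Γ : Set ((P.sum Q).Pt k)) ⊆ (Y.prod F).pts)
    (hΓ' : (Γ' : Set ((P.sum Q).Pt k)) ⊆ (Y.prod F).pts) (j : Hom V Y) (π : Hom V F)
    (hj : Function.Injective j.toFun) (hd : V.dim + Y.dim = sdim Γ + sdim Γ')
    (h : ∀ γ ∈ Γ, ∀ γ' ∈ Γ', (Crd.inl k P Q).pr γ = (Crd.inl k P Q).pr γ' → ∃ q : V.pts,
      (j.toFun q).1 = (Crd.inl k P Q).pr γ ∧ (π.toFun q).1 = (Crd.inr k P Q).pr γ ∧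
        (π.toFun q).1 = (Crd.inr k P Q).pr γ') :
    ∃ μ : ℚ, ∀ i, ∀ x ∈ W.AA C.toWeil F i, ∀ z y,
      trK C.toWeil Y (cor C.toWeil Y F Γ x * cor C.toWeil Y F Γ' z * y) =
        μ * trK C.toWeil V (W.plK C.toWeil π x * W.plK C.toWeil π z * W.plK C.toWeil j y) := by
  have hI := Var.prod_irr hY hF
  have hdim : (Y.prod F).dim = Y.dim + F.dim := rfl
  obtain ⟨T, h1, h2⟩ := exists_prod Γ (F.top hF)
  rw [F.sdim_top hF] at h2
  have hT : (T : Set (((P.sum Q).sum Q).Pt k)) ⊆ ((Y.prod F).prod F).pts :=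
    fun z hz => ⟨hΓ ((h1 z).1 hz).1, ((h1 z).1 hz).2⟩
  obtain ⟨q1, e1⟩ := pl_prod0 (C := C.toWeil) hC hI hF hΓ h1
  obtain ⟨Δ, i1, -, i2⟩ := exists_im (pairH (pairH j π) π) (Z := V.top hV) subset_rfl
  have i3 := i2 (c5_inj _ _ (c5_inj j π hj))
  have i4 := V.sdim_top hV
  have hle : ∀ U ≤ T, (p13 Y F F).img U ≤ Γ' → U ≤ Δ := by
    intro U hU hU' u hu
    obtain ⟨q, a1, a2, a3⟩ := h _ ((h1 u).1 (hU hu)).1 _ (hU' ((p13 Y F F).mem_img hu)) rfl
    exact (i1 u).2 ⟨q, q.2, sum_ext (sum_ext a1 a2) a3⟩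
  have hm := w_meet hC (p13 Y F F) hT hΓ' fun U hU hU' => by
    have := sdim_mono (hle U hU hU')
    omega
  obtain ⟨q2, e2⟩ := CS_one (T := Δ) _ (fun U _ ⟨b1, b2, b3⟩ =>
    eq_of_sdim_le (hle U b1 b2) (by omega)) hm
  obtain ⟨n, n1, n2⟩ := hom_push hC (Z := V.top hV) subset_rfl i1
  have hn : (n : K) ≠ 0 := Nat.cast_ne_zero.2 (n1.2 i3.symm).ne'
  obtain ⟨d, hd'⟩ := Nat.exists_eq_add_of_le ((Y.prod F).sdim_le hI hΓ)
  refine ⟨q1 * q2 / n, fun i x hx z y => ?_⟩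
  have hα := W.AA_mul C.toWeil _ (cy_AA (C := C.toWeil) hI hΓ hd'.symm)
    (plK_AA C.toWeil (Prj.p2 Y F).hom hx)
  have e3 := base_change hC hY hF hF hα
  have e4 : ∀ a, W.plK C.toWeil (pairH (pairH j π) π) (W.plK C.toWeil (p13 Y F F).hom a) =
      W.plK C.toWeil (pairH j π) a := fun a => (plK_comp C.toWeil _ _ _ (fun _ => rfl) a).symm
  have e5 := n2 (W.plK C.toWeil (Prj.p1 (Y.prod F) F).hom (W.plK C.toWeil (Prj.p2 Y F).hom x) *
    W.plK C.toWeil (p13 Y F F).hom (W.plK C.toWeil (Prj.p2 Y F).hom z) *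
      W.plK C.toWeil (p13 Y F F).hom (W.plK C.toWeil (Prj.p1 Y F).hom y))
  rw [W.cy_top, one_mul, map_mul (W.plK C.toWeil (pairH (pairH j π) π)),
    map_mul (W.plK C.toWeil (pairH (pairH j π) π)), e4, e4, c5_p1, c5_p1, c5_p2, c5_p2] at e5
  have e6 : W.cy C.toWeil (Y.prod F) Γ' * W.plK C.toWeil (Prj.p2 Y F).hom z *
      W.plK C.toWeil (Prj.p1 Y F).hom (cor C.toWeil Y F Γ x * y) =
      W.plK C.toWeil (Prj.p1 Y F).hom (cor C.toWeil Y F Γ x) *
        (W.cy C.toWeil (Y.prod F) Γ' * W.plK C.toWeil (Prj.p2 Y F).hom z *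
          W.plK C.toWeil (Prj.p1 Y F).hom y) := by
    rw [map_mul]
    ring
  have e7 : W.plK C.toWeil (Prj.p1 (Y.prod F) F).hom
        (W.cy C.toWeil (Y.prod F) Γ * W.plK C.toWeil (Prj.p2 Y F).hom x) *
      W.plK C.toWeil (p13 Y F F).hom
        (W.cy C.toWeil (Y.prod F) Γ' * W.plK C.toWeil (Prj.p2 Y F).hom z *
          W.plK C.toWeil (Prj.p1 Y F).hom y) = (q1 * q2) •
      (W.cy C.toWeil ((Y.prod F).prod F) Δ *
        (W.plK C.toWeil (Prj.p1 (Y.prod F) F).hom (W.plK C.toWeil (Prj.p2 Y F).hom x) *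
          W.plK C.toWeil (p13 Y F F).hom (W.plK C.toWeil (Prj.p2 Y F).hom z) *
            W.plK C.toWeil (p13 Y F F).hom (W.plK C.toWeil (Prj.p1 Y F).hom y))) := by
    rw [mul_smul, ← smul_mul_assoc q2, ← e2, map_mul, map_mul, map_mul, e1, ← smul_mul_assoc,
      ← smul_mul_assoc]
    ring
  rw [mul_comm (cor C.toWeil Y F Γ x), mul_assoc, cor_tr, e6, cor_apply, ← e3, psh_tr, e7,
    trK_qsmul, e5]
  push_cast
  field_simp

end Pool.Agent.Work.MP_ffcd14_ag.Gm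
end

-- merged part: Pool.Agent.Work.MP_ffcd14_ag.Gm.G10
section
/-!
# Incidence properties of the cells

Plan.  `hj_eq`: `rel_ext` with `hj_spec`.  `hj_inj`: `sum_ext`, `Rel.fix`.  A point `x` of `Z Sp` (or `Z Sm`)
with `Lv w lev x` lies in `F` by `Zp_lim` (`Zm_lim`) and `Lv.tr`.  `disj_pm`: let `x ∈ Z Sp` and `x' ∈ Z Sm` be
related to `u`; by `Rel.mem`, `x` lies in both; its non-zero coordinates `v` satisfy
`lev b ≤ w v ≤ lev a` (`Zp_le`, `Zm_le`, `crd_ne`), so the levels agree, `x` is fixed, and `G.disj` applies.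
`TF ≤ Tp, Tm`: `Z_all`, `Cmp.Z_anti`, `tw_mono`.  `lv_cover`: `rel_zero`, `G.cover`, `Lv.unique`,
`sub_finite_union`.  `gam_fix`: `Crd.mem_img`, `rel_zero`, `IsGam.lim`, `hj_eq`.
`TL_cut`: `eq_of_sdim_le`, `TL_dim`; the variable does not vanish by `rel_exists` (`exists_pt`); for the converse
`tw_mono`.
-/

open MvPolynomial Topology TopologicalSpace Filter

namespace Pool.Agent.Work.MP_ffcd14_ag.Gm.Geo

universe u

variable {k : Type u} [Field k] [IsAlgClosed k] (G : Geo k) {a b : G.ι} {N m : ℕ}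
  {u : (AT G.w N).Pt k}

omit [IsAlgClosed k] in
theorem hj_eq {x : G.A.Pt k} (hx : x ∈ (G.F a).pts) (h : Rel u x) :
    ((G.hj a N).toFun ⟨mkPt x ((Crd.inl k _ _).pr u), hx, trivial⟩).1 = u := by
  exact rel_ext ((G.hj_spec a N).1 ⟨mkPt x ((Crd.inl k _ _).pr u), hx, trivial⟩) h
    ((G.Φ a).fix x hx) ((G.hj_spec a N).2.1 _)

omit [IsAlgClosed k] in
theorem hj_inj : Function.Injective (G.hj a N).toFun := by
  intro p q e
  refine Subtype.ext (sum_ext ?_ ?_)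
  · exact Rel.fix ((G.hj_spec a N).1 q) ((G.Φ a).fix _ q.2.1) (e ▸ (G.hj_spec a N).1 p)
  · rw [← (G.hj_spec a N).2.1 p, ← (G.hj_spec a N).2.1 q, e]

theorem hj_rng : Rng (G.hj a N) = G.TF a N := by
  ext u
  constructor
  · rintro ⟨p, rfl⟩
    exact mem_Tw.2 ⟨_, p.2.1, (G.hj_spec a N).1 p⟩
  · intro h
    obtain ⟨x, hx, r⟩ := mem_Tw.1 h
    exact ⟨_, G.hj_eq hx r⟩

theorem TF_le_p : G.TF a N ≤ G.Tp a N := by
  have h := (G.Φ a).Z_anti Finset.subset_union_left subset_rfl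
  exact tw_mono ((G.Φ a).Z_all.symm.subset.trans h) le_rfl

theorem TF_le_m : G.TF a N ≤ G.Tm a N := by
  have h := (G.Φ a).Z_anti Finset.subset_union_right subset_rfl
  exact tw_mono ((G.Φ a).Z_all.symm.subset.trans h) le_rfl

theorem G10_both (hl : ¬ G.lev b < G.lev a) (h : u ∈ G.Tp a N) (h' : u ∈ G.Tm b N) :
    ∃ x, Rel u x ∧ x ∈ (G.F a).pts ∧ x ∈ (G.F b).pts := by
  obtain ⟨x, hx, r⟩ := mem_Tw.1 h
  obtain ⟨x', hx', r'⟩ := mem_Tw.1 h'
  have h1 : x ∈ (G.Φ b).Z (G.Φ b).Sm :=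
    Rel.mem ((G.Φ b).Z_st _ Finset.subset_union_right) hx' r' r
  have h2 : ∀ v, ¬ (G.lev b ≤ G.w v ∧ G.w v ≤ G.lev a) → crd x v = 0 := fun v hv => by
    rcases not_and_or.1 hv with e | e
    exacts [(G.Φ b).Zm_le x h1 v (not_le.1 e), (G.Φ a).Zp_le x hx v (not_le.1 e)]
  have h3 : Lv G.w (G.lev a) x := fun v hv => h2 v (by omega)
  have h4 : Lv G.w (G.lev b) x := fun v hv => h2 v (by omega)
  exact ⟨x, r, (G.Φ a).Zp_lim x hx x h3.tr, (G.Φ b).Zm_lim x h1 x h4.tr⟩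

theorem disj_pm (hb : b ≠ a) (hl : ¬ G.lev b < G.lev a) (h : u ∈ G.Tp a N) : u ∉ G.Tm b N := by
  intro h'
  obtain ⟨x, -, h1, h2⟩ := G.G10_both hl h h'
  exact hb (G.disj b a x h2 h1)

theorem meet_pm (h : u ∈ G.Tp a N) (h' : u ∈ G.Tm a N) : u ∈ G.TF a N := by
  obtain ⟨x, r, h1, -⟩ := G.G10_both (lt_irrefl _) h h'
  exact mem_Tw.2 ⟨x, h1, r⟩

omit [IsAlgClosed k] in
theorem G10_lv {x : G.A.Pt k} (r : Rel u x) (h : ∀ v ∈ off G.w m, Vz v u) : Lv G.w m x :=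
  fun v hv => (rel_zero r v).2 (h v (Finset.mem_filter.2 ⟨Finset.mem_univ v, hv⟩))

theorem Tm_fix (h : u ∈ G.Tm a N) (h' : ∀ v ∈ off G.w (G.lev a), Vz v u) : u ∈ G.TF a N := by
  obtain ⟨x, hx, r⟩ := mem_Tw.1 h
  exact mem_Tw.2 ⟨x, (G.Φ a).Zm_lim x hx x (G.G10_lv r h').tr, r⟩

theorem Tm_low (hm : m < G.lev a) (h : u ∈ G.Tm a N) : ¬ ∀ v ∈ off G.w m, Vz v u := by
  intro h'
  obtain ⟨x, hx, r⟩ := mem_Tw.1 h
  obtain ⟨v, hv⟩ := crd_ne x
  have e : G.w v = m := not_not.1 fun e => hv (G.G10_lv r h' v e)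
  exact hv ((G.Φ a).Zm_le x hx v (e ▸ hm))

theorem lv_cover {U : Sub k (AT G.w N)} (hU : (U : Set ((AT G.w N).Pt k)) ⊆ (G.Y N).pts)
    (h : ∀ v ∈ off G.w m, ∀ u ∈ U, Vz v u) : ∃ a, G.lev a = m ∧ U ≤ G.TF a N := by
  obtain ⟨a, ha, h1⟩ := sub_finite_union (U := U) (Finset.univ.filter fun a => G.lev a = m)
    (fun a => (G.TF a N : Set ((AT G.w N).Pt k))) (fun a _ => (G.TF a N).isClosed) fun u hu => by
      obtain ⟨x, hx, r⟩ := mem_Tw.1 (hU hu)
      have h2 := G.G10_lv r fun v hv => h v hv u hu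
      obtain ⟨a, ha⟩ := G.cover x hx m h2
      exact ⟨a, Finset.mem_filter.2 ⟨Finset.mem_univ a, ((G.Φ a).fix x ha).unique h2⟩,
        mem_Tw.2 ⟨x, ha, r⟩⟩
  exact ⟨a, (Finset.mem_filter.1 ha).2, h1⟩

theorem gam_fix {T : Sub k (AT G.w N)} {Γ : Sub k ((AT G.w N).sum G.A)} (h : G.IsGam a N T Γ)
    {γ : ((AT G.w N).sum G.A).Pt k} (hγ : γ ∈ Γ) {p : (G.P a N).pts}
    (e : ((G.hj a N).toFun p).1 = (Crd.inl k _ _).pr γ) :
    ((G.pF a N).hom.toFun p).1 = (Crd.inr k _ _).pr γ := by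
  exact (h.lim γ hγ _ _ (e ▸ (G.hj_spec a N).1 p) ((G.Φ a).fix _ p.2.1).tr).symm

theorem TL_van {j : ℕ} (h : j ≤ N) :
    ¬ Van (G.TL h : Set ((AT G.w N).Pt k))
      (MvPolynomial.X (zv G.w ⟨j, Nat.lt_succ_of_le h⟩)) := by
  intro hv
  obtain ⟨x, hx⟩ := G.irr.nonempty
  let f : Fin (N + 1) → k := fun a => if a = ⟨j, Nat.lt_succ_of_le h⟩ then 1 else 0
  have f1 : f ⟨j, Nat.lt_succ_of_le h⟩ = 1 := if_pos rfl
  obtain ⟨z, μ, hμ, hz⟩ := exists_pt (k := k) (P := PN N) (fun s => f s.2)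
    fun _ => ⟨(⟨j, Nat.lt_succ_of_le h⟩ : Fin (N + 1)), f1 ▸ one_ne_zero⟩
  obtain ⟨u, rfl, r⟩ := rel_exists G.w x z
  have h1 : ∀ a : Fin (N + 1), zc u a = μ () * f a := fun a => congrFun hz (vr a)
  have h2 : u ∈ G.TL h := ⟨⟨x, hx, r⟩, fun a ha => by
    have f0 : f a = 0 := if_neg fun e => by rw [e] at ha; exact lt_irrefl _ ha
    rw [h1, f0, mul_zero]⟩
  have h3 : zc u ⟨j, Nat.lt_succ_of_le h⟩ = 0 := (ev_X u _).symm.trans (hv u h2)
  rw [h1, f1, mul_one] at h3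
  exact hμ () h3

theorem TL_cut {j : ℕ} (h : j + 1 ≤ N) (U : Sub k (AT G.w N)) :
    U ≤ G.TL h ∧ sdim U + 1 = sdim (G.TL h) ∧
      Van (U : Set ((AT G.w N).Pt k))
        (MvPolynomial.X (zv G.w ⟨j + 1, Nat.lt_succ_of_le h⟩)) ↔
    U = G.TL (Nat.le_of_succ_le h) := by
  constructor
  · rintro ⟨h1, h2, h3⟩
    refine eq_of_sdim_le (fun u hu => ⟨(h1 hu).1, fun a ha => ?_⟩) ?_
    · rcases (Nat.succ_le_of_lt ha).eq_or_lt with e | e
      · obtain rfl : a = ⟨j + 1, Nat.lt_succ_of_le h⟩ := Fin.ext e.symm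
        exact (ev_X u _).symm.trans (h3 u hu)
      · exact (h1 hu).2 a e
    · rw [TL_dim] at h2 ⊢
      omega
  · rintro rfl
    refine ⟨tw_mono subset_rfl (Nat.le_succ j), ?_, fun u hu => ?_⟩
    · rw [TL_dim, TL_dim, add_assoc]
    · exact (ev_X u _).trans (hu.2 ⟨j + 1, Nat.lt_succ_of_le h⟩ (Nat.lt_succ_self j))

end Pool.Agent.Work.MP_ffcd14_ag.Gm.Geo
end

-- merged part: Pool.Agent.Work.MP_ffcd14_ag.Gm.C6a
section
/-!
# Localisation at the fixed components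

Plan.  `E1`: by `sec_top` it is enough to show that the classes `x` for which there is a family `γ` with
`trK (x * y) = ∑ a with lev a = m, trK (γ a * ρ y)`, `γ a` algebraic of the given codimension for `lev a = m`, form a
`ℚ`-submodule containing the generators.  For a generator `U` take `a` from `lv_cover`, and `emb` for `hj a N`
(`hj_inj`, `hj_rng`, `P_irr`, `P_dim`, `dF`; `sdim U ≤ sdim TF` bounds the codimension), `psh_tr`, `Pi.single`.  Do this
for every `m`, choose, and put `γ a = γ (lev a) a`.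
`E2`: `sec_many` for `Prj.p1` and `Γm`, `cor_loc` with `hj a N` and `(pF a N).hom`; a point `γ` of a member lies over
`TF` (`Crd.mem_img`, `Tm_fix`, `hj_rng`), and `gam_fix`, `sum_ext` show that it is in the range of `pairH`.  The
dimension of a member is at most that of `TF`, because it is in the range of an injective map (or:
`Sp ⊆ off`, `Finset.card_le_card`).
`E3`: `cor_kill`, `sec_many`, `CS_zero`, `Tm_low`.  `E4`: `cor_supp`, `hom_disj` for the whole of `P b N`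
(`W.cy_top`), `disj_pm`, `TF_le_m`, `hj_rng`.  `E5`, `E5'`: `cor_supp`, `cor_disj`, `disj_pm`, `CS_mul`.
-/

open MvPolynomial Topology TopologicalSpace Filter

namespace Pool.Agent.Work.MP_ffcd14_ag.Gm.Geo

universe u v w

variable {k : Type u} [Field k] [IsAlgClosed k] {K : Type v} [Field K] [CharZero K]
  {C : Weil.{u, v, w} k K} (hC : C.Chow) (G : Geo k)
include hC

theorem c6a_lv (N m : ℕ) {x : W.EE C (G.Y N)} (hx : x ∈ W.CS C (G.Y N) fun V =>
    sdim V + (off G.w m).card = G.X.dim + N ∧ ∀ v ∈ off G.w m, ∀ u ∈ V, Vz v u) :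
    ∃ γ : ∀ a, W.EE C (G.P a N),
      (∀ a, γ a ∈ W.AA C (G.P a N) ((off G.w m).card - (G.c a + G.c' a))) ∧
      x = ∑ a with G.lev a = m, psh C (G.hj a N) (γ a) := by
  induction hx using Submodule.span_induction with
  | mem x hx =>
    obtain ⟨U, hU, ⟨h1, h2⟩, rfl⟩ := hx
    obtain ⟨a, ha, h3⟩ := G.lv_cover hU h2
    have h4 := sdim_mono h3
    have h5 := G.TF_dim a N
    have h6 := G.dF a
    have h7 := G.P_dim a N
    obtain ⟨g, hg, e⟩ := emb hC G.hj_inj (G.P_irr a N)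
      (e := (off G.w m).card - (G.c a + G.c' a))
      (CS_mem (C := C) (G.Y N) hU ⟨G.hj_rng ▸ h3, by omega⟩)
    refine ⟨Pi.single a g, fun b => ?_, ?_⟩
    · by_cases hb : b = a
      · subst hb
        rwa [Pi.single_eq_same]
      · rw [Pi.single_eq_of_ne hb]
        exact zero_mem _
    · rw [Finset.sum_eq_single_of_mem a (Finset.mem_filter.2 ⟨Finset.mem_univ a, ha⟩)
        fun b _ hb => by rw [Pi.single_eq_of_ne hb, map_zero], Pi.single_eq_same, e]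
  | zero => exact ⟨0, fun a => zero_mem _, by simp⟩
  | add x y _ _ hx hy =>
    obtain ⟨γ, h1, rfl⟩ := hx
    obtain ⟨γ', h2, rfl⟩ := hy
    exact ⟨γ + γ', fun a => add_mem (h1 a) (h2 a), by
      simp only [Pi.add_apply, map_add, Finset.sum_add_distrib]⟩
  | smul q x _ hx =>
    obtain ⟨γ, h1, rfl⟩ := hx
    exact ⟨fun a => q • γ a, fun a => Submodule.smul_mem _ q (h1 a), by
      simp only [psh_qsmul, Finset.smul_sum]⟩

omit hC in
theorem c6a_mem {a : G.ι} {N : ℕ} {γ : ((AT G.w N).sum G.A).Pt k} (h : γ ∈ G.Γm a N) :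
    (Crd.inl k _ _).pr γ ∈ G.Tm a N := (G.Γm_spec a N).img ▸ (Crd.inl k _ _).mem_img h

theorem c6a_p {a : G.ι} {N j : ℕ} {x : W.EE C (G.F a)} (hx : x ∈ W.AA C (G.F a) j) :
    G.φ C a N x ∈ W.CS C (G.Y N) fun U => U ≤ G.Tp a N :=
  (G.Γp_spec a N).img ▸ cor_supp hC (G.Γp_spec a N).sub (G.Φ a).irr hx

theorem c6a_m {a : G.ι} {N j : ℕ} {x : W.EE C (G.F a)} (hx : x ∈ W.AA C (G.F a) j) :
    G.φ' C a N x ∈ W.CS C (G.Y N) fun U => U ≤ G.Tm a N :=
  (G.Γm_spec a N).img ▸ cor_supp hC (G.Γm_spec a N).sub (G.Φ a).irr hx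

theorem E1 (N : ℕ) : ∃ γ : ∀ a, W.EE C (G.P a N),
    (∀ a, γ a ∈ W.AA C (G.P a N) ((off G.w (G.lev a)).card - (G.c a + G.c' a))) ∧
    ∀ m y, trK C (G.Y N) (G.lam C N (off G.w m) * y) =
      ∑ a with G.lev a = m, trK C (G.P a N) (γ a * G.ρ C a N y) := by
  choose γ h1 h2 using fun m => G.c6a_lv hC N m (G.sec_top N hC (off G.w m))
  refine ⟨fun a => γ (G.lev a) a, fun a => h1 _ a, fun m y => ?_⟩
  rw [h2, Finset.sum_mul, map_sum]
  refine Finset.sum_congr rfl fun a ha => ?_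
  rw [psh_tr, ← (Finset.mem_filter.1 ha).2]

theorem E2 (a : G.ι) (N : ℕ) : ∃ g ∈ W.AA C (G.P a N) ((off G.w (G.lev a)).card - G.c a),
    ∀ z y, trK C (G.Y N) (G.lam C N (off G.w (G.lev a)) * G.φ' C a N z * y) =
      trK C (G.P a N) (g * G.p C a N z * G.ρ C a N y) := by
  refine cor_loc hC (G.P_irr a N) (G.hj a N) (G.pF a N).hom G.hj_inj (CS_mono _ (fun V _ hV => ?_)
    (G.sec_many hC (Prj.p1 (G.Y N) (G.F a)) (G.Γm_spec a N).sub (off G.w (G.lev a))))
  obtain ⟨h1, h2, h3⟩ := hV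
  refine ⟨fun γ hγ => ?_, ?_⟩
  · have h4 : (Crd.inl k _ _).pr γ ∈ Rng (G.hj a N) :=
      G.hj_rng ▸ G.Tm_fix (G.c6a_mem (h1 hγ)) fun v hv => h3 v hv γ hγ
    obtain ⟨p, hp⟩ := h4
    exact ⟨p, sum_ext hp (G.gam_fix (G.Γm_spec a N) (h1 hγ) hp)⟩
  · have h4 : G.c a ≤ (off G.w (G.lev a)).card := Finset.card_le_card fun v hv =>
      Finset.mem_filter.2 ⟨Finset.mem_univ v, ((G.Φ a).hp v hv).ne'⟩
    have h5 := (G.Γm_spec a N).dim
    have h6 := G.Tm_dim a N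
    have h7 := G.dF a
    have h8 := G.P_dim a N
    omega

theorem E3 (a : G.ι) (N m : ℕ) (z : W.EE C (G.F a)) (h : m < G.lev a) :
    G.lam C N (off G.w m) * G.φ' C a N z = 0 := by
  refine cor_kill (CS_zero _ (fun V _ hV => ?_)
    (G.sec_many hC (Prj.p1 (G.Y N) (G.F a)) (G.Γm_spec a N).sub (off G.w m))) z
  obtain ⟨γ, hγ⟩ := V.isIrreducible.nonempty
  exact G.Tm_low h (G.c6a_mem (hV.1 hγ)) fun v hv => hV.2.2 v hv γ hγ

theorem ρ_disj {b : G.ι} {N : ℕ} {y : W.EE C (G.Y N)}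
    (hy : y ∈ W.CS C (G.Y N) fun U => ∀ u ∈ U, u ∉ G.TF b N) : G.ρ C b N y = 0 := by
  refine (Submodule.mem_bot ℚ).1 (CS_map (G.Y N) (W.pl C (G.hj b N)).toLinearMap ⊥
    (fun U hU h => ?_) hy)
  have h1 := hom_disj hC (G.hj b N) (Z := (G.P b N).top (G.P_irr b N)) subset_rfl hU
    fun x _ hx => h _ hx (G.hj_rng.subset ⟨x, rfl⟩)
  rwa [W.cy_top, one_mul] at h1

theorem E4 (a b : G.ι) (N j : ℕ) (hb : b ≠ a) (hl : ¬ G.lev b < G.lev a) :
    ∀ x ∈ W.AA C (G.F a) j, G.ρ C b N (G.φ C a N x) = 0 := by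
  exact fun x hx => G.ρ_disj hC (CS_mono _
    (fun U _ hU u hu h => G.disj_pm hb hl (hU hu) (G.TF_le_m h)) (G.c6a_p hC hx))

theorem E5 (a b : G.ι) (N j : ℕ) (hb : b ≠ a) (hl : ¬ G.lev b < G.lev a) :
    ∀ x ∈ W.AA C (G.F a) j, ∀ z, G.φ C a N x * G.φ' C b N z = 0 := by
  exact fun x hx z => (Submodule.mem_bot ℚ).1 (CS_mul _ _ ⊥ (fun U hU h =>
    cor_disj hC (G.Γm_spec b N).sub hU (fun u hu h' =>
      G.disj_pm hb hl (h h') ((G.Γm_spec b N).img ▸ hu)) z) (G.c6a_p hC hx))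

theorem E5' (a b : G.ι) (N j : ℕ) (hb : b ≠ a) (hl : ¬ G.lev b < G.lev a) :
    ∀ x, ∀ z ∈ W.AA C (G.F b) j, G.φ C a N x * G.φ' C b N z = 0 := by
  intro x z hz
  rw [mul_comm]
  exact (Submodule.mem_bot ℚ).1 (CS_mul _ _ ⊥ (fun U hU h =>
    cor_disj hC (G.Γp_spec a N).sub hU (fun u hu h' =>
      G.disj_pm hb hl ((G.Γp_spec a N).img ▸ hu) (h h')) x) (G.c6a_m hC hz))

end Pool.Agent.Work.MP_ffcd14_ag.Gm.Geo
end

-- merged part: Pool.Agent.Work.MP_ffcd14_ag.Gm.C6b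
section
/-!
# Products and adjoints of the two correspondences

Plan.  `φ_mem`, `φ'_mem`: `cor_AA`, `IsGam.dim`, `Tp_dim`, `Tm_dim`.  `E6`, `E6'`: `cor_meet` with `hj a N`,
`(pF a N).hom` (`meet_pm`, `hj_rng`, `gam_fix`, `Crd.mem_img`, `P_dim`, `dF`), for `E6'` with the roles exchanged.
`E7`, `E7'`: `cor_adj`.
`E10`: `S = Sp ∪ Sm`.  `cut_chain` with `J = ∅`, `T = (Y N).top` (`Cmp.Z_empty`, `W.cy_top`), `T' = TF` (`Z_all`):
`lam S = μ • cy TF + β` with `β` bad.  By `E1`, `trK (E * (β * y)) = ∑ b, trK (γ b * ρ β * ρ y)`, which vanishes by the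
hypothesis for `b ≠ a` and by `kill_bad` for `b = a`.  `tr_top` for `hj a N` (`hj_rng`, `TF_dim`).
`E9`: by `cor_one` replace `φ 1`, `φ' 1` by positive multiples of `cy Tp`, `cy Tm`.  `cut_chain` gives
`lam Sp = μ • cy Tp + β` (`J = ∅`) and `cy Tm * lam Sp = μ' • cy TF + β'` (`J = Sm`), with `β'` supported in `Tm`.
The term `trK (E * φ' 1 * (β * y))` vanishes by `E2` and `kill_bad`; the term `trK (E * (β' * y))` vanishes by `E1`,
`kill_bad` and, for `b ≠ a`, `ρ_disj` (`disj_pm` with the roles exchanged, `TF_le_p`).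
-/

open MvPolynomial Topology TopologicalSpace Filter

namespace Pool.Agent.Work.MP_ffcd14_ag.Gm.Geo

universe u v w

variable {k : Type u} [Field k] [IsAlgClosed k] {K : Type v} [Field K] [CharZero K]

theorem C6b_dim (G : Geo k) (a : G.ι) (N : ℕ) :
    (G.P a N).dim + (G.Y N).dim = sdim (G.Γp a N) + sdim (G.Γm a N) := by
  have e1 := G.Tp_dim a N
  have e2 := G.Tm_dim a N
  have e3 := G.dF a
  rw [(G.Γp_spec a N).dim, (G.Γm_spec a N).dim, G.P_dim, G.Y_dim]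
  omega

theorem C6b_meet (G : Geo k) (a : G.ι) (N : ℕ) {γ γ' : ((AT G.w N).sum G.A).Pt k}
    (h : γ ∈ G.Γp a N) (h' : γ' ∈ G.Γm a N) (e : (Crd.inl k _ _).pr γ = (Crd.inl k _ _).pr γ') :
    ∃ q : (G.P a N).pts, ((G.hj a N).toFun q).1 = (Crd.inl k _ _).pr γ ∧
      ((G.pF a N).hom.toFun q).1 = (Crd.inr k _ _).pr γ ∧
      ((G.pF a N).hom.toFun q).1 = (Crd.inr k _ _).pr γ' := by
  have h1 := (Crd.inl k _ _).mem_img h
  have h2 := (Crd.inl k _ _).mem_img h'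
  rw [(G.Γp_spec a N).img] at h1
  rw [(G.Γm_spec a N).img, ← e] at h2
  have h3 : (Crd.inl k _ _).pr γ ∈ Rng (G.hj a N) := by
    rw [G.hj_rng]
    exact G.meet_pm h1 h2
  obtain ⟨q, hq⟩ := h3
  exact ⟨q, hq, G.gam_fix (G.Γp_spec a N) h hq, G.gam_fix (G.Γm_spec a N) h' (hq.trans e)⟩

section Weil

variable {C : Weil.{u, v, w} k K} (hC : C.Chow) (G : Geo k) (a : G.ι) (N : ℕ)
include hC

theorem φ_mem (j : ℕ) : ∀ x ∈ W.AA C (G.F a) j, G.φ C a N x ∈ W.AA C (G.Y N) (G.c a + j) := by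
  intro x hx
  exact cor_AA hC (G.Γp_spec a N).sub (G.Y_irr N) (G.Φ a).irr
    ((G.Γp_spec a N).dim ▸ G.Tp_dim a N) hx

theorem φ'_mem (j : ℕ) : ∀ x ∈ W.AA C (G.F a) j, G.φ' C a N x ∈ W.AA C (G.Y N) (G.c' a + j) := by
  intro x hx
  exact cor_AA hC (G.Γm_spec a N).sub (G.Y_irr N) (G.Φ a).irr
    ((G.Γm_spec a N).dim ▸ G.Tm_dim a N) hx

theorem E7 (e : ℕ) : ∀ y ∈ W.AA C (G.Y N) e, ∃ j, ∃ z ∈ W.AA C (G.F a) j,
    ∀ x, trK C (G.Y N) (G.φ C a N x * y) = trK C (G.F a) (x * z) := by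
  intro y hy
  obtain ⟨z, h1, h2, h3⟩ := cor_adj hC (G.Γp_spec a N).sub (G.Y_irr N) (G.Φ a).irr hy
  rcases le_or_gt (sdim (G.Γp a N)) (e + (G.F a).dim) with h | h
  · exact ⟨_, z, h2 _ (Nat.sub_add_cancel h), h1⟩
  · exact ⟨0, z, h3 h ▸ zero_mem _, h1⟩

theorem E7' (e : ℕ) : ∀ y ∈ W.AA C (G.Y N) e, ∃ z,
    (∀ x, trK C (G.Y N) (G.φ' C a N x * y) = trK C (G.F a) (x * z)) ∧
    (∀ j, j + G.c a + N = e → z ∈ W.AA C (G.F a) j) ∧ (e < G.c a + N → z = 0) := by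
  intro y hy
  obtain ⟨z, h1, h2, h3⟩ := cor_adj hC (G.Γm_spec a N).sub (G.Y_irr N) (G.Φ a).irr hy
  have e1 := (G.Γm_spec a N).dim
  have e2 := G.Tm_dim a N
  have e3 := G.dF a
  exact ⟨z, h1, fun j hj => h2 j (by omega), fun h => h3 (by omega)⟩

theorem E9 : ∃ ν : ℚ, 0 < ν ∧ ∀ y z, ∀ x ∈ W.AA C (G.F a) (G.F a).dim,
    G.ρ C a N y = z * G.p C a N x →
    trK C (G.Y N) (G.φ C a N 1 * G.φ' C a N 1 * (G.lam C N (off G.w (G.lev a)) * y)) =
      ν * trK C (G.P a N) (G.ρ C a N (G.lam C N (off G.w (G.lev a)) * y)) := by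
  obtain ⟨q, hq, e1⟩ := cor_one hC (G.Γp_spec a N).sub
    (by rw [(G.Γp_spec a N).img, (G.Γp_spec a N).dim])
  obtain ⟨q', hq', e2⟩ := cor_one hC (G.Γm_spec a N).sub
    (by rw [(G.Γm_spec a N).img, (G.Γm_spec a N).dim])
  rw [(G.Γp_spec a N).img] at e1
  rw [(G.Γm_spec a N).img] at e2
  obtain ⟨μ, hμ, h1⟩ := G.cut_chain hC a N (T := (G.Y N).top (G.Y_irr N)) (T' := G.Tp a N) (J := ∅)
    (S := (G.Φ a).Sp) (Finset.disjoint_empty_right _) (by simp)
    (by rw [(G.Φ a).Z_empty G.irr]; rfl) (by rw [Finset.union_empty]; rfl)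
  obtain ⟨μ', hμ', h2⟩ := G.cut_chain hC a N (T := G.Tm a N) (T' := G.TF a N) (J := (G.Φ a).Sm)
    (S := (G.Φ a).Sp) (G.Φ a).disj subset_rfl rfl (by rw [(G.Φ a).Z_all]; rfl)
  rw [W.cy_top, one_mul] at h1
  obtain ⟨n, hn, h3⟩ := tr_top hC (G.P_irr a N) (G.hj_rng (a := a) (N := N))
    ((G.TF_dim a N).trans (G.P_dim a N).symm)
  obtain ⟨γ, -, h4⟩ := E1 hC G N
  obtain ⟨g, -, h5⟩ := E2 hC G a N
  refine ⟨q * q' * μ' / (μ * n), by positivity, fun y z x hx hy => ?_⟩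
  have k1 := G.kill_bad hC a N (CS_mono _ (fun _ _ h => h.2) h1) hx
  have k2 := G.kill_bad hC a N (CS_mono _ (fun _ _ h => h.2) h2) hx
  have k3 := h5 1 ((G.lam C N (G.Φ a).Sp - μ • W.cy C (G.Y N) (G.Tp a N)) * y)
  rw [map_mul (G.ρ C a N), hy, mul_left_comm _ z, k1, mul_zero, mul_zero, map_zero] at k3
  have k4 := h4 (G.lev a) ((W.cy C (G.Y N) (G.Tm a N) * G.lam C N (G.Φ a).Sp -
    μ' • W.cy C (G.Y N) (G.TF a N)) * y)
  rw [Finset.sum_eq_zero fun b hb => ?_] at k4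
  · have hμ0 : (μ : K) ≠ 0 := Rat.cast_ne_zero.2 hμ.ne'
    have hn0 : (n : K) ≠ 0 := Rat.cast_ne_zero.2 hn.ne'
    rw [h3]
    change trK C _ (_ * cor C _ _ _ 1 * _) = 0 at k3
    change trK C _ (cor C _ _ _ 1 * cor C _ _ _ 1 * _) = _
    rw [e2] at k3
    rw [e1, e2]
    generalize G.lam C N (off G.w (G.lev a)) = E at *
    generalize G.lam C N (G.Φ a).Sp = L at *
    generalize W.cy C (G.Y N) (G.Tp a N) = A at *
    generalize W.cy C (G.Y N) (G.Tm a N) = B at *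
    generalize W.cy C (G.Y N) (G.TF a N) = D at *
    rw [show E * q' • B * ((L - μ • A) * y) = q' • (B * L * (E * y)) - (q' * μ) • (A * B * (E * y)) by
      simp only [smul_mul_assoc, mul_smul_comm, mul_sub, sub_mul, smul_sub, smul_smul]; ring_nf,
      map_sub, trK_qsmul, trK_qsmul] at k3
    rw [show E * ((B * L - μ' • D) * y) = B * L * (E * y) - μ' • (D * (E * y)) by
      simp only [smul_mul_assoc, mul_smul_comm, mul_sub, sub_mul]; ring_nf,
      map_sub, trK_qsmul] at k4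
    rw [show q • A * q' • B * (E * y) = (q * q') • (A * B * (E * y)) by
      simp only [smul_mul_assoc, mul_smul_comm, smul_smul, mul_comm q' q], trK_qsmul]
    push_cast at k3 ⊢
    rw [div_mul_eq_mul_div, eq_div_iff (mul_ne_zero hμ0 hn0)]
    linear_combination (-q * n : K) * k3 + q * q' * n * k4
  · rw [map_mul (G.ρ C b N)]
    by_cases hba : b = a
    · subst hba
      rw [hy, mul_left_comm _ z, k2, mul_zero, mul_zero, map_zero]
    · rw [ρ_disj hC G (CS_mono _ (fun U _ h u hu hF => G.disj_pm (Ne.symm hba)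
        (by rw [(Finset.mem_filter.1 hb).2]; exact lt_irrefl _) (G.TF_le_p hF) (h.1 hu)) h2),
        zero_mul, mul_zero, map_zero]

theorem E10 : ∃ (S : Finset G.σ) (μ : ℚ), 0 < μ ∧ S.card = G.c a + G.c' a ∧
    (S.filter fun v => G.lev a < G.w v).card = G.c a ∧ (∀ v ∈ S, G.w v ≠ G.lev a) ∧
    ∀ y z, ∀ x ∈ W.AA C (G.F a) (G.F a).dim,
      (∀ b ≠ a, G.lev b = G.lev a → G.ρ C b N y = 0) → G.ρ C a N y = z * G.p C a N x →
      trK C (G.Y N) (G.lam C N (off G.w (G.lev a)) * (G.lam C N S * y)) =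
        μ * trK C (G.P a N) (G.ρ C a N (G.lam C N (off G.w (G.lev a)) * y)) := by
  obtain ⟨μ, hμ, h1⟩ := G.cut_chain hC a N (T := (G.Y N).top (G.Y_irr N)) (T' := G.TF a N) (J := ∅)
    (S := (G.Φ a).Sp ∪ (G.Φ a).Sm) (Finset.disjoint_empty_right _) (by simp)
    (by rw [(G.Φ a).Z_empty G.irr]; rfl) (by rw [Finset.union_empty, (G.Φ a).Z_all]; rfl)
  rw [W.cy_top, one_mul] at h1
  obtain ⟨n, hn, h3⟩ := tr_top hC (G.P_irr a N) (G.hj_rng (a := a) (N := N))
    ((G.TF_dim a N).trans (G.P_dim a N).symm)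
  obtain ⟨γ, -, h4⟩ := E1 hC G N
  refine ⟨(G.Φ a).Sp ∪ (G.Φ a).Sm, μ / n, by positivity,
    Finset.card_union_of_disjoint (G.Φ a).disj, ?_, fun v hv => ?_, fun y z x hx h0 hy => ?_⟩
  · congr 1
    ext v
    rw [Finset.mem_filter, Finset.mem_union]
    exact ⟨fun h => h.1.elim id fun h' => absurd (h.2.trans ((G.Φ a).hm v h')) (lt_irrefl _),
      fun h => ⟨Or.inl h, (G.Φ a).hp v h⟩⟩
  · rcases Finset.mem_union.1 hv with h | h
    · exact ((G.Φ a).hp v h).ne'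
    · exact ((G.Φ a).hm v h).ne
  have k1 := G.kill_bad hC a N (CS_mono _ (fun _ _ h => h.2) h1) hx
  have k4 := h4 (G.lev a) ((G.lam C N ((G.Φ a).Sp ∪ (G.Φ a).Sm) -
    μ • W.cy C (G.Y N) (G.TF a N)) * y)
  rw [Finset.sum_eq_zero fun b hb => ?_] at k4
  · have hn0 : (n : K) ≠ 0 := Rat.cast_ne_zero.2 hn.ne'
    rw [h3]
    generalize G.lam C N (off G.w (G.lev a)) = E at *
    generalize G.lam C N ((G.Φ a).Sp ∪ (G.Φ a).Sm) = L at *
    generalize W.cy C (G.Y N) (G.TF a N) = D at *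
    rw [show E * ((L - μ • D) * y) = E * (L * y) - μ • (D * (E * y)) by
      simp only [smul_mul_assoc, mul_smul_comm, mul_sub, sub_mul]; ring_nf,
      map_sub, trK_qsmul] at k4
    push_cast
    field_simp
    linear_combination k4
  · rw [map_mul (G.ρ C b N)]
    by_cases hba : b = a
    · subst hba
      rw [hy, mul_left_comm _ z, k1, mul_zero, mul_zero, map_zero]
    · rw [h0 b hba (Finset.mem_filter.1 hb).2, mul_zero, mul_zero, map_zero]

end Weil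

variable {C : WeilL.{u, v, w} k K} (hC : C.toWeil.Chow) (G : Geo k) (a : G.ι) (N : ℕ)
include hC

theorem E6 : ∃ μ : ℚ, ∀ j, ∀ x ∈ W.AA C.toWeil (G.F a) j, ∀ z y,
    trK C.toWeil (G.Y N) (G.φ C.toWeil a N x * G.φ' C.toWeil a N z * y) =
      μ * trK C.toWeil (G.P a N)
        (G.p C.toWeil a N x * G.p C.toWeil a N z * G.ρ C.toWeil a N y) := by
  refine cor_meet hC (G.Y_irr N) (G.Φ a).irr (G.P_irr a N) (G.Γp_spec a N).sub
    (G.Γm_spec a N).sub (G.hj a N) (G.pF a N).hom G.hj_inj (G.C6b_dim a N) fun γ h γ' h' e => ?_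
  exact G.C6b_meet a N h h' e

theorem E6' : ∃ μ : ℚ, ∀ j x, ∀ z ∈ W.AA C.toWeil (G.F a) j, ∀ y,
    trK C.toWeil (G.Y N) (G.φ C.toWeil a N x * G.φ' C.toWeil a N z * y) =
      μ * trK C.toWeil (G.P a N)
        (G.p C.toWeil a N x * G.p C.toWeil a N z * G.ρ C.toWeil a N y) := by
  obtain ⟨μ, H⟩ := cor_meet hC (G.Y_irr N) (G.Φ a).irr (G.P_irr a N) (G.Γm_spec a N).sub
    (G.Γp_spec a N).sub (G.hj a N) (G.pF a N).hom G.hj_inj
    ((G.C6b_dim a N).trans (add_comm _ _)) fun γ h γ' h' e => by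
      obtain ⟨q, h1, h2, h3⟩ := G.C6b_meet a N h' h e.symm
      exact ⟨q, h1.trans e.symm, h3, h2⟩
  refine ⟨μ, fun j x z hz y => ?_⟩
  rw [mul_comm (G.φ C.toWeil a N x), mul_comm (G.p C.toWeil a N x)]
  exact H j z hz x y

end Pool.Agent.Work.MP_ffcd14_ag.Gm.Geo
end

-- merged part: Pool.Agent.Work.MP_ffcd14_ag.Gm.G9b
section
/-!
# Degeneration to stable subvarieties

Plan.  `T` is given by `exists_sweep`, `D₁ = s₀ - s₁`, `D₀ = s₀`.  `T ⊆ Ω × ℙ¹`: `subset_of_van`, `van_of_open`.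
The points of `T` with `s₀ = s₁` are the points `(x, [1 : 1])`, `x ∈ Z` (`pt_ext`): this is `T₁`, the product of
`Z` and a point (`exists_prod`, `sdim_pt`).  `D₁` does not vanish on `T` (a point with `s₀ / s₁ = τ ≠ 0, 1`,
`act_exists`, `exists_pt`), so `T₁ < T` and `sdim T = sdim Z + 1` (`sdim_lt`); `eq_of_sdim_le`.
`T` is stable for the weights `Amb.elim w (wl fun a => if a = 0 then 1 else 0)` and `Amb.elim w' 0`
(`gst_of_open`, `GAct.comm`).  Hence `A = {x | mkPt x [0 : 1] ∈ T}` is closed (preimage of a closed set, compare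
`continuous_mkPt`) and stable for `w` and `w'`.  If `U ≤ T` has `D₀ = 0` then `inl` is injective on `U`
(`sdim_img_of_inj`), and `inl.img U` is a component of `A`: for `V ⊆ A` the product of `V` and the point is
`< T`, so `sdim V ≤ sdim Z`.  Conclude with `gst_mx`.
-/

open MvPolynomial Topology TopologicalSpace Filter

namespace Pool.Agent.Work.MP_ffcd14_ag.Gm

universe u

variable {k : Type u} [Field k] [IsAlgClosed k] {P : Amb}

section

omit [IsAlgClosed k]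

variable {Q : Amb} {w : P.V → ℕ} {v : Q.V → ℕ} {τ τ' : k}

theorem g9b_one {x y : P.Pt k} : GAct w 1 x y ↔ y = x :=
  ⟨fun ⟨μ, h⟩ => pt_ext (μ := μ) fun s => by rw [h s, one_pow, mul_one],
    fun h => ⟨1, fun s => by rw [h, one_pow, Pi.one_apply, one_mul, one_mul]⟩⟩

theorem g9b_trans {x y z : P.Pt k} (h : GAct w τ x y) (h' : GAct w τ' y z) :
    GAct w (τ * τ') x z := by
  obtain ⟨μ, h⟩ := h
  obtain ⟨μ', h'⟩ := h'
  refine ⟨μ * μ', fun s => ?_⟩
  rw [h', h, Pi.mul_apply, mul_pow]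
  ring

theorem g9b_inl {p q : (P.sum Q).Pt k} (h : GAct (Amb.elim w v) τ p q) :
    GAct w τ ((Crd.inl k P Q).pr p) ((Crd.inl k P Q).pr q) :=
  let ⟨μ, h⟩ := h
  ⟨fun i => μ (Sum.inl i), fun s => h ⟨Sum.inl s.1, s.2⟩⟩

theorem g9b_fib {T : Set ((P.sum Q).Pt k)} (hT : GSt (Amb.elim w v) T) {z : Q.Pt k}
    (hz : ∀ τ, GAct v τ z z) : GSt w {x | mkPt x z ∈ T} := by
  rintro x hx τ hτ y ⟨μ, h⟩
  obtain ⟨μ', h'⟩ := hz τ
  refine hT _ hx τ hτ _ ⟨Sum.elim μ μ', ?_⟩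
  rintro ⟨i | j, s⟩
  · exact h ⟨i, s⟩
  · exact h' ⟨j, s⟩

theorem g9b_line {a b : k} (hb : b ≠ 0) :
    ∃ z : (PN 1).Pt k, ∃ c : k, c ≠ 0 ∧ crd z 0 = c * a ∧ crd z 1 = c * b := by
  obtain ⟨z, μ, h0, h⟩ := exists_pt (P := PN 1) (fun s => (![a, b] : Fin 2 → k) s.2)
    fun _ => ⟨(1 : Fin 2), hb⟩
  exact ⟨z, μ (), h0 (), congrFun h (vr 0), congrFun h (vr 1)⟩

theorem g9b_ext {z z' : (PN 1).Pt k} (h : crd z 0 * crd z' 1 = crd z 1 * crd z' 0) : z = z' := by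
  obtain ⟨i, hi⟩ := crd_ne z'
  refine crd_ext (c := crd z i / crd z' i) fun j => ?_
  rw [div_mul_eq_mul_div, eq_div_iff hi]
  fin_cases i <;> fin_cases j
  · rfl
  · exact h.symm
  · exact h
  · rfl

theorem g9b_g {p : (P.sum (PN 1)).Pt k} : ev p (X (sv P 0) * X (sv P 1)) ≠ 0 ↔
    rp p (sv P 0) ≠ 0 ∧ rp p (sv P 1) ≠ 0 := by
  rw [ev_eq, map_mul, eval_X, eval_X, mul_ne_zero_iff]

variable {Z : Sub k P} {T : Sub k (P.sum (PN 1))}
  (hv : ¬ Van (T : Set ((P.sum (PN 1)).Pt k)) (X (sv P 0) * X (sv P 1)))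
  (hT : ∀ p, rp p (sv P 0) ≠ 0 → rp p (sv P 1) ≠ 0 → (p ∈ T ↔
    ∃ x ∈ Z, GAct w (rp p (sv P 0) / rp p (sv P 1)) x ((Crd.inl k _ _).pr p)))

include hv hT

theorem g9b_st1 : GSt (Amb.elim w (wl fun a : Fin 2 => if a = 0 then 1 else 0))
    (T : Set ((P.sum (PN 1)).Pt k)) := by
  refine gst_of_open ((IsForm.X _).mul (IsForm.X _)) hv fun p hp h0 τ hτ q h => ?_
  obtain ⟨a0, a1⟩ := g9b_g.1 h0
  have b1 := (h.zero_iff hτ (sv P 1)).not.2 a1
  obtain ⟨x, hx, h1⟩ := (hT p a0 a1).1 hp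
  refine (hT q ((h.zero_iff hτ _).not.2 a0) b1).2 ⟨x, hx, ?_⟩
  have h2 := g9b_trans h1 (g9b_inl h)
  obtain ⟨μ, h⟩ := h
  have e0 : rp q (sv P 0) = μ (Sum.inr ()) * τ ^ 1 * rp p (sv P 0) := h (sv P 0)
  have e1 : rp q (sv P 1) = μ (Sum.inr ()) * τ ^ 0 * rp p (sv P 1) := h (sv P 1)
  have e : rp q (sv P 0) / rp q (sv P 1) = rp p (sv P 0) / rp p (sv P 1) * τ := by
    rw [div_mul_eq_mul_div, div_eq_div_iff b1 a1, e0, e1]
    ring
  rwa [e]

theorem g9b_st2 {w' : P.V → ℕ} (hZ : GSt w' (Z : Set (P.Pt k))) :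
    GSt (Amb.elim w' fun _ => 0) (T : Set ((P.sum (PN 1)).Pt k)) := by
  refine gst_of_open ((IsForm.X _).mul (IsForm.X _)) hv fun p hp h0 τ hτ q h => ?_
  obtain ⟨a0, a1⟩ := g9b_g.1 h0
  have b1 := (h.zero_iff hτ (sv P 1)).not.2 a1
  obtain ⟨x, hx, h1⟩ := (hT p a0 a1).1 hp
  obtain ⟨x', h2⟩ := act_exists w' hτ x
  refine (hT q ((h.zero_iff hτ _).not.2 a0) b1).2 ⟨x', hZ x hx τ hτ x' h2, ?_⟩
  have h3 := h1.comm (g9b_inl h) hτ h2
  obtain ⟨μ, h⟩ := h
  have e0 : rp q (sv P 0) = μ (Sum.inr ()) * τ ^ 0 * rp p (sv P 0) := h (sv P 0)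
  have e1 : rp q (sv P 1) = μ (Sum.inr ()) * τ ^ 0 * rp p (sv P 1) := h (sv P 1)
  have e : rp q (sv P 0) / rp q (sv P 1) = rp p (sv P 0) / rp p (sv P 1) := by
    rw [div_eq_div_iff b1 a1, e0, e1]
    ring
  rwa [e]

end

theorem degen (Ω : Var k P) {w : P.V → ℕ} (hΩ : GSt w Ω.pts) {Z : Sub k P}
    (hZ : (Z : Set (P.Pt k)) ⊆ Ω.pts) :
    ∃ (T T₁ : Sub k (P.sum (PN 1))) (D₀ D₁ : MvPolynomial (P.sum (PN 1)).V k) (a : _ →₀ ℕ),
      (T : Set ((P.sum (PN 1)).Pt k)) ⊆ (Ω.ext (PN 1)).pts ∧ IsForm D₀ a ∧ IsForm D₁ a ∧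
      ¬ Van (T : Set ((P.sum (PN 1)).Pt k)) D₀ ∧ ¬ Van (T : Set ((P.sum (PN 1)).Pt k)) D₁ ∧
      (Crd.inl k _ _).img T₁ = Z ∧ sdim T₁ = sdim Z ∧
      (∀ U, U ≤ T ∧ sdim U + 1 = sdim T ∧ Van (U : Set ((P.sum (PN 1)).Pt k)) D₁ ↔ U = T₁) ∧
      ∀ U ≤ T, sdim U + 1 = sdim T → Van (U : Set ((P.sum (PN 1)).Pt k)) D₀ →
        sdim ((Crd.inl k _ _).img U) = sdim Z ∧
        GSt w ((Crd.inl k _ _).img U : Set (P.Pt k)) ∧
        ∀ w', GSt w' (Z : Set (P.Pt k)) → GSt w' ((Crd.inl k _ _).img U : Set (P.Pt k)) := by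
  obtain ⟨T, hd, hv, hT⟩ := exists_sweep w Z
  obtain ⟨z1, c1, hc1, a0, a1⟩ := g9b_line (a := (1 : k)) one_ne_zero
  obtain ⟨z0, c0, -, b0, -⟩ := g9b_line (a := (0 : k)) one_ne_zero
  rw [mul_zero] at b0
  obtain ⟨T₁, hT₁, d1⟩ := exists_prod Z ({z1} : Sub k (PN 1))
  rw [sdim_pt, add_zero] at d1
  have ev0 : ∀ p : (P.sum (PN 1)).Pt k, ev p (X (sv P 0)) = crd ((Crd.inr k _ _).pr p) 0 :=
    fun p => ev_X _ _
  have ev1 : ∀ p : (P.sum (PN 1)).Pt k, ev p (X (sv P 0) - X (sv P 1)) = 0 ↔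
      rp p (sv P 0) = rp p (sv P 1) := fun p => by
    rw [ev_eq, map_sub, eval_X, eval_X, sub_eq_zero]
  have K : ∀ p, p ∈ T₁ ↔ p ∈ T ∧ ev p (X (sv P 0) - X (sv P 1)) = 0 := fun p => by
    rw [hT₁, ev1]
    have key : rp p (sv P 0) = rp p (sv P 1) → (p ∈ T ↔ (Crd.inl k _ _).pr p ∈ Z) := fun e => by
      have h1 : rp p (sv P 1) ≠ 0 := fun h0 => by
        obtain ⟨i, hi⟩ := crd_ne ((Crd.inr k P (PN 1)).pr p)
        fin_cases i
        · exact hi (e.trans h0)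
        · exact hi h0
      rw [hT p (e ▸ h1) h1, e, div_self h1]
      exact ⟨fun ⟨x, hx, h⟩ => g9b_one.1 h ▸ hx, fun h => ⟨_, h, g9b_one.2 rfl⟩⟩
    refine ⟨fun ⟨h1, h2⟩ => ?_, fun ⟨h1, h2⟩ => ⟨(key h2).1 h1, ?_⟩⟩
    · have h3 : (Crd.inr k P (PN 1)).pr p = z1 := h2
      have e : crd ((Crd.inr k P (PN 1)).pr p) 0 = crd ((Crd.inr k P (PN 1)).pr p) 1 := by
        rw [h3, a0, a1]
      exact ⟨(key e).2 h1, e⟩
    · have e : crd ((Crd.inr k P (PN 1)).pr p) 0 = crd ((Crd.inr k P (PN 1)).pr p) 1 := h2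
      exact g9b_ext (by rw [e, a0, a1])
  have v0 : ¬ Van (T : Set ((P.sum (PN 1)).Pt k)) (X (sv P 0)) := fun h =>
    hv fun p hp => by rw [ev_mul, h p hp, zero_mul]
  have v1 : ¬ Van (T : Set ((P.sum (PN 1)).Pt k)) (X (sv P 0) - X (sv P 1)) := fun h => by
    classical
    obtain ⟨τ, hτ⟩ := Infinite.exists_notMem_finset ({0, 1} : Finset k)
    rw [Finset.mem_insert, Finset.mem_singleton, not_or] at hτ
    obtain ⟨x, hx⟩ := Z.isIrreducible.nonempty
    obtain ⟨y, hy⟩ := act_exists w hτ.1 x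
    obtain ⟨z, c, hc, e0, e1⟩ := g9b_line (a := τ) one_ne_zero
    have f0 : rp (mkPt y z) (sv P 0) = c * τ := e0
    have f1 : rp (mkPt y z) (sv P 1) = c * 1 := e1
    have h1 : mkPt y z ∈ T := by
      rw [hT _ (f0 ▸ mul_ne_zero hc hτ.1) (f1 ▸ mul_ne_zero hc one_ne_zero), f0, f1,
        mul_div_mul_left _ _ hc, div_one]
      exact ⟨x, hx, hy⟩
    have h2 := (ev1 _).1 (h _ h1)
    rw [f0, f1] at h2
    exact hτ.2 (mul_left_cancel₀ hc h2)
  have l1 : T₁ ≤ T := fun p hp => ((K p).1 hp).1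
  have w1 : Van (T₁ : Set ((P.sum (PN 1)).Pt k)) (X (sv P 0) - X (sv P 1)) :=
    fun p hp => ((K p).1 hp).2
  have d2 : sdim T = sdim Z + 1 := by
    have := sdim_lt (lt_of_le_of_ne l1 fun e => v1 (e ▸ w1))
    omega
  refine ⟨T, T₁, X (sv P 0), X (sv P 0) - X (sv P 1), Finsupp.single (Sum.inr ()) 1,
    g2b_sub (Ω.ext (PN 1)).closed ((IsForm.X _).mul (IsForm.X _)) hv fun p hp h0 => ?_,
    IsForm.X _, IsWeightedHomogeneous.sub (IsForm.X (sv P 0)) (IsForm.X (sv P 1)), v0, v1,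
    le_antisymm (((Crd.inl k _ _).img_sub Z.isClosed).2 fun p hp => ((hT₁ p).1 hp).1)
      fun x hx => (Crd.inl k P (PN 1)).mem_img (x := mkPt x z1) ((hT₁ _).2 ⟨hx, rfl⟩), d1,
    fun U => ⟨fun ⟨h1, h2, h3⟩ => eq_of_sdim_le (fun p hp => (K p).2 ⟨h1 hp, h3 p hp⟩) (by omega),
      fun e => e ▸ ⟨l1, by omega, w1⟩⟩, fun U h1 h2 h3 => ?_⟩
  · obtain ⟨c0, c1⟩ := g9b_g.1 h0
    obtain ⟨x, hx, h1⟩ := (hT p c0 c1).1 hp
    exact Var.mem_ext.2 (hΩ x (hZ hx) _ (div_ne_zero c0 c1) _ h1)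
  have hz : ∀ p ∈ U, (Crd.inr k P (PN 1)).pr p = z0 := fun p hp =>
    g9b_ext (by rw [← ev0, h3 p hp, b0, zero_mul, mul_zero])
  have d3 : sdim ((Crd.inl k _ _).img U) = sdim Z := by
    rw [sdim_img_of_inj _ fun p hp q hq e => sum_ext e ((hz p hp).trans (hz q hq).symm)]
    omega
  have hA : IsClosed {x : P.Pt k | mkPt x z0 ∈ (T : Set ((P.sum (PN 1)).Pt k))} :=
    T.isClosed.preimage (g2b_cont z0)
  have hM : Mx {x : P.Pt k | mkPt x z0 ∈ (T : Set ((P.sum (PN 1)).Pt k))}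
      ((Crd.inl k _ _).img U) := by
    refine ⟨((Crd.inl k _ _).img_sub hA).2 fun p hp => ?_, fun V hV hUV => ?_⟩
    · have e : mkPt ((Crd.inl k _ _).pr p) z0 = p := sum_ext rfl (hz p hp).symm
      show mkPt ((Crd.inl k _ _).pr p) z0 ∈ T
      rw [e]
      exact h1 hp
    · obtain ⟨T', hT', d4⟩ := exists_prod V ({z0} : Sub k (PN 1))
      rw [sdim_pt, add_zero] at d4
      have l2 : T' ≤ T := fun p hp => by
        have e : mkPt ((Crd.inl k _ _).pr p) z0 = p := sum_ext rfl (Eq.symm ((hT' p).1 hp).2)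
        rw [← e]
        exact hV ((hT' p).1 hp).1
      have := sdim_lt (lt_of_le_of_ne l2 fun e => v0 fun p hp => by
        have h4 : (Crd.inr k P (PN 1)).pr p = z0 := ((hT' p).1 (e ▸ hp)).2
        rw [ev0, h4, b0])
      exact (eq_of_sdim_le hUV (by omega)).symm
  refine ⟨d3, gst_mx hA (g9b_fib (g9b_st1 hv hT) fun τ => ⟨1, ?_⟩) hM, fun w' hw' =>
    gst_mx hA (g9b_fib (g9b_st2 hv hT hw') fun τ => ⟨1, fun s => ?_⟩) hM⟩
  · rintro ⟨_, (i : Fin 2)⟩
    fin_cases i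
    · show crd z0 0 = 1 * τ ^ 1 * crd z0 0
      rw [b0, mul_zero]
    · show crd z0 1 = 1 * τ ^ 0 * crd z0 1
      rw [pow_zero, one_mul, one_mul]
  · rw [pow_zero, Pi.one_apply, one_mul, one_mul]

end Pool.Agent.Work.MP_ffcd14_ag.Gm
end

-- merged part: Pool.Agent.Work.MP_ffcd14_ag.Gm.C3
section
/-!
# Stable cycles and the projective bundle formula

Plan.  `stab1`: `degen`; `w_div` for `D₀` and for `D₁` (there the finite set is `{T₁}`); apply
`psh C (Prj.one Ω (PN 1)).hom` (`psh_cy`, `im_prj`, `psh_qsmul`) and divide.  `stab`: induction on `s`, `CS_le`.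
`lin_chain`: descending induction on `I` (induction on `N + 1 - I.card`).  For `I = univ` use `pl_prod`.  For
`i ∉ I` let `T'` be the product for `insert i I` (`exists_lin`, `exists_prod`); `w_div` for `T'` and the variable
`z i`; the finite set is `{T}` (`eq_of_sdim_le`); `W.ln_single`.
`proj_bundle`: `W.AA_eq_CS`, `stab` for the weights `ind P i` (`gst_ext`), `torus`, `lin_chain`, `cy_AA`; the
dimension of the product is given by `exists_lin`, `exists_prod`.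
`tr_bundle`: `plK_hy`, `tr_prod`, `tau_pow_pos`, `tau_trK`, `trK_AA`, `pow_AA`, `one_AA`, `pn_irr`, `pn_dim`.
-/

open MvPolynomial Topology TopologicalSpace Filter

namespace Pool.Agent.Work.MP_ffcd14_ag.Gm

universe u v w

variable {k : Type u} [Field k] [IsAlgClosed k] {K : Type v} [Field K] [CharZero K] {P : Amb}

theorem c3_one {C : Weil.{u, v, w} k K} (hC : C.Chow) (X : Var k P) {Z T : Sub k P}
    (hZ : (Z : Set (P.Pt k)) ⊆ X.pts) {f : MvPolynomial P.V k} {a : P.ι →₀ ℕ} (hf : IsForm f a)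
    (h : ¬ Van (Z : Set (P.Pt k)) f)
    (hT : ∀ U, U ≤ Z ∧ sdim U + 1 = sdim Z ∧ Van (U : Set (P.Pt k)) f ↔ U = T) :
    ∃ q : ℚ, 0 < q ∧ W.cy C X Z * W.ln C X a = q • W.cy C X T := by
  obtain ⟨s, m, h1, h2, h3⟩ := w_div hC X hZ hf h
  obtain rfl : s = {T} := Finset.ext fun U => by rw [h1, hT, Finset.mem_singleton]
  exact ⟨m T, h2 T (Finset.mem_singleton_self T), by rw [h3, Finset.sum_singleton]⟩

theorem c3_alg {B : Type*} [CommRing B] [Algebra ℚ B] {t t' h h' p : B} {q q' : ℚ} {n : ℕ}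
    (hq : 0 < q') (e : t' = q • (h ^ n * p)) (e' : t' * h' = q' • t) (hh : h' = h) :
    t = (q'⁻¹ * q) • (h ^ (n + 1) * p) := by
  rw [hh, e, smul_mul_assoc, mul_right_comm, ← pow_succ] at e'
  rw [mul_smul, e', inv_smul_smul₀ hq.ne']

theorem c3_dim {N : ℕ} {Z : Sub k P} {I : Finset (Fin (N + 1))} (hI : I.Nonempty)
    {T : Sub k (P.sum (PN N))} (hT : ∀ z, z ∈ T ↔
      (Crd.inl k P (PN N)).pr z ∈ Z ∧ ∀ i ∉ I, crd ((Crd.inr k P (PN N)).pr z) i = 0) :
    sdim T + 1 = sdim Z + I.card := by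
  obtain ⟨L, h1, h2⟩ := exists_lin (k := k) I hI
  obtain ⟨T', h3, h4⟩ := exists_prod Z L
  obtain rfl : T = T' := SetLike.ext fun z => by rw [hT, h3, h1]
  omega

section Weil

variable {C : Weil.{u, v, w} k K} (hC : C.Chow) (Ω : Var k P) {Z : Sub k P}
  (hZ : (Z : Set (P.Pt k)) ⊆ Ω.pts)
include hC hZ

theorem stab1 {ω : P.V → ℕ} (hΩ : GSt ω Ω.pts) : W.cy C Ω Z ∈ W.CS C Ω fun U =>
    sdim U = sdim Z ∧ GSt ω (U : Set (P.Pt k)) ∧
      ∀ ω', GSt ω' (Z : Set (P.Pt k)) → GSt ω' (U : Set (P.Pt k)) := by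
  obtain ⟨T, T₁, D₀, D₁, a, hT, f0, f1, n0, n1, e1, d1, h1, h0⟩ := degen Ω hΩ hZ
  obtain ⟨q, hq, e⟩ := c3_one hC (Ω.ext (PN 1)) hT f1 n1 h1
  obtain ⟨s, m, hs, -, e'⟩ := w_div hC (Ω.ext (PN 1)) hT f0 n0
  have key : ∀ U ≤ T, ∃ n : ℕ, (0 < n ↔ sdim U = sdim ((Crd.inl k P (PN 1)).img U)) ∧
      psh C (Prj.one Ω (PN 1)).hom (W.cy C (Ω.ext (PN 1)) U) =
        (n : ℚ) • W.cy C Ω ((Crd.inl k P (PN 1)).img U) := fun U hU =>
    psh_cy hC (Set.Subset.trans hU hT) (im_prj (Prj.one Ω (PN 1)) (Set.Subset.trans hU hT))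
  obtain ⟨n, hn, e2⟩ := key T₁ ((h1 T₁).2 rfl).1
  rw [e1] at hn e2
  have h2 := congrArg (psh C (Prj.one Ω (PN 1)).hom) (e.symm.trans e')
  rw [psh_qsmul, e2, map_sum] at h2
  rw [← Submodule.smul_mem_iff _ (Nat.cast_ne_zero.2 (hn.2 d1).ne' : (n : ℚ) ≠ 0),
    ← Submodule.smul_mem_iff _ hq.ne', h2]
  refine Submodule.sum_mem _ fun U hU => ?_
  obtain ⟨u1, u2, u3⟩ := (hs U).1 hU
  obtain ⟨n', -, e3⟩ := key U u1
  rw [psh_qsmul, e3]
  exact Submodule.smul_mem _ _ (Submodule.smul_mem _ _ (CS_mem Ω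
    (((Crd.inl k P (PN 1)).img_sub Ω.closed).2 fun x hx => (hT (u1 hx)).1) (h0 U u1 u2 u3)))

theorem stab {ι : Type} (s : Finset ι) (ω : ι → P.V → ℕ) (hΩ : ∀ i ∈ s, GSt (ω i) Ω.pts) :
    W.cy C Ω Z ∈ W.CS C Ω fun U => sdim U = sdim Z ∧ ∀ i ∈ s, GSt (ω i) (U : Set (P.Pt k)) := by
  classical
  induction s using Finset.induction_on with
  | empty => exact CS_mem Ω hZ ⟨rfl, fun i hi => absurd hi (Finset.notMem_empty i)⟩
  | insert i s hi ih =>
    refine CS_le Ω (fun U hU hp => ?_) (ih fun j hj => hΩ j (Finset.mem_insert_of_mem hj))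
    refine CS_mono Ω (fun V _ hV => ⟨hV.1.trans hp.1, fun j hj => ?_⟩)
      (stab1 hC Ω hU (hΩ i (Finset.mem_insert_self i s)))
    rcases Finset.mem_insert.1 hj with rfl | hj
    · exact hV.2.1
    · exact hV.2.2 _ (hp.2 j hj)

end Weil

variable {C : WeilL.{u, v, w} k K} (hC : C.toWeil.Chow) {F : Var k P} (hF : IsIrreducible F.pts)
  {N : ℕ}
include hC hF

theorem lin_chain {Z : Sub k P} (hZ : (Z : Set (P.Pt k)) ⊆ F.pts) {I : Finset (Fin (N + 1))}
    (hI : I.Nonempty) {T : Sub k (P.sum (PN N))} (hT : ∀ z, z ∈ T ↔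
      (Crd.inl k P (PN N)).pr z ∈ Z ∧ ∀ i ∉ I, crd ((Crd.inr k P (PN N)).pr z) i = 0) :
    ∃ q : ℚ, W.cy C.toWeil (F.prod (Var.full k (PN N))) T =
      q • (W.hy C.toWeil _ (Sum.inr ()) ^ (N + 1 - I.card) *
        W.plK C.toWeil (Prj.p1 F (Var.full k (PN N))).hom (W.cy C.toWeil F Z)) := by
  obtain ⟨n, hn⟩ : ∃ n, I.card + n = N + 1 :=
    Nat.exists_eq_add_of_le (I.card_le_univ.trans_eq (Fintype.card_fin _)) |>.imp fun _ => Eq.symm
  rw [show N + 1 - I.card = n by omega]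
  induction n generalizing I T with
  | zero =>
    obtain rfl : I = Finset.univ := Finset.eq_univ_of_card _ (hn.trans (Fintype.card_fin _).symm)
    rw [pow_zero, one_mul]
    exact pl_prod hC hF (pn_irr N) hZ fun z => (hT z).trans
      (and_congr_right fun _ => ⟨fun _ => trivial, fun _ i hi => absurd (Finset.mem_univ i) hi⟩)
  | succ n ih =>
    obtain ⟨i, -, hi⟩ := Finset.exists_mem_notMem_of_card_lt_card (s := I) (t := Finset.univ)
      (by rw [Finset.card_univ, Fintype.card_fin]; omega)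
    have hI' := Finset.insert_nonempty i I
    obtain ⟨L, h1, -⟩ := exists_lin (k := k) (insert i I) hI'
    obtain ⟨T', h2, -⟩ := exists_prod Z L
    simp only [h1] at h2
    have hc := Finset.card_insert_of_notMem hi
    obtain ⟨q, e⟩ := ih hI' h2 (by omega)
    have d1 := c3_dim hI hT
    have d2 := c3_dim hI' h2
    have hv : ∀ U : Sub k (P.sum (PN N)), Van (U : Set ((P.sum (PN N)).Pt k))
        (X ⟨Sum.inr (), i⟩) ↔ ∀ z ∈ U, crd ((Crd.inr k P (PN N)).pr z) i = 0 := fun U =>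
      forall₂_congr fun z _ => by
        rw [ev_X]
        rfl
    obtain ⟨q', hq, e'⟩ := c3_one hC (F.prod (Var.full k (PN N))) (Z := T') (T := T)
      (fun z hz => ⟨hZ ((h2 z).1 hz).1, trivial⟩) (IsForm.X ⟨Sum.inr (), i⟩) (fun h => by
        obtain ⟨x, hx⟩ := Z.isIrreducible.nonempty
        obtain ⟨y, y1, y2⟩ := g2b_pt (k := k) i
        exact y1 ((hv _).1 h (mkPt x y) ((h2 _).2 ⟨hx, fun j hj => y2 j fun e =>
          hj (e ▸ Finset.mem_insert_self j I)⟩))) fun U => by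
      constructor
      · rintro ⟨u1, u2, u3⟩
        replace u3 := (hv U).1 u3
        refine eq_of_sdim_le (fun z hz => (hT z).2 ⟨((h2 z).1 (u1 hz)).1, fun j hj => ?_⟩)
          (by omega)
        by_cases e : j = i
        · exact e ▸ u3 z hz
        · exact ((h2 z).1 (u1 hz)).2 j fun h => (Finset.mem_insert.1 h).elim e hj
      · rintro rfl
        exact ⟨fun z hz => (h2 z).2 ⟨((hT z).1 hz).1, fun j hj => ((hT z).1 hz).2 j
          fun h => hj (Finset.mem_insert_of_mem h)⟩, by omega,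
          (hv _).2 fun z hz => ((hT z).1 hz).2 i hi⟩
    exact ⟨_, c3_alg hq e e' (W.ln_single C.toWeil _ _)⟩

theorem proj_bundle (N n : ℕ) : W.AA C.toWeil (F.prod (Var.full k (PN N))) n ≤ Submodule.span ℚ
    {z | ∃ e j x, e + j = n ∧ x ∈ W.AA C.toWeil F j ∧ z = W.hy C.toWeil _ (Sum.inr ()) ^ e *
      W.plK C.toWeil (Prj.p1 F (Var.full k (PN N))).hom x} := by
  rw [W.AA_eq_CS _ _ (Var.prod_irr hF (pn_irr N))]
  refine CS_le _ fun U hU hd => CS_le _ (fun V hV hp => ?_)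
    (stab hC _ hU Finset.univ (ind P) fun i _ => gst_ext F i)
  obtain ⟨I, hI, h1⟩ := torus V fun i => hp.2 i (Finset.mem_univ i)
  have hZ : ((Crd.inl k P (PN N)).img V : Set (P.Pt k)) ⊆ F.pts :=
    ((Crd.inl k P (PN N)).img_sub F.closed).2 fun x hx => (hV hx).1
  obtain ⟨q, e⟩ := lin_chain hC hF hZ hI h1
  have d1 := c3_dim hI h1
  have d2 := F.sdim_le hF hZ
  have d3 : I.card ≤ N + 1 := I.card_le_univ.trans_eq (Fintype.card_fin _)
  have d4 : sdim U + n = F.dim + N := hd.trans (ext_dim F N)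
  have d5 := hp.1
  rw [e]
  exact Submodule.smul_mem _ _ (Submodule.subset_span
    ⟨_, F.dim - sdim ((Crd.inl k P (PN N)).img V), _, by omega, cy_AA hF hZ (by omega), rfl⟩)

omit hF in
theorem tr_bundle (F : Var k P) (N : ℕ) : ∃ κ : ℚ, 0 < κ ∧ ∀ e x,
    trK C.toWeil (F.prod (Var.full k (PN N))) (W.hy C.toWeil _ (Sum.inr ()) ^ e *
      W.plK C.toWeil (Prj.p1 F (Var.full k (PN N))).hom x) =
        if e = N then (κ : K) * trK C.toWeil F x else 0 := by
  have h1 : 0 < W.tau C.toWeil _ (W.hy C.toWeil (Var.full k (PN N)) () ^ N) := by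
    have h := tau_pow_pos hC (pn_irr (k := k) N) single_pos
    rw [pn_dim] at h
    exact (W.ln_single C.toWeil (Var.full k (PN N)) ()) ▸ h
  refine ⟨_, h1, fun e x => ?_⟩
  have h2 : W.hy C.toWeil (Var.full k (PN N)) () ^ e ∈ W.AA C.toWeil _ e := by
    simpa using pow_AA (hy_AA C.toWeil (Var.full k (PN N)) ()) (one_AA (pn_irr N)) e
  have h3 : W.hy C.toWeil (F.prod (Var.full k (PN N))) (Sum.inr ()) = W.plK C.toWeil
      (Prj.p2 F (Var.full k (PN N))).hom (W.hy C.toWeil _ ()) :=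
    (plK_hy C.toWeil (Prj.p2 F (Var.full k (PN N))) ()).symm
  refine (congrArg (fun t => trK C.toWeil _ (t ^ e * _)) h3).trans ?_
  rw [← map_pow, mul_comm, tr_prod]
  split_ifs with he
  · subst he
    rw [tau_trK _ _ h2, mul_comm]
  · rw [trK_AA _ _ h2 (by rwa [pn_dim]), mul_zero]

end Pool.Agent.Work.MP_ffcd14_ag.Gm
end

-- merged part: Pool.Agent.Work.MP_ffcd14_ag.Gm.C6c
section
/-!
# Restriction to linear subspaces of the base and to a fibre

Plan.  The pull-back formulas: `glob_hy`, `W.ln_single`, `ln_add'`, `ln_nsmul`, `ln_zero'`, `plK_hy`.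
`TL_step`: `w_div` for the variable `zv w ⟨j + 1, _⟩` (`IsForm.X`, `TL_van`, `TL_cut`: the finite set is a singleton).
`TL_chain`: induction on `e`, starting from `TL_top`, `W.cy_top`.  `TR`, `TRi`: `tr_top` (`hr_spec`, `hi_spec`,
`TL_dim`), `TL_chain`.  `i_cy`: let `T = twS Z hs le_rfl`; `hom_meet` for the whole of `X` (a point `x` with `hi x ∈ T`
lies in `Z` by `Rel.mem`; `tw_sdim`), `CS_one`, `eq_of_sdim_le`: `plK hi (cy T) = q • cy Z`.  And `q ≠ 0`: by `TRi` the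
trace of `plK hi (cy T * L ^ sdim Z)` is a positive multiple of the number of `w_pos` for `β = Crd.inl`,
`j = N` (`tw_img`), where `L = W.ln C _ b` for a positive `b` (`tau_trK`, `single_pos`, `Finsupp.mapDomain_single`).
`i_surj`: `W.AA_eq_CS`, `stab1`, `i_cy`, `CS_le` for the image of `AA` under `W.pl`.
-/

open MvPolynomial Topology TopologicalSpace Filter

namespace Pool.Agent.Work.MP_ffcd14_ag.Gm.Geo

universe u v w

variable {k : Type u} [Field k] [IsAlgClosed k] {K : Type v} [Field K] [CharZero K]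
  {C : Weil.{u, v, w} k K} (G : Geo k) (a : G.ι) (N : ℕ)

theorem ρ_l : G.ρ C a N (G.l C N) = G.p C a N (W.hy C (G.F a) ()) + G.lev a • G.tp C a N := by
  refine (glob_hy (G.hj_spec a N).2.2.2).trans ((ln_add' _ _ _).trans ?_)
  rw [plK_hy]
  exact congrArg₂ _ (W.ln_single C _ _) ((ln_nsmul _ _ _).trans (congrArg _ (W.ln_single C _ _)))

theorem ρ_t : G.ρ C a N (G.t C N) = G.tp C a N := by
  rw [glob_hy (G.hj_spec a N).2.2.1, W.ln_single]

theorem res_l {N N' : ℕ} (h : N ≤ N') : W.plK C (G.hr h) (G.l C N') = G.l C N := by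
  rw [glob_hy (G.hr_spec h).2.2, W.ln_single]

theorem res_t {N N' : ℕ} (h : N ≤ N') : W.plK C (G.hr h) (G.t C N') = G.t C N := by
  rw [glob_hy (G.hr_spec h).2.1, W.ln_single]

theorem i_l : W.plK C (G.hi N) (G.l C N) = W.hy C G.X () := by
  rw [glob_hy (G.hi_spec N).2.2.2, W.ln_single]

theorem i_t : W.plK C (G.hi N) (G.t C N) = 0 := by
  rw [glob_hy (G.hi_spec N).2.2.1, ln_zero']

variable (hC : C.Chow)
include hC

theorem TL_step {N j : ℕ} (h : j + 1 ≤ N) : ∃ q : ℚ, 0 < q ∧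
    W.cy C (G.Y N) (G.TL h) * G.t C N = q • W.cy C (G.Y N) (G.TL (Nat.le_of_succ_le h)) := by
  have := c3_one hC (G.Y N) (G.TL_sub h) (IsForm.X _) (G.TL_van h) (G.TL_cut h)
  rwa [W.ln_single] at this

theorem TL_chain {N j : ℕ} (h : j ≤ N) : ∃ q : ℚ, 0 < q ∧
    W.cy C (G.Y N) (G.TL h) = q • G.t C N ^ (N - j) := by
  obtain ⟨e, he⟩ := Nat.exists_eq_add_of_le h
  induction e generalizing j with
  | zero =>
    obtain rfl : j = N := he.symm
    exact ⟨1, one_pos, by rw [TL_top, W.cy_top, Nat.sub_self, pow_zero, one_smul]⟩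
  | succ e ih =>
    obtain ⟨q, hq, e1⟩ := ih (j := j + 1) (by omega) (by omega)
    obtain ⟨q', hq', e2⟩ := G.TL_step hC (j := j) (N := N) (by omega)
    refine ⟨q'⁻¹ * q, by positivity, ?_⟩
    rw [e1, smul_mul_assoc, ← pow_succ, show N - (j + 1) + 1 = N - j by omega] at e2
    rw [mul_smul, e2, inv_smul_smul₀ hq'.ne']

theorem TR {N N' : ℕ} (h : N ≤ N') : ∃ q : ℚ, 0 < q ∧ ∀ y,
    trK C (G.Y N) (W.plK C (G.hr h) y) = q * trK C (G.Y N') (y * G.t C N' ^ (N' - N)) := by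
  obtain ⟨q, hq, e⟩ := tr_top hC (Z' := G.TL h) (G.Y_irr N) (G.hr_spec h).1 (G.TL_dim h)
  obtain ⟨q', hq', e'⟩ := G.TL_chain hC h
  exact ⟨q * q', mul_pos hq hq', fun y => by
    rw [e, e', smul_mul_assoc, trK_qsmul, mul_comm _ y, Rat.cast_mul, mul_assoc]⟩

theorem TRi : ∃ q : ℚ, 0 < q ∧ ∀ y,
    trK C G.X (W.plK C (G.hi N) y) = q * trK C (G.Y N) (y * G.t C N ^ N) := by
  obtain ⟨q, hq, e⟩ := tr_top hC (Z' := G.TL N.zero_le) G.irr (G.hi_spec N).2.1 (G.TL_dim _)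
  obtain ⟨q', hq', e'⟩ := G.TL_chain hC N.zero_le
  exact ⟨q * q', mul_pos hq hq', fun y => by
    rw [e, e', smul_mul_assoc, trK_qsmul, mul_comm _ y, Rat.cast_mul, mul_assoc, Nat.sub_zero]⟩

theorem i_cy {Z : Sub k G.A} (hZ : (Z : Set (G.A.Pt k)) ⊆ G.X.pts)
    (hs : GSt (wl G.w) (Z : Set (G.A.Pt k))) {j : ℕ} (hj : sdim Z + j = G.X.dim) :
    ∃ y ∈ W.AA C (G.Y N) j, W.plK C (G.hi N) y = W.cy C G.X Z := by
  have hT : (twS Z hs (le_refl N) : Set ((AT G.w N).Pt k)) ⊆ (G.Y N).pts := tw_mono hZ le_rfl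
  have d := tw_sdim hs (le_refl N)
  have d' := G.X.sdim_top G.irr
  have dY := G.Y_dim N
  have le : ∀ U ≤ G.X.top G.irr, (∀ x : G.X.pts, x.1 ∈ U →
      ((G.hi N).toFun x).1 ∈ twS Z hs (le_refl N)) → U ≤ Z := fun U hU h x hx => by
    obtain ⟨⟨x', h1, h2⟩, -⟩ := h ⟨x, hU hx⟩ hx
    exact Rel.mem hs h1 h2 ((G.hi_spec N).1 ⟨x, hU hx⟩)
  obtain ⟨q, e⟩ := CS_one G.X (T := Z)
    (fun U _ h => eq_of_sdim_le (le U h.1 h.2.1) (by have := h.2.2; omega))
    (hom_meet hC (G.hi N) (Z := G.X.top G.irr) subset_rfl hT fun U hU h => by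
      have := sdim_mono (le U hU h)
      omega)
  rw [W.cy_top, one_mul] at e
  have q0 : q ≠ 0 := by
    rintro rfl
    obtain ⟨q', hq', e'⟩ := G.TRi N hC
    obtain ⟨b, hb⟩ : ∃ b : (AT G.w N).ι →₀ ℕ, ∀ i, 0 < b i :=
      ⟨Finsupp.equivFunOnFinite.symm 1, fun _ => one_pos⟩
    have p := w_pos hC (G.Y N) (Crd.inl k _ _) hT single_pos hb N (sdim Z) (tw_img hs N).ge
      (by omega)
    have t : W.ln C (G.Y N) (Finsupp.mapDomain (Crd.inl k (PN N) _).ψ (Finsupp.single () 1)) =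
        G.t C N := (congrArg _ Finsupp.mapDomain_single).trans (W.ln_single C _ _)
    erw [t] at p
    rw [mul_comm (_ ^ N), ← mul_assoc, W.tau_eq, ← trK_apply] at p
    have := e' (W.cy C (G.Y N) (twS Z hs (le_refl N)) * W.ln C (G.Y N) b ^ sdim Z)
    rw [map_mul, e, zero_smul, zero_mul, map_zero, eq_comm,
      mul_eq_zero_iff_left (Rat.cast_ne_zero.2 hq'.ne')] at this
    exact p.ne' ((congrArg _ this).trans (map_zero _))
  exact ⟨q⁻¹ • _, Submodule.smul_mem _ _ (cy_AA (G.Y_irr N) hT (by omega)), by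
    rw [plK_qsmul, e, inv_smul_smul₀ q0]⟩

theorem i_surj (j : ℕ) : ∀ x ∈ W.AA C G.X j, ∃ y ∈ W.AA C (G.Y N) j, W.plK C (G.hi N) y = x := by
  rw [W.AA_eq_CS C G.X G.irr]
  refine CS_le G.X (M := (W.AA C (G.Y N) j).map (W.pl C (G.hi N)).toLinearMap) fun U hU d => ?_
  refine CS_le G.X (fun Z hZ h => ?_) (stab1 hC G.X hU G.st)
  exact G.i_cy N hC hZ h.2.1 (h.1 ▸ d)

end Pool.Agent.Work.MP_ffcd14_ag.Gm.Geo
end

-- merged part: Pool.Agent.Work.MP_ffcd14_ag.Gm.C7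
section
/-! # The algebraic data attached to a torus action -/

open MvPolynomial Topology TopologicalSpace Filter

namespace Pool.Agent.Work.MP_ffcd14_ag.Gm.Geo

universe u v w

variable {k : Type u} [Field k] [IsAlgClosed k] {K : Type v} [Field K] [CharZero K]
  (C : WeilL.{u, v, w} k K) (hC : C.toWeil.Chow) (G : Geo k)

/-- The data. -/
noncomputable def pack
    (hV : (rg C.toWeil G.X G.irr).HV ∨ ∀ a, (rg C.toWeil (G.F a) (G.Φ a).irr).HV) :
    Pack.{v, w} K where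
  σ := G.σ
  nσ := ⟨(crd_ne G.irr.nonempty.some).choose⟩
  w := G.w
  ι := G.ι
  lev := G.lev
  c := G.c
  c' := G.c'
  X := rg C.toWeil G.X G.irr
  hX := W.hy C.toWeil G.X ()
  F a := rg C.toWeil (G.F a) (G.Φ a).irr
  h a := W.hy C.toWeil (G.F a) ()
  Y N := rg C.toWeil (G.Y N) (G.Y_irr N)
  l := G.l C.toWeil
  t := G.t C.toWeil
  P a N := rg C.toWeil (G.P a N) (G.P_irr a N)
  tp := G.tp C.toWeil
  p := G.p C.toWeil
  ρ := G.ρ C.toWeil
  φ := G.φ C.toWeil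
  φ' := G.φ' C.toWeil
  γ a N := (E1 hC G N).choose a
  g a N := (E2 hC G a N).choose
  κ a N := (tr_bundle hC (G.F a) N).choose
  res h := W.plK C.toWeil (G.hr h)
  i N := W.plK C.toWeil (G.hi N)
  dY _ := rfl
  dF := G.dF
  hX_mem := hy_AA _ _ _
  h_mem _ := hy_AA _ _ _
  l_mem _ := hy_AA _ _ _
  t_mem _ := hy_AA _ _ _
  tp_mem _ _ := hy_AA _ _ _
  p_mem _ _ _ _ h := plK_AA _ _ h
  ρ_mem _ _ _ _ h := plK_AA _ _ h
  φ_mem := φ_mem hC G
  φ'_mem := φ'_mem hC G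
  res_mem _ _ _ h := plK_AA _ _ h
  i_mem _ _ _ h := plK_AA _ _ h
  HL_X := rg_HL C G.irr (ample_hy _)
  HL_F a := rg_HL C (G.Φ a).irr (ample_hy _)
  HL_Y N _ h := rg_HL C (G.Y_irr N) (ample_comb _ h)
  pow_Y N _ _ h h' := rg_power C (G.Y_irr N) (ample_comb _ h) (ample_comb _ h')
  hV_or := hV
  A0 a _ h := rg_A0 (G.Φ a).irr h
  pos a := by
    have h := tau_pow_pos hC (G.Φ a).irr (a := Finsupp.single (() : G.A.ι) 1) single_pos
    rw [W.ln_single] at h
    have h1 := pow_AA (hy_AA C.toWeil (G.F a) ()) (one_AA (G.Φ a).irr) (G.F a).dim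
    rw [mul_one] at h1
    exact h.trans_eq (rg_t (G.Φ a).irr h1).symm
  PB a := proj_bundle hC (G.Φ a).irr
  κ_pos a N := (tr_bundle hC (G.F a) N).choose_spec.1
  trP a N := (tr_bundle hC (G.F a) N).choose_spec.2
  ρ_l := G.ρ_l
  ρ_t := G.ρ_t
  lam_all N := G.lam_all N hC
  t_pow N := G.t_pow N hC
  γ_mem a N := (E1 hC G N).choose_spec.1 a
  E1 N := (E1 hC G N).choose_spec.2
  g_mem a N := (E2 hC G a N).choose_spec.1
  E2 a N := (E2 hC G a N).choose_spec.2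
  E3 := E3 hC G
  E4 := E4 hC G
  E5 := E5 hC G
  E5' := E5' hC G
  E6 := E6 hC G
  E6' := E6' hC G
  E7 := E7 hC G
  E7' := E7' hC G
  E9 := E9 hC G
  E10 := E10 hC G
  res_l := G.res_l
  res_t := G.res_t
  TR := G.TR hC
  i_l := G.i_l
  i_t := G.i_t
  TRi N := G.TRi N hC
  i_surj N := G.i_surj N hC

include hC in
theorem main (l : C.H G.X) (hl : C.Ample G.X l) (L : ∀ a, C.H (G.F a))
    (hL : ∀ a, C.Ample (G.F a) (L a))
    (hA : LefA G.X.dim (C.A G.X) l ∨ ∀ a, LefA (G.F a).dim (C.A (G.F a)) (L a)) (n : ℕ)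
    (hn : 2 * n ≤ G.X.dim) : (∀ i ≤ n, Hdg (C.tr G.X) G.X.dim (C.A G.X) l i) ↔
      ∀ a j, 2 ≤ j → j + G.c a ≤ n → j + n ≤ (G.F a).dim + G.c a →
        Hdg (C.tr (G.F a)) (G.F a).dim (C.A (G.F a)) (L a) j := by
  obtain ⟨l, -, rfl⟩ := W.exists_vl C.toWeil G.X (ample_mem hl)
  choose L' _ e using fun a => W.exists_vl C.toWeil (G.F a) (ample_mem (hL a))
  obtain rfl : L = fun a => W.vl C.toWeil (G.F a) (L' a) := funext fun a => (e a).symm
  let D := G.pack C hC (hA.imp (rg_hV C G.irr hl) fun h a => rg_hV C (G.Φ a).irr (hL a) (h a))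
  have hF : ∀ a j, 2 * j ≤ (G.F a).dim →
      (Hdg (C.tr (G.F a)) (G.F a).dim (C.A (G.F a)) (W.vl C.toWeil (G.F a) (L' a)) j ↔
        (D.F a).S.HR (D.h a) j (D.f a - 2 * j)) := fun a j hj =>
    (rg_hdg (G.Φ a).irr _ j).trans (rg_indep C (G.Φ a).irr (D.hV_F a) (hL a) (ample_hy _) hj)
  refine Iff.trans (forall₂_congr fun i hi => (rg_hdg G.irr l i).trans
    (rg_indep C G.irr D.hV_X hl (ample_hy _) (by omega))) ((D.main n hn).trans ⟨?_, ?_⟩)
  · exact fun H a j _ h1 h2 => (hF a j (by omega)).2 (H a j h1 h2)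
  · intro H a j h1 h2
    have hj : 2 * j ≤ (G.F a).dim := by
      change j + G.c a ≤ n at h1
      change j + n ≤ (G.F a).dim + G.c a at h2
      omega
    rcases le_or_gt 2 j with h | h
    · exact (hF a j hj).1 (H a j h h1 h2)
    · have := hdg_low' hC (G.Φ a).irr (a := Finsupp.single (() : G.A.ι) 1) single_pos
        (Nat.le_of_lt_succ h) hj
      rw [W.ln_single] at this
      exact (rg_hdg (G.Φ a).irr _ j).1 this

end Pool.Agent.Work.MP_ffcd14_ag.Gm.Geo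
end

-- merged part: Pool.Agent.Work.MP_ffcd14_ag.Gm.G11
section
/-!
# From integral weights to natural weights

Plan.  `exists_shift`: a finite family of integers is bounded below.  `act_iff`: `zpow_add₀`, `zpow_natCast`.
`fix_iff`: if `crd x v ≠ 0` and `crd x v' ≠ 0` then `τ ^ w v = τ ^ w v'` for all `τ ≠ 0`, so the polynomial
`X ^ w v - X ^ w v'` has infinitely many roots.  `lim_iff`, `lim_neg_iff`: a non-zero coordinate of `y` (`crd_ne`)
determines the weight.  `cell_m_eq`, `cell_p_eq`: `cell_m`, `Tr.ne`; `exists_tr`, `Zm_lim`, `Zm_le`, `Cmp.Z_sub`.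
`cell_m_dim`, `cell_p_dim`: `krull_open` (the open set contains `f0`; its complement is closed by `crd_closed`),
`Z_dim`, `Cmp.dim_eq`.  `comp_iff`: the fixed locus is the finite union of the closed sets `(Φ a).F.pts`;
`sub_finite_union` for `F.top` and for the closure of an irreducible set, `var_ext`.
-/

open MvPolynomial Topology TopologicalSpace Filter

namespace Pool.Agent.Work.MP_ffcd14_ag.Gm

universe u

variable {k : Type u} [Field k] {σ : Type} [Finite σ] {ω : σ → ℤ} {w : σ → ℕ} {c : ℤ} {m : ℕ}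
  {x y : (Amb.one σ).Pt k} {A : Set ((Amb.one σ).Pt k)}

theorem exists_shift (ω : σ → ℤ) : ∃ (w : σ → ℕ) (c : ℤ), ∀ v, ω v = w v + c := by
  obtain ⟨c, hc⟩ := (Set.finite_range ω).bddBelow
  refine ⟨fun v => (ω v - c).toNat, c, fun v => ?_⟩
  have := hc (Set.mem_range_self v)
  rw [Int.toNat_of_nonneg (by omega)]
  omega

theorem G11_open (w : σ → ℕ) (m : ℕ) :
    IsOpen {x : (Amb.one σ).Pt k | ∃ v, w v = m ∧ crd x v ≠ 0} := by
  have h := (crd_closed (k := k) (fun v => w v = m)).isOpen_compl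
  convert h using 1
  ext x
  simp

variable (h : ∀ v, ω v = w v + c)
include h

theorem act_iff (τ : kˣ) : Act ω τ x y ↔ GAct (wl w) (τ : k) x y := by
  have hτ : (τ : k) ≠ 0 := τ.ne_zero
  constructor
  · rintro ⟨a, ha⟩
    have key : ∀ v, crd y v = a * (τ : k) ^ c * (τ : k) ^ w v * crd x v := fun v => by
      rw [ha, h, zpow_add₀ hτ, zpow_natCast]
      ring
    exact ⟨fun _ => a * (τ : k) ^ c, fun s => key s.2⟩
  · rintro ⟨μ, hμ⟩
    refine ⟨μ () * ((τ : k) ^ c)⁻¹, fun v => ?_⟩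
    have h1 : crd y v = μ () * (τ : k) ^ w v * crd x v := hμ (vr v)
    have h2 : (τ : k) ^ c ≠ 0 := zpow_ne_zero _ hτ
    rw [h1, h, zpow_add₀ hτ, zpow_natCast]
    field_simp

theorem gst_of_stable (hA : Stable ω A) : GSt (wl w) A := fun x hx τ hτ y e =>
  hA x hx (Units.mk0 τ hτ) y ((act_iff h _).2 e)

theorem fix_iff [Infinite k] : x ∈ Fix ω A ↔ x ∈ A ∧ ∃ m, Lv w m x := by
  refine and_congr_right fun _ => ⟨fun hx => ?_, ?_⟩
  · obtain ⟨v0, h0⟩ := crd_ne x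
    refine ⟨w v0, fun v hv => ?_⟩
    by_contra h1
    apply hv
    have key : ∀ τ : k, τ ≠ 0 → τ ^ w v = τ ^ w v0 := by
      intro τ hτ
      obtain ⟨μ, hμ⟩ := (act_iff h _).1 (hx (Units.mk0 τ hτ))
      have e1 : crd x v = μ () * τ ^ w v * crd x v := hμ (vr v)
      have e2 : crd x v0 = μ () * τ ^ w v0 * crd x v0 := hμ (vr v0)
      have e3 : μ () * τ ^ w v = 1 := mul_right_cancel₀ h1 (by rw [one_mul]; exact e1.symm)
      have e4 : μ () * τ ^ w v0 = 1 := mul_right_cancel₀ h0 (by rw [one_mul]; exact e2.symm)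
      exact mul_left_cancel₀ (left_ne_zero_of_mul_eq_one e3) (e3.trans e4.symm)
    have hp : (Polynomial.X ^ w v : Polynomial k) = Polynomial.X ^ w v0 := by
      refine Polynomial.eq_of_infinite_eval_eq _ _ ?_
      refine (Set.infinite_of_finite_compl (s := {τ : k | τ ≠ 0}) ?_).mono ?_
      · refine (Set.finite_singleton (0 : k)).subset fun τ hτ => ?_
        simpa using hτ
      · intro τ hτ
        simpa using key τ hτ
    simpa using congrArg Polynomial.natDegree hp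
  · rintro ⟨m, hm⟩ τ
    obtain ⟨z, hz⟩ := act_exists (wl w) τ.ne_zero x
    have e := hm.act hz
    rw [e] at hz
    exact (act_iff h τ).2 hz

theorem lim_iff (hy : Lv w m y) : Lim ω x y ↔ (∀ v, w v < m → crd x v = 0) ∧ Tr w m x y := by
  constructor
  · rintro ⟨n, a, ha⟩
    obtain ⟨v0, h0⟩ := crd_ne y
    have e1 : w v0 = m := by_contra fun e => h0 (hy v0 e)
    have e2 : ω v0 = n := by_contra fun e => h0 (by rw [(ha v0).2, if_neg e])
    have e3 := h v0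
    refine ⟨fun v hv => (ha v).1 (by have := h v; omega), a, fun v => ?_⟩
    rw [(ha v).2]
    exact if_congr (by have := h v; omega) rfl rfl
  · rintro ⟨h0, a, ha⟩
    refine ⟨m + c, a, fun v => ⟨fun hv => h0 v (by have := h v; omega), ?_⟩⟩
    rw [ha v]
    exact if_congr (by have := h v; omega) rfl rfl

theorem lim_neg_iff (hy : Lv w m y) :
    Lim (-ω) x y ↔ (∀ v, m < w v → crd x v = 0) ∧ Tr w m x y := by
  constructor
  · rintro ⟨n, a, ha⟩
    simp only [Pi.neg_apply] at ha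
    obtain ⟨v0, h0⟩ := crd_ne y
    have e1 : w v0 = m := by_contra fun e => h0 (hy v0 e)
    have e2 : -ω v0 = n := by_contra fun e => h0 (by rw [(ha v0).2, if_neg e])
    have e3 := h v0
    refine ⟨fun v hv => (ha v).1 (by have := h v; omega), a, fun v => ?_⟩
    rw [(ha v).2]
    exact if_congr (by have := h v; omega) rfl rfl
  · rintro ⟨h0, a, ha⟩
    refine ⟨-(m + c), a, fun v => ?_⟩
    simp only [Pi.neg_apply]
    refine ⟨fun hv => h0 v (by have := h v; omega), ?_⟩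
    rw [ha v]
    exact if_congr (by have := h v; omega) rfl rfl

variable [IsAlgClosed k] [DecidableEq σ] {X : Var k (Amb.one σ)}

omit [IsAlgClosed k] in
theorem cell_m_eq (Φ : Cmp w X) : Cell ω X.pts Φ.F.pts =
    (Φ.Z Φ.Sm : Set ((Amb.one σ).Pt k)) ∩ {x | ∃ v, w v = Φ.lev ∧ crd x v ≠ 0} := by
  have := Fintype.ofFinite σ
  ext x
  constructor
  · rintro ⟨hx, y, hy, hl⟩
    obtain ⟨h0, ht⟩ := (lim_iff h (Φ.fix y hy)).1 hl
    exact ⟨Φ.cell_m x hx h0 y hy ht, ht.ne⟩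
  · rintro ⟨hx, hv⟩
    obtain ⟨y, ht⟩ := exists_tr hv
    exact ⟨Φ.Z_sub Finset.subset_union_right hx, y, Φ.Zm_lim x hx y ht,
      (lim_iff h ht.lv).2 ⟨Φ.Zm_le x hx, ht⟩⟩

omit [IsAlgClosed k] in
theorem cell_p_eq (Φ : Cmp w X) : Cell (-ω) X.pts Φ.F.pts =
    (Φ.Z Φ.Sp : Set ((Amb.one σ).Pt k)) ∩ {x | ∃ v, w v = Φ.lev ∧ crd x v ≠ 0} := by
  have := Fintype.ofFinite σ
  ext x
  constructor
  · rintro ⟨hx, y, hy, hl⟩
    obtain ⟨h0, ht⟩ := (lim_neg_iff h (Φ.fix y hy)).1 hl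
    exact ⟨Φ.cell_p x hx h0 y hy ht, ht.ne⟩
  · rintro ⟨hx, hv⟩
    obtain ⟨y, ht⟩ := exists_tr hv
    exact ⟨Φ.Z_sub Finset.subset_union_left hx, y, Φ.Zp_lim x hx y ht,
      (lim_neg_iff h ht.lv).2 ⟨Φ.Zp_le x hx, ht⟩⟩

theorem cell_m_dim (Φ : Cmp w X) :
    topologicalKrullDim (Cell ω X.pts Φ.F.pts) = (Φ.F.dim + Φ.Sp.card : ℕ) := by
  have := Fintype.ofFinite σ
  rw [cell_m_eq h, krull_open (G11_open _ _)
    ⟨Φ.f0, (Φ.Z_top _ Finset.subset_union_right).1, (Φ.fix _ Φ.f0_mem).tr.ne⟩]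
  have h1 := Φ.Z_dim _ Finset.subset_union_right
  have h2 := Φ.dim_eq
  congr 1
  omega

theorem cell_p_dim (Φ : Cmp w X) :
    topologicalKrullDim (Cell (-ω) X.pts Φ.F.pts) = (Φ.F.dim + Φ.Sm.card : ℕ) := by
  have := Fintype.ofFinite σ
  rw [cell_p_eq h, krull_open (G11_open _ _)
    ⟨Φ.f0, (Φ.Z_top _ Finset.subset_union_left).1, (Φ.fix _ Φ.f0_mem).tr.ne⟩]
  have h1 := Φ.Z_dim _ Finset.subset_union_left
  have h2 := Φ.dim_eq
  congr 1
  omega

theorem comp_iff {ι : Type} [Finite ι] (Φ : ι → Cmp w X)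
    (cover : ∀ x ∈ X.pts, ∀ m, Lv w m x → ∃ a, x ∈ (Φ a).F.pts)
    (disj : ∀ a b x, x ∈ (Φ a).F.pts → x ∈ (Φ b).F.pts → a = b) (F : Var k (Amb.one σ)) :
    Comp (Fix ω X.pts) F.pts ↔ ∃ a, (Φ a).F = F := by
  have := Fintype.ofFinite ι
  have hsub : ∀ a, (Φ a).F.pts ⊆ Fix ω X.pts := fun a x hx =>
    (fix_iff h).2 ⟨(Φ a).sub hx, _, (Φ a).fix x hx⟩
  have key : ∀ T : Set ((Amb.one σ).Pt k), IsIrreducible T → T ⊆ Fix ω X.pts →
      ∃ a, T ⊆ (Φ a).F.pts := by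
    intro T hT hs
    have h1 : closure T ⊆ ⋃ a, (Φ a).F.pts := by
      refine closure_minimal (fun x hx => ?_) (isClosed_iUnion_of_finite fun a => (Φ a).F.closed)
      obtain ⟨hx1, n, hn⟩ := (fix_iff h).1 (hs hx)
      exact Set.mem_iUnion.2 (cover x hx1 n hn)
    obtain ⟨a, -, ha⟩ := sub_finite_union (U := ⟨closure T, hT.closure, isClosed_closure⟩)
      Finset.univ (fun a => (Φ a).F.pts) (fun a _ => (Φ a).F.closed) (fun x hx => by
        obtain ⟨a, ha⟩ := Set.mem_iUnion.1 (h1 hx)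
        exact ⟨a, Finset.mem_univ _, ha⟩)
    exact ⟨a, subset_closure.trans ha⟩
  constructor
  · rintro ⟨⟨hi, hs⟩, hmax⟩
    obtain ⟨a, ha⟩ := key _ hi hs
    exact ⟨a, var_ext (Φ a).irr (Set.Subset.antisymm (hmax ⟨(Φ a).irr, hsub a⟩ ha) ha)⟩
  · rintro ⟨a, rfl⟩
    refine ⟨⟨(Φ a).irr, hsub a⟩, fun T hT hle => ?_⟩
    obtain ⟨b, hb⟩ := key T hT.1 hT.2
    obtain rfl := disj a b _ (Φ a).f0_mem (hb (hle (Φ a).f0_mem))
    exact hb

end Pool.Agent.Work.MP_ffcd14_ag.Gm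
end

-- merged part: Pool.Agent.Work.MP_ffcd14_ag.Gm.Fin
section
/-! # The standard conjecture of Hodge type and the fixed points of a torus action -/

open MvPolynomial Topology TopologicalSpace Filter

namespace Pool.Agent.Work.MP_ffcd14_ag.Gm

universe u v w

theorem torus_main {k : Type u} {K : Type v} [Field k] [IsAlgClosed k] [Field K] [CharZero K]
    (C : WeilL.{u, v, w} k K) (hC : C.Chow) {σ : Type} [Finite σ] (ω : σ → ℤ)
    (X : Var k (Amb.one σ)) (hX : IsIrreducible X.pts) (hs : Stable ω X.pts)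
    (l : C.H X) (hl : C.Ample X l) (L : ∀ F : Var k (Amb.one σ), C.H F)
    (hL : ∀ F, Comp (Fix ω X.pts) F.pts → C.Ample F (L F))
    (hA : LefA X.dim (C.A X) l ∨ ∀ F, Comp (Fix ω X.pts) F.pts → LefA F.dim (C.A F) (L F))
    (n : ℕ) (hn : 2 * n ≤ X.dim) :
    (∀ i ≤ n, Hdg (C.tr X) X.dim (C.A X) l i) ↔
      ∀ F, Comp (Fix ω X.pts) F.pts → ∀ j : ℕ, 2 ≤ j → 2 * j ≤ F.dim →
        (j + n : WithBot ℕ∞) ≤ topologicalKrullDim (Cell ω X.pts F.pts) →
        (j + X.dim : WithBot ℕ∞) ≤ topologicalKrullDim (Cell (-ω) X.pts F.pts) + n →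
        Hdg (C.tr F) F.dim (C.A F) (L F) j := by
  classical
  let _ := Fintype.ofFinite σ
  obtain ⟨w, c, h⟩ := exists_shift ω
  have st := gst_of_stable h hs
  obtain ⟨ι, _, Φ, cover, disj⟩ := exists_family st
  let G : Geo k := { σ := σ, w := w, X := X, irr := hX, st := st, ι := ι, Φ := Φ, cover := cover,
                     disj := disj }
  have hc := comp_iff h Φ cover disj
  refine (G.main C hC l hl (fun a => L (Φ a).F) (fun a => hL _ ((hc _).2 ⟨a, rfl⟩))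
    (hA.imp_right fun H a => H _ ((hc _).2 ⟨a, rfl⟩)) n hn).trans ⟨?_, ?_⟩
  · intro H F hF j hj _ h1 h2
    obtain ⟨a, rfl⟩ := (hc F).1 hF
    rw [cell_m_dim h] at h1
    rw [cell_p_dim h] at h2
    have := (Φ a).dim_eq
    refine H a j hj ?_ (by exact_mod_cast h1)
    have h3 : j + X.dim ≤ (Φ a).F.dim + (Φ a).Sm.card + n := by exact_mod_cast h2
    change j + (Φ a).Sp.card ≤ n
    omega
  · intro H a j hj h1 h2
    refine H _ ((hc _).2 ⟨a, rfl⟩) j hj ?_ ?_ ?_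
    · change j + (Φ a).Sp.card ≤ n at h1
      change j + n ≤ (Φ a).F.dim + (Φ a).Sp.card at h2
      omega
    · rw [cell_m_dim h]
      exact_mod_cast h2
    · rw [cell_p_dim h]
      have := (Φ a).dim_eq
      have h3 : j + X.dim ≤ (Φ a).F.dim + (Φ a).Sm.card + n := by
        change j + (Φ a).Sp.card ≤ n at h1
        omega
      exact_mod_cast h3

end Pool.Agent.Work.MP_ffcd14_ag.Gm
end
end
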